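import Pool.Agent.Helper94.Griff.Defs

/-!
Algebra of `volCoeff`.
-/

open MvPolynomial Finset

namespace Pool.Agent.Helper94.Griff

set_option linter.unusedSectionVars false

section Polar

/-- Polarization identity. -/
lemma polarization {R : Type*} [CommRing R] {d : ℕ} (x : Fin d → R) :
    ((d.factorial : ℕ) : R) * ∏ i, x i =
      ∑ S : Finset (Fin d), (-1) ^ (Sᶜ.card) * (∑ i ∈ S, x i) ^ d := by
  classical
  have h1 : ∀ S : Finset (Fin d), (∑ i ∈ S, x i) ^ d =
      ∑ g : Fin d → Fin d, if (∀ j, g j ∈ S) then ∏ j, x (g j) else 0 := by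
    intro S
    have : (∑ i ∈ S, x i) ^ d = ∏ _j : Fin d, ∑ i ∈ S, x i := by
      rw [Finset.prod_const, Finset.card_univ, Fintype.card_fin]
    rw [this, Finset.prod_univ_sum]
    rw [← Finset.sum_filter]
    refine Finset.sum_congr ?_ fun _ _ => rfl
    ext g
    simp [Fintype.mem_piFinset]
  simp only [h1, Finset.mul_sum]
  rw [Finset.sum_comm]
  have h2 : ∀ g : Fin d → Fin d,
      ∑ S : Finset (Fin d), (-1) ^ (Sᶜ.card) * (if (∀ j, g j ∈ S) then ∏ j, x (g j) else 0) =
      if Function.Bijective g then ∏ j, x j else 0 := by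
    intro g
    have h3 : ∑ S : Finset (Fin d), (-1 : R) ^ (Sᶜ.card) *
        (if (∀ j, g j ∈ S) then ∏ j, x (g j) else 0) =
        (∑ S ∈ (univ.image g)ᶜ.powerset, (-1 : R) ^ S.card) * ∏ j, x (g j) := by
      rw [Finset.sum_mul]
      rw [← Finset.sum_filter_add_sum_filter_not univ (fun S : Finset (Fin d) => ∀ j, g j ∈ S)]
      have h4 : ∑ S ∈ univ.filter (fun S : Finset (Fin d) => ¬ ∀ j, g j ∈ S),
          (-1 : R) ^ (Sᶜ.card) * (if (∀ j, g j ∈ S) then ∏ j, x (g j) else 0) = 0 := by
        refine Finset.sum_eq_zero fun S hS => ?_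
        rw [if_neg (Finset.mem_filter.1 hS).2, mul_zero]
      rw [h4, add_zero]
      refine Finset.sum_bij' (fun S _ => Sᶜ) (fun S _ => Sᶜ) ?_ ?_ ?_ ?_ ?_
      · intro S hS
        rw [Finset.mem_filter] at hS
        rw [Finset.mem_powerset, Finset.compl_subset_compl]
        intro y hy
        obtain ⟨j, _, rfl⟩ := Finset.mem_image.1 hy
        exact hS.2 j
      · intro S hS
        rw [Finset.mem_powerset] at hS
        rw [Finset.mem_filter]
        refine ⟨mem_univ _, fun j => ?_⟩
        rw [Finset.mem_compl]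
        intro hj
        have := hS hj
        rw [Finset.mem_compl] at this
        exact this (Finset.mem_image_of_mem g (mem_univ j))
      · intro S _; exact compl_compl S
      · intro S _; exact compl_compl S
      · intro S hS
        rw [if_pos (Finset.mem_filter.1 hS).2]
    rw [h3]
    have h5 : (∑ S ∈ (univ.image g)ᶜ.powerset, (-1 : R) ^ S.card) =
        if (univ.image g)ᶜ = ∅ then 1 else 0 := by
      have := Finset.sum_powerset_neg_one_pow_card (x := (univ.image g)ᶜ)
      have h6 := congrArg (Int.cast : ℤ → R) this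
      push_cast at h6
      rw [h6]
    rw [h5]
    have h7 : (univ.image g)ᶜ = ∅ ↔ Function.Bijective g := by
      rw [Finset.compl_eq_empty_iff, ← Finite.surjective_iff_bijective]
      constructor
      · intro h y
        have : y ∈ univ.image g := by rw [h]; exact mem_univ y
        obtain ⟨j, _, hj⟩ := Finset.mem_image.1 this
        exact ⟨j, hj⟩
      · intro h
        ext y
        simp only [mem_image, mem_univ, true_and, iff_true]
        exact h y
    by_cases hb : Function.Bijective g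
    · rw [if_pos (h7.2 hb), if_pos hb, one_mul]
      exact (Equiv.ofBijective g hb).prod_comp x
    · rw [if_neg (fun h => hb (h7.1 h)), if_neg hb, zero_mul]
  rw [Finset.sum_congr rfl fun g _ => h2 g, ← Finset.sum_filter, Finset.sum_const, nsmul_eq_mul]
  congr 2
  have h8 : (univ.filter fun g : Fin d → Fin d => Function.Bijective g).card =
      Fintype.card (Equiv.Perm (Fin d)) := by
    rw [← Fintype.card_subtype]
    refine Fintype.card_congr ?_
    exact (Equiv.ofBijective (fun e : Equiv.Perm (Fin d) =>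
      (⟨e, e.bijective⟩ : {g : Fin d → Fin d // Function.Bijective g}))
      ⟨fun e f h => Equiv.ext fun x => by
        have := congrArg Subtype.val h
        exact congrFun this x,
       fun g => ⟨Equiv.ofBijective g.1 g.2, by ext; rfl⟩⟩).symm
  rw [h8, Fintype.card_perm, Fintype.card_fin]

/-- A linear map on polynomials is determined in degree `d` by the `d`-th powers of linear
forms. -/
theorem ext_pow {ι : Type*} [Fintype ι] {V : Type*} [AddCommGroup V] [Module ℂ V]
    (φ : MvPolynomial ι ℂ →ₗ[ℂ] V) (ψ : MvPolynomial ι ℂ →ₗ[ℂ] V) (d : ℕ)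
    (h : ∀ c : ι → ℂ, φ ((∑ i, C (c i) * X i) ^ d) = ψ ((∑ i, C (c i) * X i) ^ d))
    {F : MvPolynomial ι ℂ} (hF : F.IsHomogeneous d) : φ F = ψ F := by
  classical
  have key : ∀ f : Fin d → ι, φ (∏ j, X (f j)) = ψ (∏ j, X (f j)) := by
    intro f
    have hp := polarization (R := MvPolynomial ι ℂ) (fun j => X (f j))
    have hS : ∀ S : Finset (Fin d), φ ((∑ i ∈ S, X (f i)) ^ d) = ψ ((∑ i ∈ S, X (f i)) ^ d) := by
      intro S
      have e : (∑ i ∈ S, X (f i) : MvPolynomial ι ℂ) =
          ∑ i, C (((S.filter fun j => f j = i).card : ℕ) : ℂ) * X i := by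
        rw [← Finset.sum_fiberwise (s := S) (g := f)]
        refine Finset.sum_congr rfl fun i _ => ?_
        rw [Finset.sum_congr rfl (g := fun _ => (X i : MvPolynomial ι ℂ))
          (fun j hj => by rw [(Finset.mem_filter.1 hj).2]), Finset.sum_const, nsmul_eq_mul]
        rw [map_natCast]
      rw [e]; exact h _
    have hφ : (d.factorial : ℂ) • φ (∏ j, X (f j)) = (d.factorial : ℂ) • ψ (∏ j, X (f j)) := by
      rw [← map_smul, ← map_smul]
      have e1 : (d.factorial : ℂ) • (∏ j, X (f j) : MvPolynomial ι ℂ) =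
          ∑ S : Finset (Fin d), ((-1 : ℂ) ^ (Sᶜ.card)) • (∑ i ∈ S, X (f i)) ^ d := by
        have e2 : (d.factorial : ℂ) • (∏ j, X (f j) : MvPolynomial ι ℂ) =
            ((d.factorial : ℕ) : MvPolynomial ι ℂ) * ∏ j, X (f j) := by
          rw [MvPolynomial.smul_eq_C_mul, map_natCast]
        rw [e2, hp]
        refine Finset.sum_congr rfl fun S _ => ?_
        rw [MvPolynomial.smul_eq_C_mul, map_pow, map_neg, map_one]
      rw [e1, map_sum, map_sum]
      refine Finset.sum_congr rfl fun S _ => ?_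
      rw [map_smul, map_smul, hS S]
    have hne : (d.factorial : ℂ) ≠ 0 := by exact_mod_cast d.factorial_ne_zero
    exact smul_right_injective V hne hφ
  -- monomials
  have mono : ∀ (m : ι →₀ ℕ), m.degree = d → ∀ c : ℂ, φ (monomial m c) = ψ (monomial m c) := by
    intro m hm c
    have h1 : monomial m c = c • (monomial m 1 : MvPolynomial ι ℂ) := by
      rw [MvPolynomial.smul_monomial, smul_eq_mul, mul_one]
    rw [h1, map_smul, map_smul]
    congr 1
    -- list of variables
    set L : List ι := (Finsupp.toMultiset m).toList with hL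
    have hlen : L.length = d := by
      rw [hL, Multiset.length_toList, Finsupp.card_toMultiset, ← hm]
      rfl
    have hprod0 : ∀ m : ι →₀ ℕ, (monomial m 1 : MvPolynomial ι ℂ) =
        ((Finsupp.toMultiset m).map X).prod := by
      intro m
      induction m using Finsupp.induction_linear with
      | zero => simp
      | add f g hf hg =>
        rw [Finsupp.toMultiset_add, Multiset.map_add, Multiset.prod_add, ← hf, ← hg,
          MvPolynomial.monomial_mul, mul_one]
      | single i n =>
        rw [Finsupp.toMultiset_single, Multiset.map_nsmul, Multiset.map_singleton,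
          Multiset.prod_nsmul, Multiset.prod_singleton, MvPolynomial.X_pow_eq_monomial]
    have hprod : (monomial m 1 : MvPolynomial ι ℂ) = (L.map X).prod := by
      rw [hL, Multiset.prod_map_toList, hprod0]
    rw [hprod]
    have h2 : ((L.map X).prod : MvPolynomial ι ℂ) = ∏ j : Fin d, X (L.get (j.cast hlen.symm)) := by
      subst hlen
      simp
    rw [h2]
    exact key _
  rw [F.as_sum, map_sum, map_sum]
  refine Finset.sum_congr rfl fun m hm => ?_
  refine mono m ?_ _
  have := hF (MvPolynomial.mem_support_iff.1 hm)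
  rw [← this, Finsupp.degree_eq_weight_one]
  rfl

end Polar

variable {κ : Type*} [Fintype κ] [DecidableEq κ]

/-- `volCoeff` as a linear map. -/
noncomputable def vol : Forms κ →ₗ[ℂ] ℂ where
  toFun := volCoeff
  map_add' F G := by
    simp only [volCoeff, coeff_add, mul_add, Finset.sum_add_distrib]
  map_smul' c F := by
    simp only [volCoeff, coeff_smul, smul_eq_mul, RingHom.id_apply, Finset.mul_sum]
    exact Finset.sum_congr rfl fun σ _ => by ring

lemma vol_apply (F : Forms κ) : vol F = volCoeff F := rfl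

/-- The `(1,1)`-form with matrix `M`. -/
noncomputable def lin (M : Matrix κ κ ℂ) : Forms κ := ∑ x : κ × κ, C (M x.1 x.2) * X x

lemma sum_single_eq_iff (σ : Equiv.Perm κ) (g : κ → κ × κ) :
    (∑ i, Finsupp.single (g i) 1 = (∑ p, Finsupp.single (p, σ p) 1 : κ × κ →₀ ℕ)) ↔
      ∃ τ : Equiv.Perm κ, g = fun i => (τ i, σ (τ i)) := by
  constructor
  · intro h
    have h1 : ∀ p, ∃ i, g i = (p, σ p) := by
      intro p
      have h2 := DFunLike.congr_fun h (p, σ p)
      rw [Finsupp.finsetSum_apply, Finsupp.finsetSum_apply] at h2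
      have h3 : ∑ q, (Finsupp.single (q, σ q) 1 : κ × κ →₀ ℕ) (p, σ p) = 1 := by
        rw [Finset.sum_eq_single p]
        · simp
        · intro q _ hq
          rw [Finsupp.single_apply, if_neg]
          intro h; exact hq (congrArg Prod.fst h)
        · intro h; exact absurd (mem_univ p) h
      rw [h3] at h2
      by_contra hcon
      push Not at hcon
      have : ∑ i, (Finsupp.single (g i) 1 : κ × κ →₀ ℕ) (p, σ p) = 0 := by
        refine Finset.sum_eq_zero fun i _ => ?_
        rw [Finsupp.single_apply, if_neg (hcon i)]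
      omega
    have hs : Function.Surjective fun i => (g i).1 := fun p => by
      obtain ⟨i, hi⟩ := h1 p
      exact ⟨i, by simp [hi]⟩
    have hb : Function.Bijective fun i => (g i).1 := Finite.surjective_iff_bijective.1 hs
    refine ⟨Equiv.ofBijective _ hb, ?_⟩
    funext i
    obtain ⟨i', hi'⟩ := h1 ((g i).1)
    have : i' = i := hb.1 (by simp [hi'])
    subst this
    rw [Equiv.ofBijective_apply]
    exact hi'
  · rintro ⟨τ, rfl⟩
    exact Equiv.sum_comp τ fun p => (Finsupp.single (p, σ p) 1 : κ × κ →₀ ℕ)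

/-- `vol` of a product of linear forms is the mixed discriminant. -/
lemma vol_prod (M : κ → Matrix κ κ ℂ) : vol (∏ i, lin (M i)) =
    ∑ τ : Equiv.Perm κ, ∑ ρ : Equiv.Perm κ, ((Equiv.Perm.sign τ : ℤ) : ℂ) *
      ((Equiv.Perm.sign ρ : ℤ) : ℂ) * ∏ i, M i (τ i) (ρ i) := by
  have h1 : ∏ i, lin (M i) = ∑ g : κ → κ × κ,
      monomial (∑ i, Finsupp.single (g i) 1) (∏ i, M i (g i).1 (g i).2) := by
    unfold lin
    rw [Finset.prod_univ_sum, Fintype.piFinset_univ]
    refine Finset.sum_congr rfl fun g _ => ?_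
    have : ∀ i, (C (M i (g i).1 (g i).2) * X (g i) : Forms κ) =
        monomial (Finsupp.single (g i) 1) (M i (g i).1 (g i).2) := by
      intro i
      rw [C_mul_X_eq_monomial]
    simp only [this]
    rw [MvPolynomial.monomial_sum_prod]
  rw [h1, map_sum]
  have h2 : ∀ g : κ → κ × κ, vol (monomial (∑ i, Finsupp.single (g i) 1)
      (∏ i, M i (g i).1 (g i).2) : Forms κ) = ∑ σ : Equiv.Perm κ, ((Equiv.Perm.sign σ : ℤ) : ℂ) *
        (if ∃ τ : Equiv.Perm κ, g = fun i => (τ i, σ (τ i)) then ∏ i, M i (g i).1 (g i).2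
          else 0) := by
    intro g
    rw [vol_apply, volCoeff]
    refine Finset.sum_congr rfl fun σ _ => ?_
    rw [coeff_monomial]
    congr 1
    simp only [sum_single_eq_iff]
  simp only [h2]
  rw [Finset.sum_comm]
  have h3 : ∀ σ : Equiv.Perm κ, ∑ g : κ → κ × κ, ((Equiv.Perm.sign σ : ℤ) : ℂ) *
        (if ∃ τ : Equiv.Perm κ, g = fun i => (τ i, σ (τ i)) then ∏ i, M i (g i).1 (g i).2
          else 0) =
      ∑ τ : Equiv.Perm κ, ((Equiv.Perm.sign σ : ℤ) : ℂ) * ∏ i, M i (τ i) (σ (τ i)) := by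
    intro σ
    rw [← Finset.mul_sum, ← Finset.mul_sum, ← Finset.sum_filter]
    congr 1
    have himg : (univ.filter fun g : κ → κ × κ => ∃ τ : Equiv.Perm κ, g = fun i => (τ i, σ (τ i)))
        = univ.image fun τ : Equiv.Perm κ => fun i => (τ i, σ (τ i)) := by
      ext g
      simp only [mem_filter, mem_univ, true_and, mem_image]
      exact ⟨fun ⟨τ, h⟩ => ⟨τ, h.symm⟩, fun ⟨τ, h⟩ => ⟨τ, h.symm⟩⟩
    rw [himg, Finset.sum_image]
    intro τ _ τ' _ h
    ext i
    have := congrFun h i
    exact congrArg Prod.fst this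
  simp only [h3]
  rw [Finset.sum_comm]
  refine Finset.sum_congr rfl fun τ _ => ?_
  rw [← Equiv.sum_comp (Equiv.mulRight τ⁻¹)]
  refine Finset.sum_congr rfl fun ρ _ => ?_
  have hs : ((Equiv.Perm.sign ((Equiv.mulRight τ⁻¹) ρ) : ℤ) : ℂ) =
      ((Equiv.Perm.sign τ : ℤ) : ℂ) * ((Equiv.Perm.sign ρ : ℤ) : ℂ) := by
    rw [Equiv.coe_mulRight, Equiv.Perm.sign_mul, Equiv.Perm.sign_inv]
    push_cast
    ring
  rw [hs]
  congr 1
  refine Finset.prod_congr rfl fun i _ => ?_
  simp

lemma vol_lin_pow (M : Matrix κ κ ℂ) :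
    vol (lin M ^ Fintype.card κ) = ((Fintype.card κ).factorial : ℂ) * M.det := by
  have h := vol_prod (fun _ : κ => M)
  rw [Finset.prod_const, Finset.card_univ] at h
  rw [h]
  have h2 : ∀ τ : Equiv.Perm κ, ∑ ρ : Equiv.Perm κ, ((Equiv.Perm.sign τ : ℤ) : ℂ) *
      ((Equiv.Perm.sign ρ : ℤ) : ℂ) * ∏ i, M (τ i) (ρ i) = M.det := by
    intro τ
    have h3 : ∑ ρ : Equiv.Perm κ, ((Equiv.Perm.sign τ : ℤ) : ℂ) *
      ((Equiv.Perm.sign ρ : ℤ) : ℂ) * ∏ i, M (τ i) (ρ i) =
      ((Equiv.Perm.sign τ : ℤ) : ℂ) * (M.submatrix τ id).transpose.det := by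
      rw [Matrix.det_apply', Finset.mul_sum]
      refine Finset.sum_congr rfl fun ρ _ => ?_
      rw [mul_assoc]
      rfl
    rw [h3, Matrix.det_transpose, Matrix.det_permute]
    rw [← mul_assoc]
    have : ((Equiv.Perm.sign τ : ℤ) : ℂ) * ((Equiv.Perm.sign τ : ℤ) : ℂ) = 1 := by
      have := Int.units_mul_self (Equiv.Perm.sign τ)
      have h4 : ((Equiv.Perm.sign τ : ℤ)) * ((Equiv.Perm.sign τ : ℤ)) = 1 := by
        rw [← Units.val_mul, this]; rfl
      exact_mod_cast h4
    rw [this, one_mul]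
  simp only [h2]
  rw [Finset.sum_const, Finset.card_univ, Fintype.card_perm, nsmul_eq_mul]

lemma lin_add (M N : Matrix κ κ ℂ) : lin (M + N) = lin M + lin N := by
  simp only [lin, Matrix.add_apply, map_add, add_mul, Finset.sum_add_distrib]

lemma lin_smul (c : ℂ) (M : Matrix κ κ ℂ) : lin (c • M) = C c * lin M := by
  simp only [lin, Matrix.smul_apply, smul_eq_mul, map_mul, Finset.mul_sum, mul_assoc]

lemma lin_zero : lin (0 : Matrix κ κ ℂ) = 0 := by
  simp [lin]

lemma lin_sum {α : Type*} (s : Finset α) (f : α → Matrix κ κ ℂ) :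
    lin (∑ i ∈ s, f i) = ∑ i ∈ s, lin (f i) := by
  classical
  induction s using Finset.induction_on with
  | empty => simp [lin_zero]
  | insert i s hi ih => rw [Finset.sum_insert hi, Finset.sum_insert hi, lin_add, ih]

lemma lin_isHomogeneous (M : Matrix κ κ ℂ) : (lin M).IsHomogeneous 1 := by
  refine MvPolynomial.IsHomogeneous.sum _ _ _ fun x _ => ?_
  have := (MvPolynomial.isHomogeneous_C (κ × κ) (M x.1 x.2)).mul
    (MvPolynomial.isHomogeneous_X ℂ x)
  simpa using this

/-- Agreement on powers of linear forms. -/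
lemma ext_lin {V : Type*} [AddCommGroup V] [Module ℂ V] (φ ψ : Forms κ →ₗ[ℂ] V) (d : ℕ)
    (h : ∀ M : Matrix κ κ ℂ, φ (lin M ^ d) = ψ (lin M ^ d)) {F : Forms κ}
    (hF : F.IsHomogeneous d) : φ F = ψ F := by
  refine ext_pow φ ψ d (fun c => ?_) hF
  have := h (Matrix.of fun p q => c (p, q))
  simpa [lin] using this

/-- The linear change of variables `y ↦ h y h*`. -/
noncomputable def chg (h : Matrix κ κ ℂ) : Forms κ →ₐ[ℂ] Forms κ :=
  aeval fun x : κ × κ => lin (h * Matrix.single x.1 x.2 1 * h.conjTranspose)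

lemma chg_lin (h M : Matrix κ κ ℂ) : chg h (lin M) = lin (h * M * h.conjTranspose) := by
  have h1 : chg h (lin M) = ∑ x : κ × κ,
      C (M x.1 x.2) * lin (h * Matrix.single x.1 x.2 1 * h.conjTranspose) := by
    unfold lin
    rw [map_sum]
    refine Finset.sum_congr rfl fun x _ => ?_
    rw [map_mul, chg, aeval_X]
    congr 1
    exact (aeval fun x : κ × κ => lin (h * Matrix.single x.1 x.2 1 * h.conjTranspose)).commutes _
  rw [h1]
  have h2 : ∀ x : κ × κ, C (M x.1 x.2) * lin (h * Matrix.single x.1 x.2 1 * h.conjTranspose) =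
      lin (h * (M x.1 x.2 • Matrix.single x.1 x.2 1) * h.conjTranspose) := by
    intro x
    rw [← lin_smul, Matrix.mul_smul, Matrix.smul_mul]
  simp only [h2]
  rw [← lin_sum, ← Finset.sum_mul, ← Finset.mul_sum]
  congr 3
  rw [Fintype.sum_prod_type]
  conv_rhs => rw [Matrix.matrix_eq_sum_single M]
  refine Finset.sum_congr rfl fun i _ => Finset.sum_congr rfl fun j _ => ?_
  rw [Matrix.smul_single, smul_eq_mul, mul_one]

/-- `vol` scales by `|det h|²`. -/
lemma vol_chg (h : Matrix κ κ ℂ) {F : Forms κ} (hF : F.IsHomogeneous (Fintype.card κ)) :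
    vol (chg h F) = h.det * star h.det * vol F := by
  have := ext_lin ((vol (κ := κ)).comp (chg h).toLinearMap) ((h.det * star h.det) • vol)
    (Fintype.card κ) (fun M => ?_) hF
  · simpa using this
  · simp only [LinearMap.comp_apply, AlgHom.toLinearMap_apply, map_pow, chg_lin,
      LinearMap.smul_apply, vol_lin_pow, Matrix.det_mul, Matrix.det_conjTranspose, smul_eq_mul]
    ring

lemma det_one_add_eval (M : Matrix κ κ ℂ) (u : ℂ) :
    (Matrix.det (1 + (Polynomial.X : Polynomial ℂ) • M.map Polynomial.C)).eval u =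
      (1 + u • M).det := by
  have := (Polynomial.evalRingHom u).map_det (1 + (Polynomial.X : Polynomial ℂ) •
    M.map Polynomial.C)
  rw [Polynomial.coe_evalRingHom] at this
  rw [this]
  congr 1
  ext i j
  by_cases h : i = j
  · subst h; simp; exact mul_comm _ _
  · simp [Matrix.one_apply_ne h]; exact mul_comm _ _

/-- Mixed powers with the Kähler form. -/
lemma vol_lin_mul_one (M : Matrix κ κ ℂ) (d b : ℕ) (hd : d + b = Fintype.card κ) :
    vol (lin M ^ d * lin 1 ^ b) = (d.factorial : ℂ) * b.factorial *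
      ∑ J ∈ univ.powersetCard d, (M.submatrix (Subtype.val : J → κ) Subtype.val).det := by
  have hb : b = Fintype.card κ - d := by omega
  set k := Fintype.card κ with hk
  have hpoly : (∑ j ∈ Finset.range (k + 1),
      Polynomial.C ((k.choose j : ℂ) * vol (lin M ^ j * lin 1 ^ (k - j))) * Polynomial.X ^ j) =
      Polynomial.C (k.factorial : ℂ) *
        Matrix.det (1 + (Polynomial.X : Polynomial ℂ) • M.map Polynomial.C) := by
    apply Polynomial.funext
    intro u
    rw [Polynomial.eval_mul, Polynomial.eval_C, det_one_add_eval, hk, ← vol_lin_pow, ← hk,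
      add_comm (1 : Matrix κ κ ℂ), lin_add, lin_smul, add_pow, map_sum, Polynomial.eval_finsetSum]
    refine Finset.sum_congr rfl fun j _ => ?_
    rw [Polynomial.eval_mul, Polynomial.eval_C, Polynomial.eval_pow, Polynomial.eval_X]
    have e : ((C u * lin M) ^ j * lin 1 ^ (k - j) * (k.choose j : Forms κ)) =
        (u ^ j * (k.choose j : ℂ)) • (lin M ^ j * lin 1 ^ (k - j)) := by
      rw [MvPolynomial.smul_eq_C_mul, mul_pow, map_mul, map_pow, map_natCast]
      ring
    rw [e, map_smul, smul_eq_mul]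
    ring
  have hc := congrArg (fun P => Polynomial.coeff P d) hpoly
  simp only [Polynomial.finsetSum_coeff, Polynomial.coeff_C_mul, Polynomial.coeff_X_pow,
    mul_ite, mul_one, mul_zero] at hc
  rw [Finset.sum_ite_eq (Finset.range (k + 1)) d, if_pos (Finset.mem_range.2 (by omega)),
    Matrix.coeff_det_one_add_X_smul_eq_sum_minors] at hc
  rw [hb]
  have hch : (k.choose d : ℂ) * (d.factorial * (k - d).factorial) = k.factorial := by
    have := Nat.choose_mul_factorial_mul_factorial (n := k) (k := d) (by omega)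
    rw [← mul_assoc]
    exact_mod_cast this
  have hne : (k.choose d : ℂ) ≠ 0 := by
    have : 0 < k.choose d := Nat.choose_pos (by omega)
    exact_mod_cast this.ne'
  apply mul_left_cancel₀ hne
  rw [hc, ← hch]
  ring

/-- Restriction of forms to a coordinate subspace. -/
noncomputable def restr (J : Finset κ) : Forms κ →ₐ[ℂ] Forms J :=
  aeval fun x : κ × κ => if h : x.1 ∈ J ∧ x.2 ∈ J then X (⟨x.1, h.1⟩, ⟨x.2, h.2⟩) else 0

lemma restr_lin (J : Finset κ) (M : Matrix κ κ ℂ) :
    restr J (lin M) = lin (M.submatrix (Subtype.val : J → κ) Subtype.val) := by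
  unfold lin
  rw [map_sum]
  have h1 : ∀ x : κ × κ, restr J (C (M x.1 x.2) * X x) =
      C (M x.1 x.2) * if h : x.1 ∈ J ∧ x.2 ∈ J then X (⟨x.1, h.1⟩, ⟨x.2, h.2⟩) else 0 := by
    intro x
    rw [map_mul, restr, aeval_X]
    congr 1
    exact (aeval fun x : κ × κ => if h : x.1 ∈ J ∧ x.2 ∈ J then
      (X (⟨x.1, h.1⟩, ⟨x.2, h.2⟩) : Forms J) else 0).commutes _
  let G : κ × κ → Forms J := fun x => C (M x.1 x.2) *
    if h : x.1 ∈ J ∧ x.2 ∈ J then X (⟨x.1, h.1⟩, ⟨x.2, h.2⟩) else 0
  let e : J × J ↪ κ × κ := ⟨fun y => (y.1.1, y.2.1), fun a b h =>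
    Prod.ext (Subtype.ext (congrArg Prod.fst h)) (Subtype.ext (congrArg Prod.snd h))⟩
  have h2 : ∀ y : J × J, (C (M.submatrix (Subtype.val : J → κ) Subtype.val y.1 y.2) * X y :
      Forms J) = G (e y) := by
    intro y
    have hG : ∀ (p q : κ) (hp : p ∈ J) (hq : q ∈ J), G (p, q) =
        C (M p q) * X (⟨p, hp⟩, ⟨q, hq⟩) := by
      intro p q hp hq
      simp only [G]
      rw [dif_pos ⟨hp, hq⟩]
    exact (hG y.1 y.2 y.1.2 y.2.2).symm
  rw [Finset.sum_congr rfl fun x _ => h1 x, Finset.sum_congr rfl fun y _ => h2 y,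
    ← Finset.sum_map univ e G]
  symm
  refine Finset.sum_subset (Finset.subset_univ _) ?_
  intro x _ hx
  change C (M x.1 x.2) * (dite _ _ _) = 0
  rw [dif_neg, mul_zero]
  rintro ⟨h3, h4⟩
  apply hx
  rw [Finset.mem_map]
  exact ⟨(⟨x.1, h3⟩, ⟨x.2, h4⟩), mem_univ _, rfl⟩

lemma vol_mul_one_pow {F : Forms κ} {d b : ℕ} (hF : F.IsHomogeneous d)
    (hd : d + b = Fintype.card κ) :
    vol (F * lin 1 ^ b) = (b.factorial : ℂ) * ∑ J ∈ univ.powersetCard d, vol (restr J F) := by
  have := ext_lin ((vol (κ := κ)).comp (LinearMap.mulRight ℂ (lin 1 ^ b)))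
    ((b.factorial : ℂ) • ∑ J ∈ univ.powersetCard d, (vol (κ := J)).comp (restr J).toLinearMap)
    d (fun M => ?_) hF
  · simpa using this
  · rw [LinearMap.comp_apply, LinearMap.mulRight_apply, vol_lin_mul_one M d b hd,
      LinearMap.smul_apply, LinearMap.sum_apply, smul_eq_mul, mul_comm (d.factorial : ℂ), mul_assoc,
      Finset.mul_sum]
    congr 1
    refine Finset.sum_congr rfl fun J hJ => ?_
    rw [Finset.mem_powersetCard] at hJ
    have hc : Fintype.card J = d := by rw [Fintype.card_coe]; exact hJ.2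
    rw [LinearMap.comp_apply, AlgHom.toLinearMap_apply, map_pow, restr_lin]
    have := vol_lin_pow (M.submatrix (Subtype.val : J → κ) Subtype.val)
    rw [hc] at this
    rw [this]

end Pool.Agent.Helper94.Griff
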