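import Mathlib

/-!
The mean over the unit sphere of `ℂ²` of a function of the form
`v ↦ ℓ (G (Z_v²))`, where `Z_v` is the traceless part of a quadratic form.
-/

open Finset Polynomial
open scoped Nat

namespace Pool.Agent.Helper94.Griff

/-- a beta integral -/
lemma betaI (i : ℕ) : ∀ p : ℕ, ∫ τ in (-(1 / 2) : ℝ)..(1 / 2), τ ^ (2 * p) * (1 / 4 - τ ^ 2) ^ i =
    ((p + i)! * (2 * p)! * i ! : ℝ) / (4 ^ p * p ! * (2 * (p + i) + 1)!) := by
  induction i with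
  | zero =>
    intro p
    simp only [pow_zero, mul_one, integral_pow, add_zero, Nat.factorial_zero, Nat.cast_one]
    have h1 : (-(1 / 2 : ℝ)) ^ (2 * p + 1) = - (1 / 2) ^ (2 * p + 1) := by
      rw [Odd.neg_pow ⟨p, rfl⟩]
    rw [h1, Nat.factorial_succ (2 * p)]
    have h2 : ((1 / 2 : ℝ)) ^ (2 * p + 1) = 1 / 2 * (1 / 4 ^ p) := by
      rw [pow_succ, pow_mul, show ((1 / 2 : ℝ)) ^ 2 = 1 / 4 by norm_num, div_pow, one_pow]
      ring
    rw [h2]
    have h3 : ((2 * p)! : ℝ) ≠ 0 := by positivity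
    have h4 : ((p)! : ℝ) ≠ 0 := by positivity
    push_cast
    field_simp
    ring
  | succ i ih =>
    intro p
    have hderiv : ∀ τ : ℝ, HasDerivAt (fun τ : ℝ => τ ^ (2 * p + 1) * (1 / 4 - τ ^ 2) ^ (i + 1))
        ((2 * p + 1) * (τ ^ (2 * p) * (1 / 4 - τ ^ 2) ^ (i + 1)) -
          2 * (i + 1) * (τ ^ (2 * (p + 1)) * (1 / 4 - τ ^ 2) ^ i)) τ := by
      intro τ
      have h1 : HasDerivAt (fun τ : ℝ => τ ^ (2 * p + 1)) (((2 * p + 1 : ℕ) : ℝ) *
          τ ^ (2 * p + 1 - 1) * 1) τ := (hasDerivAt_id τ).pow (2 * p + 1)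
      have h2 : HasDerivAt (fun τ : ℝ => (1 / 4 - τ ^ 2)) (0 - ((2 : ℕ) * τ ^ (2 - 1) * 1)) τ :=
        (hasDerivAt_const τ (1 / 4 : ℝ)).sub ((hasDerivAt_id τ).pow 2)
      have h3 := h1.mul (h2.pow (i + 1))
      refine h3.congr_deriv ?_
      simp only [Nat.add_sub_cancel, Pi.pow_apply]
      push_cast
      ring
    have hint := intervalIntegral.integral_eq_sub_of_hasDerivAt
      (a := -(1 / 2 : ℝ)) (b := 1 / 2) (fun τ _ => hderiv τ)
      (by apply Continuous.intervalIntegrable; fun_prop)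
    rw [intervalIntegral.integral_sub
        (by apply Continuous.intervalIntegrable; fun_prop)
        (by apply Continuous.intervalIntegrable; fun_prop),
      intervalIntegral.integral_const_mul, intervalIntegral.integral_const_mul, ih (p + 1)] at hint
    have h0 : (1 / 4 - (1 / 2 : ℝ) ^ 2) ^ (i + 1) = 0 := by norm_num
    have h0' : (1 / 4 - (-(1 / 2) : ℝ) ^ 2) ^ (i + 1) = 0 := by norm_num
    rw [h0, h0', mul_zero, mul_zero, sub_zero] at hint
    have h5 : (2 * (p : ℝ) + 1) ≠ 0 := by positivity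
    have h6 : ∫ τ in (-(1 / 2) : ℝ)..(1 / 2), τ ^ (2 * p) * (1 / 4 - τ ^ 2) ^ (i + 1) =
        2 * (i + 1) * (((p + 1 + i)! * (2 * (p + 1))! * i ! : ℝ) /
          (4 ^ (p + 1) * (p + 1)! * (2 * (p + 1 + i) + 1)!)) / (2 * p + 1) := by
      rw [eq_div_iff h5]
      linarith
    rw [h6, show p + 1 + i = p + (i + 1) by ring, show 2 * (p + 1) = 2 * p + 1 + 1 by ring,
      Nat.factorial_succ (2 * p + 1), Nat.factorial_succ (2 * p), Nat.factorial_succ p,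
      Nat.factorial_succ i]
    have h3 : ((2 * p)! : ℝ) ≠ 0 := by positivity
    have h4 : ((p)! : ℝ) ≠ 0 := by positivity
    have h7 : ((2 * (p + (i + 1)) + 1)! : ℝ) ≠ 0 := by positivity
    push_cast
    field_simp
    ring

variable {R : Type*} [CommRing R] [Algebra ℂ R]

lemma sum_root {N : ℕ} {ω : ℂ} (hω : IsPrimitiveRoot ω N) (e : ℤ) (he : e ≠ 0)
    (h1 : |e| < N) : ∑ k ∈ range N, (ω ^ k) ^ e = 0 := by
  have h2 : ω ^ e ≠ 1 := by
    rw [Ne, hω.zpow_eq_one_iff_dvd]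
    intro hd
    have := Int.eq_zero_of_abs_lt_dvd hd h1
    exact he this
  have h3 : ∀ k ∈ range N, (ω ^ k) ^ e = (ω ^ e) ^ k := by
    intro k _
    rw [← zpow_natCast, ← zpow_natCast, ← zpow_mul, ← zpow_mul, mul_comm]
  rw [Finset.sum_congr rfl h3]
  refine eq_zero_of_ne_zero_of_mul_left_eq_zero (sub_ne_zero_of_ne h2.symm) ?_
  rw [mul_neg_geom_sum, ← zpow_natCast, ← zpow_mul, mul_comm, zpow_mul, zpow_natCast, hω.pow_eq_one,
    one_zpow, sub_self]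

/-- the off-diagonal part -/
noncomputable def wk (y z : R) (ω : ℂ) : R := ω • y + ω⁻¹ • z

lemma wk_pow (y z : R) {ω : ℂ} (hω : ω ≠ 0) (i : ℕ) :
    wk y z ω ^ i = ∑ l ∈ range (i + 1), (ω ^ ((2 * l : ℤ) - i)) •
      ((i.choose l : ℂ) • (y ^ l * z ^ (i - l))) := by
  unfold wk
  rw [(Commute.all _ _).add_pow]
  refine Finset.sum_congr rfl fun l hl => ?_
  have hl' : l ≤ i := Nat.lt_succ_iff.1 (Finset.mem_range.1 hl)
  rw [_root_.smul_pow, _root_.smul_pow, smul_smul, smul_mul_smul_comm, ← Nat.cast_comm, ← nsmul_eq_mul,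
    ← Nat.cast_smul_eq_nsmul ℂ, smul_smul]
  congr 1
  have : (2 * l : ℤ) - i = l + (-((i - l : ℕ) : ℤ)) := by
    push_cast [Nat.cast_sub hl']
    ring
  rw [this, zpow_add₀ hω, zpow_natCast, zpow_neg, zpow_natCast, inv_pow]
  ring

lemma sum_wk_even (y z : R) {N : ℕ} {ω : ℂ} (hω : IsPrimitiveRoot ω N) (i : ℕ) (hi : 2 * i < N) :
    ∑ k ∈ range N, wk y z (ω ^ k) ^ (2 * i) =
      ((N : ℂ) * ((2 * i).choose i : ℂ)) • (y * z) ^ i := by
  have hN : N ≠ 0 := by omega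
  have hne : ∀ k, ω ^ k ≠ 0 := fun k => pow_ne_zero _ (hω.ne_zero hN)
  simp only [wk_pow y z (hne _)]
  rw [Finset.sum_comm]
  rw [Finset.sum_eq_single i]
  · rw [← Finset.sum_smul]
    have : ∀ k ∈ range N, (ω ^ k) ^ ((2 * i : ℤ) - ((2 * i : ℕ) : ℤ)) = 1 := by
      intro k _
      push_cast
      rw [sub_self, zpow_zero]
    rw [Finset.sum_congr rfl this]
    simp only [Finset.sum_const, card_range, nsmul_eq_mul, mul_one]
    rw [smul_smul, show 2 * i - i = i by omega, mul_pow]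
  · intro l hl hne'
    rw [← Finset.sum_smul, sum_root hω, zero_smul]
    · push_cast
      intro h
      apply hne'
      omega
    · have := Finset.mem_range.1 hl
      rw [abs_lt]
      push_cast
      omega
  · intro h
    exact absurd (Finset.mem_range.2 (by omega)) h

lemma sum_wk_odd (y z : R) {N : ℕ} {ω : ℂ} (hω : IsPrimitiveRoot ω N) (i : ℕ)
    (hi : 2 * i + 1 < N) : ∑ k ∈ range N, wk y z (ω ^ k) ^ (2 * i + 1) = 0 := by
  have hN : N ≠ 0 := by omega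
  have hne : ∀ k, ω ^ k ≠ 0 := fun k => pow_ne_zero _ (hω.ne_zero hN)
  simp only [wk_pow y z (hne _)]
  rw [Finset.sum_comm]
  refine Finset.sum_eq_zero fun l hl => ?_
  rw [← Finset.sum_smul, sum_root hω, zero_smul]
  · push_cast
    omega
  · have := Finset.mem_range.1 hl
    rw [abs_lt]
    push_cast
    omega

/-- the traceless part -/
noncomputable def Zt (δ y z : R) (ω : ℂ) (τ : ℝ) : R :=
  (τ : ℂ) • δ + ((Real.sqrt (1 / 4 - τ ^ 2) : ℝ) : ℂ) • wk y z ω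

lemma apply_Zt_pow (ℓ : R →ₗ[ℂ] ℂ) (c δ y z : R) (ω : ℂ) (τ : ℝ) (n : ℕ) :
    ℓ (c * Zt δ y z ω τ ^ n) = ∑ m ∈ range (n + 1),
      ((τ ^ m * Real.sqrt (1 / 4 - τ ^ 2) ^ (n - m) * (n.choose m : ℝ) : ℝ) : ℂ) *
        ℓ (c * (δ ^ m * wk y z ω ^ (n - m))) := by
  unfold Zt
  rw [(Commute.all _ _).add_pow, Finset.mul_sum, map_sum]
  refine Finset.sum_congr rfl fun m _ => ?_
  have key : c * (((τ : ℂ) • δ) ^ m * (((Real.sqrt (1 / 4 - τ ^ 2) : ℝ) : ℂ) • wk y z ω) ^ (n - m) *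
      (n.choose m : R)) = ((τ ^ m * Real.sqrt (1 / 4 - τ ^ 2) ^ (n - m) * (n.choose m : ℝ) : ℝ) : ℂ) •
        (c * (δ ^ m * wk y z ω ^ (n - m))) := by
    rw [_root_.smul_pow, _root_.smul_pow, smul_mul_smul_comm, ← Nat.cast_comm, ← nsmul_eq_mul,
      ← Nat.cast_smul_eq_nsmul ℂ, smul_smul, mul_smul_comm]
    congr 1
    push_cast
    ring
  rw [key, map_smul, smul_eq_mul]

lemma continuous_apply_Zt (ℓ : R →ₗ[ℂ] ℂ) (c δ y z : R) (ω : ℂ) (n : ℕ) :
    Continuous fun τ : ℝ => ℓ (c * Zt δ y z ω τ ^ n) := by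
  simp only [apply_Zt_pow]
  refine continuous_finsetSum _ fun m _ => ?_
  refine Continuous.mul ?_ continuous_const
  refine Complex.continuous_ofReal.comp ?_
  have : Continuous fun τ : ℝ => Real.sqrt (1 / 4 - τ ^ 2) := by
    apply Continuous.sqrt
    fun_prop
  fun_prop

lemma sum_range_even_odd {M : Type*} [AddCommMonoid M] (g : ℕ → M) (j : ℕ) :
    ∑ i ∈ range (2 * j + 1), g i = ∑ i ∈ range (j + 1), g (2 * i) +
      ∑ i ∈ range j, g (2 * i + 1) := by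
  induction j with
  | zero => simp
  | succ j ih =>
    rw [show 2 * (j + 1) + 1 = 2 * j + 1 + 1 + 1 by ring, Finset.sum_range_succ,
      Finset.sum_range_succ, ih, Finset.sum_range_succ (fun i => g (2 * i)) (j + 1),
      Finset.sum_range_succ (fun i => g (2 * i + 1)) j, show 2 * j + 1 + 1 = 2 * (j + 1) by ring]
    abel

lemma sum_Zt_even (ℓ : R →ₗ[ℂ] ℂ) (c δ y z : R) {N : ℕ} {ω : ℂ} (hω : IsPrimitiveRoot ω N) (j : ℕ)
    (hj : 2 * j < N) {τ : ℝ} (h1 : -(1 / 2) ≤ τ) (h2 : τ ≤ 1 / 2) :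
    ∑ k ∈ range N, ℓ (c * Zt δ y z (ω ^ k) τ ^ (2 * j)) = ∑ i ∈ range (j + 1),
      ((τ ^ (2 * (j - i)) * (1 / 4 - τ ^ 2) ^ i : ℝ) : ℂ) *
        (((N : ℂ) * ((2 * j).choose (2 * i) : ℂ) * ((2 * i).choose i : ℂ)) *
        ℓ (c * (δ ^ (2 * (j - i)) * (y * z) ^ i))) := by
  simp only [apply_Zt_pow]
  rw [Finset.sum_comm]
  set g : ℕ → ℂ := fun i => ((τ ^ (2 * j - i) * Real.sqrt (1 / 4 - τ ^ 2) ^ i *
    ((2 * j).choose i : ℝ) : ℝ) : ℂ) *
      ℓ (c * (δ ^ (2 * j - i) * ∑ k ∈ range N, wk y z (ω ^ k) ^ i)) with hg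
  have e1 : ∀ m ∈ range (2 * j + 1), ∑ k ∈ range N,
      ((τ ^ m * Real.sqrt (1 / 4 - τ ^ 2) ^ (2 * j - m) * ((2 * j).choose m : ℝ) : ℝ) : ℂ) *
        ℓ (c * (δ ^ m * wk y z (ω ^ k) ^ (2 * j - m))) = g (2 * j - m) := by
    intro m hm
    have hm' : m ≤ 2 * j := Nat.lt_succ_iff.1 (Finset.mem_range.1 hm)
    rw [← Finset.mul_sum, ← map_sum, ← Finset.mul_sum, ← Finset.mul_sum, hg]
    simp only
    rw [show 2 * j - (2 * j - m) = m by omega, Nat.choose_symm hm']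
  rw [Finset.sum_congr rfl e1, Finset.sum_flip (f := g), sum_range_even_odd]
  have e2 : ∑ i ∈ range j, g (2 * i + 1) = 0 := by
    refine Finset.sum_eq_zero fun i hi => ?_
    have := Finset.mem_range.1 hi
    rw [hg]
    simp only
    rw [sum_wk_odd y z hω i (by omega)]
    simp
  rw [e2, add_zero]
  refine Finset.sum_congr rfl fun i hi => ?_
  have hi' := Finset.mem_range.1 hi
  rw [hg]
  simp only
  rw [sum_wk_even y z hω i (by omega), mul_smul_comm, mul_smul_comm, map_smul, smul_eq_mul,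
    pow_mul (Real.sqrt _), Real.sq_sqrt (by nlinarith), show 2 * j - 2 * i = 2 * (j - i) by omega]
  push_cast
  ring

lemma moment (ℓ : R →ₗ[ℂ] ℂ) (c δ y z : R) {N : ℕ} {ω : ℂ} (hω : IsPrimitiveRoot ω N) (j : ℕ)
    (hj : 2 * j < N) :
    ∫ τ in (-(1 / 2) : ℝ)..(1 / 2), ((2 * j + 1 : ℕ) : ℂ) *
      ∑ k ∈ range N, ℓ (c * Zt δ y z (ω ^ k) τ ^ (2 * j)) =
      (N : ℂ) * ℓ (c * ((1 / 4 : ℂ) • δ ^ 2 + y * z) ^ j) := by
  have e1 : ∫ τ in (-(1 / 2) : ℝ)..(1 / 2), ((2 * j + 1 : ℕ) : ℂ) *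
      ∑ k ∈ range N, ℓ (c * Zt δ y z (ω ^ k) τ ^ (2 * j)) =
      ∫ τ in (-(1 / 2) : ℝ)..(1 / 2), ((2 * j + 1 : ℕ) : ℂ) * ∑ i ∈ range (j + 1),
      ((τ ^ (2 * (j - i)) * (1 / 4 - τ ^ 2) ^ i : ℝ) : ℂ) *
        (((N : ℂ) * ((2 * j).choose (2 * i) : ℂ) * ((2 * i).choose i : ℂ)) *
        ℓ (c * (δ ^ (2 * (j - i)) * (y * z) ^ i))) := by
    apply intervalIntegral.integral_congr
    intro τ hτ
    rw [Set.uIcc_of_le (by norm_num)] at hτ
    simp only
    rw [sum_Zt_even ℓ c δ y z hω j hj hτ.1 hτ.2]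
  rw [e1, intervalIntegral.integral_const_mul, intervalIntegral.integral_finsetSum]
  · rw [Finset.mul_sum, add_comm ((1 / 4 : ℂ) • δ ^ 2), (Commute.all _ _).add_pow, Finset.mul_sum,
      map_sum, Finset.mul_sum]
    refine Finset.sum_congr rfl fun i hi => ?_
    have hi' : i ≤ j := Nat.lt_succ_iff.1 (Finset.mem_range.1 hi)
    rw [intervalIntegral.integral_mul_const, intervalIntegral.integral_ofReal, betaI,
      Nat.sub_add_cancel hi', _root_.smul_pow, ← pow_mul]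
    have e3 : c * ((y * z) ^ i * ((1 / 4 : ℂ) ^ (j - i)) • δ ^ (2 * (j - i)) * (j.choose i : R)) =
        (((1 / 4 : ℂ) ^ (j - i)) * (j.choose i : ℂ)) • (c * (δ ^ (2 * (j - i)) * (y * z) ^ i)) := by
      rw [← Nat.cast_comm, ← nsmul_eq_mul, ← Nat.cast_smul_eq_nsmul ℂ, mul_smul_comm,
        mul_smul_comm, mul_smul_comm, smul_smul, mul_comm ((1 / 4 : ℂ) ^ (j - i)),
        mul_comm ((y * z) ^ i)]
    rw [e3, map_smul, smul_eq_mul]
    have e4 : ((2 * j + 1 : ℕ) : ℂ) * (((((j)! * (2 * (j - i))! * i ! : ℝ) /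
        (4 ^ (j - i) * (j - i)! * (2 * j + 1)!) : ℝ) : ℂ) *
        ((2 * j).choose (2 * i) * (2 * i).choose i)) = (1 / 4 : ℂ) ^ (j - i) * (j.choose i) := by
      have f1 : ((2 * j).choose (2 * i) : ℂ) = (2 * j)! / ((2 * i)! * (2 * (j - i))!) := by
        rw [Nat.cast_choose ℂ (show 2 * i ≤ 2 * j by omega), show 2 * j - 2 * i = 2 * (j - i) by omega]
      have f2 : ((2 * i).choose i : ℂ) = (2 * i)! / (i ! * i !) := by
        rw [Nat.cast_choose ℂ (show i ≤ 2 * i by omega), show 2 * i - i = i by omega]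
      have f3 : (j.choose i : ℂ) = j ! / (i ! * (j - i)!) := Nat.cast_choose ℂ hi'
      rw [f1, f2, f3, Nat.factorial_succ (2 * j)]
      have g1 : ((2 * j)! : ℂ) ≠ 0 := by exact_mod_cast (Nat.factorial_pos _).ne'
      have g2 : ((2 * i)! : ℂ) ≠ 0 := by exact_mod_cast (Nat.factorial_pos _).ne'
      have g3 : ((2 * (j - i))! : ℂ) ≠ 0 := by exact_mod_cast (Nat.factorial_pos _).ne'
      have g4 : ((i)! : ℂ) ≠ 0 := by exact_mod_cast (Nat.factorial_pos _).ne'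
      have g5 : ((j - i)! : ℂ) ≠ 0 := by exact_mod_cast (Nat.factorial_pos _).ne'
      have g6 : (2 * (j : ℂ) + 1) ≠ 0 := by exact_mod_cast (Nat.succ_ne_zero (2 * j))
      rw [div_pow, one_pow]
      push_cast
      field_simp
    calc _ = (N : ℂ) * (((2 * j + 1 : ℕ) : ℂ) * (((((j)! * (2 * (j - i))! * i ! : ℝ) /
        (4 ^ (j - i) * (j - i)! * (2 * j + 1)!) : ℝ) : ℂ) *
        ((2 * j).choose (2 * i) * (2 * i).choose i))) *
          ℓ (c * (δ ^ (2 * (j - i)) * (y * z) ^ i)) := by ring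
      _ = _ := by rw [e4]; ring
  · intro i _
    apply Continuous.intervalIntegrable
    refine Continuous.mul ?_ continuous_const
    refine Complex.continuous_ofReal.comp ?_
    fun_prop

/-- `Q ↦ Q + 2 X Q'` -/
noncomputable def theta (G : R[X]) : R[X] := G + 2 * X * derivative G

omit [Algebra ℂ R] in
lemma coeff_theta (G : R[X]) (j : ℕ) : (theta G).coeff j = ((2 * j + 1 : ℕ) : R) * G.coeff j := by
  unfold theta
  rw [coeff_add, mul_assoc, show (2 : R[X]) = C 2 from (map_ofNat C 2).symm, coeff_C_mul]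
  cases j with
  | zero => simp
  | succ j =>
    rw [coeff_X_mul, coeff_derivative]
    push_cast
    ring

omit [Algebra ℂ R] in
lemma eval_theta (G : R[X]) (x : R) : (theta G).eval x = ∑ j ∈ range (G.natDegree + 1),
    ((2 * j + 1 : ℕ) : R) * (G.coeff j * x ^ j) := by
  have h : (theta G).natDegree < G.natDegree + 1 := by
    rw [Nat.lt_succ_iff]
    refine natDegree_le_iff_coeff_eq_zero.2 fun n hn => ?_
    rw [coeff_theta, coeff_eq_zero_of_natDegree_lt hn, mul_zero]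
  rw [eval_eq_sum_range' h]
  refine Finset.sum_congr rfl fun j _ => ?_
  rw [coeff_theta, mul_assoc]

lemma apply_eval (ℓ : R →ₗ[ℂ] ℂ) (G : R[X]) (x : R) : ℓ (G.eval x) =
    ∑ j ∈ range (G.natDegree + 1), ℓ (G.coeff j * x ^ j) := by
  rw [eval_eq_sum_range, map_sum]

lemma continuous_eval_Zt (ℓ : R →ₗ[ℂ] ℂ) (G : R[X]) (δ y z : R) (ω : ℂ) :
    Continuous fun τ : ℝ => ℓ (G.eval (Zt δ y z ω τ ^ 2)) := by
  simp only [apply_eval, ← pow_mul]
  exact continuous_finsetSum _ fun j _ => continuous_apply_Zt ℓ _ δ y z ω _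

theorem moment_poly (ℓ : R →ₗ[ℂ] ℂ) (δ y z : R) {N : ℕ} {ω : ℂ} (hω : IsPrimitiveRoot ω N)
    (G : R[X]) (hG : 2 * G.natDegree < N) :
    ∫ τ in (-(1 / 2) : ℝ)..(1 / 2), ∑ k ∈ range N,
      ℓ ((theta G).eval (Zt δ y z (ω ^ k) τ ^ 2)) =
      (N : ℂ) * ℓ (G.eval ((1 / 4 : ℂ) • δ ^ 2 + y * z)) := by
  have e1 : ∀ τ : ℝ, ∑ k ∈ range N, ℓ ((theta G).eval (Zt δ y z (ω ^ k) τ ^ 2)) =
      ∑ j ∈ range (G.natDegree + 1), ((2 * j + 1 : ℕ) : ℂ) *
        ∑ k ∈ range N, ℓ (G.coeff j * Zt δ y z (ω ^ k) τ ^ (2 * j)) := by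
    intro τ
    simp only [eval_theta, map_sum]
    rw [Finset.sum_comm]
    refine Finset.sum_congr rfl fun j _ => ?_
    rw [Finset.mul_sum]
    refine Finset.sum_congr rfl fun k _ => ?_
    rw [← nsmul_eq_mul, map_nsmul, nsmul_eq_mul, pow_mul]
  simp only [e1]
  rw [intervalIntegral.integral_finsetSum, apply_eval, Finset.mul_sum]
  · refine Finset.sum_congr rfl fun j hj => ?_
    have := Finset.mem_range.1 hj
    exact moment ℓ _ δ y z hω j (by omega)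
  · intro j _
    apply Continuous.intervalIntegrable
    exact continuous_const.mul
      (continuous_finsetSum _ fun k _ => continuous_apply_Zt ℓ _ δ y z _ _)

/-- positivity of a mean value -/
theorem moment_pos (ℓ : R →ₗ[ℂ] ℂ) (δ y z : R) (G : R[X])
    (hpos : ∀ (τ : ℝ) (ω : ℂ), -(1 / 2) ≤ τ → τ ≤ 1 / 2 → ‖ω‖ = 1 →
      ∃ x : ℝ, 0 < x ∧ ℓ ((theta G).eval (Zt δ y z ω τ ^ 2)) = x) :
    ∃ x : ℝ, 0 < x ∧ ℓ (G.eval ((1 / 4 : ℂ) • δ ^ 2 + y * z)) = x := by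
  set N : ℕ := 2 * G.natDegree + 1 with hN
  have hN0 : N ≠ 0 := by omega
  set ω : ℂ := Complex.exp (2 * Real.pi * Complex.I / N) with hω
  have hprim : IsPrimitiveRoot ω N := Complex.isPrimitiveRoot_exp N hN0
  have hnorm : ∀ k, ‖ω ^ k‖ = 1 := by
    intro k
    rw [norm_pow, hprim.norm'_eq_one hN0, one_pow]
  have hm := moment_poly ℓ δ y z hprim G (by omega)
  set f : ℝ → ℂ := fun τ => ∑ k ∈ range N, ℓ ((theta G).eval (Zt δ y z (ω ^ k) τ ^ 2)) with hf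
  have hfc : Continuous f := continuous_finsetSum _ fun k _ => continuous_eval_Zt ℓ _ δ y z _
  have hfp : ∀ τ, -(1 / 2) ≤ τ → τ ≤ 1 / 2 → 0 < (f τ).re ∧ f τ = ((f τ).re : ℂ) := by
    intro τ h1 h2
    choose x hx hx' using fun k : ℕ => hpos τ (ω ^ k) h1 h2 (hnorm k)
    have : f τ = ((∑ k ∈ range N, x k : ℝ) : ℂ) := by
      rw [hf]
      simp only [hx']
      push_cast
      rfl
    rw [this]
    refine ⟨?_, by rw [Complex.ofReal_re]⟩
    rw [Complex.ofReal_re]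
    exact Finset.sum_pos (fun k _ => hx k) (Finset.nonempty_range_iff.2 hN0)
  have hint : ∫ τ in (-(1 / 2) : ℝ)..(1 / 2), f τ =
      ((∫ τ in (-(1 / 2) : ℝ)..(1 / 2), (f τ).re : ℝ) : ℂ) := by
    rw [← intervalIntegral.integral_ofReal]
    apply intervalIntegral.integral_congr
    intro τ hτ
    rw [Set.uIcc_of_le (by norm_num)] at hτ
    exact (hfp τ hτ.1 hτ.2).2
  have hI : 0 < ∫ τ in (-(1 / 2) : ℝ)..(1 / 2), (f τ).re := by
    apply intervalIntegral.intervalIntegral_pos_of_pos_on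
    · exact (Complex.continuous_re.comp hfc).intervalIntegrable _ _
    · intro τ hτ
      exact (hfp τ hτ.1.le hτ.2.le).1
    · norm_num
  refine ⟨(∫ τ in (-(1 / 2) : ℝ)..(1 / 2), (f τ).re) / N, div_pos hI (by positivity), ?_⟩
  rw [hint] at hm
  have hNc : (N : ℂ) ≠ 0 := by exact_mod_cast hN0
  push_cast
  rw [eq_div_iff hNc, hm]
  ring

end Pool.Agent.Helper94.Griff
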