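import Mathlib

/-!
Counting permutations matching two words.
-/

open Finset
open scoped Nat

namespace Pool.Agent.Helper94.Griff.Dec

variable {ι : Type*} [Fintype ι] [DecidableEq ι]

/-- number of indices with a given value -/
def cnt {n : ℕ} (a : Fin n → ι) (c : ι) : ℕ := (univ.filter fun i => a i = c).card

omit [Fintype ι] in
lemma cnt_le {n : ℕ} (a : Fin n → ι) (c : ι) : cnt a c ≤ n := by
  unfold cnt
  exact (Finset.card_filter_le _ _).trans (by simp)

lemma prod_eq_cnt {R : Type*} [CommMonoid R] {n : ℕ} (a : Fin n → ι) (f : ι → R) :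
    ∏ i, f (a i) = ∏ c, f c ^ cnt a c := by
  rw [← Finset.prod_fiberwise' univ a f]
  refine Finset.prod_congr rfl fun c _ => ?_
  rw [Finset.prod_const]
  rfl

lemma prod_cnt {n : ℕ} (a b : Fin n → ι) :
    (∏ c : ι, if cnt a c = cnt b c then ((cnt a c)! : ℂ) else 0) =
      ∑ σ : Equiv.Perm (Fin n), if a = b ∘ σ then 1 else 0 := by
  classical
  by_cases hex : ∃ σ0 : Equiv.Perm (Fin n), a = b ∘ σ0
  · obtain ⟨σ0, h0⟩ := hex
    have hc : ∀ c, cnt a c = cnt b c := by
      intro c
      unfold cnt
      refine Finset.card_bij (fun i _ => σ0 i) ?_ ?_ ?_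
      · intro i hi
        rw [Finset.mem_filter] at hi ⊢
        rw [h0] at hi
        exact ⟨mem_univ _, hi.2⟩
      · intro i _ j _ hij
        exact σ0.injective hij
      · intro j hj
        rw [Finset.mem_filter] at hj
        refine ⟨σ0.symm j, ?_, σ0.apply_symm_apply j⟩
        rw [Finset.mem_filter, h0]
        exact ⟨mem_univ _, by simpa using hj.2⟩
    rw [Finset.prod_congr rfl fun c _ => if_pos (hc c)]
    have h1 : ∑ σ : Equiv.Perm (Fin n), (if a = b ∘ σ then (1 : ℂ) else 0) =
        ∑ σ : Equiv.Perm (Fin n), (if a ∘ σ = a then (1 : ℂ) else 0) := by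
      refine Fintype.sum_equiv (Equiv.mulLeft σ0⁻¹) _ _ fun σ => ?_
      have : (a = b ∘ σ) ↔ (a ∘ ((Equiv.mulLeft σ0⁻¹) σ) = a) := by
        rw [Equiv.coe_mulLeft]
        constructor
        · intro h
          funext i
          simp only [Function.comp_apply, Equiv.Perm.mul_apply]
          have h2 : a (σ0⁻¹ (σ i)) = b (σ i) := by
            rw [h0]
            simp
          rw [h2]
          exact (congrFun h i).symm
        · intro h
          funext i
          have h3 := congrFun h i
          simp only [Function.comp_apply, Equiv.Perm.mul_apply] at h3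
          have h2 : a (σ0⁻¹ (σ i)) = b (σ i) := by
            rw [h0]
            simp
          rw [h2] at h3
          exact h3.symm
      simp only [this]
    rw [h1]
    have h2 := DomMulAct.stabilizer_card a
    rw [Finset.sum_boole]
    have h3 : ((univ.filter fun σ : Equiv.Perm (Fin n) => a ∘ σ = a).card) =
        ∏ c, (cnt a c)! := by
      rw [← Fintype.card_subtype, h2]
      refine Finset.prod_congr rfl fun c _ => ?_
      rw [Fintype.card_subtype]
      rfl
    rw [h3]
    push_cast
    rfl
  · have hR : ∑ σ : Equiv.Perm (Fin n), (if a = b ∘ σ then (1 : ℂ) else 0) = 0 := by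
      refine Finset.sum_eq_zero fun σ _ => if_neg fun h => hex ⟨σ, h⟩
    rw [hR]
    obtain ⟨c, hc⟩ : ∃ c, cnt a c ≠ cnt b c := by
      by_contra hcon
      push Not at hcon
      apply hex
      have he : ∀ c, Nonempty ({i // a i = c} ≃ {i // b i = c}) := by
        intro c
        rw [← Fintype.card_eq, Fintype.card_subtype, Fintype.card_subtype]
        exact hcon c
      let e' : ∀ c, {i // a i = c} ≃ {i // b i = c} := fun c => Classical.choice (he c)
      refine ⟨(Equiv.sigmaFiberEquiv a).symm.trans
        ((Equiv.sigmaCongrRight e').trans (Equiv.sigmaFiberEquiv b)), ?_⟩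
      funext i
      exact ((e' (a i)) ⟨i, rfl⟩).2.symm
    exact Finset.prod_eq_zero (mem_univ c) (if_neg hc)

end Pool.Agent.Helper94.Griff.Dec
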