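import Pool.Agent.Helper94.Griff.GInt
import Pool.Agent.Helper94.Griff.Vol

/-!
The top mixed discriminant of a decomposable family is a Gaussian mean of determinants of
quaternionic matrices.
-/

open Finset MeasureTheory Matrix

namespace Pool.Agent.Helper94.Griff.Dec

set_option linter.unusedSectionVars false

section

variable {k : ℕ} {α β : Type*} [Fintype α] [Fintype β]

/-- rows of the upper half -/
def Lrow (A : α → Matrix (Fin k) (Fin k) ℂ) (B : β → Matrix (Fin k) (Fin k) ℂ) (c : α ⊕ β)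
    (a : Fin k) : Fin k ⊕ Fin k → ℂ :=
  match c with
  | .inl s => Sum.elim (A s a) 0
  | .inr t => Sum.elim 0 (fun q => star (B t a q))

/-- rows of the lower half -/
def Mrow (A : α → Matrix (Fin k) (Fin k) ℂ) (B : β → Matrix (Fin k) (Fin k) ℂ) (c : α ⊕ β)
    (b : Fin k) : Fin k ⊕ Fin k → ℂ :=
  match c with
  | .inl s => Sum.elim 0 (fun q => star (A s b q))
  | .inr t => Sum.elim (fun p => - B t b p) 0

/-- the quaternionic matrix attached to `u` -/
noncomputable def KK (A : α → Matrix (Fin k) (Fin k) ℂ) (B : β → Matrix (Fin k) (Fin k) ℂ)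
    (u : α ⊕ β → ℂ) : Matrix (Fin k ⊕ Fin k) (Fin k ⊕ Fin k) ℂ :=
  Matrix.of (Sum.elim (fun a j => ∑ c, u c * Lrow A B c a j)
    (fun b j => ∑ c, star (u c) * Mrow A B c b j))

/-- matrix with chosen rows -/
def LM (A : α → Matrix (Fin k) (Fin k) ℂ) (B : β → Matrix (Fin k) (Fin k) ℂ)
    (c c' : Fin k → α ⊕ β) : Matrix (Fin k ⊕ Fin k) (Fin k ⊕ Fin k) ℂ :=
  Matrix.of (Sum.elim (fun a => Lrow A B (c a) a) (fun b => Mrow A B (c' b) b))

lemma KK_eq_fromBlocks (A : α → Matrix (Fin k) (Fin k) ℂ) (B : β → Matrix (Fin k) (Fin k) ℂ)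
    (u : α ⊕ β → ℂ) : KK A B u =
      Matrix.fromBlocks (∑ s, u (.inl s) • A s)
        ((∑ t, star (u (.inr t)) • B t).map star)
        (-(∑ t, star (u (.inr t)) • B t))
        ((∑ s, u (.inl s) • A s).map star) := by
  ext i j
  unfold KK
  rcases i with a | b <;> rcases j with p | q
  · simp [Lrow, Matrix.sum_apply]
  · simp [Lrow, Matrix.sum_apply]
  · simp [Mrow, Matrix.sum_apply]
  · simp [Mrow, Matrix.sum_apply]

lemma det_row_apply {n : Type*} [Fintype n] [DecidableEq n] {R : Type*} [CommRing R]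
    (M : Matrix n n R) : M.det = ∑ π : Equiv.Perm n, ((Equiv.Perm.sign π : ℤ) : R) *
      ∏ i, M i (π i) := by
  rw [← Matrix.det_transpose, Matrix.det_apply']
  rfl

lemma det_KK (A : α → Matrix (Fin k) (Fin k) ℂ) (B : β → Matrix (Fin k) (Fin k) ℂ)
    (u : α ⊕ β → ℂ) : (KK A B u).det = ∑ c : Fin k → α ⊕ β, ∑ c' : Fin k → α ⊕ β,
      (∏ i, (star (u (c' i)) * u (c i))) * (LM A B c c').det := by
  classical
  simp only [det_row_apply (LM A B _ _)]
  rw [det_row_apply]
  simp only [Finset.mul_sum]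
  rw [Finset.sum_congr rfl fun c _ => Finset.sum_comm, Finset.sum_comm]
  refine Finset.sum_congr rfl fun π _ => ?_
  rw [Fintype.prod_sum_type]
  have h1 : ∏ a, KK A B u (Sum.inl a) (π (Sum.inl a)) = ∑ c : Fin k → α ⊕ β,
      ∏ a, (u (c a) * Lrow A B (c a) a (π (Sum.inl a))) := by
    simp only [KK, Matrix.of_apply, Sum.elim_inl]
    rw [Finset.prod_univ_sum, Fintype.piFinset_univ]
  have h2 : ∏ b, KK A B u (Sum.inr b) (π (Sum.inr b)) = ∑ c : Fin k → α ⊕ β,
      ∏ b, (star (u (c b)) * Mrow A B (c b) b (π (Sum.inr b))) := by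
    simp only [KK, Matrix.of_apply, Sum.elim_inr]
    rw [Finset.prod_univ_sum, Fintype.piFinset_univ]
  rw [h1, h2, Finset.sum_mul_sum, Finset.mul_sum]
  refine Finset.sum_congr rfl fun c _ => ?_
  rw [Finset.mul_sum]
  refine Finset.sum_congr rfl fun c' _ => ?_
  rw [Fintype.prod_sum_type]
  simp only [LM, Matrix.of_apply, Sum.elim_inl, Sum.elim_inr, Finset.prod_mul_distrib]
  ring

/-- exchange of the rows `inl a` and `inr a` for `a ∈ S` -/
def swapRows (S : Finset (Fin k)) (M : Matrix (Fin k ⊕ Fin k) (Fin k ⊕ Fin k) ℂ) :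
    Matrix (Fin k ⊕ Fin k) (Fin k ⊕ Fin k) ℂ :=
  Matrix.of (Sum.elim (fun a => if a ∈ S then M (.inr a) else M (.inl a))
    (fun a => if a ∈ S then M (.inl a) else M (.inr a)))

lemma det_swapRows (S : Finset (Fin k)) (M : Matrix (Fin k ⊕ Fin k) (Fin k ⊕ Fin k) ℂ) :
    (swapRows S M).det = (-1) ^ S.card * M.det := by
  induction S using Finset.induction_on with
  | empty =>
    rw [Finset.card_empty, pow_zero, one_mul]
    congr 1
    ext i j
    rcases i with a | a <;> simp [swapRows]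
  | insert a S ha ih =>
    rw [Finset.card_insert_of_notMem ha, pow_succ]
    have h1 : swapRows (insert a S) M =
        (swapRows S M).submatrix (Equiv.swap (Sum.inl a) (Sum.inr a)) id := by
      ext i j
      rcases i with b | b
      · by_cases hb : b = a
        · subst hb
          simp [swapRows, ha]
        · have : Equiv.swap (Sum.inl a : Fin k ⊕ Fin k) (Sum.inr a) (Sum.inl b) = Sum.inl b :=
            Equiv.swap_apply_of_ne_of_ne (by simpa using hb) (by simp)
          simp [swapRows, this, hb]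
      · by_cases hb : b = a
        · subst hb
          simp [swapRows, ha]
        · have : Equiv.swap (Sum.inl a : Fin k ⊕ Fin k) (Sum.inr a) (Sum.inr b) = Sum.inr b :=
            Equiv.swap_apply_of_ne_of_ne (by simp) (by simpa using hb)
          simp [swapRows, this, hb]
    rw [h1, Matrix.det_permute, ih, Equiv.Perm.sign_swap (by simp)]
    push_cast
    ring

/-- left factors -/
def PR (A : α → Matrix (Fin k) (Fin k) ℂ) (B : β → Matrix (Fin k) (Fin k) ℂ)
    (σ : Equiv.Perm (Fin k)) (c : α ⊕ β) (a p : Fin k) : ℂ :=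
  match c with
  | .inl s => A s a p
  | .inr t => B t (σ.symm a) p

/-- right factors -/
def QR (A : α → Matrix (Fin k) (Fin k) ℂ) (B : β → Matrix (Fin k) (Fin k) ℂ)
    (σ : Equiv.Perm (Fin k)) (c : α ⊕ β) (a q : Fin k) : ℂ :=
  match c with
  | .inl s => star (A s (σ.symm a) q)
  | .inr t => star (B t a q)

lemma det_LM (A : α → Matrix (Fin k) (Fin k) ℂ) (B : β → Matrix (Fin k) (Fin k) ℂ)
    (c : Fin k → α ⊕ β) (σ : Equiv.Perm (Fin k)) :
    (LM A B c (c ∘ σ)).det = ((Equiv.Perm.sign σ : ℤ) : ℂ) *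
      ((Matrix.of fun a => PR A B σ (c a) a).det * (Matrix.of fun a => QR A B σ (c a) a).det) := by
  classical
  set L' : Matrix (Fin k ⊕ Fin k) (Fin k ⊕ Fin k) ℂ :=
    Matrix.of (Sum.elim (fun a => Lrow A B (c a) a) (fun a => Mrow A B (c a) (σ.symm a))) with hL'
  have h1 : LM A B c (c ∘ σ) = L'.submatrix (Equiv.sumCongr (Equiv.refl _) σ) id := by
    ext i j
    rcases i with a | a
    · simp [LM, hL']
    · simp [LM, hL']
  rw [h1]
  have h2 := Matrix.det_permute (Equiv.Perm.sumCongr (Equiv.refl _) σ) L'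
  have h3 : L'.submatrix (Equiv.sumCongr (Equiv.refl (Fin k)) σ) id =
    L'.submatrix (Equiv.Perm.sumCongr (Equiv.refl _) σ) id := rfl
  rw [h3, h2]
  have h4 : Equiv.Perm.sign (Equiv.Perm.sumCongr (Equiv.refl (Fin k)) σ) = Equiv.Perm.sign σ := by
    rw [Equiv.Perm.sign_sumCongr]
    have : Equiv.Perm.sign (Equiv.refl (Fin k)) = 1 := Equiv.Perm.sign_refl
    rw [this, one_mul]
  rw [h4]
  congr 1
  -- swap rows
  set S : Finset (Fin k) := univ.filter fun a => (c a).isRight = true with hS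
  have h5 := det_swapRows S L'
  have h6 : swapRows S L' = Matrix.fromBlocks
      (Matrix.of fun a p => (if a ∈ S then (-1 : ℂ) else 1) * PR A B σ (c a) a p) 0 0
      (Matrix.of fun a => QR A B σ (c a) a) := by
    ext i j
    rcases i with a | a
    · rcases hc : c a with s | t
      · have ha : a ∉ S := by simp [hS, hc]
        rcases j with p | p <;> simp [swapRows, ha, hL', hc, Lrow, PR]
      · have ha : a ∈ S := by simp [hS, hc]
        rcases j with p | p <;> simp [swapRows, ha, hL', hc, Mrow, PR]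
    · rcases hc : c a with s | t
      · have ha : a ∉ S := by simp [hS, hc]
        rcases j with p | p <;> simp [swapRows, ha, hL', hc, Mrow, QR]
      · have ha : a ∈ S := by simp [hS, hc]
        rcases j with p | p <;> simp [swapRows, ha, hL', hc, Lrow, QR]
  rw [h6, Matrix.det_fromBlocks_zero₂₁] at h5
  have h7 : (Matrix.of fun a p => (if a ∈ S then (-1 : ℂ) else 1) * PR A B σ (c a) a p).det =
      (-1) ^ S.card * (Matrix.of fun a => PR A B σ (c a) a).det := by
    have := Matrix.det_mul_column (fun a => if a ∈ S then (-1 : ℂ) else 1)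
      (Matrix.of fun a => PR A B σ (c a) a)
    simp only [Matrix.of_apply] at this
    rw [this]
    congr 1
    rw [Finset.prod_ite, Finset.prod_const, Finset.prod_const_one, mul_one]
    congr 1
    simp
  rw [h7] at h5
  have hne : ((-1 : ℂ)) ^ S.card ≠ 0 := pow_ne_zero _ (by norm_num)
  have h8 : (-1 : ℂ) ^ S.card * L'.det = (-1) ^ S.card *
      ((Matrix.of fun a => PR A B σ (c a) a).det * (Matrix.of fun a => QR A B σ (c a) a).det) := by
    rw [← h5]; ring
  exact mul_left_cancel₀ hne h8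

/-- the coefficient matrix of a decomposable family -/
def NC (A : α → Matrix (Fin k) (Fin k) ℂ) (B : β → Matrix (Fin k) (Fin k) ℂ) (a b : Fin k) :
    Matrix (Fin k) (Fin k) ℂ :=
  Matrix.of fun p q => ∑ s, A s a p * star (A s b q) + ∑ t, star (B t a q) * B t b p

lemma sum_det_mul_det (A : α → Matrix (Fin k) (Fin k) ℂ) (B : β → Matrix (Fin k) (Fin k) ℂ)
    (σ : Equiv.Perm (Fin k)) :
    ∑ c : Fin k → α ⊕ β, (Matrix.of fun a => PR A B σ (c a) a).det *
      (Matrix.of fun a => QR A B σ (c a) a).det =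
      vol (∏ a, lin (NC A B a (σ.symm a))) := by
  classical
  rw [vol_prod]
  simp only [det_row_apply, Matrix.of_apply, Finset.sum_mul_sum]
  rw [Finset.sum_comm]
  refine Finset.sum_congr rfl fun τ _ => ?_
  rw [Finset.sum_comm]
  refine Finset.sum_congr rfl fun ρ _ => ?_
  have h1 : ∀ c : Fin k → α ⊕ β, ((Equiv.Perm.sign τ : ℤ) : ℂ) * (∏ a, PR A B σ (c a) a (τ a)) *
      (((Equiv.Perm.sign ρ : ℤ) : ℂ) * ∏ a, QR A B σ (c a) a (ρ a)) =
      ((Equiv.Perm.sign τ : ℤ) : ℂ) * ((Equiv.Perm.sign ρ : ℤ) : ℂ) *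
        ∏ a, (PR A B σ (c a) a (τ a) * QR A B σ (c a) a (ρ a)) := by
    intro c
    rw [Finset.prod_mul_distrib]
    ring
  simp only [h1]
  rw [← Finset.mul_sum]
  congr 1
  have h2 := Finset.prod_univ_sum (fun _ : Fin k => (univ : Finset (α ⊕ β)))
    (fun a c => PR A B σ c a (τ a) * QR A B σ c a (ρ a))
  rw [Fintype.piFinset_univ] at h2
  rw [← h2]
  refine Finset.prod_congr rfl fun a _ => ?_
  rw [Fintype.sum_sum_type]
  simp only [PR, QR, NC, Matrix.of_apply]
  congr 1
  refine Finset.sum_congr rfl fun t _ => ?_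
  ring

variable {μ : Measure ℂ} [IsProbabilityMeasure μ] [DecidableEq α] [DecidableEq β]

theorem integral_det_KK
    (hint : ∀ i j : ℕ, Integrable (fun z : ℂ => star z ^ i * z ^ j) μ)
    (hmom : ∀ i j : ℕ, ∫ z : ℂ, star z ^ i * z ^ j ∂μ = if i = j then (i.factorial : ℂ) else 0)
    (A : α → Matrix (Fin k) (Fin k) ℂ) (B : β → Matrix (Fin k) (Fin k) ℂ) :
    ∫ u : α ⊕ β → ℂ, (KK A B u).det ∂(Measure.pi fun _ => μ) =
      vol (Matrix.det (Matrix.of fun a b => lin (NC A B a b))) := by
  simp only [det_KK]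
  rw [integral_finsetSum]
  swap
  · intro c _
    refine integrable_finsetSum _ fun c' _ => ?_
    exact (integrable_mono hint c' c).mul_const _
  have h1 : ∀ c : Fin k → α ⊕ β, ∫ u : α ⊕ β → ℂ, ∑ c' : Fin k → α ⊕ β,
      (∏ i, (star (u (c' i)) * u (c i))) * (LM A B c c').det ∂(Measure.pi fun _ => μ) =
      ∑ σ : Equiv.Perm (Fin k), (LM A B c (c ∘ σ)).det := by
    intro c
    rw [integral_finsetSum]
    swap
    · intro c' _
      exact (integrable_mono hint c' c).mul_const _
    simp only [integral_mul_const, integral_mono_eq hmom]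
    simp only [Finset.sum_mul]
    rw [Finset.sum_comm]
    refine Finset.sum_congr rfl fun σ _ => ?_
    rw [Finset.sum_eq_single (c ∘ σ)]
    · rw [if_pos rfl, one_mul]
    · intro c' _ hc'
      rw [if_neg hc', zero_mul]
    · intro h
      exact absurd (mem_univ _) h
  simp only [h1, det_LM]
  rw [Finset.sum_comm]
  simp only [← Finset.mul_sum, sum_det_mul_det]
  rw [det_row_apply, map_sum]
  refine Fintype.sum_equiv (Equiv.inv (Equiv.Perm (Fin k))) _ _ fun σ => ?_
  rw [Equiv.inv_apply, Equiv.Perm.sign_inv]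
  have : ((((Equiv.Perm.sign σ : ℤ)) : Forms (Fin k)) *
      ∏ i, (Matrix.of fun a b => lin (NC A B a b)) i (σ⁻¹ i)) =
      ((Equiv.Perm.sign σ : ℤ) : ℂ) • ∏ a, lin (NC A B a (σ.symm a)) := by
    rw [MvPolynomial.smul_eq_C_mul, map_intCast]
    rfl
  rw [this, map_smul, smul_eq_mul]

end

end Pool.Agent.Helper94.Griff.Dec
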