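import Pool.Agent.Helper94.Griff.Flat
import Pool.Agent.Helper94.Griff.DecDet

/-!
Products of principal minors along Gaussian nodes average to Schur polynomials.
-/

open Finset Polynomial
open scoped ComplexOrder

namespace Pool.Agent.Helper94.Griff.Dec

set_option linter.unusedSectionVars false

variable {r : ℕ} {ι : Type} [Fintype ι] {w : ι → ℝ} {z : ι → ℂ} {N : ℕ}

lemma Ex_one (hN : Mom w z N) {R : Type*} [CommRing R] [Algebra ℂ R] :
    Ex w z (fun _ : Fin r → ℂ => (1 : R)) = 1 := by
  have h := wick (R := R) (r := r) hN (Nat.zero_le N) (fun i : Fin 0 => 0)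
  rw [PP_zero] at h
  simpa using h

lemma ExN_const (hN : Mom w z N) {R : Type*} [CommRing R] [Algebra ℂ R] (l : ℕ) :
    ExN (r := r) w z l (fun _ => (1 : R)) = 1 := by
  induction l with
  | zero => rfl
  | succ l ih =>
    have h2 : ExN (r := r) w z (l + 1) (fun _ => (1 : R)) =
        Ex w z fun _ => ExN (r := r) w z l fun _ => (1 : R) := rfl
    rw [h2, ih]
    exact Ex_one hN

lemma ExN_mul {R : Type*} [CommRing R] [Algebra ℂ R] (l : ℕ) (c : R)
    (f : (ℕ → Fin r → ℂ) → R) : ExN w z l (fun g => c * f g) = c * ExN w z l f :=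
  ExN_map (LinearMap.mulLeft ℂ c) l f

lemma ExN_succ {V : Type*} [AddCommMonoid V] [Module ℂ V] (l : ℕ)
    (f : (ℕ → Fin r → ℂ) → V) : ExN w z (l + 1) f =
      Ex w z fun x => ExN w z l fun g => f (consN x g) := rfl

/-- generic ring -/
abbrev GR (r : ℕ) : Type := MvPolynomial (Fin r × Fin r) ℂ

/-- generic field -/
abbrev GK (r : ℕ) : Type := FractionRing (GR r)

/-- embedding -/
noncomputable def gψ (r : ℕ) : GR r →ₐ[ℂ] GK r := IsScalarTower.toAlgHom ℂ (GR r) (GK r)

lemma gψ_injective (r : ℕ) : Function.Injective (gψ r) :=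
  IsFractionRing.injective (GR r) (GK r)

/-- generic matrix -/
noncomputable def gY (r : ℕ) : Matrix (Fin r) (Fin r) (GR r) :=
  Matrix.of fun a b => MvPolynomial.X (a, b)

lemma gY_spec {R : Type*} [CommRing R] [Algebra ℂ R] (X : Matrix (Fin r) (Fin r) R) :
    (gY r).map (MvPolynomial.aeval (R := ℂ) fun p : Fin r × Fin r => X p.1 p.2) = X := by
  ext a b
  simp [gY]

lemma bf_gY_ne {x : Fin r → ℂ} (hx : x ≠ 0) : bf (gY r) x x ≠ 0 := by
  intro h
  have h1 := bf_map (MvPolynomial.aeval (R := ℂ) fun p : Fin r × Fin r =>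
    (1 : Matrix (Fin r) (Fin r) ℂ) p.1 p.2) (gY r) x x
  rw [gY_spec, h, map_zero] at h1
  apply hx
  have h2 : bf (1 : Matrix (Fin r) (Fin r) ℂ) x x = star x ⬝ᵥ x := by
    unfold bf dotProduct
    refine Finset.sum_congr rfl fun a _ => ?_
    rw [Finset.sum_eq_single a]
    · simp
    · intro b _ hb
      rw [Matrix.one_apply_ne (Ne.symm hb), smul_zero]
    · intro h; exact absurd (mem_univ _) h
  rw [h2] at h1
  exact dotProduct_star_self_eq_zero.1 h1.symm

/-- naturality of the identity -/
lemma star_natural {l p : ℕ} {μ : ℕ → ℕ} {C : ℕ}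
    (h : ExN w z l (fun g => ∏ j : Fin p, mn ((gY r).map (gψ r)) (μ j) g) =
      (C : GK r) * SS p μ ((gY r).map (gψ r)))
    (R : Type) [CommRing R] [Algebra ℂ R] (X : Matrix (Fin r) (Fin r) R) :
    ExN w z l (fun g => ∏ j : Fin p, mn X (μ j) g) = (C : R) * SS p μ X := by
  have key : ∀ {S T : Type} [CommRing S] [CommRing T] [Algebra ℂ S] [Algebra ℂ T] (φ : S →ₐ[ℂ] T)
      (Z : Matrix (Fin r) (Fin r) S),
      φ (ExN w z l (fun g => ∏ j : Fin p, mn Z (μ j) g)) =
        ExN w z l (fun g => ∏ j : Fin p, mn (Z.map φ) (μ j) g) := by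
    intro S T _ _ _ _ φ Z
    have h1 := ExN_map (w := w) (z := z) φ.toLinearMap l (fun g => ∏ j : Fin p, mn Z (μ j) g)
    rw [AlgHom.toLinearMap_apply] at h1
    rw [← h1]
    congr 1
    funext g
    rw [AlgHom.toLinearMap_apply, map_prod]
    refine Finset.prod_congr rfl fun j _ => ?_
    rw [mn_map]
  have h1 : ExN w z l (fun g => ∏ j : Fin p, mn (gY r) (μ j) g) = (C : GR r) * SS p μ (gY r) := by
    apply gψ_injective r
    rw [key, h, map_mul, map_natCast, SS_map]
  have h2 := congrArg (MvPolynomial.aeval (R := ℂ) fun p : Fin r × Fin r => X p.1 p.2) h1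
  rw [key, gY_spec, map_mul, map_natCast, SS_map, gY_spec] at h2
  exact h2

theorem star_formula (hN : Mom w z N) (l : ℕ) : ∀ (p : ℕ) (μ : ℕ → ℕ), Antitone μ → μ 0 ≤ l →
    p ≤ N → ∃ C : ℕ, 0 < C ∧ ∀ (R : Type) [CommRing R] [Algebra ℂ R]
      (X : Matrix (Fin r) (Fin r) R),
      ExN w z l (fun g => ∏ j : Fin p, mn X (μ j) g) = (C : R) * SS p μ X := by
  induction l with
  | zero =>
    intro p μ hμ h0 hp
    have hz : ∀ j, μ j = 0 := fun j => by
      have := hμ (Nat.zero_le j)
      omega
    refine ⟨1, one_pos, fun R _ _ X => ?_⟩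
    have h1 : SS p μ X = 1 := by
      clear hp
      induction p with
      | zero => exact SS_zero μ X
      | succ p ih => rw [SS_succ p μ X (hz p), ih]
    rw [h1, Nat.cast_one, mul_one]
    simp only [hz, mn_zero, Finset.prod_const_one]
    exact ExN_const hN 0
  | succ l IH =>
    intro p
    induction p with
    | zero =>
      intro μ hμ h0 hp
      refine ⟨1, one_pos, fun R _ _ X => ?_⟩
      rw [SS_zero, Nat.cast_one, mul_one]
      simp only [Finset.univ_eq_empty, Finset.prod_empty]
      exact ExN_const hN (l + 1)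
    | succ p ihp =>
      intro μ hμ h0 hp
      by_cases hlast : μ p = 0
      · obtain ⟨C, hC, h⟩ := ihp μ hμ h0 (by omega)
        refine ⟨C, hC, fun R _ _ X => ?_⟩
        rw [SS_succ p μ X hlast, ← h R X]
        congr 1
        funext g
        rw [Fin.prod_univ_castSucc]
        simp only [Fin.val_last, hlast, mn_zero, mul_one, Fin.val_castSucc]
      · -- all parts are positive
        have hpos : ∀ j, j < p + 1 → 1 ≤ μ j := by
          intro j hj
          have := hμ (Nat.lt_succ_iff.1 hj)
          omega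
        have hν : Antitone fun j => μ j - 1 := fun a b hab => Nat.sub_le_sub_right (hμ hab) 1
        obtain ⟨C, hC, h⟩ := IH (p + 1) (fun j => μ j - 1) hν (Nat.sub_le_iff_le_add.2 h0) hp
        refine ⟨C * ∏ j : Fin (p + 1), (μ j + (p + 1 - 1 - j)), ?_, fun R _ _ X => ?_⟩
        · refine Nat.mul_pos hC (Finset.prod_pos fun j _ => ?_)
          have := hpos j j.isLt
          omega
        refine star_natural ?_ R X
        set Y := (gY r).map (gψ r) with hY
        have hchar : CharZero (GK r) := by
          exact charZero_of_injective_algebraMap (algebraMap ℂ (GK r)).injective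
        have claim : ∀ x : Fin r → ℂ, ExN w z l (fun g => ∏ j : Fin (p + 1), mn Y (μ j)
            (consN x g)) = (C : GK r) * (Matrix.of fun i j : Fin (p + 1) =>
              bf (KZ Y (((μ i - 1 : ℕ) : ℤ) - (i : ℤ) + (j : ℤ))) x x).det := by
          intro x
          by_cases hx : x = 0
          · have h1 : ∀ g : ℕ → Fin r → ℂ, ∏ j : Fin (p + 1), mn Y (μ j) (consN x g) = 0 := by
              intro g
              refine Finset.prod_eq_zero (mem_univ 0) ?_
              obtain ⟨m, hm⟩ : ∃ m, μ ((0 : Fin (p + 1)) : ℕ) = m + 1 :=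
                ⟨μ ((0 : Fin (p + 1)) : ℕ) - 1, by have := hpos _ (0 : Fin (p + 1)).isLt; omega⟩
              rw [hm]
              unfold mn
              refine Matrix.det_eq_zero_of_row_eq_zero 0 fun j => ?_
              rw [Matrix.of_apply]
              have : consN x g ((0 : Fin (m + 1)) : ℕ) = 0 := hx
              rw [this]
              unfold bf
              simp
            simp only [h1]
            have h2 : (Matrix.of fun i j : Fin (p + 1) =>
                bf (KZ Y (((μ i - 1 : ℕ) : ℤ) - (i : ℤ) + (j : ℤ))) x x).det = 0 := by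
              refine Matrix.det_eq_zero_of_row_eq_zero 0 fun j => ?_
              rw [Matrix.of_apply, hx]
              unfold bf
              simp
            rw [h2, mul_zero]
            have h3 := ExN_mul (w := w) (z := z) (r := r) (R := GK r) l 0 (fun _ => 1)
            simp only [zero_mul] at h3
            exact h3
          · have hd : bf Y x x ≠ 0 := by
              rw [hY, ← bf_map]
              intro h0
              rw [← map_zero (gψ r)] at h0
              exact bf_gY_ne hx (gψ_injective r h0)
            have h1 : ∀ g : ℕ → Fin r → ℂ, ∏ j : Fin (p + 1), mn Y (μ j) (consN x g) =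
                bf Y x x ^ (p + 1) * ∏ j : Fin (p + 1), mn (flat Y x) (μ j - 1) g := by
              intro g
              have h2 : ∀ j : Fin (p + 1), mn Y (μ j) (consN x g) =
                  bf Y x x * mn (flat Y x) (μ j - 1) g := by
                intro j
                have := hpos j j.isLt
                have h3 : μ j = (μ j - 1) + 1 := by omega
                conv_lhs => rw [h3]
                exact mn_consN Y x hd _ g
              rw [Finset.prod_congr rfl fun j _ => h2 j, Finset.prod_mul_distrib,
                Finset.prod_const, Finset.card_univ, Fintype.card_fin]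
            simp only [h1]
            rw [ExN_mul, h (GK r) (flat Y x)]
            have h4 : (Matrix.of fun i j : Fin (p + 1) =>
                bf (KZ Y (((μ i - 1 : ℕ) : ℤ) - (i : ℤ) + (j : ℤ))) x x) =
                bf Y x x • (Matrix.of fun i j : Fin (p + 1) =>
                  eZ (flat Y x) (((μ i - 1 : ℕ) : ℤ) - (i : ℤ) + (j : ℤ))) := by
              ext i j
              rw [Matrix.smul_apply, Matrix.of_apply, Matrix.of_apply, smul_eq_mul,
                eZ_flat Y x hd]
            rw [h4, Matrix.det_smul, Fintype.card_fin]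
            unfold SS
            ring
        rw [ExN_succ]
        simp only [claim, det_row_apply, Matrix.of_apply]
        have h5 := Ex_map (w := w) (z := z) (r := r) (LinearMap.mulLeft ℂ (C : GK r))
          (fun x => ∑ σ : Equiv.Perm (Fin (p + 1)), ((Equiv.Perm.sign σ : ℤ) : GK r) *
            ∏ i : Fin (p + 1), bf (KZ Y (((μ i - 1 : ℕ) : ℤ) - (i : ℤ) + ((σ i : Fin (p + 1)) : ℤ))) x x)
        simp only [LinearMap.mulLeft_apply] at h5
        rw [h5, Ex_sum]
        have h6 : ∀ σ : Equiv.Perm (Fin (p + 1)), Ex w z (fun x =>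
            ((Equiv.Perm.sign σ : ℤ) : GK r) *
            ∏ i : Fin (p + 1), bf (KZ Y (((μ i - 1 : ℕ) : ℤ) - (i : ℤ) +
              ((σ i : Fin (p + 1)) : ℤ))) x x) =
            ((Equiv.Perm.sign σ : ℤ) : GK r) * PP (fun j =>
              KZ Y (((μ j - 1 : ℕ) : ℤ) - (j : ℤ) + ((σ j : Fin (p + 1)) : ℤ))) := by
          intro σ
          have h7 := Ex_map (w := w) (z := z) (r := r)
            (LinearMap.mulLeft ℂ ((Equiv.Perm.sign σ : ℤ) : GK r))
            (fun x => ∏ i : Fin (p + 1), bf (KZ Y (((μ i - 1 : ℕ) : ℤ) - (i : ℤ) +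
              ((σ i : Fin (p + 1)) : ℤ))) x x)
          simp only [LinearMap.mulLeft_apply] at h7
          rw [h7, wick hN hp]
        simp only [h6]
        rw [stepZ Y μ hpos]
        push_cast
        ring

end Pool.Agent.Helper94.Griff.Dec
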