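import Mathlib

/-!
A finite set of vectors in `ℂ^r` with positive weights which has the same mixed moments up to
order three as the standard complex Gaussian vector, and the resulting Wick formula.
-/

open Finset
open scoped Nat

namespace Pool.Agent.Helper94.Griff

/-- labels of the nodes -/
abbrev Nd : Type := Fin 2 × Fin 4

/-- squared absolute values -/
noncomputable def nrad (i : Fin 2) : ℝ := if i = 0 then 2 - Real.sqrt 2 else 2 + Real.sqrt 2

/-- weights -/
noncomputable def nwt (s : Nd) : ℝ :=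
  if s.1 = 0 then (2 + Real.sqrt 2) / 16 else (2 - Real.sqrt 2) / 16

/-- nodes -/
noncomputable def nval (s : Nd) : ℂ := ((Real.sqrt (nrad s.1) : ℝ) : ℂ) * Complex.I ^ (s.2 : ℕ)

lemma sqrt_two_lt : Real.sqrt 2 < 2 := by
  rw [Real.sqrt_lt' (by norm_num)]
  norm_num

lemma nrad_pos (i : Fin 2) : 0 < nrad i := by
  unfold nrad
  have h1 := sqrt_two_lt
  have h2 := Real.sqrt_nonneg 2
  split_ifs <;> linarith

lemma nwt_pos (s : Nd) : 0 < nwt s := by
  unfold nwt
  have h1 := sqrt_two_lt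
  have h2 := Real.sqrt_nonneg 2
  split_ifs <;> linarith

lemma nval_ne (s : Nd) : nval s ≠ 0 := by
  unfold nval
  refine mul_ne_zero ?_ (pow_ne_zero _ Complex.I_ne_zero)
  exact_mod_cast (Real.sqrt_pos.2 (nrad_pos _)).ne'

lemma sum_I (i j : ℕ) (hi : i ≤ 3) (hj : j ≤ 3) :
    ∑ k : Fin 4, ((-Complex.I) ^ i * Complex.I ^ j) ^ (k : ℕ) = if i = j then 4 else 0 := by
  have h3 : Complex.I ^ 3 = -Complex.I := Complex.I_pow_three
  rw [Fin.sum_univ_four]
  simp only [Fin.val_zero, Fin.val_one, Fin.val_two]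
  rw [show ((3 : Fin 4) : ℕ) = 3 from rfl]
  have hI : Complex.I ^ 2 = -1 := Complex.I_sq
  interval_cases i <;> interval_cases j <;> norm_num <;> ring_nf <;>
    simp [pow_succ, Complex.I_mul_I] <;> norm_num

lemma sum_rad (i : ℕ) (hi : i ≤ 3) :
    (2 + Real.sqrt 2) / 16 * (nrad 0) ^ i + (2 - Real.sqrt 2) / 16 * (nrad 1) ^ i =
      (i ! : ℝ) / 4 := by
  have h2 : Real.sqrt 2 ^ 2 = 2 := Real.sq_sqrt (by norm_num)
  have h0 : nrad 0 = 2 - Real.sqrt 2 := by simp [nrad]
  have h1 : nrad 1 = 2 + Real.sqrt 2 := by simp [nrad]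
  rw [h0, h1]
  interval_cases i
  · norm_num
    ring
  · simp only [Nat.factorial_one, Nat.cast_one, pow_one]
    linear_combination (-1 / 8 : ℝ) * h2
  · simp only [Nat.factorial_two, Nat.cast_ofNat]
    linear_combination (-1 / 4 : ℝ) * h2
  · have : ((3 ! : ℕ) : ℝ) = 6 := by norm_num [Nat.factorial]
    rw [this]
    linear_combination (-1 / 8 : ℝ) * (Real.sqrt 2 ^ 2 + 2) * h2

lemma moment_node (i j : ℕ) (hi : i ≤ 3) (hj : j ≤ 3) :
    ∑ s : Nd, (nwt s : ℂ) * (star (nval s) ^ i * nval s ^ j) = if i = j then (i ! : ℂ) else 0 := by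
  have h1 : ∀ s : Nd, (nwt s : ℂ) * (star (nval s) ^ i * nval s ^ j) =
      ((nwt s : ℂ) * ((Real.sqrt (nrad s.1) : ℝ) : ℂ) ^ (i + j)) *
        ((-Complex.I) ^ i * Complex.I ^ j) ^ (s.2 : ℕ) := by
    intro s
    have : star (nval s) = ((Real.sqrt (nrad s.1) : ℝ) : ℂ) * (-Complex.I) ^ (s.2 : ℕ) := by
      unfold nval
      rw [star_mul', star_pow]
      simp
    rw [this]
    unfold nval
    rw [mul_pow, mul_pow, mul_pow, pow_add, ← pow_mul, ← pow_mul, ← pow_mul, ← pow_mul,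
      mul_comm (s.2 : ℕ) i, mul_comm (s.2 : ℕ) j]
    ring
  simp only [h1]
  rw [Fintype.sum_prod_type]
  have h2 : ∀ x : Fin 2, ∑ y : Fin 4, ((nwt (x, y) : ℂ) *
      ((Real.sqrt (nrad (x, y).1) : ℝ) : ℂ) ^ (i + j)) *
        ((-Complex.I) ^ i * Complex.I ^ j) ^ ((x, y).2 : ℕ) =
      ((nwt (x, 0) : ℂ) * ((Real.sqrt (nrad x) : ℝ) : ℂ) ^ (i + j)) *
        if i = j then 4 else 0 := by
    intro x
    rw [← sum_I i j hi hj, Finset.mul_sum]
    rfl
  simp only [h2]
  rw [Fin.sum_univ_two]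
  split_ifs with hij
  · subst hij
    have h3 : ∀ x : Fin 2, ((Real.sqrt (nrad x) : ℝ) : ℂ) ^ (i + i) = ((nrad x ^ i : ℝ) : ℂ) := by
      intro x
      rw [← two_mul, pow_mul, ← Complex.ofReal_pow, Real.sq_sqrt (nrad_pos x).le,
        ← Complex.ofReal_pow]
    rw [h3, h3]
    have h4 := sum_rad i hi
    have e0 : nwt (0, 0) = (2 + Real.sqrt 2) / 16 := by simp [nwt]
    have e1 : nwt (1, 0) = (2 - Real.sqrt 2) / 16 := by simp [nwt]
    rw [e0, e1]
    have h5 : (((2 + Real.sqrt 2) / 16 * (nrad 0) ^ i + (2 - Real.sqrt 2) / 16 * (nrad 1) ^ i : ℝ) : ℂ)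
        = (((i ! : ℝ) / 4 : ℝ) : ℂ) := by rw [h4]
    push_cast at h5 ⊢
    linear_combination 4 * h5
  · ring

variable {r : ℕ}

/-- number of indices with a given value -/
def cnt {n : ℕ} (a : Fin n → Fin r) (c : Fin r) : ℕ := (univ.filter fun i => a i = c).card

lemma cnt_le {n : ℕ} (a : Fin n → Fin r) (c : Fin r) : cnt a c ≤ n := by
  unfold cnt
  exact (Finset.card_filter_le _ _).trans (by simp)

lemma prod_eq_cnt {n : ℕ} (a : Fin n → Fin r) (f : Fin r → ℂ) :
    ∏ i, f (a i) = ∏ c, f c ^ cnt a c := by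
  rw [← Finset.prod_fiberwise' univ a f]
  refine Finset.prod_congr rfl fun c _ => ?_
  rw [Finset.prod_const]
  rfl

/-- mean value over the nodes -/
noncomputable def Ex {V : Type*} [AddCommMonoid V] [Module ℂ V] (f : (Fin r → ℂ) → V) : V :=
  ∑ ω : Fin r → Nd, ((∏ c, nwt (ω c) : ℝ) : ℂ) • f (fun c => nval (ω c))

lemma Ex_monomial {n : ℕ} (hn : n ≤ 3) (a b : Fin n → Fin r) :
    Ex (fun v : Fin r → ℂ => ∏ i, (star (v (a i)) * v (b i))) =
      ∏ c : Fin r, if cnt a c = cnt b c then ((cnt a c)! : ℂ) else 0 := by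
  unfold Ex
  have h1 : ∀ ω : Fin r → Nd, ((∏ c, nwt (ω c) : ℝ) : ℂ) •
      ∏ i, (star (nval (ω (a i))) * nval (ω (b i))) =
      ∏ c, ((nwt (ω c) : ℂ) * (star (nval (ω c)) ^ cnt a c * nval (ω c) ^ cnt b c)) := by
    intro ω
    rw [Finset.prod_mul_distrib, Finset.prod_mul_distrib, Finset.prod_mul_distrib,
      prod_eq_cnt a (fun c => star (nval (ω c))), prod_eq_cnt b (fun c => nval (ω c)), smul_eq_mul]
    push_cast
    rfl
  simp only [h1]
  have h2 := Finset.prod_univ_sum (fun _ : Fin r => (univ : Finset Nd))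
    (fun c s => ((nwt s : ℂ) * (star (nval s) ^ cnt a c * nval s ^ cnt b c)))
  rw [Fintype.piFinset_univ] at h2
  rw [← h2]
  refine Finset.prod_congr rfl fun c _ => ?_
  exact moment_node _ _ ((cnt_le a c).trans hn) ((cnt_le b c).trans hn)

lemma prod_cnt {n : ℕ} (a b : Fin n → Fin r) :
    (∏ c : Fin r, if cnt a c = cnt b c then ((cnt a c)! : ℂ) else 0) =
      ∑ σ : Equiv.Perm (Fin n), if a = b ∘ σ then 1 else 0 := by
  classical
  by_cases hex : ∃ σ0 : Equiv.Perm (Fin n), a = b ∘ σ0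
  · obtain ⟨σ0, h0⟩ := hex
    have hc : ∀ c, cnt a c = cnt b c := by
      intro c
      unfold cnt
      refine Finset.card_bij (fun i _ => σ0 i) ?_ ?_ ?_
      · intro i hi
        rw [Finset.mem_filter] at hi ⊢
        rw [h0] at hi
        exact ⟨mem_univ _, hi.2⟩
      · intro i _ j _ hij
        exact σ0.injective hij
      · intro j hj
        rw [Finset.mem_filter] at hj
        refine ⟨σ0.symm j, ?_, σ0.apply_symm_apply j⟩
        rw [Finset.mem_filter, h0]
        exact ⟨mem_univ _, by simpa using hj.2⟩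
    rw [Finset.prod_congr rfl fun c _ => if_pos (hc c)]
    have h1 : ∑ σ : Equiv.Perm (Fin n), (if a = b ∘ σ then (1 : ℂ) else 0) =
        ∑ σ : Equiv.Perm (Fin n), (if a ∘ σ = a then (1 : ℂ) else 0) := by
      refine Fintype.sum_equiv (Equiv.mulLeft σ0⁻¹) _ _ fun σ => ?_
      have : (a = b ∘ σ) ↔ (a ∘ ((Equiv.mulLeft σ0⁻¹) σ) = a) := by
        rw [Equiv.coe_mulLeft]
        constructor
        · intro h
          funext i
          simp only [Function.comp_apply, Equiv.Perm.mul_apply]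
          have h2 : a (σ0⁻¹ (σ i)) = b (σ i) := by
            rw [h0]
            simp
          rw [h2]
          exact (congrFun h i).symm
        · intro h
          funext i
          have h3 := congrFun h i
          simp only [Function.comp_apply, Equiv.Perm.mul_apply] at h3
          have h2 : a (σ0⁻¹ (σ i)) = b (σ i) := by
            rw [h0]
            simp
          rw [h2] at h3
          exact h3.symm
      simp only [this]
    rw [h1]
    have h2 := DomMulAct.stabilizer_card a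
    rw [Finset.sum_boole]
    have h3 : ((univ.filter fun σ : Equiv.Perm (Fin n) => a ∘ σ = a).card) =
        ∏ c, (cnt a c)! := by
      rw [← Fintype.card_subtype, h2]
      refine Finset.prod_congr rfl fun c _ => ?_
      rw [Fintype.card_subtype]
      rfl
    rw [h3]
    push_cast
    rfl
  · have hR : ∑ σ : Equiv.Perm (Fin n), (if a = b ∘ σ then (1 : ℂ) else 0) = 0 := by
      refine Finset.sum_eq_zero fun σ _ => if_neg fun h => hex ⟨σ, h⟩
    rw [hR]
    obtain ⟨c, hc⟩ : ∃ c, cnt a c ≠ cnt b c := by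
      by_contra hcon
      push Not at hcon
      apply hex
      have he : ∀ c, Nonempty ({i // a i = c} ≃ {i // b i = c}) := by
        intro c
        rw [← Fintype.card_eq, Fintype.card_subtype, Fintype.card_subtype]
        exact hcon c
      let e' : ∀ c, {i // a i = c} ≃ {i // b i = c} := fun c => Classical.choice (he c)
      refine ⟨(Equiv.sigmaFiberEquiv a).symm.trans
        ((Equiv.sigmaCongrRight e').trans (Equiv.sigmaFiberEquiv b)), ?_⟩
      funext i
      exact ((e' (a i)) ⟨i, rfl⟩).2.symm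
    exact Finset.prod_eq_zero (mem_univ c) (if_neg hc)

section Wick

variable {R : Type*} [CommRing R] [Algebra ℂ R]

/-- the quadratic form `v* X v` -/
noncomputable def qf (X : Matrix (Fin r) (Fin r) R) (v : Fin r → ℂ) : R :=
  ∑ a, ∑ b, (star (v a) * v b) • X a b

lemma prod_qf {n : ℕ} (X : Fin n → Matrix (Fin r) (Fin r) R) (v : Fin r → ℂ) :
    ∏ i, qf (X i) v = ∑ a : Fin n → Fin r, ∑ b : Fin n → Fin r,
      (∏ i, (star (v (a i)) * v (b i))) • ∏ i, X i (a i) (b i) := by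
  unfold qf
  rw [Finset.prod_univ_sum, Fintype.piFinset_univ]
  refine Finset.sum_congr rfl fun a _ => ?_
  rw [Finset.prod_univ_sum, Fintype.piFinset_univ]
  refine Finset.sum_congr rfl fun b _ => ?_
  rw [Finset.prod_smul]

lemma Ex_sum {V : Type*} [AddCommMonoid V] [Module ℂ V] {ι : Type*} (s : Finset ι)
    (f : ι → (Fin r → ℂ) → V) : Ex (fun v => ∑ i ∈ s, f i v) = ∑ i ∈ s, Ex (f i) := by
  unfold Ex
  simp only [Finset.smul_sum]
  exact Finset.sum_comm

lemma Ex_smul_const {V : Type*} [AddCommMonoid V] [Module ℂ V] (f : (Fin r → ℂ) → ℂ) (x : V) :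
    Ex (fun v => f v • x) = Ex f • x := by
  unfold Ex
  rw [Finset.sum_smul]
  refine Finset.sum_congr rfl fun ω _ => ?_
  rw [smul_smul, smul_eq_mul]

theorem wick {n : ℕ} (hn : n ≤ 3) (X : Fin n → Matrix (Fin r) (Fin r) R) :
    Ex (fun v => ∏ i, qf (X i) v) = ∑ σ : Equiv.Perm (Fin n), ∑ b : Fin n → Fin r,
      ∏ i, X i (b (σ i)) (b i) := by
  simp only [prod_qf]
  rw [Ex_sum]
  simp only [Ex_sum, Ex_smul_const, Ex_monomial hn, prod_cnt]
  rw [Finset.sum_comm]
  calc ∑ b : Fin n → Fin r, ∑ a : Fin n → Fin r,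
        (∑ σ : Equiv.Perm (Fin n), if a = b ∘ σ then (1 : ℂ) else 0) • ∏ i, X i (a i) (b i)
      = ∑ b : Fin n → Fin r, ∑ σ : Equiv.Perm (Fin n), ∏ i, X i (b (σ i)) (b i) := by
        refine Finset.sum_congr rfl fun b _ => ?_
        simp only [Finset.sum_smul]
        rw [Finset.sum_comm]
        refine Finset.sum_congr rfl fun σ _ => ?_
        rw [Finset.sum_eq_single (b ∘ σ)]
        · rw [if_pos rfl, one_smul]
          rfl
        · intro a _ ha
          rw [if_neg ha, zero_smul]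
        · intro h
          exact absurd (mem_univ _) h
    _ = _ := Finset.sum_comm

end Wick

lemma sum_cons {V : Type*} [AddCommMonoid V] {n : ℕ} (f : (Fin (n + 1) → Fin r) → V) :
    ∑ b, f b = ∑ x : Fin r, ∑ b : Fin n → Fin r, f (Fin.cons x b) := by
  rw [← Fintype.sum_prod_type']
  exact (Fintype.sum_equiv (Fin.consEquiv fun _ => Fin r) _ _ fun x => rfl).symm

lemma sum_fin2 {V : Type*} [AddCommMonoid V] (f : (Fin 2 → Fin r) → V) :
    ∑ b, f b = ∑ x : Fin r, ∑ y : Fin r, f ![x, y] := by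
  rw [sum_cons]
  refine Finset.sum_congr rfl fun x _ => ?_
  rw [sum_cons]
  refine Finset.sum_congr rfl fun y _ => ?_
  rw [Fintype.sum_unique]
  congr 1

lemma sum_fin3 {V : Type*} [AddCommMonoid V] (f : (Fin 3 → Fin r) → V) :
    ∑ b, f b = ∑ x : Fin r, ∑ y : Fin r, ∑ z : Fin r, f ![x, y, z] := by
  rw [sum_cons]
  refine Finset.sum_congr rfl fun x _ => ?_
  rw [sum_fin2]
  rfl

lemma sum_perm2 {V : Type*} [AddCommMonoid V] (f : Equiv.Perm (Fin 2) → V) :
    ∑ σ, f σ = f 1 + f (Equiv.swap 0 1) := by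
  have h : (univ : Finset (Equiv.Perm (Fin 2))) = {1, Equiv.swap 0 1} := by decide
  rw [h, Finset.sum_pair (by decide)]

lemma sum_perm3 {V : Type*} [AddCommMonoid V] (f : Equiv.Perm (Fin 3) → V) :
    ∑ σ, f σ = f 1 + (f (Equiv.swap 0 1) + (f (Equiv.swap 0 2) + (f (Equiv.swap 1 2) +
      (f (Equiv.swap 0 1 * Equiv.swap 1 2) + f (Equiv.swap 1 2 * Equiv.swap 0 1))))) := by
  have h : (univ : Finset (Equiv.Perm (Fin 3))) = {1, Equiv.swap 0 1, Equiv.swap 0 2,
    Equiv.swap 1 2, Equiv.swap 0 1 * Equiv.swap 1 2, Equiv.swap 1 2 * Equiv.swap 0 1} := by decide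
  rw [h, Finset.sum_insert (by decide), Finset.sum_insert (by decide),
    Finset.sum_insert (by decide), Finset.sum_insert (by decide), Finset.sum_pair (by decide)]

section Wick

variable {R : Type*} [CommRing R] [Algebra ℂ R]

theorem wick2 (X Y : Matrix (Fin r) (Fin r) R) :
    Ex (fun v => qf X v * qf Y v) = X.trace * Y.trace + (X * Y).trace := by
  have h := wick (by norm_num) (![X, Y] : Fin 2 → Matrix (Fin r) (Fin r) R)
  simp only [Fin.prod_univ_two, Matrix.cons_val_zero, Matrix.cons_val_one] at h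
  rw [h, sum_perm2, sum_fin2, sum_fin2]
  simp only [Equiv.Perm.one_apply, Equiv.swap_apply_left, Equiv.swap_apply_right,
    Matrix.cons_val_zero, Matrix.cons_val_one]
  simp only [Matrix.trace, Matrix.diag_apply, Matrix.mul_apply, Finset.sum_mul_sum]
  congr 1
  rw [Finset.sum_comm]

omit [Algebra ℂ R] in
lemma tr3_1 (X Y Z : Matrix (Fin r) (Fin r) R) :
    ∑ x, ∑ y, ∑ z, X x x * Y y y * Z z z = X.trace * Y.trace * Z.trace := by
  simp only [Matrix.trace, Matrix.diag_apply]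
  rw [Finset.sum_mul_sum, Finset.sum_mul]
  refine Finset.sum_congr rfl fun x _ => ?_
  rw [Finset.sum_mul]
  refine Finset.sum_congr rfl fun y _ => ?_
  rw [Finset.mul_sum]

omit [Algebra ℂ R] in
lemma tr3_2 (X Y Z : Matrix (Fin r) (Fin r) R) :
    ∑ x, ∑ y, ∑ z, X y x * Y x y * Z z z = Z.trace * (X * Y).trace := by
  simp only [Matrix.trace, Matrix.diag_apply, Matrix.mul_apply]
  rw [mul_comm, Finset.sum_mul, Finset.sum_comm]
  refine Finset.sum_congr rfl fun x _ => ?_
  rw [Finset.sum_mul]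
  refine Finset.sum_congr rfl fun y _ => ?_
  rw [Finset.mul_sum]

omit [Algebra ℂ R] in
lemma tr3_3 (X Y Z : Matrix (Fin r) (Fin r) R) :
    ∑ x, ∑ y, ∑ z, X z x * Y y y * Z x z = Y.trace * (X * Z).trace := by
  simp only [Matrix.trace, Matrix.diag_apply, Matrix.mul_apply]
  rw [Finset.sum_comm, Finset.sum_mul]
  refine Finset.sum_congr rfl fun y _ => ?_
  rw [Finset.mul_sum, Finset.sum_comm]
  refine Finset.sum_congr rfl fun z _ => ?_
  rw [Finset.mul_sum]
  refine Finset.sum_congr rfl fun x _ => ?_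
  ring

omit [Algebra ℂ R] in
lemma tr3_4 (X Y Z : Matrix (Fin r) (Fin r) R) :
    ∑ x, ∑ y, ∑ z, X x x * Y z y * Z y z = X.trace * (Y * Z).trace := by
  simp only [Matrix.trace, Matrix.diag_apply, Matrix.mul_apply]
  rw [Finset.sum_mul]
  refine Finset.sum_congr rfl fun x _ => ?_
  rw [Finset.mul_sum, Finset.sum_comm]
  refine Finset.sum_congr rfl fun z _ => ?_
  rw [Finset.mul_sum]
  refine Finset.sum_congr rfl fun y _ => ?_
  ring

omit [Algebra ℂ R] in
lemma tr3_5 (X Y Z : Matrix (Fin r) (Fin r) R) :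
    ∑ x, ∑ y, ∑ z, X y x * Y z y * Z x z = (X * Z * Y).trace := by
  simp only [Matrix.trace, Matrix.diag_apply, Matrix.mul_apply]
  rw [Finset.sum_comm]
  refine Finset.sum_congr rfl fun y _ => ?_
  simp only [Finset.sum_mul]
  rw [Finset.sum_comm]
  refine Finset.sum_congr rfl fun z _ => ?_
  refine Finset.sum_congr rfl fun x _ => ?_
  ring

omit [Algebra ℂ R] in
lemma tr3_6 (X Y Z : Matrix (Fin r) (Fin r) R) :
    ∑ x, ∑ y, ∑ z, X z x * Y x y * Z y z = (X * Y * Z).trace := by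
  simp only [Matrix.trace, Matrix.diag_apply, Matrix.mul_apply, Finset.sum_mul]
  calc ∑ x, ∑ y, ∑ z, X z x * Y x y * Z y z = ∑ x, ∑ z, ∑ y, X z x * Y x y * Z y z :=
        Finset.sum_congr rfl fun x _ => Finset.sum_comm
    _ = ∑ z, ∑ x, ∑ y, X z x * Y x y * Z y z := Finset.sum_comm
    _ = ∑ z, ∑ y, ∑ x, X z x * Y x y * Z y z := Finset.sum_congr rfl fun x _ => Finset.sum_comm

theorem wick3 (X Y Z : Matrix (Fin r) (Fin r) R) :
    Ex (fun v => qf X v * qf Y v * qf Z v) = X.trace * Y.trace * Z.trace +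
      X.trace * (Y * Z).trace + Y.trace * (X * Z).trace + Z.trace * (X * Y).trace +
      (X * Y * Z).trace + (X * Z * Y).trace := by
  have h := wick le_rfl (![X, Y, Z] : Fin 3 → Matrix (Fin r) (Fin r) R)
  simp only [Fin.prod_univ_three, Matrix.cons_val_zero, Matrix.cons_val_one,
    Matrix.cons_val_two] at h
  have h' : Ex (fun v => qf X v * qf Y v * qf Z v) = _ := h
  rw [h', sum_perm3]
  simp only [sum_fin3]
  change (∑ x, ∑ y, ∑ z, X x x * Y y y * Z z z) + ((∑ x, ∑ y, ∑ z, X y x * Y x y * Z z z) +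
    ((∑ x, ∑ y, ∑ z, X z x * Y y y * Z x z) + ((∑ x, ∑ y, ∑ z, X x x * Y z y * Z y z) +
    ((∑ x, ∑ y, ∑ z, X y x * Y z y * Z x z) + (∑ x, ∑ y, ∑ z, X z x * Y x y * Z y z))))) = _
  rw [tr3_1, tr3_2, tr3_3, tr3_4, tr3_5, tr3_6]
  ring

end Wick

end Pool.Agent.Helper94.Griff
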