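import Pool.Agent.Helper94.Griff.Defs
import Pool.Agent.Helper94.Griff.Gauss

/-!
Elementary symmetric functions of a matrix in terms of minors and traces.
-/

open Finset
open scoped Nat

namespace Pool.Agent.Helper94.Griff

variable {R : Type*} [CommRing R] {r : ℕ}

lemma chern_eq_minors (X : Matrix (Fin r) (Fin r) R) (m : ℕ) :
    chern X m = ∑ s ∈ (univ : Finset (Fin r)).powersetCard m,
      (X.submatrix (Subtype.val : s → Fin r) (Subtype.val : s → Fin r)).det :=
  Matrix.coeff_det_one_add_X_smul_eq_sum_minors X m

theorem factorial_mul_chern (X : Matrix (Fin r) (Fin r) R) (m : ℕ) :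
    ((m ! : ℕ) : R) * chern X m = ∑ f : Fin m → Fin r, (X.submatrix f f).det := by
  classical
  rw [chern_eq_minors]
  have h1 : ∑ f : Fin m → Fin r, (X.submatrix f f).det =
      ∑ f ∈ univ.filter (fun f : Fin m → Fin r => Function.Injective f),
        (X.submatrix f f).det := by
    symm
    refine Finset.sum_subset (Finset.filter_subset _ _) ?_
    intro f _ hf
    rw [Finset.mem_filter] at hf
    push Not at hf
    have hf' := hf (mem_univ _)
    rw [Function.Injective] at hf'
    push Not at hf'
    obtain ⟨i, j, hij, hne⟩ := hf'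
    exact Matrix.det_zero_of_row_eq hne (by funext k; simp [hij])
  have hmaps : ∀ f ∈ univ.filter (fun f : Fin m → Fin r => Function.Injective f),
      univ.image f ∈ (univ : Finset (Fin r)).powersetCard m := by
    intro f hf
    rw [Finset.mem_filter] at hf
    rw [Finset.mem_powersetCard]
    exact ⟨Finset.subset_univ _, by rw [Finset.card_image_of_injective _ hf.2]; simp⟩
  rw [h1, ← Finset.sum_fiberwise_of_maps_to hmaps, Finset.mul_sum]
  refine Finset.sum_congr rfl fun s hs => ?_
  have hcard : s.card = m := (Finset.mem_powersetCard.1 hs).2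
  have h2 : ∀ f ∈ (univ.filter (fun f : Fin m → Fin r => Function.Injective f)).filter
      (fun f => univ.image f = s), (X.submatrix f f).det =
        (X.submatrix (Subtype.val : s → Fin r) (Subtype.val : s → Fin r)).det := by
    intro f hf
    rw [Finset.mem_filter, Finset.mem_filter] at hf
    obtain ⟨⟨-, hinj⟩, him⟩ := hf
    have hmem : ∀ i, f i ∈ s := by
      intro i
      rw [← him]
      exact Finset.mem_image_of_mem _ (mem_univ _)
    let e : Fin m ≃ s := Equiv.ofBijective (fun i => ⟨f i, hmem i⟩) (by
      rw [Fintype.bijective_iff_injective_and_card]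
      refine ⟨fun i j hij => hinj (congrArg Subtype.val hij), ?_⟩
      rw [Fintype.card_fin, Fintype.card_coe, hcard])
    have := Matrix.det_submatrix_equiv_self e
      (X.submatrix (Subtype.val : s → Fin r) (Subtype.val : s → Fin r))
    rw [← this]
    rfl
  rw [Finset.sum_congr rfl h2, Finset.sum_const, nsmul_eq_mul]
  congr 2
  -- count
  have h3 : Fintype.card (Fin m ≃ s) = m ! := by
    have hc : Fintype.card (Fin m) = Fintype.card s := by
      rw [Fintype.card_fin, Fintype.card_coe, hcard]
    rw [Fintype.card_equiv (Fintype.equivOfCardEq hc), Fintype.card_fin]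
  rw [← h3, ← Finset.card_univ]
  refine Finset.card_bij (fun e _ => fun i => ((e i : s) : Fin r)) ?_ ?_ ?_
  · intro e _
    rw [Finset.mem_filter, Finset.mem_filter]
    refine ⟨⟨mem_univ _, Subtype.val_injective.comp e.injective⟩, ?_⟩
    ext x
    simp only [Finset.mem_image, mem_univ, true_and]
    constructor
    · rintro ⟨i, rfl⟩
      exact (e i).2
    · intro hx
      exact ⟨e.symm ⟨x, hx⟩, by simp⟩
  · intro e _ e' _ hee
    ext i
    exact congrArg Fin.val (congrFun hee i)
  · intro f hf
    rw [Finset.mem_filter, Finset.mem_filter] at hf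
    obtain ⟨⟨-, hinj⟩, him⟩ := hf
    have hmem : ∀ i, f i ∈ s := by
      intro i
      rw [← him]
      exact Finset.mem_image_of_mem _ (mem_univ _)
    refine ⟨Equiv.ofBijective (fun i => ⟨f i, hmem i⟩) ?_, mem_univ _, rfl⟩
    rw [Fintype.bijective_iff_injective_and_card]
    refine ⟨fun i j hij => hinj (congrArg Subtype.val hij), ?_⟩
    rw [Fintype.card_fin, Fintype.card_coe, hcard]

lemma chern_zero (X : Matrix (Fin r) (Fin r) R) : chern X 0 = 1 := by
  have h := factorial_mul_chern X 0
  simpa using h

lemma chern_gt (X : Matrix (Fin r) (Fin r) R) {m : ℕ} (h : r < m) : chern X m = 0 := by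
  rw [chern_eq_minors, Finset.powersetCard_eq_empty.2 (by simpa using h), Finset.sum_empty]

lemma chern_one (X : Matrix (Fin r) (Fin r) R) : chern X 1 = X.trace := by
  unfold chern
  exact Matrix.coeff_det_one_add_X_smul_one X

lemma two_mul_chern (X : Matrix (Fin r) (Fin r) R) :
    2 * chern X 2 = X.trace ^ 2 - (X * X).trace := by
  have h := factorial_mul_chern X 2
  rw [Nat.factorial_two] at h
  rw [show ((2 : ℕ) : R) = 2 by norm_num] at h
  rw [h, sum_fin2]
  simp only [Matrix.det_fin_two, Matrix.submatrix_apply, Matrix.cons_val_zero,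
    Matrix.cons_val_one, Finset.sum_sub_distrib, Matrix.trace, Matrix.diag_apply,
    Matrix.mul_apply, pow_two, Finset.sum_mul_sum]

lemma six_mul_chern (X : Matrix (Fin r) (Fin r) R) :
    6 * chern X 3 = X.trace ^ 3 - 3 * X.trace * (X * X).trace + 2 * (X * X * X).trace := by
  have h := factorial_mul_chern X 3
  rw [show (3 ! : ℕ) = 6 by rfl, show ((6 : ℕ) : R) = 6 by norm_num] at h
  rw [h, sum_fin3]
  have h1 : ∀ x y z : Fin r, (X.submatrix ![x, y, z] ![x, y, z]).det =
      X x x * X y y * X z z - X x x * X z y * X y z - X y x * X x y * X z z +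
        X z x * X x y * X y z + X y x * X z y * X x z - X z x * X y y * X x z := by
    intro x y z
    rw [Matrix.det_fin_three]
    simp only [Matrix.submatrix_apply, Matrix.cons_val_zero, Matrix.cons_val_one]
    change X x x * X y y * X z z - X x x * X y z * X z y - X x y * X y x * X z z +
      X x y * X y z * X z x + X x z * X y x * X z y - X x z * X y y * X z x = _
    ring
  simp only [h1, Finset.sum_sub_distrib, Finset.sum_add_distrib]
  rw [tr3_1, tr3_2, tr3_3, tr3_4, tr3_5, tr3_6]
  ring

end Pool.Agent.Helper94.Griff
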