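import Pool.Agent.Helper94.Griff.Two
import Pool.Agent.Helper94.Griff.Minors

/-!
Positivity of the third Chern form, and of the other Schur forms of degree at most three.
-/

open Finset Matrix
open scoped Nat ComplexOrder

namespace Pool.Agent.Helper94.Griff

set_option linter.unusedSectionVars false

section Ex

variable {r : ℕ}

lemma Ex_add {V : Type*} [AddCommGroup V] [Module ℂ V] (f g : (Fin r → ℂ) → V) :
    Ex (fun v => f v + g v) = Ex f + Ex g := by
  unfold Ex
  simp only [smul_add, Finset.sum_add_distrib]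

lemma Ex_sub {V : Type*} [AddCommGroup V] [Module ℂ V] (f g : (Fin r → ℂ) → V) :
    Ex (fun v => f v - g v) = Ex f - Ex g := by
  unfold Ex
  simp only [smul_sub, Finset.sum_sub_distrib]

lemma Ex_smul {V : Type*} [AddCommGroup V] [Module ℂ V] (c : ℂ) (f : (Fin r → ℂ) → V) :
    Ex (fun v => c • f v) = c • Ex f := by
  unfold Ex
  rw [Finset.smul_sum]
  refine Finset.sum_congr rfl fun ω _ => ?_
  rw [smul_comm]

lemma Ex_mul_const {R : Type*} [CommRing R] [Algebra ℂ R] (f : (Fin r → ℂ) → R) (x : R) :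
    Ex (fun v => f v * x) = Ex f * x := by
  unfold Ex
  rw [Finset.sum_mul]
  refine Finset.sum_congr rfl fun ω _ => ?_
  rw [smul_mul_assoc]

lemma map_Ex {V W : Type*} [AddCommGroup V] [Module ℂ V] [AddCommGroup W] [Module ℂ W]
    (ℓ : V →ₗ[ℂ] W) (f : (Fin r → ℂ) → V) : ℓ (Ex f) = Ex (fun v => ℓ (f v)) := by
  unfold Ex
  rw [map_sum]
  refine Finset.sum_congr rfl fun ω _ => ?_
  rw [map_smul]

lemma Ex_pos (f : (Fin r → ℂ) → ℂ) (h : ∀ v : Fin r → ℂ, (∀ c, v c ≠ 0) →
    ∃ x : ℝ, 0 < x ∧ f v = x) : ∃ x : ℝ, 0 < x ∧ Ex f = x := by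
  choose x hx hx' using fun ω : Fin r → Nd => h (fun c => nval (ω c)) (fun c => nval_ne _)
  refine ⟨∑ ω : Fin r → Nd, (∏ c, nwt (ω c)) * x ω, ?_, ?_⟩
  · exact Finset.sum_pos (fun ω _ => mul_pos (Finset.prod_pos fun c _ => nwt_pos _) (hx ω))
      ⟨fun _ => (0, 0), mem_univ _⟩
  · unfold Ex
    push_cast
    refine Finset.sum_congr rfl fun ω _ => ?_
    rw [hx', smul_eq_mul]

end Ex

variable {κ : Type*} [Fintype κ] [DecidableEq κ] {r : ℕ}

/-- the matrix of forms -/
noncomputable abbrev fm (B : Fin r → Fin r → Matrix κ κ ℂ) : Matrix (Fin r) (Fin r) (Forms κ) :=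
  Matrix.of fun a b => lin (B a b)

lemma lin_AV (B : Fin r → Fin r → Matrix κ κ ℂ) (v : Fin r → ℂ) :
    lin (AV B v) = qf (fm B) v := by
  unfold AV qf
  rw [lin_sum]
  refine Finset.sum_congr rfl fun a _ => ?_
  rw [lin_sum]
  refine Finset.sum_congr rfl fun b _ => ?_
  rw [lin_smul, MvPolynomial.smul_eq_C_mul]
  rfl

lemma lin_NB (B : Fin r → Fin r → Matrix κ κ ℂ) : lin (NB B) = (fm B).trace := by
  unfold NB Matrix.trace
  rw [lin_sum]
  rfl

lemma schur_ineq {x y z : ℝ} (hx : 0 ≤ x) (hy : 0 ≤ y) (hz : 0 ≤ z) :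
    0 ≤ (x + y + z) ^ 3 - 4 * (x + y + z) * (x * y + y * z + x * z) + 9 * (x * y * z) := by
  have key : ∀ x y z : ℝ, 0 ≤ x → 0 ≤ y → 0 ≤ z → y ≤ x → z ≤ y →
      0 ≤ (x + y + z) ^ 3 - 4 * (x + y + z) * (x * y + y * z + x * z) + 9 * (x * y * z) := by
    intro x y z hx hy hz h1 h2
    have a1 : 0 ≤ z * ((x - z) * (y - z)) :=
      mul_nonneg hz (mul_nonneg (by linarith) (by linarith))
    have a2 : 0 ≤ (x - y) ^ 2 * (x + y - z) := mul_nonneg (sq_nonneg _) (by linarith)
    nlinarith [a1, a2]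
  rcases le_total x y with h1 | h1 <;> rcases le_total y z with h2 | h2 <;>
    rcases le_total x z with h3 | h3
  · have := key z y x hz hy hx h2 h1; nlinarith [this]
  · have := key z y x hz hy hx h2 h1; nlinarith [this]
  · have := key y z x hy hz hx h2 h3; nlinarith [this]
  · have := key y x z hy hx hz h1 h3; nlinarith [this]
  · have := key z x y hz hx hy h3 h1; nlinarith [this]
  · have := key x z y hx hz hy h3 h2; nlinarith [this]
  · have := key x y z hx hy hz h1 h2; nlinarith [this]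
  · have := key x y z hx hy hz h1 h2; nlinarith [this]

/-- spectral data of a positive definite matrix -/
lemma exists_eigen_pos {A : Matrix κ κ ℂ} (hA : A.PosDef) :
    ∃ p : κ → ℝ, (∀ i, 0 < p i) ∧ A.trace = ((∑ i, p i : ℝ) : ℂ) ∧
      ∀ s t : ℂ, (s • A + t • (1 : Matrix κ κ ℂ)).det = ∏ i, (s * (p i : ℂ) + t) := by
  classical
  have hH := hA.isHermitian
  have hsp := hH.spectral_theorem
  rw [Unitary.conjStarAlgAut_apply] at hsp
  set U : Matrix κ κ ℂ := (hH.eigenvectorUnitary : Matrix κ κ ℂ) with hU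
  have hUU : star U * U = 1 := Unitary.coe_star_mul_self _
  have hUU' : U * star U = 1 := Unitary.coe_mul_star_self _
  set D : Matrix κ κ ℂ := Matrix.diagonal (RCLike.ofReal ∘ hH.eigenvalues) with hD
  refine ⟨hH.eigenvalues, hA.eigenvalues_pos, ?_, ?_⟩
  · rw [hH.trace_eq_sum_eigenvalues]
    push_cast
    rfl
  · intro s t
    have e1 : s • A + t • (1 : Matrix κ κ ℂ) = U * (s • D + t • 1) * star U := by
      conv_lhs => rw [hsp]
      rw [Matrix.mul_add, Matrix.add_mul, Matrix.mul_smul, Matrix.smul_mul, Matrix.mul_smul,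
        Matrix.smul_mul, Matrix.mul_one, hUU']
    have e2 : (U * (s • D + t • 1) * star U).det = (s • D + t • 1).det := by
      rw [Matrix.det_mul, Matrix.det_mul, mul_comm, ← mul_assoc, ← Matrix.det_mul, hUU,
        Matrix.det_one, one_mul]
    have e3 : s • D + t • (1 : Matrix κ κ ℂ) =
        Matrix.diagonal fun i => (s * (hH.eigenvalues i : ℂ) + t) := by
      rw [hD]
      ext i j
      by_cases h : i = j
      · subst h
        simp
      · simp [h]
    rw [e1, e2, e3, Matrix.det_diagonal]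

/-- the volumes in degree three -/
lemma vol_three {A : Matrix κ κ ℂ} (hA : A.PosDef) (hcard : Fintype.card κ = 3) :
    ∃ x y z : ℝ, 0 < x ∧ 0 < y ∧ 0 < z ∧ A.trace = ((x + y + z : ℝ) : ℂ) ∧
      vol (lin 1 ^ 3 : Forms κ) = 6 ∧
      vol (lin A ^ 2 * lin 1) = ((2 * (x * y + y * z + x * z) : ℝ) : ℂ) ∧
      vol (lin A ^ 3) = ((6 * (x * y * z) : ℝ) : ℂ) := by
  obtain ⟨p, hp, htr, hdet⟩ := exists_eigen_pos hA
  let e : Fin 3 ≃ κ := (Fintype.equivFinOfCardEq hcard).symm
  refine ⟨p (e 0), p (e 1), p (e 2), hp _, hp _, hp _, ?_, ?_, ?_, ?_⟩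
  · rw [htr, ← e.sum_comp, Fin.sum_univ_three]
  · have := vol_lin_pow (1 : Matrix κ κ ℂ)
    rw [hcard, Matrix.det_one] at this
    rw [this]
    norm_num [Nat.factorial]
  · have hP : (∑ j ∈ range (Fintype.card κ + 1), Polynomial.C (((Fintype.card κ).choose j : ℂ) *
        vol (lin A ^ j * lin 1 ^ (Fintype.card κ - j))) * Polynomial.X ^ j) =
        Polynomial.C 6 * ((Polynomial.C (p (e 0) : ℂ) * Polynomial.X + 1) *
          (Polynomial.C (p (e 1) : ℂ) * Polynomial.X + 1) *
          (Polynomial.C (p (e 2) : ℂ) * Polynomial.X + 1)) := by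
      apply Polynomial.funext
      intro u
      rw [Polynomial.eval_finsetSum]
      simp only [Polynomial.eval_mul, Polynomial.eval_C, Polynomial.eval_pow, Polynomial.eval_X,
        Polynomial.eval_add, Polynomial.eval_one]
      rw [vol_pow_mul_sum]
      have h1 := hdet u 1
      rw [one_smul] at h1
      rw [h1, ← e.prod_comp, Fin.prod_univ_three, hcard]
      norm_num [Nat.factorial]
      ring
    have hc := congrArg (fun P => Polynomial.coeff P 2) hP
    simp only [Polynomial.finsetSum_coeff, Polynomial.coeff_C_mul, Polynomial.coeff_X_pow,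
      mul_ite, mul_one, mul_zero] at hc
    rw [Finset.sum_ite_eq, if_pos (Finset.mem_range.2 (by omega)), hcard] at hc
    have hexp : ((Polynomial.C (p (e 0) : ℂ) * Polynomial.X + 1) *
          (Polynomial.C (p (e 1) : ℂ) * Polynomial.X + 1) *
          (Polynomial.C (p (e 2) : ℂ) * Polynomial.X + 1)) =
        Polynomial.C ((p (e 0) : ℂ) * p (e 1) * p (e 2)) * Polynomial.X ^ 3 +
        Polynomial.C ((p (e 0) : ℂ) * p (e 1) + p (e 1) * p (e 2) + p (e 0) * p (e 2)) *
          Polynomial.X ^ 2 + Polynomial.C ((p (e 0) : ℂ) + p (e 1) + p (e 2)) *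
          Polynomial.X + 1 := by
      simp only [map_add, map_mul]
      ring
    rw [hexp] at hc
    simp only [Polynomial.coeff_add, Polynomial.coeff_C_mul, Polynomial.coeff_X_pow,
      Polynomial.coeff_X, Polynomial.coeff_one] at hc
    norm_num at hc
    push_cast
    linear_combination (1 / 3 : ℂ) * hc
  · have := vol_lin_pow A
    rw [hcard] at this
    have h1 := hdet 1 0
    rw [one_smul, zero_smul, add_zero, ← e.prod_comp, Fin.prod_univ_three] at h1
    rw [this, h1]
    push_cast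
    norm_num [Nat.factorial]

lemma fm_tra (B : Fin r → Fin r → Matrix κ κ ℂ) (g : Matrix (Fin r) (Fin r) ℂ)
    (h : Matrix κ κ ℂ) : fm (tra B g h) =
      (g.conjTranspose.map MvPolynomial.C * fm B * g.map MvPolynomial.C).map (chg h) := by
  ext1 a b
  change lin (h * conjg B g a b * h.conjTranspose) = chg h _
  rw [← chg_lin]
  congr 1
  unfold conjg
  simp only [Matrix.mul_apply, lin_sum, lin_smul, Matrix.map_apply, Matrix.conjTranspose_apply,
    Matrix.of_apply, Finset.sum_mul]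
  rw [Finset.sum_comm]
  refine Finset.sum_congr rfl fun c _ => Finset.sum_congr rfl fun d _ => ?_
  rw [map_mul]
  ring

lemma det_fm_tra (B : Fin r → Fin r → Matrix κ κ ℂ) (g : Matrix (Fin r) (Fin r) ℂ)
    (h : Matrix κ κ ℂ) :
    (fm (tra B g h)).det = (g.det * star g.det) • chg h ((fm B).det) := by
  rw [fm_tra]
  have h1 : ((g.conjTranspose.map MvPolynomial.C * fm B * g.map MvPolynomial.C).map (chg h)).det =
      chg h (g.conjTranspose.map MvPolynomial.C * fm B * g.map MvPolynomial.C).det :=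
    (AlgHom.map_det (chg h) _).symm
  have h2 : ∀ m : Matrix (Fin r) (Fin r) ℂ,
      (m.map MvPolynomial.C : Matrix (Fin r) (Fin r) (Forms κ)).det = MvPolynomial.C m.det := by
    intro m
    exact (RingHom.map_det (MvPolynomial.C : ℂ →+* Forms κ) m).symm
  rw [h1, Matrix.det_mul, Matrix.det_mul, h2, h2, Matrix.det_conjTranspose, ← map_smul]
  congr 1
  rw [MvPolynomial.smul_eq_C_mul, map_mul]
  ring

lemma isHomogeneous_det (B : Fin r → Fin r → Matrix κ κ ℂ) : (fm B).det.IsHomogeneous r := by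
  rw [Matrix.det_apply]
  refine MvPolynomial.IsHomogeneous.sum _ _ _ fun σ _ => ?_
  have h1 : (∏ i, fm B (σ i) i).IsHomogeneous (∑ _i : Fin r, 1) :=
    MvPolynomial.IsHomogeneous.prod _ _ _ fun i _ => lin_isHomogeneous _
  rw [Finset.sum_const, Finset.card_univ, Fintype.card_fin, smul_eq_mul, mul_one] at h1
  rcases Int.units_eq_one_or (Equiv.Perm.sign σ) with h | h
  · rw [h, one_smul]; exact h1
  · rw [h, Units.neg_smul, one_smul]; exact h1.neg

lemma trace_AV_scale {B : Fin r → Fin r → Matrix κ κ ℂ} {a : ℕ}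
    (htr : ∀ v : Fin r → ℂ, ∑ i, star (v i) * v i = 1 → (AV B v).trace = a) {v : Fin r → ℂ}
    (hv : v ≠ 0) : ∃ t : ℝ, 0 < t ∧ ∑ i, star (v i) * v i = t ∧ (AV B v).trace = a * t := by
  set t : ℝ := ∑ i, ‖v i‖ ^ 2 with ht
  have hst : ∑ i, star (v i) * v i = (t : ℂ) := by
    rw [ht]
    push_cast
    refine Finset.sum_congr rfl fun i _ => ?_
    rw [mul_comm, RCLike.star_def, Complex.mul_conj, Complex.normSq_eq_norm_sq]
    push_cast
    rfl
  have htpos : 0 < t := by
    obtain ⟨i, hi⟩ : ∃ i, v i ≠ 0 := by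
      by_contra hcon
      push Not at hcon
      exact hv (funext hcon)
    rw [ht]
    exact Finset.sum_pos' (fun j _ => by positivity) ⟨i, mem_univ _, by
      have := norm_pos_iff.2 hi
      positivity⟩
  refine ⟨t, htpos, hst, ?_⟩
  set c : ℂ := ((Real.sqrt t : ℝ) : ℂ) with hc
  have hcc : c * c = t := by
    rw [hc, ← Complex.ofReal_mul, Real.mul_self_sqrt htpos.le]
  have hc0 : c ≠ 0 := by
    rw [hc]
    exact_mod_cast (Real.sqrt_pos.2 htpos).ne'
  have hcs : star c = c := by rw [hc]; simp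
  have hu : ∑ i, star ((c⁻¹ • v) i) * (c⁻¹ • v) i = 1 := by
    have : ∀ i, star ((c⁻¹ • v) i) * (c⁻¹ • v) i = (c * c)⁻¹ * (star (v i) * v i) := by
      intro i
      rw [Pi.smul_apply, smul_eq_mul, star_mul', star_inv₀, hcs, mul_inv]
      ring
    simp only [this]
    rw [← Finset.mul_sum, hst, hcc]
    exact inv_mul_cancel₀ (by exact_mod_cast htpos.ne')
  have h1 := htr _ hu
  have h2 : AV B (c⁻¹ • v) = (c * c)⁻¹ • AV B v := by
    unfold AV
    rw [Finset.smul_sum]
    refine Finset.sum_congr rfl fun a _ => ?_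
    rw [Finset.smul_sum]
    refine Finset.sum_congr rfl fun b _ => ?_
    rw [smul_smul, Pi.smul_apply, Pi.smul_apply, smul_eq_mul, smul_eq_mul, star_mul', star_inv₀,
      hcs, mul_inv]
    congr 1
    ring
  rw [h2, Matrix.trace_smul, hcc, smul_eq_mul] at h1
  have htc : (t : ℂ) ≠ 0 := by exact_mod_cast htpos.ne'
  field_simp at h1
  rw [h1, mul_comm]

lemma identity_three {R : Type*} [CommRing R] [Algebra ℂ R] (X : Matrix (Fin 3) (Fin 3) R) :
    Ex (fun v => (1 / 60 : ℂ) • (qf 1 v * qf 1 v * qf 1 v * X.trace ^ 3) -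
      (1 / 5 : ℂ) • (qf 1 v * qf X v * qf X v * X.trace) +
      (1 / 6 : ℂ) • (qf X v * qf X v * qf X v)) = chern X 3 := by
  rw [Ex_add, Ex_sub, Ex_smul, Ex_smul, Ex_smul, Ex_mul_const, Ex_mul_const, wick3, wick3, wick3]
  simp only [Matrix.mul_one, Matrix.one_mul, Matrix.trace_one, Fintype.card_fin]
  have h6 := six_mul_chern X
  simp only [Algebra.smul_def]
  have e60 : algebraMap ℂ R (1 / 60) * 60 = 1 := by
    rw [← map_ofNat (algebraMap ℂ R) 60, ← map_mul]
    norm_num
  have e5 : algebraMap ℂ R (1 / 5) * 5 = 1 := by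
    rw [← map_ofNat (algebraMap ℂ R) 5, ← map_mul]
    norm_num
  have e6 : algebraMap ℂ R (1 / 6) * 6 = 1 := by
    rw [← map_ofNat (algebraMap ℂ R) 6, ← map_mul]
    norm_num
  push_cast
  linear_combination X.trace ^ 3 * e60 - (X.trace ^ 2 + (X * X).trace) * X.trace * e5 +
    (chern X 3 + X.trace * (X * X).trace) * e6 - algebraMap ℂ R (1 / 6) * h6

lemma chern_eq_det {R : Type*} [CommRing R] (X : Matrix (Fin r) (Fin r) R) :
    chern X r = X.det := by
  have h1 : (univ : Finset (Fin r)).powersetCard r = {univ} := by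
    have := Finset.powersetCard_self (univ : Finset (Fin r))
    rwa [Finset.card_univ, Fintype.card_fin] at this
  rw [chern_eq_minors, h1, Finset.sum_singleton]
  exact Matrix.det_submatrix_equiv_self (Equiv.subtypeUnivEquiv fun _ => mem_univ _) X

lemma qf_one {R : Type*} [CommRing R] [Algebra ℂ R] (v : Fin r → ℂ) :
    qf (1 : Matrix (Fin r) (Fin r) R) v = (∑ i, star (v i) * v i) • (1 : R) := by
  unfold qf
  rw [Finset.sum_smul]
  refine Finset.sum_congr rfl fun i _ => ?_
  rw [Finset.sum_eq_single i]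
  · rw [Matrix.one_apply_eq]
  · intro j _ hj
    rw [Matrix.one_apply_ne hj.symm, smul_zero]
  · intro h
    exact absurd (mem_univ _) h

theorem three_pos_scaled {B : Fin 3 → Fin 3 → Matrix κ κ ℂ} (hB : GP B)
    (hcard : Fintype.card κ = 3) (hN : NB B = 1)
    (htr : ∀ v : Fin 3 → ℂ, ∑ i, star (v i) * v i = 1 → (AV B v).trace = ((1 : ℕ) : ℂ)) :
    ∃ x : ℝ, 0 < x ∧ vol (chern (fm B) 3) = x := by
  rw [← identity_three, map_Ex]
  apply Ex_pos
  intro v hv
  have hv0 : v ≠ 0 := by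
    intro h0
    exact hv 0 (congrFun h0 0)
  obtain ⟨t, ht, hst, htrv⟩ := trace_AV_scale htr hv0
  obtain ⟨x, y, z, hx, hy, hz, hA, v1, v2, v3⟩ := vol_three (hB v hv0) hcard
  have htxyz : t = x + y + z := by
    rw [hA] at htrv
    have : ((x + y + z : ℝ) : ℂ) = ((t : ℝ) : ℂ) := by
      rw [htrv]
      push_cast
      ring
    exact_mod_cast this.symm
  have hT : (fm B).trace = lin 1 := by rw [← lin_NB, hN]
  refine ⟨(1 / 10) * ((x + y + z) ^ 3 - 4 * (x + y + z) * (x * y + y * z + x * z) +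
    9 * (x * y * z)) + (1 / 10) * (x * y * z), ?_, ?_⟩
  · have h1 := schur_ineq hx.le hy.le hz.le
    have h2 : 0 < x * y * z := by positivity
    linarith
  · rw [qf_one, hst, ← lin_AV, hT]
    have e1 : ((t : ℂ) • (1 : Forms κ)) * ((t : ℂ) • (1 : Forms κ)) * ((t : ℂ) • (1 : Forms κ)) *
        lin 1 ^ 3 = ((t : ℂ) ^ 3) • (lin 1 ^ 3) := by
      simp only [Algebra.smul_def, mul_one, map_pow]
      ring
    have e2 : ((t : ℂ) • (1 : Forms κ)) * lin (AV B v) * lin (AV B v) * lin 1 =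
        (t : ℂ) • (lin (AV B v) ^ 2 * lin 1) := by
      simp only [Algebra.smul_def, mul_one]
      ring
    have e3 : lin (AV B v) * lin (AV B v) * lin (AV B v) = lin (AV B v) ^ 3 := by ring
    rw [e1, e2, e3, map_add, map_sub, map_smul, map_smul, map_smul, map_smul, map_smul, v1, v2, v3]
    simp only [smul_eq_mul]
    rw [htxyz]
    push_cast
    ring

/-- `c_3 > 0` in rank three -/
theorem three_pos {B : Fin 3 → Fin 3 → Matrix κ κ ℂ} (hB : GP B)
    (hcard : Fintype.card κ = 3) : ∃ x : ℝ, 0 < x ∧ vol ((fm B).det) = x := by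
  obtain ⟨g, h, hg, hh, hN, htr⟩ := exists_scaling (a := 1) (by norm_num) hB one_pos
    (by rw [hcard])
  obtain ⟨x, hx, hx'⟩ := three_pos_scaled (GP_tra hB hg hh) hcard hN htr
  have hhom : (fm B).det.IsHomogeneous (Fintype.card κ) := by
    rw [hcard]; exact isHomogeneous_det B
  rw [chern_eq_det, det_fm_tra, map_smul, vol_chg h hhom, smul_eq_mul] at hx'
  obtain ⟨p1, e1⟩ := mul_star_pos hg
  obtain ⟨p2, e2⟩ := mul_star_pos hh
  rw [e1, e2] at hx'
  refine ⟨x / (‖g.det‖ ^ 2 * ‖h.det‖ ^ 2), by positivity, ?_⟩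
  have hne : ((‖g.det‖ ^ 2 * ‖h.det‖ ^ 2 : ℝ) : ℂ) ≠ 0 := by
    have : ‖g.det‖ ^ 2 * ‖h.det‖ ^ 2 ≠ 0 := by positivity
    exact_mod_cast this
  rw [Complex.ofReal_div, eq_div_iff hne, ← hx']
  push_cast
  ring

/-- compression of a family -/
noncomputable def cpr {m : ℕ} (B : Fin r → Fin r → Matrix κ κ ℂ) (g : Matrix (Fin r) (Fin m) ℂ) :
    Fin m → Fin m → Matrix κ κ ℂ :=
  fun a b => ∑ c, ∑ d, (star (g c a) * g d b) • B c d

lemma AV_cpr {m : ℕ} (B : Fin r → Fin r → Matrix κ κ ℂ) (g : Matrix (Fin r) (Fin m) ℂ)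
    (v : Fin m → ℂ) : AV (cpr B g) v = AV B (g.mulVec v) := by
  unfold AV cpr
  have h1 : ∀ c d, (star (g.mulVec v c) * g.mulVec v d) • B c d =
      ∑ a, ∑ b, (star (v a) * v b) • ((star (g c a) * g d b) • B c d) := by
    intro c d
    simp only [Matrix.mulVec, dotProduct, star_sum, Finset.sum_mul_sum, Finset.sum_smul, star_mul',
      smul_smul]
    refine Finset.sum_congr rfl fun a _ => Finset.sum_congr rfl fun b _ => ?_
    congr 1
    ring
  simp only [h1, Finset.smul_sum]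
  calc ∑ a, ∑ b, ∑ c, ∑ d, (star (v a) * v b) • (star (g c a) * g d b) • B c d
      = ∑ a, ∑ c, ∑ b, ∑ d, (star (v a) * v b) • (star (g c a) * g d b) • B c d := by
        refine Finset.sum_congr rfl fun a _ => Finset.sum_comm
    _ = ∑ c, ∑ a, ∑ b, ∑ d, (star (v a) * v b) • (star (g c a) * g d b) • B c d := Finset.sum_comm
    _ = ∑ c, ∑ a, ∑ d, ∑ b, (star (v a) * v b) • (star (g c a) * g d b) • B c d := by
        refine Finset.sum_congr rfl fun c _ => Finset.sum_congr rfl fun a _ => Finset.sum_comm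
    _ = ∑ c, ∑ d, ∑ a, ∑ b, (star (v a) * v b) • (star (g c a) * g d b) • B c d := by
        refine Finset.sum_congr rfl fun c _ => Finset.sum_comm

lemma GP_cpr {m : ℕ} {B : Fin r → Fin r → Matrix κ κ ℂ} (hB : GP B)
    {g : Matrix (Fin r) (Fin m) ℂ} (hg : ∀ v : Fin m → ℂ, g.mulVec v = 0 → v = 0) :
    GP (cpr B g) := by
  intro v hv
  rw [AV_cpr]
  exact hB _ fun h => hv (hg v h)

lemma GP_sub_frame {m : ℕ} {B : Fin r → Fin r → Matrix κ κ ℂ} (hB : GP B) {f : Fin m → Fin r}
    (hf : Function.Injective f) : GP (fun i j => B (f i) (f j)) := by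
  have h1 : (fun i j => B (f i) (f j)) =
      cpr B (Matrix.of fun c i => if f i = c then 1 else 0) := by
    funext i j
    unfold cpr
    rw [Finset.sum_eq_single (f i), Finset.sum_eq_single (f j)]
    · simp
    · intro d _ hd
      simp [hd.symm]
    · intro h
      exact absurd (mem_univ _) h
    · intro c _ hc
      refine Finset.sum_eq_zero fun d _ => ?_
      simp [hc.symm]
    · intro h
      exact absurd (mem_univ _) h
  rw [h1]
  refine GP_cpr hB fun v hv => ?_
  funext i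
  have h2 := congrFun hv (f i)
  rw [Matrix.mulVec, dotProduct, Finset.sum_eq_single i] at h2
  · simpa using h2
  · intro j _ hj
    have : f j ≠ f i := fun h => hj (hf h)
    simp [this]
  · intro h
    exact absurd (mem_univ _) h

/-- `c_1 > 0` -/
theorem e1_pos {B : Fin r → Fin r → Matrix κ κ ℂ} (hB : GP B) (hr : 1 ≤ r)
    (hcard : Fintype.card κ = 1) : ∃ x : ℝ, 0 < x ∧ vol (chern (fm B) 1) = x := by
  have : Nonempty (Fin r) := ⟨⟨0, hr⟩⟩
  have h1 : NB B = NB (conjg B 1) := by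
    rw [NB_conjg]
    simp only [Matrix.conjTranspose_one, Matrix.mul_one]
    unfold NB
    refine Finset.sum_congr rfl fun c _ => ?_
    rw [Finset.sum_eq_single c]
    · rw [Matrix.one_apply_eq, one_smul]
    · intro d _ hd
      rw [Matrix.one_apply_ne hd, zero_smul]
    · intro h
      exact absurd (mem_univ _) h
  have h2 := (NB_posDef hB (g := (1 : Matrix (Fin r) (Fin r) ℂ)) one_ne_zero).det_pos
  rw [← h1] at h2
  have h3 := vol_lin_pow (NB B)
  rw [hcard, pow_one, Nat.factorial_one] at h3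
  rw [chern_one, ← lin_NB, h3]
  rw [Complex.pos_iff] at h2
  refine ⟨(NB B).det.re, h2.1, ?_⟩
  apply Complex.ext
  · simp
  · simpa using h2.2.symm

/-- sum over frames -/
lemma chern_pos_of_det {m : ℕ} {B : Fin r → Fin r → Matrix κ κ ℂ} (hB : GP B) (hm : m ≤ r)
    (h : ∀ B' : Fin m → Fin m → Matrix κ κ ℂ, GP B' → ∃ x : ℝ, 0 < x ∧ vol ((fm B').det) = x) :
    ∃ x : ℝ, 0 < x ∧ vol (chern (fm B) m) = x := by
  classical
  have h1 : ∀ f : Fin m → Fin r, ∃ x : ℝ, 0 ≤ x ∧ (Function.Injective f → 0 < x) ∧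
      vol (((fm B).submatrix f f).det) = x := by
    intro f
    by_cases hf : Function.Injective f
    · obtain ⟨x, hx, hx'⟩ := h _ (GP_sub_frame hB hf)
      exact ⟨x, hx.le, fun _ => hx, hx'⟩
    · refine ⟨0, le_rfl, fun h => absurd h hf, ?_⟩
      rw [Function.Injective] at hf
      push Not at hf
      obtain ⟨i, j, hij, hne⟩ := hf
      rw [Matrix.det_zero_of_row_eq hne (by funext k; simp [hij])]
      simp
  choose x hx0 hx hx' using h1
  have h2 := congrArg vol (factorial_mul_chern (fm B) m)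
  rw [← nsmul_eq_mul, map_nsmul, map_sum, Finset.sum_congr rfl fun f _ => hx' f,
    nsmul_eq_mul] at h2
  refine ⟨(∑ f : Fin m → Fin r, x f) / (m ! : ℝ), ?_, ?_⟩
  · refine div_pos ?_ (by positivity)
    refine Finset.sum_pos' (fun f _ => hx0 f) ⟨Fin.castLE hm, mem_univ _, hx _ ?_⟩
    exact Fin.castLE_injective hm
  · have hne : ((m ! : ℝ) : ℂ) ≠ 0 := by
      exact_mod_cast (Nat.factorial_pos m).ne'
    rw [Complex.ofReal_div, eq_div_iff hne, mul_comm]
    push_cast at h2 ⊢
    exact h2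

/-- `c_2 > 0` -/
theorem e2_pos {B : Fin r → Fin r → Matrix κ κ ℂ} (hB : GP B) (hr : 2 ≤ r)
    (hcard : Fintype.card κ = 2) : ∃ x : ℝ, 0 < x ∧ vol (chern (fm B) 2) = x := by
  refine chern_pos_of_det hB hr fun B' hB' => ?_
  obtain ⟨x, hx, hx'⟩ := twoDet_pow_pos hB' (a := 1) (by rw [hcard])
  refine ⟨x, hx, ?_⟩
  rw [← hx', pow_one, Matrix.det_fin_two]
  rfl

/-- `c_3 > 0` -/
theorem e3_pos {B : Fin r → Fin r → Matrix κ κ ℂ} (hB : GP B) (hr : 3 ≤ r)
    (hcard : Fintype.card κ = 3) : ∃ x : ℝ, 0 < x ∧ vol (chern (fm B) 3) = x :=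
  chern_pos_of_det hB hr fun _ hB' => three_pos hB' hcard

lemma ne_zero_of_coord {v : Fin r → ℂ} (hr : 1 ≤ r) (hv : ∀ c, v c ≠ 0) : v ≠ 0 := by
  intro h0
  exact hv ⟨0, hr⟩ (congrFun h0 _)

lemma lin_pow_pos {A : Matrix κ κ ℂ} (hA : A.PosDef) : ∃ x : ℝ, 0 < x ∧
    vol (lin A ^ Fintype.card κ) = x := by
  have h2 := hA.det_pos
  rw [Complex.pos_iff] at h2
  refine ⟨(Fintype.card κ)! * A.det.re, by have := h2.1; positivity, ?_⟩
  rw [vol_lin_pow]
  have : A.det = (A.det.re : ℂ) := by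
    apply Complex.ext
    · simp
    · simpa using h2.2.symm
  rw [this]
  push_cast
  simp

/-- `c_1² - c_2 > 0` -/
theorem h2_pos {B : Fin r → Fin r → Matrix κ κ ℂ} (hB : GP B) (hr : 1 ≤ r)
    (hcard : Fintype.card κ = 2) :
    ∃ x : ℝ, 0 < x ∧ vol (chern (fm B) 1 ^ 2 - chern (fm B) 2) = x := by
  have h1 : Ex (fun v => (1 / 2 : ℂ) • (qf (fm B) v * qf (fm B) v)) =
      chern (fm B) 1 ^ 2 - chern (fm B) 2 := by
    rw [Ex_smul, wick2, chern_one]
    have h2 := two_mul_chern (fm B)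
    have e2 : algebraMap ℂ (Forms κ) (1 / 2) * 2 = 1 := by
      rw [← map_ofNat (algebraMap ℂ (Forms κ)) 2, ← map_mul]
      norm_num
    rw [Algebra.smul_def]
    linear_combination ((fm B).trace ^ 2 - chern (fm B) 2) * e2 + algebraMap ℂ (Forms κ) (1 / 2) * h2
  rw [← h1, map_Ex]
  apply Ex_pos
  intro v hv
  obtain ⟨x, hx, hx'⟩ := lin_pow_pos (hB v (ne_zero_of_coord hr hv))
  rw [hcard] at hx'
  refine ⟨x / 2, by positivity, ?_⟩
  rw [← lin_AV, map_smul, ← pow_two, hx', smul_eq_mul]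
  push_cast
  ring

/-- `c_1³ - 2 c_1 c_2 + c_3 > 0` -/
theorem h3_pos {B : Fin r → Fin r → Matrix κ κ ℂ} (hB : GP B) (hr : 1 ≤ r)
    (hcard : Fintype.card κ = 3) :
    ∃ x : ℝ, 0 < x ∧ vol (chern (fm B) 1 ^ 3 - 2 * (chern (fm B) 1 * chern (fm B) 2) +
      chern (fm B) 3) = x := by
  have h1 : Ex (fun v => (1 / 6 : ℂ) • (qf (fm B) v * qf (fm B) v * qf (fm B) v)) =
      chern (fm B) 1 ^ 3 - 2 * (chern (fm B) 1 * chern (fm B) 2) + chern (fm B) 3 := by
    rw [Ex_smul, wick3, chern_one]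
    have h2 := two_mul_chern (fm B)
    have h3 := six_mul_chern (fm B)
    have e6 : algebraMap ℂ (Forms κ) (1 / 6) * 6 = 1 := by
      rw [← map_ofNat (algebraMap ℂ (Forms κ)) 6, ← map_mul]
      norm_num
    rw [Algebra.smul_def]
    linear_combination ((fm B).trace ^ 3 - 2 * ((fm B).trace * chern (fm B) 2) + chern (fm B) 3) * e6 -
      algebraMap ℂ (Forms κ) (1 / 6) * h3 + algebraMap ℂ (Forms κ) (1 / 6) * 6 * (fm B).trace * h2
  rw [← h1, map_Ex]
  apply Ex_pos
  intro v hv
  obtain ⟨x, hx, hx'⟩ := lin_pow_pos (hB v (ne_zero_of_coord hr hv))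
  rw [hcard] at hx'
  refine ⟨x / 6, by positivity, ?_⟩
  rw [← lin_AV, map_smul, show lin (AV B v) * lin (AV B v) * lin (AV B v) = lin (AV B v) ^ 3 by ring,
    hx', smul_eq_mul]
  push_cast
  ring

/-- the frame `(v, e_c)` -/
noncomputable def vframe (v : Fin r → ℂ) (c : Fin r) : Matrix (Fin r) (Fin 2) ℂ :=
  Matrix.of fun a j => ![v a, if a = c then 1 else 0] j

lemma twoDet_vframe (B : Fin r → Fin r → Matrix κ κ ℂ) (v : Fin r → ℂ) (c : Fin r) :
    twoDet (cpr B (vframe v c)) = qf (fm B) v * fm B c c -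
      (∑ a, star (v a) • fm B a c) * (∑ b, v b • fm B c b) := by
  have h00 : lin (cpr B (vframe v c) 0 0) = qf (fm B) v := by
    rw [← lin_AV]
    rfl
  have h11 : cpr B (vframe v c) 1 1 = B c c := by
    unfold cpr vframe
    simp only [Matrix.of_apply, Matrix.cons_val_one]
    rw [Finset.sum_eq_single c, Finset.sum_eq_single c]
    · simp
    · intro d _ hd
      simp [hd]
    · intro h
      exact absurd (mem_univ _) h
    · intro d _ hd
      simp [hd]
    · intro h
      exact absurd (mem_univ _) h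
  have h01 : lin (cpr B (vframe v c) 0 1) = ∑ a, star (v a) • fm B a c := by
    unfold cpr vframe
    simp only [Matrix.of_apply, Matrix.cons_val_one, Matrix.cons_val_zero]
    rw [lin_sum]
    refine Finset.sum_congr rfl fun a _ => ?_
    rw [Finset.sum_eq_single c]
    · rw [if_pos rfl, mul_one, lin_smul, MvPolynomial.smul_eq_C_mul]
    · intro d _ hd
      simp [hd]
    · intro h
      exact absurd (mem_univ _) h
  have h10 : lin (cpr B (vframe v c) 1 0) = ∑ b, v b • fm B c b := by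
    unfold cpr vframe
    simp only [Matrix.of_apply, Matrix.cons_val_one, Matrix.cons_val_zero]
    rw [Finset.sum_eq_single c]
    · rw [lin_sum]
      refine Finset.sum_congr rfl fun a _ => ?_
      rw [if_pos rfl, star_one, one_mul, lin_smul, MvPolynomial.smul_eq_C_mul]
    · intro d _ hd
      refine Finset.sum_eq_zero fun e _ => ?_
      simp [hd]
    · intro h
      exact absurd (mem_univ _) h
  unfold twoDet
  rw [h00, h11, h01, h10]
  rfl

lemma sum_uw {R : Type*} [CommRing R] [Algebra ℂ R] (X : Matrix (Fin r) (Fin r) R)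
    (v : Fin r → ℂ) : ∑ c, (∑ a, star (v a) • X a c) * (∑ b, v b • X c b) = qf (X * X) v := by
  unfold qf
  simp only [Matrix.mul_apply, Finset.sum_mul_sum, smul_mul_smul_comm, Finset.smul_sum]
  rw [Finset.sum_comm]
  refine Finset.sum_congr rfl fun a _ => Finset.sum_comm

/-- `c_1 c_2 - c_3 > 0` -/
theorem s21_pos {B : Fin r → Fin r → Matrix κ κ ℂ} (hB : GP B) (hr : 2 ≤ r)
    (hcard : Fintype.card κ = 3) :
    ∃ x : ℝ, 0 < x ∧ vol (chern (fm B) 1 * chern (fm B) 2 - chern (fm B) 3) = x := by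
  have h1 : Ex (fun v => (1 / 3 : ℂ) • ∑ c, qf (fm B) v * twoDet (cpr B (vframe v c))) =
      chern (fm B) 1 * chern (fm B) 2 - chern (fm B) 3 := by
    have e1 : ∀ v : Fin r → ℂ, ∑ c, qf (fm B) v * twoDet (cpr B (vframe v c)) =
        qf (fm B) v * qf (fm B) v * (fm B).trace - qf (fm B) v * qf (fm B * fm B) v := by
      intro v
      simp only [twoDet_vframe, mul_sub, Finset.sum_sub_distrib]
      congr 1
      · rw [Matrix.trace, Finset.mul_sum]
        refine Finset.sum_congr rfl fun c _ => ?_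
        rw [Matrix.diag_apply]
        ring
      · rw [← sum_uw, Finset.mul_sum]
    simp only [e1]
    rw [Ex_smul, Ex_sub, Ex_mul_const, wick2, wick2, chern_one]
    have h2 := two_mul_chern (fm B)
    have h3 := six_mul_chern (fm B)
    have e3 : algebraMap ℂ (Forms κ) (1 / 3) * 3 = 1 := by
      rw [← map_ofNat (algebraMap ℂ (Forms κ)) 3, ← map_mul]
      norm_num
    have e2 : algebraMap ℂ (Forms κ) (1 / 2) * 2 = 1 := by
      rw [← map_ofNat (algebraMap ℂ (Forms κ)) 2, ← map_mul]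
      norm_num
    rw [Algebra.smul_def, ← Matrix.mul_assoc]
    have h4 : 3 * ((fm B).trace * chern (fm B) 2 - chern (fm B) 3) =
        (fm B).trace ^ 3 - (fm B * fm B * fm B).trace := by
      linear_combination (3 * algebraMap ℂ (Forms κ) (1 / 2)) * (fm B).trace * h2 -
        algebraMap ℂ (Forms κ) (1 / 2) * h3 + ((fm B).trace ^ 3 -
          (fm B * fm B * fm B).trace -3 * ((fm B).trace * chern (fm B) 2 - chern (fm B) 3)) * e2
    linear_combination ((fm B).trace * chern (fm B) 2 - chern (fm B) 3) * e3 -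
      algebraMap ℂ (Forms κ) (1 / 3) * h4
  rw [← h1, map_Ex]
  apply Ex_pos
  intro v hv
  have hv0 : v ≠ 0 := ne_zero_of_coord (by omega) hv
  have h2 : ∀ c : Fin r, ∃ x : ℝ, 0 < x ∧
      vol (qf (fm B) v * twoDet (cpr B (vframe v c))) = x := by
    intro c
    have hGP : GP (cpr B (vframe v c)) := by
      refine GP_cpr hB fun w hw => ?_
      obtain ⟨d, hd⟩ : ∃ d : Fin r, d ≠ c := by
        have : Nontrivial (Fin r) := Fin.nontrivial_iff_two_le.2 hr
        exact exists_ne c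
      have a1 := congrFun hw d
      have a2 := congrFun hw c
      simp only [Matrix.mulVec, dotProduct, vframe, Matrix.of_apply, Fin.sum_univ_two,
        Matrix.cons_val_zero, Matrix.cons_val_one, Pi.zero_apply] at a1 a2
      rw [if_neg hd, zero_mul, add_zero] at a1
      have w0 : w 0 = 0 := (mul_eq_zero.1 a1).resolve_left (hv d)
      rw [w0, mul_zero, zero_add, if_pos trivial, one_mul] at a2
      funext i
      fin_cases i
      · exact w0
      · exact a2
    obtain ⟨x, hx, hx'⟩ := twoDet_pow_mul_pos hGP (hB v hv0) (a := 1) (b := 1) (by rw [hcard])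
    refine ⟨x, hx, ?_⟩
    rw [← hx', ← lin_AV, pow_one, pow_one, mul_comm]
  choose x hx hx' using h2
  refine ⟨(1 / 3) * ∑ c, x c, ?_, ?_⟩
  · have : Nonempty (Fin r) := ⟨⟨0, by omega⟩⟩
    have := Finset.sum_pos (fun c (_ : c ∈ (univ : Finset (Fin r))) => hx c) univ_nonempty
    positivity
  · rw [map_smul, map_sum, Finset.sum_congr rfl fun c _ => hx' c, smul_eq_mul]
    push_cast
    rfl

end Pool.Agent.Helper94.Griff
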