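import Pool.Agent.Helper94.Griff.DecPos
import Pool.Agent.Helper94.Griff.StarMain
import Pool.Agent.Helper94.Griff.Three

/-!
Products of principal minors of a decomposable family of forms.
-/

open Finset MeasureTheory Matrix
open scoped ComplexOrder

namespace Pool.Agent.Helper94.Griff.Dec

set_option linter.unusedSectionVars false

variable {r k : ℕ}

/-- block matrix of minors -/
noncomputable def MM {R : Type*} [CommRing R] [Algebra ℂ R] (X : Matrix (Fin r) (Fin r) R)
    (μ : ℕ → ℕ) (g : ℕ → Fin r → ℂ) :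
    Matrix ((j : Fin k) × Fin (μ j)) ((j : Fin k) × Fin (μ j)) R :=
  Matrix.of fun x y => if x.1 = y.1 then bf X (g x.2) (g y.2) else 0

lemma det_MM {R : Type*} [CommRing R] [Algebra ℂ R] (X : Matrix (Fin r) (Fin r) R)
    (μ : ℕ → ℕ) (g : ℕ → Fin r → ℂ) :
    (MM (k := k) X μ g).det = ∏ j : Fin k, mn X (μ j) g := by
  have hbt : (MM (k := k) X μ g).BlockTriangular Sigma.fst := by
    intro x y hxy
    unfold MM
    rw [Matrix.of_apply, if_neg (ne_of_gt hxy)]
  rw [hbt.det_fintype]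
  refine Finset.prod_congr rfl fun j _ => ?_
  rw [← Matrix.det_submatrix_equiv_self (Equiv.sigmaSubtype j).symm]
  unfold mn
  congr 1
  ext i i'
  exact if_pos rfl

variable {α β : Type*} [Fintype α] [Fintype β]

/-- the forms of a decomposable family -/
noncomputable def BB (A : α → Matrix (Fin r) (Fin k) ℂ) (B : β → Matrix (Fin r) (Fin k) ℂ)
    (a b : Fin r) : Matrix (Fin k) (Fin k) ℂ :=
  Matrix.of fun p q => ∑ s, A s a p * star (A s b q) + ∑ t, star (B t a q) * B t b p

variable {μ : ℕ → ℕ}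

/-- block Kraus operators, first kind -/
noncomputable def AA (e : ((j : Fin k) × Fin (μ j)) ≃ Fin k) (g : ℕ → Fin r → ℂ)
    (A : α → Matrix (Fin r) (Fin k) ℂ) (s : α × Fin k) : Matrix (Fin k) (Fin k) ℂ :=
  Matrix.of fun a p => if (e.symm a).1 = s.2 then ∑ c, star (g (e.symm a).2 c) * A s.1 c p else 0

/-- block Kraus operators, second kind -/
noncomputable def AB (e : ((j : Fin k) × Fin (μ j)) ≃ Fin k) (g : ℕ → Fin r → ℂ)
    (B : β → Matrix (Fin r) (Fin k) ℂ) (t : β × Fin k) : Matrix (Fin k) (Fin k) ℂ :=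
  Matrix.of fun a p => if (e.symm a).1 = t.2 then ∑ c, g (e.symm a).2 c * B t.1 c p else 0

lemma bf_fm (X : Fin r → Fin r → Matrix (Fin k) (Fin k) ℂ) (y z : Fin r → ℂ) :
    bf (fm X) y z = lin (∑ a, ∑ b, (star (y a) * z b) • X a b) := by
  unfold bf
  rw [lin_sum]
  refine Finset.sum_congr rfl fun a _ => ?_
  rw [lin_sum]
  refine Finset.sum_congr rfl fun b _ => ?_
  rw [lin_smul, MvPolynomial.smul_eq_C_mul]
  rfl

lemma NC_AA (e : ((j : Fin k) × Fin (μ j)) ≃ Fin k) (g : ℕ → Fin r → ℂ)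
    (A : α → Matrix (Fin r) (Fin k) ℂ) (B : β → Matrix (Fin r) (Fin k) ℂ) (a b : Fin k) :
    NC (AA e g A) (AB e g B) a b = if (e.symm a).1 = (e.symm b).1 then
      ∑ c, ∑ d, (star (g (e.symm a).2 c) * g (e.symm b).2 d) • BB A B c d else 0 := by
  ext p q
  unfold NC AA AB
  simp only [Matrix.of_apply, Fintype.sum_prod_type]
  by_cases hab : (e.symm a).1 = (e.symm b).1
  · rw [if_pos hab]
    have h1 : ∀ s : α, ∑ j0 : Fin k, ((if (e.symm a).1 = j0 then
        ∑ c, star (g (e.symm a).2 c) * A s c p else 0) *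
        star (if (e.symm b).1 = j0 then ∑ c, star (g (e.symm b).2 c) * A s c q else 0)) =
        (∑ c, star (g (e.symm a).2 c) * A s c p) *
          star (∑ c, star (g (e.symm b).2 c) * A s c q) := by
      intro s
      rw [Finset.sum_eq_single (e.symm b).1]
      · rw [if_pos hab, if_pos rfl]
      · intro j _ hj
        rw [if_neg (fun h => hj (h.symm.trans hab)), zero_mul]
      · intro h; exact absurd (mem_univ _) h
    have h2 : ∀ t : β, ∑ j0 : Fin k, (star (if (e.symm a).1 = j0 then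
        ∑ c, g (e.symm a).2 c * B t c q else 0) *
        (if (e.symm b).1 = j0 then ∑ c, g (e.symm b).2 c * B t c p else 0)) =
        star (∑ c, g (e.symm a).2 c * B t c q) * (∑ c, g (e.symm b).2 c * B t c p) := by
      intro t
      rw [Finset.sum_eq_single (e.symm b).1]
      · rw [if_pos hab, if_pos rfl]
      · intro j _ hj
        rw [if_neg (fun h => hj (h.symm.trans hab)), star_zero, zero_mul]
      · intro h; exact absurd (mem_univ _) h
    simp only [h1, h2]
    simp only [Matrix.sum_apply, Matrix.smul_apply, BB, Matrix.of_apply, smul_eq_mul, mul_add,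
      Finset.mul_sum, Finset.sum_add_distrib, star_sum, Finset.sum_mul, star_mul', star_star]
    congr 1
    · calc _ = ∑ s : α, ∑ c, ∑ d, _ := Finset.sum_congr rfl fun s _ => Finset.sum_comm
        _ = ∑ c, ∑ s : α, ∑ d, _ := Finset.sum_comm
        _ = ∑ c, ∑ d, ∑ s : α, _ := Finset.sum_congr rfl fun c _ => Finset.sum_comm
        _ = _ := by
          refine Finset.sum_congr rfl fun c _ => Finset.sum_congr rfl fun d _ =>
            Finset.sum_congr rfl fun s _ => ?_
          ring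
    · calc _ = ∑ s : β, ∑ c, ∑ d, _ := Finset.sum_congr rfl fun s _ => Finset.sum_comm
        _ = ∑ c, ∑ s : β, ∑ d, _ := Finset.sum_comm
        _ = ∑ c, ∑ d, ∑ s : β, _ := Finset.sum_congr rfl fun c _ => Finset.sum_comm
        _ = _ := by
          refine Finset.sum_congr rfl fun c _ => Finset.sum_congr rfl fun d _ =>
            Finset.sum_congr rfl fun s _ => ?_
          ring
  · rw [if_neg hab]
    have h1 : ∀ s : α, ∑ j0 : Fin k, ((if (e.symm a).1 = j0 then
        ∑ c, star (g (e.symm a).2 c) * A s c p else 0) *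
        star (if (e.symm b).1 = j0 then ∑ c, star (g (e.symm b).2 c) * A s c q else 0)) = 0 := by
      intro s
      refine Finset.sum_eq_zero fun j _ => ?_
      by_cases hj : (e.symm a).1 = j
      · rw [if_neg (c := (e.symm b).1 = j) (fun h => hab (hj.trans h.symm)), star_zero, mul_zero]
      · rw [if_neg hj, zero_mul]
    have h2 : ∀ t : β, ∑ j0 : Fin k, (star (if (e.symm a).1 = j0 then
        ∑ c, g (e.symm a).2 c * B t c q else 0) *
        (if (e.symm b).1 = j0 then ∑ c, g (e.symm b).2 c * B t c p else 0)) = 0 := by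
      intro t
      refine Finset.sum_eq_zero fun j _ => ?_
      by_cases hj : (e.symm a).1 = j
      · rw [if_neg (c := (e.symm b).1 = j) (fun h => hab (hj.trans h.symm)), mul_zero]
      · rw [if_neg hj, star_zero, zero_mul]
    simp only [h1, h2, Finset.sum_const_zero, add_zero, Matrix.zero_apply]

lemma prod_mn_eq (e : ((j : Fin k) × Fin (μ j)) ≃ Fin k) (g : ℕ → Fin r → ℂ)
    (A : α → Matrix (Fin r) (Fin k) ℂ) (B : β → Matrix (Fin r) (Fin k) ℂ) :
    ∏ j : Fin k, mn (fm (BB A B)) (μ j) g =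
      Matrix.det (Matrix.of fun a b => lin (NC (AA e g A) (AB e g B) a b)) := by
  rw [← det_MM, ← Matrix.det_submatrix_equiv_self e.symm]
  congr 1
  ext1 a b
  rw [Matrix.submatrix_apply, Matrix.of_apply, NC_AA]
  unfold MM
  rw [Matrix.of_apply]
  split_ifs with h
  · rw [bf_fm]
  · rw [lin_zero]

/-- nondegeneracy -/
def ND (A : α → Matrix (Fin r) (Fin k) ℂ) (B : β → Matrix (Fin r) (Fin k) ℂ) : Prop :=
  ∀ (v : Fin r → ℂ) (ξ : Fin k → ℂ), v ≠ 0 → ξ ≠ 0 →
    (∃ s, star v ⬝ᵥ (A s).mulVec ξ ≠ 0) ∨ (∃ t, v ⬝ᵥ (B t).mulVec ξ ≠ 0)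

lemma nd_block (e : ((j : Fin k) × Fin (μ j)) ≃ Fin k) (g : ℕ → Fin r → ℂ)
    (A : α → Matrix (Fin r) (Fin k) ℂ) (B : β → Matrix (Fin r) (Fin k) ℂ) (hnd : ND A B)
    (hli : ∀ j : Fin k, LinearIndependent ℂ fun i : Fin (μ j) => g i)
    (v ξ : Fin k → ℂ) (hv : v ≠ 0) (hξ : ξ ≠ 0) :
    (∃ s, star v ⬝ᵥ (AA e g A s).mulVec ξ ≠ 0) ∨ (∃ t, v ⬝ᵥ (AB e g B t).mulVec ξ ≠ 0) := by
  obtain ⟨a0, ha0⟩ : ∃ a, v a ≠ 0 := by
    by_contra h
    push Not at h
    exact hv (funext h)
  set j0 : Fin k := (e.symm a0).1 with hj0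
  set V : Fin r → ℂ := ∑ i : Fin (μ j0), v (e ⟨j0, i⟩) • g i with hV
  have hV0 : V ≠ 0 := by
    intro h0
    apply ha0
    have h1 := Fintype.linearIndependent_iff.1 (hli j0) (fun i => v (e ⟨j0, i⟩)) h0 (e.symm a0).2
    have h2 : e ⟨j0, (e.symm a0).2⟩ = a0 := e.apply_symm_apply a0
    rw [h2] at h1
    exact h1
  have hsum : ∀ F : ((j : Fin k) × Fin (μ j)) → ℂ,
      ∑ a, (if (e.symm a).1 = j0 then F (e.symm a) else 0) = ∑ i : Fin (μ j0), F ⟨j0, i⟩ := by
    intro F
    rw [← e.sum_comp]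
    simp only [Equiv.symm_apply_apply]
    rw [Fintype.sum_sigma, Finset.sum_eq_single j0]
    · refine Finset.sum_congr rfl fun i _ => ?_
      rw [if_pos rfl]
    · intro j _ hj
      refine Finset.sum_eq_zero fun i _ => ?_
      rw [if_neg hj]
    · intro h; exact absurd (mem_univ _) h
  have hM : ∀ (y : Fin r → ℂ) (Z : Matrix (Fin r) (Fin k) ℂ),
      ∑ p, (∑ c, y c * Z c p) * ξ p = y ⬝ᵥ Z.mulVec ξ := by
    intro y Z
    rw [Matrix.dotProduct_mulVec]
    rfl
  rcases hnd V ξ hV0 hξ with ⟨s, hs⟩ | ⟨t, ht⟩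
  · left
    refine ⟨(s, j0), ?_⟩
    convert hs using 1
    have h1 : star v ⬝ᵥ (AA e g A (s, j0)).mulVec ξ = ∑ a, (if (e.symm a).1 = j0 then
        (fun x : ((j : Fin k) × Fin (μ j)) => star (v (e x)) *
          ∑ p, (∑ c, star (g x.2 c) * A s c p) * ξ p) (e.symm a) else 0) := by
      simp only [dotProduct, Matrix.mulVec, AA, Matrix.of_apply, Pi.star_apply,
        Equiv.apply_symm_apply]
      refine Finset.sum_congr rfl fun a _ => ?_
      split_ifs with h
      · rfl
      · simp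
    rw [h1]
    refine (hsum (fun x : ((j : Fin k) × Fin (μ j)) => star (v (e x)) *
          ∑ p, (∑ c, star (g x.2 c) * A s c p) * ξ p)).trans ?_
    rw [hV, star_sum, sum_dotProduct]
    refine Finset.sum_congr rfl fun i _ => ?_
    rw [star_smul, smul_dotProduct, smul_eq_mul, ← hM]
    rfl
  · right
    refine ⟨(t, j0), ?_⟩
    convert ht using 1
    have h1 : v ⬝ᵥ (AB e g B (t, j0)).mulVec ξ = ∑ a, (if (e.symm a).1 = j0 then
        (fun x : ((j : Fin k) × Fin (μ j)) => v (e x) *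
          ∑ p, (∑ c, g x.2 c * B t c p) * ξ p) (e.symm a) else 0) := by
      simp only [dotProduct, Matrix.mulVec, AB, Matrix.of_apply, Equiv.apply_symm_apply]
      refine Finset.sum_congr rfl fun a _ => ?_
      split_ifs with h
      · rfl
      · simp
    rw [h1]
    refine (hsum (fun x : ((j : Fin k) × Fin (μ j)) => v (e x) *
          ∑ p, (∑ c, g x.2 c * B t c p) * ξ p)).trans ?_
    rw [hV, sum_dotProduct]
    refine Finset.sum_congr rfl fun i _ => ?_
    rw [smul_dotProduct, smul_eq_mul, ← hM]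

end Pool.Agent.Helper94.Griff.Dec
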