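import Pool.Agent.Helper94.Griff.DecDet
import Pool.Agent.Helper16.Griff.GaussMeasure
import Pool.Agent.Helper84.Griff.DetQuat
import Pool.Agent.Helper11.Griff.GenericQuat

/-!
Positivity of the top mixed discriminant of a decomposable family.
-/

open Finset MeasureTheory Matrix
open scoped ComplexOrder

namespace Pool.Agent.Helper94.Griff.Dec

set_option linter.unusedSectionVars false

variable {k : ℕ} {α β : Type*} [Fintype α] [Fintype β]

lemma det_KK_eq (A : α → Matrix (Fin k) (Fin k) ℂ) (B : β → Matrix (Fin k) (Fin k) ℂ)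
    (u : α ⊕ β → ℂ) : ∃ x : ℝ, 0 ≤ x ∧ (KK A B u).det = (x : ℂ) := by
  rw [KK_eq_fromBlocks]
  exact Pool.Agent.Helper84.Griff.det_quat_nonneg _ _

lemma continuous_det_KK (A : α → Matrix (Fin k) (Fin k) ℂ) (B : β → Matrix (Fin k) (Fin k) ℂ) :
    Continuous fun u : α ⊕ β → ℂ => (KK A B u).det := by
  classical
  simp only [det_KK]
  fun_prop

theorem exists_vol_det_NC (A : α → Matrix (Fin k) (Fin k) ℂ) (B : β → Matrix (Fin k) (Fin k) ℂ) :
    ∃ x : ℝ, 0 ≤ x ∧ vol (Matrix.det (Matrix.of fun a b => lin (NC A B a b))) = (x : ℂ) ∧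
      ((∀ v ξ : Fin k → ℂ, v ≠ 0 → ξ ≠ 0 → (∃ s, star v ⬝ᵥ (A s).mulVec ξ ≠ 0) ∨
        (∃ t, v ⬝ᵥ (B t).mulVec ξ ≠ 0)) → 0 < x) := by
  classical
  obtain ⟨μ, hprob, hopen, hint, hmom⟩ := Pool.Agent.Helper16.Griff.exists_gaussian_measure
  have hI := integral_det_KK hint hmom A B
  have hre : ∀ u, (KK A B u).det = (((KK A B u).det.re : ℝ) : ℂ) := by
    intro u
    obtain ⟨x, _, hx⟩ := det_KK_eq A B u
    rw [hx, Complex.ofReal_re]
  have hnn : ∀ u, 0 ≤ (KK A B u).det.re := by
    intro u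
    obtain ⟨x, hx0, hx⟩ := det_KK_eq A B u
    rw [hx, Complex.ofReal_re]
    exact hx0
  have hI' : vol (Matrix.det (Matrix.of fun a b => lin (NC A B a b))) =
      ((∫ u : α ⊕ β → ℂ, (KK A B u).det.re ∂(Measure.pi fun _ => μ) : ℝ) : ℂ) := by
    rw [← hI, ← integral_complex_ofReal]
    refine integral_congr_ae (Filter.Eventually.of_forall fun u => ?_)
    exact hre u
  have hintegrable : Integrable (fun u : α ⊕ β → ℂ => (KK A B u).det)
      (Measure.pi fun _ => μ) := by
    simp only [det_KK]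
    refine integrable_finsetSum _ fun c _ => integrable_finsetSum _ fun c' _ => ?_
    exact (integrable_mono hint c' c).mul_const _
  refine ⟨_, ?_, hI', ?_⟩
  · exact integral_nonneg hnn
  · intro h
    obtain ⟨x, y, hxy⟩ := Pool.Agent.Helper11.Griff.exists_det_quat_ne_zero A B h
    refine integral_pos_of_integrable_nonneg_nonzero
      (x := Sum.elim x (fun t => star (y t))) ?_ hintegrable.re hnn ?_
    · exact Complex.continuous_re.comp (continuous_det_KK A B)
    · intro h0
      apply hxy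
      have h1 := hre (Sum.elim x (fun t => star (y t)))
      rw [h0, KK_eq_fromBlocks] at h1
      simpa using h1

end Pool.Agent.Helper94.Griff.Dec
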