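import Pool.Agent.Helper94.Griff.DecBlock
import Pool.Agent.Helper16.Griff.Nodes

/-!
Positivity of the Schur forms of a decomposable family.
-/

open Finset Matrix
open scoped ComplexOrder

namespace Pool.Agent.Helper94.Griff.Dec

set_option linter.unusedSectionVars false

variable {r k : ℕ}

section Pos

variable {ι : Type} [Fintype ι] {w : ι → ℝ} {z : ι → ℂ}

lemma Ex_nonneg (hw : ∀ s, 0 ≤ w s) (f : (Fin r → ℂ) → ℂ) (hf : ∀ v, 0 ≤ f v) :
    0 ≤ Ex w z f := by
  unfold Ex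
  refine Finset.sum_nonneg fun ω _ => ?_
  rw [smul_eq_mul]
  refine mul_nonneg ?_ (hf _)
  exact_mod_cast Finset.prod_nonneg fun c _ => hw _

lemma Ex_eq_zero (hw : ∀ s, 0 ≤ w s) (f g : (Fin r → ℂ) → ℂ) (hf : ∀ v, 0 ≤ f v)
    (hfg : ∀ v, f v = 0 → g v = 0) (h : Ex w z f = 0) : Ex w z g = 0 := by
  unfold Ex at h ⊢
  have h0 : ∀ ω : Fin r → ι, 0 ≤ ((∏ c, w (ω c) : ℝ) : ℂ) • f (fun c => z (ω c)) := by
    intro ω
    rw [smul_eq_mul]
    refine mul_nonneg ?_ (hf _)
    exact_mod_cast Finset.prod_nonneg fun c _ => hw _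
  rw [Finset.sum_eq_zero_iff_of_nonneg fun ω _ => h0 ω] at h
  refine Finset.sum_eq_zero fun ω hω => ?_
  have h1 := h ω hω
  rw [smul_eq_zero] at h1 ⊢
  rcases h1 with h1 | h1
  · exact Or.inl h1
  · exact Or.inr (hfg _ h1)

lemma ExN_nonneg (hw : ∀ s, 0 ≤ w s) (l : ℕ) (F : (ℕ → Fin r → ℂ) → ℂ) (hF : ∀ g, 0 ≤ F g) :
    0 ≤ ExN w z l F := by
  induction l generalizing F with
  | zero => exact hF 0
  | succ l ih =>
    rw [ExN_succ]
    exact Ex_nonneg hw _ fun x => ih _ fun g => hF _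

lemma ExN_eq_zero (hw : ∀ s, 0 ≤ w s) (l : ℕ) (F G : (ℕ → Fin r → ℂ) → ℂ) (hF : ∀ g, 0 ≤ F g)
    (hFG : ∀ g, F g = 0 → G g = 0) (h : ExN w z l F = 0) : ExN w z l G = 0 := by
  induction l generalizing F G with
  | zero => exact hFG 0 h
  | succ l ih =>
    rw [ExN_succ] at h ⊢
    refine Ex_eq_zero hw _ _ (fun x => ExN_nonneg hw l _ fun g => hF _) ?_ h
    intro x hx
    exact ih _ _ (fun g => hF _) (fun g => hFG _) hx

end Pos

lemma bf_one (x y : Fin r → ℂ) : bf (1 : Matrix (Fin r) (Fin r) ℂ) x y = star x ⬝ᵥ y := by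
  unfold bf dotProduct
  refine Finset.sum_congr rfl fun a _ => ?_
  rw [Finset.sum_eq_single a]
  · simp
  · intro b _ hb
    rw [Matrix.one_apply_ne (Ne.symm hb), smul_zero]
  · intro h; exact absurd (mem_univ _) h

lemma linearIndependent_of_gram {l : ℕ} {g : ℕ → Fin r → ℂ}
    (h : mn (1 : Matrix (Fin r) (Fin r) ℂ) l g ≠ 0) :
    LinearIndependent ℂ fun i : Fin l => g i := by
  rw [Fintype.linearIndependent_iff]
  intro c hc i
  have h1 : (Matrix.of fun i j : Fin l => bf (1 : Matrix (Fin r) (Fin r) ℂ) (g i) (g j)).mulVec c =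
      0 := by
    funext i
    simp only [Matrix.mulVec, dotProduct, Matrix.of_apply, bf_one, Pi.zero_apply]
    have h2 : star (g i) ⬝ᵥ (∑ j : Fin l, c j • g j) = 0 := by rw [hc, dotProduct_zero]
    rw [dotProduct_sum] at h2
    rw [← h2]
    refine Finset.sum_congr rfl fun j _ => ?_
    rw [dotProduct_smul, smul_eq_mul, mul_comm]
    rfl
  have h2 := Matrix.eq_zero_of_mulVec_eq_zero h h1
  exact congrFun h2 i

lemma SS_one_ne (l : ℕ) (hl : l ≤ r) :
    SS 1 (fun j => if j = 0 then l else 0) (1 : Matrix (Fin r) (Fin r) ℂ) ≠ 0 := by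
  unfold SS
  rw [Matrix.det_unique, Matrix.of_apply]
  have h1 : (((if ((default : Fin 1) : ℕ) = 0 then l else 0 : ℕ) : ℤ) - (((default : Fin 1) : ℕ) : ℤ)
      + (((default : Fin 1) : ℕ) : ℤ)) = (l : ℤ) := by
    simp
  rw [h1]
  unfold eZ
  rw [if_pos (by positivity), Int.toNat_natCast]
  have h2 : EE (1 : Matrix (Fin r) (Fin r) ℂ) = (1 + Polynomial.X) ^ r := by
    unfold EE
    have : (1 + (Polynomial.X : Polynomial ℂ) • (1 : Matrix (Fin r) (Fin r) ℂ).map Polynomial.C) =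
        (1 + Polynomial.X : Polynomial ℂ) • (1 : Matrix (Fin r) (Fin r) (Polynomial ℂ)) := by
      rw [Matrix.map_one _ (map_zero _) (map_one _), add_smul, one_smul]
    rw [this, Matrix.det_smul, Matrix.det_one, mul_one, Fintype.card_fin]
  rw [h2, Polynomial.coeff_one_add_X_pow]
  exact_mod_cast (Nat.choose_pos hl).ne'

theorem vol_SS_pos {α β : Type*} [Fintype α] [Fintype β]
    (A : α → Matrix (Fin r) (Fin k) ℂ) (B : β → Matrix (Fin r) (Fin k) ℂ) (hnd : ND A B)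
    (μ : ℕ → ℕ) (hanti : Antitone μ) (hsum : ∑ j : Fin k, μ j = k) (hr : μ 0 ≤ r) :
    ∃ x : ℝ, 0 < x ∧ vol (SS k μ (fm (BB A B))) = (x : ℂ) := by
  obtain ⟨ι, hι, w, z, hw, hN⟩ := Pool.Agent.Helper16.Griff.exists_gaussian_nodes (k + 1)
  have hMom : Mom w z (k + 1) := hN
  obtain ⟨C, hC, hstar⟩ := star_formula (r := r) hMom (μ 0) k μ hanti le_rfl (by omega)
  obtain ⟨C', hC', hstar'⟩ := star_formula (r := r) hMom (μ 0) 1 (fun j => if j = 0 then μ 0 else 0)
    (by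
      intro a b hab
      simp only
      split_ifs with h1 h2
      · exact le_rfl
      · omega
      · omega
      · exact le_rfl) (by simp) (by omega)
  have h1 := hstar (Forms (Fin k)) (fm (BB A B))
  have h2 := hstar' ℂ 1
  obtain ⟨e⟩ : Nonempty (((j : Fin k) × Fin (μ j)) ≃ Fin k) := by
    refine Fintype.card_eq.1 ?_
    rw [Fintype.card_sigma]
    simp only [Fintype.card_fin]
    exact hsum
  set F : (ℕ → Fin r → ℂ) → ℂ := fun g => vol (∏ j : Fin k, mn (fm (BB A B)) (μ j) g) with hF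
  have hF0 : ∀ g, 0 ≤ F g := by
    intro g
    obtain ⟨x, hx, hx', -⟩ := exists_vol_det_NC (AA e g A) (AB e g B)
    simp only [hF]
    rw [prod_mn_eq e g A B, hx']
    exact_mod_cast hx
  have hFG : ∀ g, F g = 0 → mn (1 : Matrix (Fin r) (Fin r) ℂ) (μ 0) g = 0 := by
    intro g hg
    by_contra hne
    have hli := linearIndependent_of_gram hne
    obtain ⟨x, hx, hx', hpos⟩ := exists_vol_det_NC (AA e g A) (AB e g B)
    have hx0 : 0 < x := hpos fun v ξ hv hξ => nd_block e g A B hnd (fun j => by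
      have h3 : μ j ≤ μ 0 := hanti (Nat.zero_le _)
      exact hli.comp (Fin.castLE h3) (Fin.castLE_injective h3)) v ξ hv hξ
    simp only [hF] at hg
    rw [prod_mn_eq e g A B, hx'] at hg
    have : x = 0 := by exact_mod_cast hg
    exact hx0.ne' this
  have h3 : ExN w z (μ 0) F = (C : ℂ) * vol (SS k μ (fm (BB A B))) := by
    have h4 := ExN_map (w := w) (z := z) (vol : Forms (Fin k) →ₗ[ℂ] ℂ) (μ 0)
      (fun g => ∏ j : Fin k, mn (fm (BB A B)) (μ j) g)
    rw [h1] at h4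
    simp only [hF]
    rw [h4]
    have h5 : ((C : Forms (Fin k)) * SS k μ (fm (BB A B))) =
        (C : ℂ) • SS k μ (fm (BB A B)) := by
      rw [← nsmul_eq_mul, ← Nat.cast_smul_eq_nsmul ℂ]
    rw [h5, map_smul, smul_eq_mul]
  have h6 : 0 ≤ (C : ℂ) * vol (SS k μ (fm (BB A B))) := by
    rw [← h3]
    exact ExN_nonneg hw _ F hF0
  have h7 : ExN w z (μ 0) F ≠ 0 := by
    intro h8
    have h9 := ExN_eq_zero hw (μ 0) F (fun g => mn (1 : Matrix (Fin r) (Fin r) ℂ) (μ 0) g) hF0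
      hFG h8
    have h10 : (fun g : ℕ → Fin r → ℂ => ∏ j : Fin 1, mn (1 : Matrix (Fin r) (Fin r) ℂ)
        (if (j : ℕ) = 0 then μ 0 else 0) g) =
        fun g => mn (1 : Matrix (Fin r) (Fin r) ℂ) (μ 0) g := by
      funext g
      simp
    rw [h10, h9] at h2
    have h11 := mul_ne_zero (Nat.cast_ne_zero (R := ℂ).2 hC'.ne') (SS_one_ne (μ 0) hr)
    exact h11 h2.symm
  rw [h3] at h7
  have hCpos : (0 : ℝ) < (C : ℝ) := by exact_mod_cast hC
  set y := vol (SS k μ (fm (BB A B))) with hy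
  rw [Complex.nonneg_iff] at h6
  have e1 : ((C : ℂ) * y).re = (C : ℝ) * y.re := by simp
  have e2 : ((C : ℂ) * y).im = (C : ℝ) * y.im := by simp
  rw [e1, e2] at h6
  have him : y.im = 0 := by
    have := h6.2.symm
    rcases mul_eq_zero.1 this with h | h
    · exact absurd h hCpos.ne'
    · exact h
  have hre : 0 ≤ y.re := by
    by_contra hneg
    push Not at hneg
    have := mul_neg_of_pos_of_neg hCpos hneg
    linarith [h6.1]
  have hyx : y = ((y.re : ℝ) : ℂ) := Complex.ext (by simp) (by simp [him])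
  refine ⟨y.re, lt_of_le_of_ne hre ?_, hyx⟩
  intro h0
  apply h7
  rw [hyx, ← h0]
  simp

end Pool.Agent.Helper94.Griff.Dec
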