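import Mathlib

/-!
Pointwise calculus of `(1,1)`-forms and Chern forms of Hermitian holomorphic vector bundles.
-/

open MvPolynomial

namespace Pool.Agent.Helper94.Griff

/-- Polynomials in the commuting `(1,1)`-forms `y (p, q) = i dt_p ∧ dt̄_q` on the vector space
`ℂ^κ` with linear coordinates `t_p`, `p ∈ κ`. -/
abbrev Forms (κ : Type*) : Type _ := MvPolynomial (κ × κ) ℂ

/-- The coefficient of the volume form `∏_p (i dt_p ∧ dt̄_p)` in a polynomial `F` in the forms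
`y (p, q) = i dt_p ∧ dt̄_q`: since the `dt_p` anticommute and so do the `dt̄_q`, the product
`∏_p y (p, σ p)` is `sign σ` times the volume form for every permutation `σ` of `κ`, and all other
monomials contribute `0` in top degree. -/
noncomputable def volCoeff {κ : Type*} [Fintype κ] [DecidableEq κ] (F : Forms κ) : ℂ :=
  ∑ σ : Equiv.Perm κ, ((Equiv.Perm.sign σ : ℤ) : ℂ) *
    MvPolynomial.coeff (∑ p, Finsupp.single (p, σ p) 1) F

/-- The derivative `∂f/∂z_j` of a function on `ℂ^n`. -/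
noncomputable def dz {n : ℕ} (j : Fin n) (f : (Fin n → ℂ) → ℂ) (z : Fin n → ℂ) : ℂ :=
  (1 / 2) * (fderiv ℝ f z (Pi.single j 1) - Complex.I * fderiv ℝ f z (Pi.single j Complex.I))

/-- The derivative `∂f/∂z̄_j` of a function on `ℂ^n`. -/
noncomputable def dzbar {n : ℕ} (j : Fin n) (f : (Fin n → ℂ) → ℂ) (z : Fin n → ℂ) : ℂ :=
  (1 / 2) * (fderiv ℝ f z (Pi.single j 1) + Complex.I * fderiv ℝ f z (Pi.single j Complex.I))

/-- Let `H` be the matrix, in a holomorphic frame, of the Hermitian metric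
`⟨u, v⟩ = v* H u` of a holomorphic vector bundle of rank `r` over an open set of `ℂ^n`.
Its Chern curvature is `Θ = ∂̄ (H⁻¹ ∂H) = ∑_{j,l} Θ_{jl} dz_j ∧ dz̄_l`, and `curvature H z j l` is
the `r × r` matrix `Θ_{jl} = - ∂/∂z̄_l (H⁻¹ ∂H/∂z_j)` at the point `z`. -/
noncomputable def curvature {n r : ℕ} (H : (Fin n → ℂ) → Matrix (Fin r) (Fin r) ℂ)
    (z : Fin n → ℂ) (j l : Fin n) : Matrix (Fin r) (Fin r) ℂ :=
  Matrix.of fun a b =>
    - dzbar l (fun w => ((H w)⁻¹ * Matrix.of fun c d => dz j (fun u => H u c d) w) a b) z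

/-- Griffiths positivity at `z`: `⟨Θ(ξ, ξ̄) v, v⟩ > 0` (real and positive) for all nonzero tangent
vectors `ξ` and all nonzero `v` in the fibre. -/
def GriffithsPositive {n r : ℕ} (H : (Fin n → ℂ) → Matrix (Fin r) (Fin r) ℂ)
    (z : Fin n → ℂ) : Prop :=
  ∀ ξ : Fin n → ℂ, ξ ≠ 0 → ∀ v : Fin r → ℂ, v ≠ 0 →
    (∃ x : ℝ, 0 < x ∧
      ∑ j, ∑ l, ξ j * star (ξ l) *
        (star v ⬝ᵥ (H z).mulVec ((curvature H z j l).mulVec v)) = x)

/-- The restriction of `(i/2π) Θ` to the subspace spanned by the vectors `s 1, …, s k` of `ℂ^n`,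
as an `r × r` matrix of `(1,1)`-forms in the coordinates `t` of `∑_p t_p s_p`:
`(i/2π) ∑_{j,l} Θ_{jl} dz_j ∧ dz̄_l` with `dz_j = ∑_p s_p(j) dt_p`. -/
noncomputable def curvatureForm {n r k : ℕ} (Θ : Fin n → Fin n → Matrix (Fin r) (Fin r) ℂ)
    (s : Fin k → Fin n → ℂ) : Matrix (Fin r) (Fin r) (Forms (Fin k)) :=
  Matrix.of fun a b => ∑ p, ∑ q,
    C ((1 / (2 * Real.pi) : ℝ) * ∑ j, ∑ l, s p j * star (s q l) * Θ j l a b) * X (p, q)

/-- The Chern forms `c_i`: the coefficients in `det (1 + t M) = ∑_i c_i t^i`. -/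
noncomputable def chern {r : ℕ} {R : Type*} [CommRing R] (M : Matrix (Fin r) (Fin r) R) (i : ℕ) :
    R :=
  (Matrix.det (1 + (Polynomial.X : Polynomial R) • M.map Polynomial.C)).coeff i

/-- `c_m` in `ℚ[c_1, …, c_r]` (the variable with index `i : Fin r` is `c_{i+1}`), with the
conventions `c_0 = 1` and `c_m = 0` for `m < 0` or `m > r`. -/
noncomputable def cvar (r : ℕ) (m : ℤ) : MvPolynomial (Fin r) ℚ :=
  if m = 0 then 1 else if h : 0 < m ∧ m ≤ r then X ⟨(m - 1).toNat, by omega⟩ else 0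

/-- The Schur polynomial `s_lam = det (c_{lam_j - j + l})_{1 ≤ j, l ≤ k}` in `ℚ[c_1, …, c_r]`. -/
noncomputable def schur (r : ℕ) {k : ℕ} (lam : Fin k → Fin (r + 1)) : MvPolynomial (Fin r) ℚ :=
  Matrix.det (Matrix.of fun j l : Fin k => cvar r ((lam j : ℤ) - (j : ℤ) + (l : ℤ)))

open Classical in
/-- `Λ(k, r)`: the partitions `lam_1 ≥ … ≥ lam_k ≥ 0` of `k` with all parts at most `r`. -/
noncomputable def partitions (k r : ℕ) : Finset (Fin k → Fin (r + 1)) :=
  Finset.univ.filter fun lam => Antitone lam ∧ ∑ j, (lam j : ℕ) = k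

end Pool.Agent.Helper94.Griff
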