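import Pool.Agent.Helper94.Griff.Scale

/-!
Passage to a unitary frame.
-/

open Finset Matrix
open scoped ComplexOrder

namespace Pool.Agent.Helper94.Griff

lemma isHermitian_of_quadratic {κ : Type*} [Fintype κ] [DecidableEq κ] {A : Matrix κ κ ℂ}
    (h : ∀ w : κ → ℂ, 0 ≤ star w ⬝ᵥ A.mulVec w) : A.IsHermitian := by
  have h1 : A.toEuclideanLin.IsPositive := by
    rw [LinearMap.isPositive_iff_complex]
    intro x
    have h2 : inner ℂ (A.toEuclideanLin x) x = star (star x.ofLp ⬝ᵥ A.mulVec x.ofLp) := by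
      rw [EuclideanSpace.inner_eq_star_dotProduct, Matrix.ofLp_toLpLin, Matrix.toLin'_apply,
        ← Matrix.star_dotProduct, dotProduct_comm]
    have h3 := h x.ofLp
    rw [Complex.nonneg_iff] at h3
    rw [h2]
    constructor
    · apply Complex.ext
      · simp
      · simp [← h3.2]
    · simpa using h3.1
  exact ((Matrix.isPositive_toEuclideanLin_iff).1 h1).isHermitian

lemma posDef_of_quadratic {κ : Type*} [Fintype κ] [DecidableEq κ] {A : Matrix κ κ ℂ}
    (h : ∀ w : κ → ℂ, w ≠ 0 → 0 < star w ⬝ᵥ A.mulVec w) : A.PosDef := by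
  refine Matrix.PosDef.of_dotProduct_mulVec_pos (isHermitian_of_quadratic fun w => ?_) h
  by_cases hw : w = 0
  · rw [hw]; simp
  · exact (h w hw).le

lemma chern_conj {r : ℕ} {R : Type*} [CommRing R] {P P' F : Matrix (Fin r) (Fin r) R}
    (hP : P * P' = 1) (i : ℕ) : chern (P * F * P') i = chern F i := by
  unfold chern
  have h1 : (P.map Polynomial.C) * (P'.map Polynomial.C) = 1 := by
    rw [← Matrix.map_mul, hP]
    exact Matrix.map_one _ (map_zero _) (map_one _)
  have h2 : 1 + (Polynomial.X : Polynomial R) • (P * F * P').map Polynomial.C =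
      P.map Polynomial.C * (1 + (Polynomial.X : Polynomial R) • F.map Polynomial.C) *
        P'.map Polynomial.C := by
    rw [Matrix.mul_add, Matrix.add_mul, Matrix.mul_one, h1, Matrix.mul_smul, Matrix.smul_mul,
      Matrix.map_mul, Matrix.map_mul]
  rw [h2, Matrix.det_mul, Matrix.det_mul, mul_right_comm, ← Matrix.det_mul, h1, Matrix.det_one,
    one_mul]

/-- the elementary forms -/
noncomputable def Sjl {n k : ℕ} (s : Fin k → Fin n → ℂ) (j l : Fin n) :
    Matrix (Fin k) (Fin k) ℂ :=
  Matrix.of fun p q => ((1 / (2 * Real.pi) : ℝ) : ℂ) * (s p j * star (s q l))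

lemma curvatureForm_eq {n r k : ℕ} (Θ : Fin n → Fin n → Matrix (Fin r) (Fin r) ℂ)
    (s : Fin k → Fin n → ℂ) : curvatureForm Θ s =
      ∑ j, ∑ l, lin (Sjl s j l) • (Θ j l).map MvPolynomial.C := by
  ext1 a b
  unfold curvatureForm
  rw [Matrix.of_apply, Matrix.sum_apply]
  simp only [Matrix.sum_apply, Matrix.smul_apply, Matrix.map_apply, smul_eq_mul]
  unfold lin Sjl
  simp only [Matrix.of_apply]
  have e1 : ∀ p q : Fin k, (MvPolynomial.C (((1 / (2 * Real.pi) : ℝ) : ℂ) *
      ∑ j, ∑ l, s p j * star (s q l) * Θ j l a b) * MvPolynomial.X (p, q) : Forms (Fin k)) =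
      ∑ j, ∑ l, MvPolynomial.C (((1 / (2 * Real.pi) : ℝ) : ℂ) * (s p j * star (s q l))) *
        MvPolynomial.X (p, q) * MvPolynomial.C (Θ j l a b) := by
    intro p q
    rw [Finset.mul_sum, map_sum, Finset.sum_mul]
    refine Finset.sum_congr rfl fun j _ => ?_
    rw [Finset.mul_sum, map_sum, Finset.sum_mul]
    refine Finset.sum_congr rfl fun l _ => ?_
    simp only [map_mul]
    ring
  simp only [e1, Fintype.sum_prod_type, Finset.sum_mul]
  calc _ = ∑ p, ∑ j, ∑ q, ∑ l, (MvPolynomial.C (((1 / (2 * Real.pi) : ℝ) : ℂ) *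
          (s p j * star (s q l))) * MvPolynomial.X (p, q) * MvPolynomial.C (Θ j l a b)) :=
        Finset.sum_congr rfl fun p _ => Finset.sum_comm
    _ = ∑ j, ∑ p, ∑ q, ∑ l, (MvPolynomial.C (((1 / (2 * Real.pi) : ℝ) : ℂ) *
          (s p j * star (s q l))) * MvPolynomial.X (p, q) * MvPolynomial.C (Θ j l a b)) :=
        Finset.sum_comm
    _ = ∑ j, ∑ p, ∑ l, ∑ q, (MvPolynomial.C (((1 / (2 * Real.pi) : ℝ) : ℂ) *
          (s p j * star (s q l))) * MvPolynomial.X (p, q) * MvPolynomial.C (Θ j l a b)) :=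
        Finset.sum_congr rfl fun p _ => Finset.sum_congr rfl fun p _ => Finset.sum_comm
    _ = ∑ j, ∑ l, ∑ p, ∑ q, (MvPolynomial.C (((1 / (2 * Real.pi) : ℝ) : ℂ) *
          (s p j * star (s q l))) * MvPolynomial.X (p, q) * MvPolynomial.C (Θ j l a b)) :=
        Finset.sum_congr rfl fun p _ => Finset.sum_comm

/-- In a unitary frame the curvature form is a positive family of Hermitian matrices. -/
theorem exists_frame {n r k : ℕ} {H : (Fin n → ℂ) → Matrix (Fin r) (Fin r) ℂ} {z : Fin n → ℂ}
    (hH : (H z).PosDef) (hpos : GriffithsPositive H z) {s : Fin k → Fin n → ℂ}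
    (hs : LinearIndependent ℂ s) :
    ∃ B : Fin r → Fin r → Matrix (Fin k) (Fin k) ℂ, GP B ∧
      ∀ i, chern (curvatureForm (curvature H z) s) i =
        chern (Matrix.of fun a b => lin (B a b)) i := by
  obtain ⟨h, hh, hN⟩ := exists_congr_one hH
  set Θ := curvature H z with hΘ
  set Q : Matrix (Fin r) (Fin r) ℂ := h * H z with hQ
  set Q' : Matrix (Fin r) (Fin r) ℂ := h.conjTranspose with hQ'
  have hQQ : Q * Q' = 1 := hN
  refine ⟨fun a b => ∑ j, ∑ l, (Q * Θ j l * Q') a b • Sjl s j l, ?_, ?_⟩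
  · intro v hv
    apply posDef_of_quadratic
    intro w hw
    set ξ : Fin n → ℂ := ∑ p, star (w p) • s p with hξ
    have hξ0 : ξ ≠ 0 := by
      intro h0
      apply hw
      have := Fintype.linearIndependent_iff.1 hs (fun p => star (w p)) h0
      funext p
      exact star_eq_zero.1 (this p)
    set u : Fin r → ℂ := Q'.mulVec v with hu
    have hu0 : u ≠ 0 := by
      intro h0
      apply hv
      have : Q.mulVec u = v := by rw [hu, Matrix.mulVec_mulVec, hQQ, Matrix.one_mulVec]
      rw [← this, h0, Matrix.mulVec_zero]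
    obtain ⟨x, hx, hx'⟩ := hpos ξ hξ0 u hu0
    have e1 : AV (fun a b => ∑ j, ∑ l, (Q * Θ j l * Q') a b • Sjl s j l) v =
        ∑ j, ∑ l, (star v ⬝ᵥ (Q * Θ j l * Q').mulVec v) • Sjl s j l := by
      unfold AV
      have e2 : ∀ j l, (star v ⬝ᵥ (Q * Θ j l * Q').mulVec v) • Sjl s j l =
          ∑ a, ∑ b, (star (v a) * v b) • ((Q * Θ j l * Q') a b • Sjl s j l) := by
        intro j l
        simp only [dotProduct, Matrix.mulVec, Finset.mul_sum, Finset.sum_smul, smul_smul,
          Pi.star_apply]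
        refine Finset.sum_congr rfl fun a _ => Finset.sum_congr rfl fun b _ => ?_
        congr 1
        ring
      simp only [e2, Finset.smul_sum]
      calc _ = ∑ a, ∑ j, ∑ b, ∑ l, (star (v a) * v b) • ((Q * Θ j l * Q') a b • Sjl s j l) :=
            Finset.sum_congr rfl fun a _ => Finset.sum_comm
        _ = ∑ j, ∑ a, ∑ b, ∑ l, (star (v a) * v b) • ((Q * Θ j l * Q') a b • Sjl s j l) :=
            Finset.sum_comm
        _ = ∑ j, ∑ a, ∑ l, ∑ b, (star (v a) * v b) • ((Q * Θ j l * Q') a b • Sjl s j l) :=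
            Finset.sum_congr rfl fun j _ => Finset.sum_congr rfl fun a _ => Finset.sum_comm
        _ = ∑ j, ∑ l, ∑ a, ∑ b, (star (v a) * v b) • ((Q * Θ j l * Q') a b • Sjl s j l) :=
            Finset.sum_congr rfl fun j _ => Finset.sum_comm
    have e3 : ∀ j l, star w ⬝ᵥ (Sjl s j l).mulVec w =
        ((1 / (2 * Real.pi) : ℝ) : ℂ) * (ξ j * star (ξ l)) := by
      intro j l
      have f1 : ξ j = ∑ p, star (w p) * s p j := by
        rw [hξ, Finset.sum_apply]
        rfl
      have f2 : star (ξ l) = ∑ q, w q * star (s q l) := by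
        have : ξ l = ∑ p, star (w p) * s p l := by
          rw [hξ, Finset.sum_apply]
          rfl
        rw [this, star_sum]
        refine Finset.sum_congr rfl fun q _ => ?_
        rw [star_mul', star_star]
      rw [f1, f2, Finset.sum_mul_sum, Finset.mul_sum]
      unfold Sjl
      simp only [dotProduct, Matrix.mulVec, Matrix.of_apply, Finset.mul_sum, Pi.star_apply]
      refine Finset.sum_congr rfl fun p _ => Finset.sum_congr rfl fun q _ => ?_
      ring
    have e4 : ∀ j l, star v ⬝ᵥ (Q * Θ j l * Q').mulVec v =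
        star u ⬝ᵥ (H z).mulVec ((Θ j l).mulVec u) := by
      intro j l
      rw [hu, hQ, Matrix.star_mulVec, hQ', Matrix.conjTranspose_conjTranspose,
        ← Matrix.dotProduct_mulVec, Matrix.mulVec_mulVec, Matrix.mulVec_mulVec,
        Matrix.mulVec_mulVec, Matrix.mul_assoc, Matrix.mul_assoc]
    rw [e1]
    have e5 : star w ⬝ᵥ (∑ j, ∑ l, (star v ⬝ᵥ (Q * Θ j l * Q').mulVec v) • Sjl s j l).mulVec w =
        ((1 / (2 * Real.pi) : ℝ) : ℂ) * (x : ℂ) := by
      rw [← hx', Finset.mul_sum]
      simp only [Matrix.sum_mulVec, dotProduct_sum, Matrix.smul_mulVec, dotProduct_smul, e3, e4,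
        Finset.mul_sum, smul_eq_mul]
      refine Finset.sum_congr rfl fun j _ => Finset.sum_congr rfl fun l _ => ?_
      ring
    rw [e5, ← Complex.ofReal_mul]
    have : 0 < (1 / (2 * Real.pi)) * x := by
      have := Real.pi_pos
      positivity
    exact_mod_cast this
  · intro i
    have hmap : (Q.map MvPolynomial.C : Matrix (Fin r) (Fin r) (Forms (Fin k))) *
        Q'.map MvPolynomial.C = 1 := by
      rw [← Matrix.map_mul, hQQ]
      exact Matrix.map_one _ (map_zero _) (map_one _)
    have key : (Q.map MvPolynomial.C : Matrix (Fin r) (Fin r) (Forms (Fin k))) *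
        curvatureForm Θ s * Q'.map MvPolynomial.C =
        Matrix.of fun a b => lin (∑ j, ∑ l, (Q * Θ j l * Q') a b • Sjl s j l) := by
      rw [curvatureForm_eq]
      simp only [Matrix.mul_sum, Matrix.sum_mul, Matrix.mul_smul, Matrix.smul_mul,
        ← Matrix.map_mul]
      ext1 a b
      rw [Matrix.of_apply, lin_sum, Matrix.sum_apply]
      refine Finset.sum_congr rfl fun j _ => ?_
      rw [lin_sum, Matrix.sum_apply]
      refine Finset.sum_congr rfl fun l _ => ?_
      rw [lin_smul, Matrix.smul_apply, Matrix.map_apply, smul_eq_mul, mul_comm]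
    rw [← key]
    exact (chern_conj (F := curvatureForm Θ s) hmap i).symm

end Pool.Agent.Helper94.Griff
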