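import Pool.Agent.Helper94.Griff.JT
import Pool.Agent.Helper94.Griff.Frame

/-!
Rank two: positivity of all numerically positive polynomials in the Chern forms.
-/

open Finset MvPolynomial
open scoped ComplexOrder

namespace Pool.Agent.Helper94.Griff

lemma chern_two_one {R : Type*} [CommRing R] (M : Matrix (Fin 2) (Fin 2) R) :
    chern M 1 = M 0 0 + M 1 1 ∧ chern M 2 = M 0 0 * M 1 1 - M 0 1 * M 1 0 := by
  have h : Matrix.det (1 + (Polynomial.X : Polynomial R) • M.map Polynomial.C) =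
      1 + Polynomial.C (M 0 0 + M 1 1) * Polynomial.X +
        Polynomial.C (M 0 0 * M 1 1 - M 0 1 * M 1 0) * Polynomial.X ^ 2 := by
    rw [Matrix.det_fin_two]
    simp only [Matrix.add_apply, Matrix.smul_apply, Matrix.map_apply, smul_eq_mul,
      Matrix.one_apply_eq, Matrix.one_apply_ne zero_ne_one, Matrix.one_apply_ne one_ne_zero,
      map_add, map_sub, map_mul]
    ring
  unfold chern
  rw [h]
  constructor
  · rw [Polynomial.coeff_add, Polynomial.coeff_add, Polynomial.coeff_C_mul,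
      Polynomial.coeff_C_mul, Polynomial.coeff_one, Polynomial.coeff_X, Polynomial.coeff_X_pow]
    norm_num
  · rw [Polynomial.coeff_add, Polynomial.coeff_add, Polynomial.coeff_C_mul,
      Polynomial.coeff_C_mul, Polynomial.coeff_one, Polynomial.coeff_X, Polynomial.coeff_X_pow]
    norm_num

theorem rankTwo_aux {n k : ℕ} {H : (Fin n → ℂ) → Matrix (Fin 2) (Fin 2) ℂ} {z : Fin n → ℂ}
    (hH : (H z).PosDef) (hpos : GriffithsPositive H z) {s : Fin k → Fin n → ℂ}
    (hs : LinearIndependent ℂ s) {lam : Fin k → Fin 3} (hlam : lam ∈ partitions k 2) :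
    ∃ x : ℝ, 0 < x ∧ volCoeff (aeval (fun i : Fin 2 =>
      chern (curvatureForm (curvature H z) s) ((i : ℕ) + 1)) (schur 2 lam)) = x := by
  obtain ⟨B, hB, hch⟩ := exists_frame hH hpos hs
  obtain ⟨a, b, hab, hschur⟩ := schur_two hlam
  obtain ⟨h1, h2⟩ := chern_two_one (Matrix.of fun a b => lin (B a b))
  obtain ⟨x, hx, hx'⟩ := schurTwo_pos hB (a := a) (b := b) (by rw [Fintype.card_fin]; exact hab.symm)
  refine ⟨x, hx, ?_⟩
  rw [← hx', vol_apply, hschur, map_mul, map_pow]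
  have hmap := map_hh ((aeval (fun i : Fin 2 =>
    chern (curvatureForm (curvature H z) s) ((i : ℕ) + 1)) :
      MvPolynomial (Fin 2) ℚ →ₐ[ℚ] Forms (Fin k)) : MvPolynomial (Fin 2) ℚ →+* Forms (Fin k))
      (X 0) (X 1) b
  have hmap' : (aeval (fun i : Fin 2 =>
    chern (curvatureForm (curvature H z) s) ((i : ℕ) + 1))) (hh (X 0 : MvPolynomial (Fin 2) ℚ)
      (X 1) b) = hh (aeval (fun i : Fin 2 =>
    chern (curvatureForm (curvature H z) s) ((i : ℕ) + 1)) (X 0 : MvPolynomial (Fin 2) ℚ))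
      (aeval (fun i : Fin 2 =>
    chern (curvatureForm (curvature H z) s) ((i : ℕ) + 1)) (X 1 : MvPolynomial (Fin 2) ℚ)) b := hmap
  rw [hmap', aeval_X, aeval_X]
  have c1 : chern (curvatureForm (curvature H z) s) (((0 : Fin 2) : ℕ) + 1) = lin (NB B) := by
    rw [hch]
    simp only [Fin.val_zero, zero_add]
    rw [h1, NB_two, lin_add]
    rfl
  have c2 : chern (curvatureForm (curvature H z) s) (((1 : Fin 2) : ℕ) + 1) = twoDet B := by
    rw [hch]
    simp only [Fin.val_one, one_add_one_eq_two]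
    rw [h2]
    rfl
  rw [c1, c2]

lemma volCoeff_sum {κ : Type*} [Fintype κ] [DecidableEq κ] {α : Type*} (S : Finset α)
    (f : α → Forms κ) : volCoeff (∑ i ∈ S, f i) = ∑ i ∈ S, volCoeff (f i) := by
  simp only [← vol_apply, map_sum]

/-- sums with nonnegative rational coefficients -/
lemma sum_pos_aux {κ : Type*} [Fintype κ] [DecidableEq κ] {α : Type*} {r : ℕ} (S : Finset α)
    (P : α → MvPolynomial (Fin r) ℚ) (φ : MvPolynomial (Fin r) ℚ →ₐ[ℚ] Forms κ)
    (h : ∀ i ∈ S, ∃ x : ℝ, 0 < x ∧ volCoeff (φ (P i)) = x) (a : α → ℚ)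
    (ha : ∀ i ∈ S, 0 ≤ a i) (ha' : ∃ i ∈ S, a i ≠ 0) :
    ∃ x : ℝ, 0 < x ∧ volCoeff (φ (∑ i ∈ S, C (a i) * P i)) = x := by
  choose! x hx hx' using h
  refine ⟨∑ i ∈ S, (a i : ℝ) * x i, ?_, ?_⟩
  · obtain ⟨i, hi, hai⟩ := ha'
    refine Finset.sum_pos' (fun j hj => mul_nonneg (by exact_mod_cast ha j hj) (hx j hj).le)
      ⟨i, hi, mul_pos ?_ (hx i hi)⟩
    exact_mod_cast lt_of_le_of_ne (ha i hi) (Ne.symm hai)
  · rw [map_sum, volCoeff_sum]
    push_cast
    refine Finset.sum_congr rfl fun i hi => ?_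
    rw [map_mul, ← hx' i hi]
    have e1 : φ (C (a i)) = ((a i : ℂ)) • (1 : Forms κ) := by
      have : φ (C (a i)) = algebraMap ℚ (Forms κ) (a i) := φ.commutes _
      rw [this, IsScalarTower.algebraMap_apply ℚ ℂ (Forms κ), Algebra.smul_def, mul_one]
      congr 1
    rw [e1, smul_mul_assoc, one_mul, ← vol_apply, map_smul, vol_apply, smul_eq_mul]

end Pool.Agent.Helper94.Griff
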