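import Pool.Agent.Helper94.Griff.Three
import Pool.Agent.Helper94.Griff.RankTwoFinal

/-!
Degree at most three: positivity of all numerically positive polynomials in the Chern forms.
-/

open Finset MvPolynomial
open scoped ComplexOrder

namespace Pool.Agent.Helper94.Griff

variable {r : ℕ}

lemma aeval_cvar {R : Type*} [CommRing R] [Algebra ℚ R] (X : Matrix (Fin r) (Fin r) R) (m : ℕ) :
    aeval (fun i : Fin r => chern X ((i : ℕ) + 1)) (cvar r (m : ℤ)) = chern X m := by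
  unfold cvar
  split_ifs with h1 h2
  · have : m = 0 := by exact_mod_cast h1
    rw [this, chern_zero, map_one]
  · rw [aeval_X]
    congr 1
    simp only
    omega
  · rw [map_zero, chern_gt]
    push Not at h2
    by_contra hcon
    have h3 := h2 (by omega)
    omega

lemma aeval_cvar_neg {R : Type*} [CommRing R] [Algebra ℚ R] (X : Matrix (Fin r) (Fin r) R)
    {m : ℤ} (hm : m < 0) : aeval (fun i : Fin r => chern X ((i : ℕ) + 1)) (cvar r m) = 0 := by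
  unfold cvar
  rw [if_neg hm.ne, dif_neg (by omega), map_zero]

/-- the image of a Jacobi–Trudi determinant -/
lemma aeval_schur {R : Type*} [CommRing R] [Algebra ℚ R] (X : Matrix (Fin r) (Fin r) R) {k : ℕ}
    (lam : Fin k → Fin (r + 1)) :
    aeval (fun i : Fin r => chern X ((i : ℕ) + 1)) (schur r lam) =
      (Matrix.of fun j l : Fin k => aeval (fun i : Fin r => chern X ((i : ℕ) + 1))
        (cvar r ((lam j : ℤ) - (j : ℤ) + (l : ℤ)))).det := by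
  unfold schur
  rw [AlgHom.map_det]
  rfl

theorem degThree_aux {n k r : ℕ} (hr : 1 ≤ r) (hk : 1 ≤ k) (hk3 : k ≤ 3)
    {H : (Fin n → ℂ) → Matrix (Fin r) (Fin r) ℂ}
    {z : Fin n → ℂ} (hH : (H z).PosDef) (hpos : GriffithsPositive H z) {s : Fin k → Fin n → ℂ}
    (hs : LinearIndependent ℂ s) {lam : Fin k → Fin (r + 1)} (hlam : lam ∈ partitions k r) :
    ∃ x : ℝ, 0 < x ∧ volCoeff (aeval (fun i : Fin r =>
      chern (curvatureForm (curvature H z) s) ((i : ℕ) + 1)) (schur r lam)) = x := by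
  obtain ⟨B, hB, hch⟩ := exists_frame hH hpos hs
  have hfun : (fun i : Fin r => chern (curvatureForm (curvature H z) s) ((i : ℕ) + 1)) =
      fun i : Fin r => chern (fm B) ((i : ℕ) + 1) := funext fun i => hch _
  rw [hfun, aeval_schur, ← vol_apply]
  unfold partitions at hlam
  rw [Finset.mem_filter] at hlam
  obtain ⟨-, hanti, hsum⟩ := hlam
  interval_cases k
  · -- k = 1
    rw [Fin.sum_univ_one] at hsum
    rw [Matrix.det_unique]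
    simp only [Matrix.of_apply, Fin.default_eq_zero, hsum]
    have e : (((1 : ℕ) : ℤ) - (((0 : Fin 1) : ℕ) : ℤ) + (((0 : Fin 1) : ℕ) : ℤ)) = ((1 : ℕ) : ℤ) := by
      norm_num
    rw [e, aeval_cvar]
    exact e1_pos hB hr (by rw [Fintype.card_fin])
  · -- k = 2
    rw [Fin.sum_univ_two] at hsum
    have h01 : (lam 1 : ℕ) ≤ (lam 0 : ℕ) := hanti (Fin.zero_le _)
    rw [Matrix.det_fin_two]
    simp only [Matrix.of_apply, Fin.val_zero, Fin.val_one]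
    have hcases : ((lam 0 : ℕ) = 2 ∧ (lam 1 : ℕ) = 0) ∨ ((lam 0 : ℕ) = 1 ∧ (lam 1 : ℕ) = 1) := by
      omega
    rcases hcases with ⟨a0, a1⟩ | ⟨a0, a1⟩
    · rw [a0, a1]
      have hr2 : 2 ≤ r := by
        have := (lam 0).isLt
        omega
      have e1 : (((2 : ℕ) : ℤ) - ((0 : ℕ) : ℤ) + ((0 : ℕ) : ℤ)) = ((2 : ℕ) : ℤ) := by norm_num
      have e2 : (((0 : ℕ) : ℤ) - ((1 : ℕ) : ℤ) + ((1 : ℕ) : ℤ)) = ((0 : ℕ) : ℤ) := by norm_num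
      have e3 : (((0 : ℕ) : ℤ) - ((1 : ℕ) : ℤ) + ((0 : ℕ) : ℤ)) < 0 := by norm_num
      rw [e1, e2, aeval_cvar, aeval_cvar, aeval_cvar_neg _ e3, chern_zero, mul_zero, sub_zero,
        mul_one]
      exact e2_pos hB hr2 (by rw [Fintype.card_fin])
    · rw [a0, a1]
      have e1 : (((1 : ℕ) : ℤ) - ((0 : ℕ) : ℤ) + ((0 : ℕ) : ℤ)) = ((1 : ℕ) : ℤ) := by norm_num
      have e2 : (((1 : ℕ) : ℤ) - ((1 : ℕ) : ℤ) + ((1 : ℕ) : ℤ)) = ((1 : ℕ) : ℤ) := by norm_num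
      have e3 : (((1 : ℕ) : ℤ) - ((1 : ℕ) : ℤ) + ((0 : ℕ) : ℤ)) = ((0 : ℕ) : ℤ) := by norm_num
      have e4 : (((1 : ℕ) : ℤ) - ((0 : ℕ) : ℤ) + ((1 : ℕ) : ℤ)) = ((2 : ℕ) : ℤ) := by norm_num
      rw [e1, e2, e3, e4, aeval_cvar, aeval_cvar, aeval_cvar, chern_zero, mul_one, ← pow_two]
      exact h2_pos hB hr (by rw [Fintype.card_fin])
  · -- k = 3
    rw [Fin.sum_univ_three] at hsum
    have h01 : (lam 1 : ℕ) ≤ (lam 0 : ℕ) := hanti (Fin.zero_le _)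
    have h12 : (lam 2 : ℕ) ≤ (lam 1 : ℕ) := hanti (by decide)
    rw [Matrix.det_fin_three]
    simp only [Matrix.of_apply, Fin.val_zero, Fin.val_one, Fin.val_two]
    have hcases : ((lam 0 : ℕ) = 3 ∧ (lam 1 : ℕ) = 0 ∧ (lam 2 : ℕ) = 0) ∨
        ((lam 0 : ℕ) = 2 ∧ (lam 1 : ℕ) = 1 ∧ (lam 2 : ℕ) = 0) ∨
        ((lam 0 : ℕ) = 1 ∧ (lam 1 : ℕ) = 1 ∧ (lam 2 : ℕ) = 1) := by
      omega
    have z1 : ∀ m : ℕ, (aeval (fun i : Fin r => chern (fm B) ((i : ℕ) + 1))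
      (cvar r (m : ℤ)) : Forms (Fin 3)) = chern (fm B) m := aeval_cvar (fm B)
    have z2 : ∀ {m : ℤ}, m < 0 → (aeval (fun i : Fin r => chern (fm B) ((i : ℕ) + 1))
      (cvar r m) : Forms (Fin 3)) = 0 := fun h => aeval_cvar_neg (fm B) h
    rcases hcases with ⟨a0, a1, a2⟩ | ⟨a0, a1, a2⟩ | ⟨a0, a1, a2⟩
    · rw [a0, a1, a2]
      have hr3 : 3 ≤ r := by
        have := (lam 0).isLt
        omega
      have e00 : (((3 : ℕ) : ℤ) - ((0 : ℕ) : ℤ) + ((0 : ℕ) : ℤ)) = ((3 : ℕ) : ℤ) := by norm_num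
      have e11 : (((0 : ℕ) : ℤ) - ((1 : ℕ) : ℤ) + ((1 : ℕ) : ℤ)) = ((0 : ℕ) : ℤ) := by norm_num
      have e22 : (((0 : ℕ) : ℤ) - ((2 : ℕ) : ℤ) + ((2 : ℕ) : ℤ)) = ((0 : ℕ) : ℤ) := by norm_num
      have e10 : (((0 : ℕ) : ℤ) - ((1 : ℕ) : ℤ) + ((0 : ℕ) : ℤ)) < 0 := by norm_num
      have e20 : (((0 : ℕ) : ℤ) - ((2 : ℕ) : ℤ) + ((0 : ℕ) : ℤ)) < 0 := by norm_num
      have e21 : (((0 : ℕ) : ℤ) - ((2 : ℕ) : ℤ) + ((1 : ℕ) : ℤ)) < 0 := by norm_num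
      rw [e00, e11, e22, z1, z1, z2 e10, z2 e20, z2 e21, chern_zero]
      obtain ⟨x, hx, hx'⟩ := e3_pos hB hr3 (by rw [Fintype.card_fin])
      refine ⟨x, hx, ?_⟩
      generalize chern (fm B) 1 = c1 at hx' ⊢
      generalize chern (fm B) 2 = c2 at hx' ⊢
      generalize chern (fm B) 3 = c3 at hx' ⊢
      rw [← hx']
      congr 1
      ring
    · rw [a0, a1, a2]
      have hr2 : 2 ≤ r := by
        have := (lam 0).isLt
        omega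
      have e00 : (((2 : ℕ) : ℤ) - ((0 : ℕ) : ℤ) + ((0 : ℕ) : ℤ)) = ((2 : ℕ) : ℤ) := by norm_num
      have e01 : (((2 : ℕ) : ℤ) - ((0 : ℕ) : ℤ) + ((1 : ℕ) : ℤ)) = ((3 : ℕ) : ℤ) := by norm_num
      have e11 : (((1 : ℕ) : ℤ) - ((1 : ℕ) : ℤ) + ((1 : ℕ) : ℤ)) = ((1 : ℕ) : ℤ) := by norm_num
      have e10 : (((1 : ℕ) : ℤ) - ((1 : ℕ) : ℤ) + ((0 : ℕ) : ℤ)) = ((0 : ℕ) : ℤ) := by norm_num
      have e22 : (((0 : ℕ) : ℤ) - ((2 : ℕ) : ℤ) + ((2 : ℕ) : ℤ)) = ((0 : ℕ) : ℤ) := by norm_num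
      have e20 : (((0 : ℕ) : ℤ) - ((2 : ℕ) : ℤ) + ((0 : ℕ) : ℤ)) < 0 := by norm_num
      have e21 : (((0 : ℕ) : ℤ) - ((2 : ℕ) : ℤ) + ((1 : ℕ) : ℤ)) < 0 := by norm_num
      rw [e00, e01, e11, e10, e22, z1, z1, z1, z1, z2 e20, z2 e21, chern_zero]
      obtain ⟨x, hx, hx'⟩ := s21_pos hB hr2 (by rw [Fintype.card_fin])
      refine ⟨x, hx, ?_⟩
      generalize chern (fm B) 1 = c1 at hx' ⊢
      generalize chern (fm B) 2 = c2 at hx' ⊢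
      generalize chern (fm B) 3 = c3 at hx' ⊢
      rw [← hx']
      congr 1
      ring
    · rw [a0, a1, a2]
      have e00 : (((1 : ℕ) : ℤ) - ((0 : ℕ) : ℤ) + ((0 : ℕ) : ℤ)) = ((1 : ℕ) : ℤ) := by norm_num
      have e01 : (((1 : ℕ) : ℤ) - ((0 : ℕ) : ℤ) + ((1 : ℕ) : ℤ)) = ((2 : ℕ) : ℤ) := by norm_num
      have e02 : (((1 : ℕ) : ℤ) - ((0 : ℕ) : ℤ) + ((2 : ℕ) : ℤ)) = ((3 : ℕ) : ℤ) := by norm_num
      have e11 : (((1 : ℕ) : ℤ) - ((1 : ℕ) : ℤ) + ((1 : ℕ) : ℤ)) = ((1 : ℕ) : ℤ) := by norm_num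
      have e10 : (((1 : ℕ) : ℤ) - ((1 : ℕ) : ℤ) + ((0 : ℕ) : ℤ)) = ((0 : ℕ) : ℤ) := by norm_num
      have e12 : (((1 : ℕ) : ℤ) - ((1 : ℕ) : ℤ) + ((2 : ℕ) : ℤ)) = ((2 : ℕ) : ℤ) := by norm_num
      have e22 : (((1 : ℕ) : ℤ) - ((2 : ℕ) : ℤ) + ((2 : ℕ) : ℤ)) = ((1 : ℕ) : ℤ) := by norm_num
      have e21 : (((1 : ℕ) : ℤ) - ((2 : ℕ) : ℤ) + ((1 : ℕ) : ℤ)) = ((0 : ℕ) : ℤ) := by norm_num
      have e20 : (((1 : ℕ) : ℤ) - ((2 : ℕ) : ℤ) + ((0 : ℕ) : ℤ)) < 0 := by norm_num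
      rw [e00, e01, e02, e11, e10, e12, e22, e21, z1, z1, z1, z1, z2 e20, chern_zero]
      obtain ⟨x, hx, hx'⟩ := h3_pos hB hr (by rw [Fintype.card_fin])
      refine ⟨x, hx, ?_⟩
      generalize chern (fm B) 1 = c1 at hx' ⊢
      generalize chern (fm B) 2 = c2 at hx' ⊢
      generalize chern (fm B) 3 = c3 at hx' ⊢
      rw [← hx']
      congr 1
      ring

end Pool.Agent.Helper94.Griff
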