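import Pool.Agent.Helper94.Griff.Star

/-!
The Schur complement.
-/

open Finset Polynomial

namespace Pool.Agent.Helper94.Griff.Dec

set_option linter.unusedSectionVars false

variable {r : ℕ} {K : Type*} [Field K] [Algebra ℂ K]

/-- the Schur complement of `X` along `x` -/
noncomputable def flat (X : Matrix (Fin r) (Fin r) K) (x : Fin r → ℂ) :
    Matrix (Fin r) (Fin r) K :=
  Matrix.of fun a b => X a b - (bf X x x)⁻¹ * ((∑ c, x c • X a c) * (∑ c, star (x c) • X c b))

lemma bf_eq_left {R : Type*} [CommRing R] [Algebra ℂ R] (X : Matrix (Fin r) (Fin r) R)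
    (y x : Fin r → ℂ) : bf X y x = ∑ a, star (y a) • ∑ c, x c • X a c := by
  unfold bf
  refine Finset.sum_congr rfl fun a _ => ?_
  rw [Finset.smul_sum]
  refine Finset.sum_congr rfl fun c _ => ?_
  rw [smul_smul]

lemma bf_eq_right {R : Type*} [CommRing R] [Algebra ℂ R] (X : Matrix (Fin r) (Fin r) R)
    (y x : Fin r → ℂ) : bf X y x = ∑ b, x b • ∑ c, star (y c) • X c b := by
  unfold bf
  rw [Finset.sum_comm]
  refine Finset.sum_congr rfl fun a _ => ?_
  rw [Finset.smul_sum]
  refine Finset.sum_congr rfl fun c _ => ?_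
  rw [smul_smul, mul_comm]

lemma bf_flat (X : Matrix (Fin r) (Fin r) K) (x y z : Fin r → ℂ) :
    bf (flat X x) y z = bf X y z - (bf X x x)⁻¹ * (bf X y x * bf X x z) := by
  have h1 : bf X y x * bf X x z = ∑ a, ∑ b, (star (y a) * z b) •
      ((∑ c, x c • X a c) * (∑ c, star (x c) • X c b)) := by
    rw [bf_eq_left X y x, bf_eq_right X x z, Finset.sum_mul_sum]
    refine Finset.sum_congr rfl fun a _ => Finset.sum_congr rfl fun b _ => ?_
    rw [smul_mul_smul_comm]
  rw [h1, Finset.mul_sum]
  unfold bf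
  rw [← Finset.sum_sub_distrib]
  refine Finset.sum_congr rfl fun a _ => ?_
  rw [Finset.mul_sum, ← Finset.sum_sub_distrib]
  refine Finset.sum_congr rfl fun b _ => ?_
  unfold flat
  rw [Matrix.of_apply, smul_sub, mul_smul_comm]
  rfl

lemma mn_consN (X : Matrix (Fin r) (Fin r) K) (x : Fin r → ℂ) (hd : bf X x x ≠ 0) (m : ℕ)
    (g : ℕ → Fin r → ℂ) : mn X (m + 1) (consN x g) = bf X x x * mn (flat X x) m g := by
  set M : Matrix (Fin (m + 1)) (Fin (m + 1)) K :=
    Matrix.of fun i j : Fin (m + 1) => bf X (consN x g i) (consN x g j) with hM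
  set B : Matrix (Fin (m + 1)) (Fin (m + 1)) K :=
    Matrix.of fun i j => if i = 0 then M 0 j else M i j - (bf X x x)⁻¹ * M i 0 * M 0 j with hB
  have hM00 : M 0 0 = bf X x x := rfl
  have h1 : M.det = B.det := by
    refine Matrix.det_eq_of_forall_row_eq_smul_add_const
      (fun i => if i = 0 then 0 else (bf X x x)⁻¹ * M i 0) 0 (if_pos rfl) fun i j => ?_
    by_cases hi : i = 0
    · subst hi
      simp [hB]
    · simp only [hB, Matrix.of_apply, if_neg hi, if_pos]
      ring
  unfold mn
  rw [h1, Matrix.det_succ_column_zero, Finset.sum_eq_single 0]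
  · rw [Fin.val_zero, pow_zero, one_mul]
    congr 1
    congr 1
    ext i j
    rw [Matrix.submatrix_apply, Fin.succAbove_zero]
    simp only [hB, Matrix.of_apply, if_neg (Fin.succ_ne_zero i)]
    rw [bf_flat]
    simp only [hM, Matrix.of_apply, Fin.val_succ, consN, Fin.val_zero]
    ring
  · intro i _ hi
    have : B i 0 = 0 := by
      simp only [hB, Matrix.of_apply, if_neg hi]
      rw [hM00, mul_assoc, mul_comm (M i 0), ← mul_assoc, inv_mul_cancel₀ hd, one_mul, sub_self]
    rw [this, mul_zero, zero_mul]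
  · intro h; exact absurd (mem_univ _) h

lemma bf_eq_dot {R : Type*} [CommRing R] [Algebra ℂ R] (X : Matrix (Fin r) (Fin r) R)
    (y x : Fin r → ℂ) : bf X y x =
      (fun a => algebraMap ℂ R (star (y a))) ⬝ᵥ X.mulVec (fun b => algebraMap ℂ R (x b)) := by
  unfold bf
  simp only [dotProduct, Matrix.mulVec, Finset.mul_sum]
  refine Finset.sum_congr rfl fun a _ => Finset.sum_congr rfl fun b _ => ?_
  rw [Algebra.smul_def, map_mul]
  ring

lemma X_mul_adj {R : Type*} [CommRing R] (X : Matrix (Fin r) (Fin r) R) (u : R) :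
    X * (1 + u • X).adjugate = (1 + u • X).det • X - u • (X * (1 + u • X).adjugate * X) := by
  have h : X * ((1 + u • X).adjugate * (1 + u • X)) = (1 + u • X).det • X := by
    rw [Matrix.adjugate_mul, Matrix.mul_smul, Matrix.mul_one]
  rw [← h, Matrix.mul_add, Matrix.mul_one, Matrix.mul_add, Matrix.mul_smul, Matrix.mul_smul,
    ← Matrix.mul_assoc]
  abel

lemma EE_flat [CharZero K] (X : Matrix (Fin r) (Fin r) K) (x : Fin r → ℂ) (hd : bf X x x ≠ 0) :
    Polynomial.C (bf X x x) * EE (flat X x) = bf (Kp X) x x := by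
  apply Polynomial.eq_of_infinite_eval_eq
  have hE : EE X ≠ 0 := by
    intro h
    have := EE_coeff_zero X
    rw [h, Polynomial.coeff_zero] at this
    exact zero_ne_one this
  have hinf : Set.Infinite {u : K | (EE X).eval u ≠ 0} := by
    have h1 : Set.Finite {u : K | (EE X).eval u = 0} := Polynomial.finite_setOfPred_isRoot hE
    have h2 := h1.infinite_compl
    exact h2
  refine hinf.mono fun u hu => ?_
  simp only [Set.mem_ofPred_eq] at hu ⊢
  rw [EE_eval] at hu
  have hbf : (bf (Kp X) x x).eval u = bf (Ku X u) x x := by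
    unfold bf Ku
    rw [Polynomial.eval_finsetSum]
    refine Finset.sum_congr rfl fun a _ => ?_
    rw [Polynomial.eval_finsetSum]
    refine Finset.sum_congr rfl fun b _ => ?_
    rw [Polynomial.eval_smul, Matrix.map_apply]
  rw [hbf, Polynomial.eval_mul, Polynomial.eval_C, EE_eval, Ku_eq, X_mul_adj]
  set A : Matrix (Fin r) (Fin r) K := 1 + u • X with hA
  set xv : Fin r → K := fun c => algebraMap ℂ K (x c) with hxv
  set xs : Fin r → K := fun c => algebraMap ℂ K (star (x c)) with hxs
  set d := bf X x x with hdd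
  have hdef : d = xs ⬝ᵥ X.mulVec xv := bf_eq_dot X x x
  have hflat : 1 + u • flat X x = A + (Matrix.replicateCol Unit (-(u * d⁻¹) • X.mulVec xv)) *
      (Matrix.replicateRow Unit (Matrix.vecMul xs X)) := by
    ext a b
    rw [Matrix.add_apply, Matrix.add_apply, hA, Matrix.add_apply, Matrix.smul_apply,
      Matrix.smul_apply, add_assoc]
    congr 1
    have e1 : (∑ c, x c • X a c) = X.mulVec xv a := by
      simp only [Matrix.mulVec, dotProduct, hxv]
      refine Finset.sum_congr rfl fun c _ => ?_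
      rw [Algebra.smul_def, mul_comm]
    have e2 : (∑ c, star (x c) • X c b) = Matrix.vecMul xs X b := by
      simp only [Matrix.vecMul, dotProduct, hxs]
      refine Finset.sum_congr rfl fun c _ => ?_
      rw [Algebra.smul_def]
    simp only [flat, Matrix.of_apply, e1, e2, Matrix.mul_apply, Matrix.replicateCol_apply,
      Matrix.replicateRow_apply, Finset.univ_unique, Finset.sum_const, Finset.card_singleton,
      one_smul, Pi.smul_apply, smul_eq_mul]
    ring
  rw [hflat, Matrix.det_add_replicateCol_mul_replicateRow (isUnit_iff_ne_zero.2 hu)]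
  have h2 : (1 + Matrix.replicateRow Unit (Matrix.vecMul xs X) * A⁻¹ *
      Matrix.replicateCol Unit (-(u * d⁻¹) • X.mulVec xv)).det =
      1 - u * d⁻¹ * (A.det)⁻¹ * (Matrix.vecMul xs X ⬝ᵥ A.adjugate.mulVec (X.mulVec xv)) := by
    rw [Matrix.det_unique, Matrix.add_apply, Matrix.one_apply_eq]
    have : (Matrix.replicateRow Unit (Matrix.vecMul xs X) * A⁻¹ *
      Matrix.replicateCol Unit (-(u * d⁻¹) • X.mulVec xv)) default default =
        Matrix.vecMul (Matrix.vecMul xs X) A⁻¹ ⬝ᵥ (-(u * d⁻¹) • X.mulVec xv) := by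
      rw [Matrix.mul_apply]
      rfl
    rw [this, Matrix.inv_def, Ring.inverse_eq_inv', Matrix.vecMul_smul, dotProduct_smul,
      smul_dotProduct, ← Matrix.dotProduct_mulVec]
    simp only [smul_eq_mul]
    ring
  rw [h2]
  have h3 : bf (A.det • X - u • (X * A.adjugate * X)) x x =
      A.det * d - u * (Matrix.vecMul xs X ⬝ᵥ A.adjugate.mulVec (X.mulVec xv)) := by
    rw [bf_eq_dot, Matrix.sub_mulVec, dotProduct_sub, Matrix.smul_mulVec, Matrix.smul_mulVec,
      dotProduct_smul, dotProduct_smul, ← hdef, smul_eq_mul, smul_eq_mul]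
    congr 2
    rw [← Matrix.mulVec_mulVec, ← Matrix.mulVec_mulVec, Matrix.dotProduct_mulVec]
  rw [h3]
  field_simp

lemma eZ_flat [CharZero K] (X : Matrix (Fin r) (Fin r) K) (x : Fin r → ℂ) (hd : bf X x x ≠ 0)
    (n : ℤ) : bf X x x * eZ (flat X x) n = bf (KZ X n) x x := by
  unfold eZ KZ
  split_ifs with hn
  · rw [← Polynomial.coeff_C_mul, EE_flat X x hd]
    unfold bf
    rw [Polynomial.finsetSum_coeff]
    refine Finset.sum_congr rfl fun a _ => ?_
    rw [Polynomial.finsetSum_coeff]
    refine Finset.sum_congr rfl fun b _ => ?_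
    rw [Polynomial.coeff_smul, Matrix.map_apply]
  · rw [mul_zero]
    unfold bf
    simp

end Pool.Agent.Helper94.Griff.Dec
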