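import Pool.Agent.Helper94.Griff.DecSchur
import Pool.Agent.Helper94.Griff.DegreeThreeFinal

/-!
Decomposable curvature in a unitary frame.
-/

open Finset Matrix
open scoped ComplexOrder

namespace Pool.Agent.Helper94.Griff

/-- The curvature at `z` is decomposable: there are finitely many complex numbers `A s a j` and
`B t a j` such that, for all tangent vectors `ξ` and all vectors `v` in the fibre,
`⟨Θ(ξ, ξ̄) v, v⟩ = ∑_s |∑_{a,j} A_s(a,j) v̄_a ξ_j|² + ∑_t |∑_{a,j} B_t(a,j) v_a ξ_j|²`. -/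
def DecomposableCurvature {n r : ℕ} (H : (Fin n → ℂ) → Matrix (Fin r) (Fin r) ℂ)
    (z : Fin n → ℂ) : Prop :=
  ∃ (N : ℕ) (A B : Fin N → Fin r → Fin n → ℂ), ∀ (ξ : Fin n → ℂ) (v : Fin r → ℂ),
    ∑ j, ∑ l, ξ j * star (ξ l) *
        (star v ⬝ᵥ (H z).mulVec ((curvature H z j l).mulVec v)) =
      ((∑ s, ‖∑ a, ∑ j, A s a j * star (v a) * ξ j‖ ^ 2 +
        ∑ t, ‖∑ a, ∑ j, B t a j * v a * ξ j‖ ^ 2 : ℝ) : ℂ)

namespace Dec

lemma eq_zero_of_quadratic {κ : Type*} [Fintype κ] [DecidableEq κ] {M : Matrix κ κ ℂ}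
    (h : ∀ w : κ → ℂ, star w ⬝ᵥ M.mulVec w = 0) : M = 0 := by
  have h1 : M.toEuclideanLin = 0 := by
    rw [← inner_map_self_eq_zero]
    intro x
    have h2 : inner ℂ (M.toEuclideanLin x) x = star (star x.ofLp ⬝ᵥ M.mulVec x.ofLp) := by
      rw [EuclideanSpace.inner_eq_star_dotProduct, Matrix.ofLp_toLpLin, Matrix.toLin'_apply,
        ← Matrix.star_dotProduct, dotProduct_comm]
    rw [h2, h, star_zero]
  exact (LinearEquiv.map_eq_zero_iff _).1 h1

/-- families with the same quadratic forms agree -/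
lemma family_ext {r k : ℕ} {P Q : Fin r → Fin r → Matrix (Fin k) (Fin k) ℂ}
    (h : ∀ (v : Fin r → ℂ) (w : Fin k → ℂ),
      star w ⬝ᵥ (AV P v).mulVec w = star w ⬝ᵥ (AV Q v).mulVec w) : P = Q := by
  have h1 : ∀ v, AV P v - AV Q v = 0 := by
    intro v
    apply eq_zero_of_quadratic
    intro w
    rw [Matrix.sub_mulVec, dotProduct_sub, h, sub_self]
  funext a b
  ext p q
  have h2 : (Matrix.of fun a b => P a b p q - Q a b p q : Matrix (Fin r) (Fin r) ℂ) = 0 := by
    apply eq_zero_of_quadratic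
    intro v
    have h3 := congrFun (congrFun (h1 v) p) q
    rw [Matrix.sub_apply] at h3
    unfold AV at h3
    simp only [Matrix.sum_apply, Matrix.smul_apply, smul_eq_mul, Matrix.zero_apply] at h3
    rw [← h3, ← Finset.sum_sub_distrib]
    simp only [dotProduct, Matrix.mulVec, Matrix.of_apply, Pi.star_apply, Finset.mul_sum]
    refine Finset.sum_congr rfl fun a _ => ?_
    rw [← Finset.sum_sub_distrib]
    refine Finset.sum_congr rfl fun b _ => ?_
    ring
  have h4 := congrFun (congrFun h2 a) b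
  rw [Matrix.of_apply, Matrix.zero_apply, sub_eq_zero] at h4
  exact h4

lemma AV_BB {r k : ℕ} {α β : Type*} [Fintype α] [Fintype β]
    (A : α → Matrix (Fin r) (Fin k) ℂ) (B : β → Matrix (Fin r) (Fin k) ℂ) (v : Fin r → ℂ)
    (p q : Fin k) : AV (BB A B) v p q =
      ∑ s, (∑ a, star (v a) * A s a p) * star (∑ a, star (v a) * A s a q) +
        ∑ t, star (∑ a, v a * B t a q) * (∑ a, v a * B t a p) := by
  unfold AV
  simp only [Matrix.sum_apply, Matrix.smul_apply, BB, Matrix.of_apply, smul_eq_mul, mul_add,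
    Finset.mul_sum, Finset.sum_add_distrib, star_sum, Finset.sum_mul, star_mul', star_star]
  congr 1
  · calc _ = ∑ c, ∑ s : α, ∑ d, _ := Finset.sum_congr rfl fun c _ => Finset.sum_comm
      _ = ∑ s : α, ∑ c, ∑ d, _ := Finset.sum_comm
      _ = ∑ s : α, ∑ d, ∑ c, _ := Finset.sum_congr rfl fun s _ => Finset.sum_comm
      _ = _ := by
        refine Finset.sum_congr rfl fun s _ => Finset.sum_congr rfl fun c _ =>
          Finset.sum_congr rfl fun d _ => ?_
        ring
  · calc _ = ∑ c, ∑ s : β, ∑ d, _ := Finset.sum_congr rfl fun c _ => Finset.sum_comm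
      _ = ∑ s : β, ∑ c, ∑ d, _ := Finset.sum_comm
      _ = ∑ s : β, ∑ d, ∑ c, _ := Finset.sum_congr rfl fun s _ => Finset.sum_comm
      _ = _ := by
        refine Finset.sum_congr rfl fun s _ => Finset.sum_congr rfl fun c _ =>
          Finset.sum_congr rfl fun d _ => ?_
        ring

/-- the quadratic form of a decomposed family -/
lemma quad_BB {r k : ℕ} {α β : Type*} [Fintype α] [Fintype β]
    (A : α → Matrix (Fin r) (Fin k) ℂ) (B : β → Matrix (Fin r) (Fin k) ℂ) (v : Fin r → ℂ)
    (w : Fin k → ℂ) : star w ⬝ᵥ (AV (BB A B) v).mulVec w =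
      ((∑ s, ‖star v ⬝ᵥ (A s).mulVec (star w)‖ ^ 2 +
        ∑ t, ‖v ⬝ᵥ (B t).mulVec (star w)‖ ^ 2 : ℝ) : ℂ) := by
  have hn : ∀ x : ℂ, (‖x‖ : ℂ) ^ 2 = x * star x := by
    intro x
    have h : ((‖x‖ ^ 2 : ℝ) : ℂ) = x * star x := by
      rw [Complex.star_def, Complex.mul_conj, Complex.normSq_eq_norm_sq]
    rw [← h]; push_cast; rfl
  have hx : ∀ (y : Fin r → ℂ) (Z : Matrix (Fin r) (Fin k) ℂ),
      y ⬝ᵥ Z.mulVec (star w) = ∑ p, star (w p) * ∑ a, y a * Z a p := by
    intro y Z
    rw [Matrix.dotProduct_mulVec, dotProduct_comm]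
    rfl
  push_cast
  simp only [hn, hx, Pi.star_apply]
  have h1 : star w ⬝ᵥ (AV (BB A B) v).mulVec w = ∑ p, ∑ q,
      (∑ s, ((star (w p) * ∑ a, star (v a) * A s a p) *
        star (star (w q) * ∑ a, star (v a) * A s a q)) +
      ∑ t, ((star (w p) * ∑ a, v a * B t a p) * star (star (w q) * ∑ a, v a * B t a q))) := by
    unfold dotProduct
    refine Finset.sum_congr rfl fun p _ => ?_
    have h0 : (AV (BB A B) v).mulVec w p = ∑ q, AV (BB A B) v p q * w q := rfl
    rw [h0, Finset.mul_sum]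
    refine Finset.sum_congr rfl fun q _ => ?_
    rw [AV_BB, Pi.star_apply, add_mul, mul_add, Finset.sum_mul, Finset.mul_sum, Finset.sum_mul,
      Finset.mul_sum]
    congr 1
    · refine Finset.sum_congr rfl fun s _ => ?_
      rw [star_mul', star_star]
      ring
    · refine Finset.sum_congr rfl fun s _ => ?_
      rw [star_mul', star_star]
      ring
  rw [h1]
  simp only [Finset.sum_add_distrib]
  congr 1
  · rw [Finset.sum_congr rfl fun p _ => Finset.sum_comm, Finset.sum_comm]
    refine Finset.sum_congr rfl fun s _ => ?_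
    rw [star_sum, Finset.sum_mul_sum]
  · rw [Finset.sum_congr rfl fun p _ => Finset.sum_comm, Finset.sum_comm]
    refine Finset.sum_congr rfl fun s _ => ?_
    rw [star_sum, Finset.sum_mul_sum]

/-- the curvature form in a unitary frame -/
theorem exists_frame_aux {n r k : ℕ} {H : (Fin n → ℂ) → Matrix (Fin r) (Fin r) ℂ} {z : Fin n → ℂ}
    (hH : (H z).PosDef) (s : Fin k → Fin n → ℂ) :
    ∃ (B : Fin r → Fin r → Matrix (Fin k) (Fin k) ℂ) (Q' : Matrix (Fin r) (Fin r) ℂ),
      (∀ (v : Fin r → ℂ) (w : Fin k → ℂ), star w ⬝ᵥ (AV B v).mulVec w =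
        ((1 / (2 * Real.pi) : ℝ) : ℂ) * ∑ j, ∑ l, (∑ p, star (w p) • s p) j *
          star ((∑ p, star (w p) • s p) l) *
            (star (Q'.mulVec v) ⬝ᵥ (H z).mulVec ((curvature H z j l).mulVec (Q'.mulVec v)))) ∧
      (∀ v, v ≠ 0 → Q'.mulVec v ≠ 0) ∧
      ∀ i, chern (curvatureForm (curvature H z) s) i = chern (fm B) i := by
  obtain ⟨h, hh, hN⟩ := exists_congr_one hH
  set Θ := curvature H z with hΘ
  set Q : Matrix (Fin r) (Fin r) ℂ := h * H z with hQ
  set Q' : Matrix (Fin r) (Fin r) ℂ := h.conjTranspose with hQ'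
  have hQQ : Q * Q' = 1 := hN
  refine ⟨fun a b => ∑ j, ∑ l, (Q * Θ j l * Q') a b • Sjl s j l, Q', ?_, ?_, ?_⟩
  · intro v w
    set ξ : Fin n → ℂ := ∑ p, star (w p) • s p with hξ
    set u : Fin r → ℂ := Q'.mulVec v with hu
    have e1 : AV (fun a b => ∑ j, ∑ l, (Q * Θ j l * Q') a b • Sjl s j l) v =
        ∑ j, ∑ l, (star v ⬝ᵥ (Q * Θ j l * Q').mulVec v) • Sjl s j l := by
      unfold AV
      have e2 : ∀ j l, (star v ⬝ᵥ (Q * Θ j l * Q').mulVec v) • Sjl s j l =
          ∑ a, ∑ b, (star (v a) * v b) • ((Q * Θ j l * Q') a b • Sjl s j l) := by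
        intro j l
        simp only [dotProduct, Matrix.mulVec, Finset.mul_sum, Finset.sum_smul, smul_smul,
          Pi.star_apply]
        refine Finset.sum_congr rfl fun a _ => Finset.sum_congr rfl fun b _ => ?_
        congr 1
        ring
      simp only [e2, Finset.smul_sum]
      calc _ = ∑ a, ∑ j, ∑ b, ∑ l, (star (v a) * v b) • ((Q * Θ j l * Q') a b • Sjl s j l) :=
            Finset.sum_congr rfl fun a _ => Finset.sum_comm
        _ = ∑ j, ∑ a, ∑ b, ∑ l, (star (v a) * v b) • ((Q * Θ j l * Q') a b • Sjl s j l) :=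
            Finset.sum_comm
        _ = ∑ j, ∑ a, ∑ l, ∑ b, (star (v a) * v b) • ((Q * Θ j l * Q') a b • Sjl s j l) :=
            Finset.sum_congr rfl fun j _ => Finset.sum_congr rfl fun a _ => Finset.sum_comm
        _ = ∑ j, ∑ l, ∑ a, ∑ b, (star (v a) * v b) • ((Q * Θ j l * Q') a b • Sjl s j l) :=
            Finset.sum_congr rfl fun j _ => Finset.sum_comm
    have e3 : ∀ j l, star w ⬝ᵥ (Sjl s j l).mulVec w =
        ((1 / (2 * Real.pi) : ℝ) : ℂ) * (ξ j * star (ξ l)) := by
      intro j l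
      have f1 : ξ j = ∑ p, star (w p) * s p j := by
        rw [hξ, Finset.sum_apply]
        rfl
      have f2 : star (ξ l) = ∑ q, w q * star (s q l) := by
        have : ξ l = ∑ p, star (w p) * s p l := by
          rw [hξ, Finset.sum_apply]
          rfl
        rw [this, star_sum]
        refine Finset.sum_congr rfl fun q _ => ?_
        rw [star_mul', star_star]
      rw [f1, f2, Finset.sum_mul_sum, Finset.mul_sum]
      unfold Sjl
      simp only [dotProduct, Matrix.mulVec, Matrix.of_apply, Finset.mul_sum, Pi.star_apply]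
      refine Finset.sum_congr rfl fun p _ => Finset.sum_congr rfl fun q _ => ?_
      ring
    have e4 : ∀ j l, star v ⬝ᵥ (Q * Θ j l * Q').mulVec v =
        star u ⬝ᵥ (H z).mulVec ((Θ j l).mulVec u) := by
      intro j l
      rw [hu, hQ, Matrix.star_mulVec, hQ', Matrix.conjTranspose_conjTranspose,
        ← Matrix.dotProduct_mulVec, Matrix.mulVec_mulVec, Matrix.mulVec_mulVec,
        Matrix.mulVec_mulVec, Matrix.mul_assoc, Matrix.mul_assoc]
    rw [e1, Finset.mul_sum]
    simp only [Matrix.sum_mulVec, dotProduct_sum, Matrix.smul_mulVec, dotProduct_smul, e3, e4,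
      Finset.mul_sum, smul_eq_mul]
    refine Finset.sum_congr rfl fun j _ => Finset.sum_congr rfl fun l _ => ?_
    ring
  · intro v hv h0
    apply hv
    have : Q.mulVec (Q'.mulVec v) = v := by rw [Matrix.mulVec_mulVec, hQQ, Matrix.one_mulVec]
    rw [← this, h0, Matrix.mulVec_zero]
  · intro i
    have hmap : (Q.map MvPolynomial.C : Matrix (Fin r) (Fin r) (Forms (Fin k))) *
        Q'.map MvPolynomial.C = 1 := by
      rw [← Matrix.map_mul, hQQ]
      exact Matrix.map_one _ (map_zero _) (map_one _)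
    have key : (Q.map MvPolynomial.C : Matrix (Fin r) (Fin r) (Forms (Fin k))) *
        curvatureForm Θ s * Q'.map MvPolynomial.C =
        Matrix.of fun a b => lin (∑ j, ∑ l, (Q * Θ j l * Q') a b • Sjl s j l) := by
      rw [curvatureForm_eq]
      simp only [Matrix.mul_sum, Matrix.sum_mul, Matrix.mul_smul, Matrix.smul_mul,
        ← Matrix.map_mul]
      ext1 a b
      rw [Matrix.of_apply, lin_sum, Matrix.sum_apply]
      refine Finset.sum_congr rfl fun j _ => ?_
      rw [lin_sum, Matrix.sum_apply]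
      refine Finset.sum_congr rfl fun l _ => ?_
      rw [lin_smul, Matrix.smul_apply, Matrix.map_apply, smul_eq_mul, mul_comm]
    unfold fm
    rw [← key]
    exact (chern_conj (F := curvatureForm Θ s) hmap i).symm

/-- a decomposable Griffiths-positive curvature in a unitary frame -/
theorem exists_frame_dec {n r k : ℕ} {H : (Fin n → ℂ) → Matrix (Fin r) (Fin r) ℂ}
    {z : Fin n → ℂ} (hH : (H z).PosDef) (hpos : GriffithsPositive H z)
    (hdec : DecomposableCurvature H z) {s : Fin k → Fin n → ℂ} (hs : LinearIndependent ℂ s) :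
    ∃ (N : ℕ) (A B : Fin N → Matrix (Fin r) (Fin k) ℂ), ND A B ∧
      ∀ i, chern (curvatureForm (curvature H z) s) i = chern (fm (BB A B)) i := by
  obtain ⟨Bf, Q', hquad, hQ', hch⟩ := exists_frame_aux hH s
  obtain ⟨N, A, B, hAB⟩ := hdec
  set c : ℂ := ((Real.sqrt (1 / (2 * Real.pi)) : ℝ) : ℂ) with hc
  have hcn : ‖c‖ ^ 2 = 1 / (2 * Real.pi) := by
    rw [hc, Complex.norm_real, Real.norm_eq_abs, sq_abs, Real.sq_sqrt]
    have := Real.pi_pos
    positivity
  set A' : Fin N → Matrix (Fin r) (Fin k) ℂ := fun m =>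
    Matrix.of fun a p => c * ∑ b, ∑ j, star (Q' b a) * A m b j * s p j with hA'
  set B' : Fin N → Matrix (Fin r) (Fin k) ℂ := fun m =>
    Matrix.of fun a p => c * ∑ b, ∑ j, Q' b a * B m b j * s p j with hB'
  have e1 : ∀ (m : Fin N) (v : Fin r → ℂ) (w : Fin k → ℂ),
      star v ⬝ᵥ (A' m).mulVec (star w) = c * ∑ b, ∑ j, A m b j * star (Q'.mulVec v b) *
        (∑ p, star (w p) • s p) j := by
    intro m v w
    have f1 : ∀ b, star (Q'.mulVec v b) = ∑ a, star (Q' b a) * star (v a) := by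
      intro b
      simp only [Matrix.mulVec, dotProduct, star_sum, star_mul']
    have f2 : ∀ j, (∑ p, star (w p) • s p) j = ∑ p, star (w p) * s p j := by
      intro j
      rw [Finset.sum_apply]
      rfl
    simp only [f1, f2]
    simp only [hA', dotProduct, Matrix.mulVec, Matrix.of_apply, Pi.star_apply,
      Finset.mul_sum, Finset.sum_mul]
    calc _ = ∑ a, ∑ b, ∑ p, ∑ j, (star (v a) * (c * (star (Q' b a) * A m b j * s p j) *
          star (w p))) := Finset.sum_congr rfl fun a _ => Finset.sum_comm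
      _ = ∑ b, ∑ a, ∑ p, ∑ j, (star (v a) * (c * (star (Q' b a) * A m b j * s p j) *
          star (w p))) := Finset.sum_comm
      _ = ∑ b, ∑ a, ∑ j, ∑ p, (star (v a) * (c * (star (Q' b a) * A m b j * s p j) *
          star (w p))) := Finset.sum_congr rfl fun b _ => Finset.sum_congr rfl fun a _ =>
            Finset.sum_comm
      _ = ∑ b, ∑ j, ∑ a, ∑ p, (star (v a) * (c * (star (Q' b a) * A m b j * s p j) *
          star (w p))) := Finset.sum_congr rfl fun b _ => Finset.sum_comm
      _ = ∑ b, ∑ j, ∑ p, ∑ a, (star (v a) * (c * (star (Q' b a) * A m b j * s p j) *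
          star (w p))) := Finset.sum_congr rfl fun b _ => Finset.sum_congr rfl fun a _ =>
            Finset.sum_comm
      _ = _ := by
        refine Finset.sum_congr rfl fun b _ => Finset.sum_congr rfl fun j _ =>
          Finset.sum_congr rfl fun p _ => Finset.sum_congr rfl fun a _ => ?_
        ring
  have e2 : ∀ (m : Fin N) (v : Fin r → ℂ) (w : Fin k → ℂ),
      v ⬝ᵥ (B' m).mulVec (star w) = c * ∑ b, ∑ j, B m b j * Q'.mulVec v b *
        (∑ p, star (w p) • s p) j := by
    intro m v w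
    have f1 : ∀ b, Q'.mulVec v b = ∑ a, Q' b a * v a := fun b => rfl
    have f2 : ∀ j, (∑ p, star (w p) • s p) j = ∑ p, star (w p) * s p j := by
      intro j
      rw [Finset.sum_apply]
      rfl
    simp only [f1, f2]
    simp only [hB', dotProduct, Matrix.mulVec, Matrix.of_apply, Pi.star_apply,
      Finset.mul_sum, Finset.sum_mul]
    calc _ = ∑ a, ∑ b, ∑ p, ∑ j, (v a * (c * (Q' b a * B m b j * s p j) *
          star (w p))) := Finset.sum_congr rfl fun a _ => Finset.sum_comm
      _ = ∑ b, ∑ a, ∑ p, ∑ j, (v a * (c * (Q' b a * B m b j * s p j) *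
          star (w p))) := Finset.sum_comm
      _ = ∑ b, ∑ a, ∑ j, ∑ p, (v a * (c * (Q' b a * B m b j * s p j) *
          star (w p))) := Finset.sum_congr rfl fun b _ => Finset.sum_congr rfl fun a _ =>
            Finset.sum_comm
      _ = ∑ b, ∑ j, ∑ a, ∑ p, (v a * (c * (Q' b a * B m b j * s p j) *
          star (w p))) := Finset.sum_congr rfl fun b _ => Finset.sum_comm
      _ = ∑ b, ∑ j, ∑ p, ∑ a, (v a * (c * (Q' b a * B m b j * s p j) *
          star (w p))) := Finset.sum_congr rfl fun b _ => Finset.sum_congr rfl fun a _ =>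
            Finset.sum_comm
      _ = _ := by
        refine Finset.sum_congr rfl fun b _ => Finset.sum_congr rfl fun j _ =>
          Finset.sum_congr rfl fun p _ => Finset.sum_congr rfl fun a _ => ?_
        ring
  have hBf : Bf = BB A' B' := by
    apply family_ext
    intro v w
    rw [quad_BB, hquad, hAB]
    simp only [e1, e2, norm_mul, mul_pow, hcn, ← Finset.mul_sum, ← mul_add]
    push_cast
    rfl
  refine ⟨N, A', B', ?_, fun i => by rw [hch, hBf]⟩
  intro v ξ' hv hξ'
  by_contra hcon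
  push Not at hcon
  set w : Fin k → ℂ := star ξ' with hw
  have hw' : star w = ξ' := by rw [hw, star_star]
  have h1 := quad_BB A' B' v w
  have hc1 : ∀ m, star v ⬝ᵥ (A' m).mulVec (star w) = 0 := fun m => by rw [hw']; exact hcon.1 m
  have hc2 : ∀ m, v ⬝ᵥ (B' m).mulVec (star w) = 0 := fun m => by rw [hw']; exact hcon.2 m
  simp only [hc1, hc2, norm_zero] at h1
  rw [← hBf, hquad] at h1
  have hξ0 : (∑ p, star (w p) • s p) ≠ 0 := by
    intro h0
    apply hξ'
    have := Fintype.linearIndependent_iff.1 hs (fun p => star (w p)) h0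
    rw [← hw']
    funext p
    exact this p
  obtain ⟨x, hx, hx'⟩ := hpos _ hξ0 _ (hQ' v hv)
  rw [hx'] at h1
  have hpi := Real.pi_pos
  have h2 : (((1 / (2 * Real.pi)) * x : ℝ) : ℂ) = 0 := by
    push_cast at h1 ⊢
    rw [h1]
    simp
  have h3 : (1 / (2 * Real.pi)) * x = 0 := by exact_mod_cast h2
  have h4 : 0 < (1 / (2 * Real.pi)) * x := by positivity
  exact h4.ne' h3

theorem dec_aux {n k r : ℕ} (hk : 1 ≤ k) {H : (Fin n → ℂ) → Matrix (Fin r) (Fin r) ℂ}
    {z : Fin n → ℂ} (hH : (H z).PosDef) (hpos : GriffithsPositive H z)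
    (hdec : DecomposableCurvature H z) {s : Fin k → Fin n → ℂ}
    (hs : LinearIndependent ℂ s) {lam : Fin k → Fin (r + 1)} (hlam : lam ∈ partitions k r) :
    ∃ x : ℝ, 0 < x ∧ volCoeff (MvPolynomial.aeval (fun i : Fin r =>
      chern (curvatureForm (curvature H z) s) ((i : ℕ) + 1)) (schur r lam)) = x := by
  obtain ⟨N, A, B, hnd, hch⟩ := exists_frame_dec hH hpos hdec hs
  have hfun : (fun i : Fin r => chern (curvatureForm (curvature H z) s) ((i : ℕ) + 1)) =
      fun i : Fin r => chern (fm (BB A B)) ((i : ℕ) + 1) := funext fun i => hch _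
  rw [hfun, aeval_schur, ← vol_apply]
  unfold partitions at hlam
  rw [Finset.mem_filter] at hlam
  obtain ⟨-, hanti, hsum⟩ := hlam
  set μ : ℕ → ℕ := fun j => if h : j < k then (lam ⟨j, h⟩ : ℕ) else 0 with hμ
  have hμj : ∀ j : Fin k, μ j = lam j := by
    intro j
    simp only [hμ, j.isLt, dif_pos, Fin.eta]
  have hμanti : Antitone μ := by
    intro a b hab
    simp only [hμ]
    by_cases hb : b < k
    · have ha : a < k := lt_of_le_of_lt hab hb
      rw [dif_pos hb, dif_pos ha]
      exact hanti (show (⟨a, ha⟩ : Fin k) ≤ ⟨b, hb⟩ from hab)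
    · rw [dif_neg hb]
      exact Nat.zero_le _
  have hμsum : ∑ j : Fin k, μ j = k := by
    simp only [hμj]
    exact hsum
  have hμr : μ 0 ≤ r := by
    have h1 := hμj ⟨0, hk⟩
    simp only at h1
    rw [h1]
    exact Nat.lt_succ_iff.1 (lam _).isLt
  obtain ⟨x, hx, hx'⟩ := vol_SS_pos A B hnd μ hμanti hμsum hμr
  refine ⟨x, hx, ?_⟩
  rw [← hx']
  congr 1
  unfold SS
  congr 1
  ext1 j l
  rw [Matrix.of_apply, Matrix.of_apply, hμj]
  unfold eZ
  split_ifs with h
  · obtain ⟨m, hm⟩ := Int.eq_ofNat_of_zero_le h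
    rw [hm, aeval_cvar, Int.toNat_natCast]
    rfl
  · exact aeval_cvar_neg _ (by omega)

end Dec

end Pool.Agent.Helper94.Griff
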