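import Pool.Agent.Helper94.Griff.Count

/-!
Moments of the standard complex Gaussian on `ℂ^ι`.
-/

open Finset MeasureTheory
open scoped Nat

namespace Pool.Agent.Helper94.Griff.Dec

variable {ι : Type*} [Fintype ι] [DecidableEq ι]

lemma mono_eq_cnt {n : ℕ} (a b : Fin n → ι) (u : ι → ℂ) :
    ∏ i, (star (u (a i)) * u (b i)) = ∏ c, (star (u c) ^ cnt a c * u c ^ cnt b c) := by
  rw [Finset.prod_mul_distrib, Finset.prod_mul_distrib, prod_eq_cnt a (fun c => star (u c)),
    prod_eq_cnt b (fun c => u c)]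

variable {μ : Measure ℂ} [IsProbabilityMeasure μ]

lemma integrable_mono (hint : ∀ i j : ℕ, Integrable (fun z : ℂ => star z ^ i * z ^ j) μ)
    {n : ℕ} (a b : Fin n → ι) :
    Integrable (fun u : ι → ℂ => ∏ i, (star (u (a i)) * u (b i))) (Measure.pi fun _ => μ) := by
  simp only [mono_eq_cnt]
  exact Integrable.fintype_prod (f := fun c (z : ℂ) => star z ^ cnt a c * z ^ cnt b c)
    (fun c => hint _ _)

lemma integral_mono_eq
    (hmom : ∀ i j : ℕ, ∫ z : ℂ, star z ^ i * z ^ j ∂μ = if i = j then (i ! : ℂ) else 0)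
    {n : ℕ} (a b : Fin n → ι) :
    ∫ u : ι → ℂ, ∏ i, (star (u (a i)) * u (b i)) ∂(Measure.pi fun _ => μ) =
      ∑ σ : Equiv.Perm (Fin n), if a = b ∘ σ then 1 else 0 := by
  simp only [mono_eq_cnt]
  rw [integral_fintype_prod_eq_prod (fun c (z : ℂ) => star z ^ cnt a c * z ^ cnt b c)]
  rw [← prod_cnt]
  refine Finset.prod_congr rfl fun c _ => ?_
  rw [hmom]

end Pool.Agent.Helper94.Griff.Dec
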