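import Pool.Agent.Helper94.Griff.WickN

/-!
The generating function identity behind the averaging formula for Schur polynomials.
-/

open Finset Polynomial

namespace Pool.Agent.Helper94.Griff.Dec

set_option linter.unusedSectionVars false

section Deriv

variable {n : Type*} [Fintype n] [DecidableEq n] {R : Type*} [CommRing R]

/-- derivative of a determinant -/
lemma derivative_det (M : Matrix n n R[X]) :
    derivative M.det = (M.adjugate * Matrix.of fun i j => derivative (M i j)).trace := by
  have h1 : derivative M.det = ∑ i, (M.updateCol i (fun j => derivative (M j i))).det := by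
    rw [Matrix.det_apply', derivative_sum]
    simp only [Matrix.det_apply']
    rw [Finset.sum_comm]
    refine Finset.sum_congr rfl fun σ _ => ?_
    have e1 : derivative ((((Equiv.Perm.sign σ : ℤ)) : R[X]) * ∏ i, M (σ i) i) =
        (((Equiv.Perm.sign σ : ℤ)) : R[X]) * derivative (∏ i, M (σ i) i) := by
      rw [derivative_mul]
      simp
    rw [e1, derivative_prod_finset, Finset.mul_sum]
    refine Finset.sum_congr rfl fun i _ => ?_
    congr 1
    rw [← Finset.mul_prod_erase univ (fun j => M.updateCol i (fun j => derivative (M j i)) (σ j) j)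
      (mem_univ i), Matrix.updateCol_self, mul_comm]
    congr 1
    refine Finset.prod_congr rfl fun j hj => ?_
    rw [Matrix.updateCol_ne (Finset.ne_of_mem_erase hj)]
  rw [h1]
  simp only [Matrix.trace, Matrix.diag_apply, Matrix.mul_apply, Matrix.of_apply]
  refine Finset.sum_congr rfl fun i _ => ?_
  have h2 := Matrix.cramer_eq_adjugate_mulVec M (fun j => derivative (M j i))
  have h3 := congrFun h2 i
  rw [Matrix.cramer_apply] at h3
  rw [h3]
  rfl

end Deriv

variable {r : ℕ} {R : Type*} [CommRing R]

/-- `det (1 + uX)` -/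
noncomputable def EE (X : Matrix (Fin r) (Fin r) R) : R[X] :=
  Matrix.det (1 + (Polynomial.X : R[X]) • X.map Polynomial.C)

/-- `X adj (1 + uX)` as a matrix of polynomials -/
noncomputable def Kp (X : Matrix (Fin r) (Fin r) R) : Matrix (Fin r) (Fin r) R[X] :=
  X.map Polynomial.C * (1 + (Polynomial.X : R[X]) • X.map Polynomial.C).adjugate

/-- the value of `Kp X` at `u` -/
noncomputable def Ku (X : Matrix (Fin r) (Fin r) R) (u : R) : Matrix (Fin r) (Fin r) R :=
  (Kp X).map (Polynomial.eval u)

lemma map_eval_one_add (X : Matrix (Fin r) (Fin r) R) (u : R) :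
    (1 + (Polynomial.X : R[X]) • X.map Polynomial.C).map (Polynomial.eval u) = 1 + u • X := by
  ext i j
  by_cases h : i = j
  · subst h; simp; exact mul_comm _ _
  · simp [Matrix.one_apply_ne h]; exact mul_comm _ _

lemma EE_eval (X : Matrix (Fin r) (Fin r) R) (u : R) : (EE X).eval u = (1 + u • X).det := by
  unfold EE
  have := (Polynomial.evalRingHom u).map_det (1 + (Polynomial.X : R[X]) • X.map Polynomial.C)
  rw [Polynomial.coe_evalRingHom] at this
  rw [this]
  congr 1
  exact map_eval_one_add X u

lemma Ku_eq (X : Matrix (Fin r) (Fin r) R) (u : R) : Ku X u = X * (1 + u • X).adjugate := by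
  unfold Ku Kp
  have h1 : (X.map Polynomial.C * (1 + (Polynomial.X : R[X]) • X.map Polynomial.C).adjugate).map
      (Polynomial.evalRingHom u) = _ := Matrix.map_mul
  rw [Polynomial.coe_evalRingHom] at h1
  rw [h1]
  congr 1
  · ext i j; simp
  · have h2 := (Polynomial.evalRingHom u).map_adjugate
      (1 + (Polynomial.X : R[X]) • X.map Polynomial.C)
    rw [RingHom.mapMatrix_apply, RingHom.mapMatrix_apply, Polynomial.coe_evalRingHom,
      map_eval_one_add] at h2
    exact h2

lemma trace_Kp (X : Matrix (Fin r) (Fin r) R) : (Kp X).trace = derivative (EE X) := by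
  unfold EE Kp
  rw [derivative_det, Matrix.trace_mul_comm]
  congr 2
  ext i j
  simp only [Matrix.of_apply, Matrix.add_apply, Matrix.smul_apply, Matrix.map_apply, smul_eq_mul,
    derivative_add, derivative_mul, derivative_X, derivative_C, one_mul, mul_zero, add_zero]
  by_cases h : i = j
  · subst h; simp
  · simp [Matrix.one_apply_ne h]

lemma trace_Ku (X : Matrix (Fin r) (Fin r) R) (u : R) :
    (Ku X u).trace = (derivative (EE X)).eval u := by
  rw [← trace_Kp]
  unfold Ku Matrix.trace
  rw [Polynomial.eval_finsetSum]
  rfl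

/-- resolvent identity -/
lemma Ku_mul (X : Matrix (Fin r) (Fin r) R) (u v : R) :
    (u - v) • (Ku X u * Ku X v) = (EE X).eval u • Ku X v - (EE X).eval v • Ku X u := by
  rw [EE_eval, EE_eval, Ku_eq, Ku_eq]
  have h1 : (u - v) • X = (1 + u • X) - (1 + v • X) := by
    rw [sub_smul]; abel
  calc (u - v) • (X * (1 + u • X).adjugate * (X * (1 + v • X).adjugate))
      = X * ((1 + u • X).adjugate * ((u - v) • X) * (1 + v • X).adjugate) := by
        rw [Matrix.mul_smul, Matrix.smul_mul, Matrix.mul_smul]
        simp only [Matrix.mul_assoc]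
    _ = X * (((1 + u • X).adjugate * (1 + u • X)) * (1 + v • X).adjugate -
          (1 + u • X).adjugate * ((1 + v • X) * (1 + v • X).adjugate)) := by
        rw [h1, Matrix.mul_sub, Matrix.sub_mul, Matrix.mul_assoc _ (1 + v • X)]
    _ = (1 + u • X).det • (X * (1 + v • X).adjugate) -
          (1 + v • X).det • (X * (1 + u • X).adjugate) := by
        rw [Matrix.adjugate_mul, Matrix.mul_adjugate, Matrix.smul_mul, Matrix.one_mul,
          Matrix.mul_smul, Matrix.mul_one, Matrix.mul_sub, Matrix.mul_smul, Matrix.mul_smul]

end Pool.Agent.Helper94.Griff.Dec
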