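import Pool.Agent.Helper94.Griff.Gen

/-!
The determinantal form of `PP (K(u_1), …, K(u_p))`.
-/

open Finset Polynomial

namespace Pool.Agent.Helper94.Griff.Dec

set_option linter.unusedSectionVars false

section General

variable {r : ℕ} {R : Type*} [CommRing R]

lemma PP_update {n : ℕ} (X : Fin n → Matrix (Fin r) (Fin r) R) (i : Fin n)
    (M : Matrix (Fin r) (Fin r) R) : PP (Function.update X i M) =
      ∑ σ : Equiv.Perm (Fin n), ∑ b : Fin n → Fin r, M (b (σ i)) (b i) *
        ∏ j ∈ univ.erase i, X j (b (σ j)) (b j) := by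
  unfold PP
  refine Finset.sum_congr rfl fun σ _ => Finset.sum_congr rfl fun b _ => ?_
  rw [← Finset.mul_prod_erase univ _ (mem_univ i), Function.update_self]
  congr 1
  refine Finset.prod_congr rfl fun j hj => ?_
  rw [Function.update_of_ne (Finset.ne_of_mem_erase hj)]

lemma PP_update_smul {n : ℕ} (X : Fin n → Matrix (Fin r) (Fin r) R) (i : Fin n) (c : R)
    (M : Matrix (Fin r) (Fin r) R) : PP (Function.update X i (c • M)) =
      c * PP (Function.update X i M) := by
  rw [PP_update, PP_update, Finset.mul_sum]
  refine Finset.sum_congr rfl fun σ _ => ?_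
  rw [Finset.mul_sum]
  refine Finset.sum_congr rfl fun b _ => ?_
  rw [Matrix.smul_apply, smul_eq_mul, mul_assoc]

lemma PP_update_sub {n : ℕ} (X : Fin n → Matrix (Fin r) (Fin r) R) (i : Fin n)
    (M N : Matrix (Fin r) (Fin r) R) : PP (Function.update X i (M - N)) =
      PP (Function.update X i M) - PP (Function.update X i N) := by
  rw [PP_update, PP_update, PP_update, ← Finset.sum_sub_distrib]
  refine Finset.sum_congr rfl fun σ _ => ?_
  rw [← Finset.sum_sub_distrib]
  refine Finset.sum_congr rfl fun b _ => ?_
  rw [Matrix.sub_apply, sub_mul]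

/-- expansion of `det (L_j (X^i))` along a monic polynomial -/
lemma det_lin_succ {p : ℕ} (L : Fin (p + 1) → R[X] →ₗ[R] R) (g : R[X]) (hg : g.Monic)
    (hdeg : g.natDegree = p) :
    (Matrix.of fun i j : Fin (p + 1) => L j ((Polynomial.X : R[X]) ^ (i : ℕ))).det =
      ∑ j : Fin (p + 1), (-1) ^ (p + (j : ℕ)) * L j g *
        (Matrix.of fun i l : Fin p => L (j.succAbove l) ((Polynomial.X : R[X]) ^ (i : ℕ))).det := by
  set M : Matrix (Fin (p + 1)) (Fin (p + 1)) R :=
    Matrix.of fun i j : Fin (p + 1) => L j ((Polynomial.X : R[X]) ^ (i : ℕ)) with hM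
  have h1 : (M.updateRow (Fin.last p) (fun j => L j g)).det = M.det := by
    have h2 : (fun j => L j g) = ∑ i : Fin (p + 1), g.coeff i • M i := by
      funext j
      rw [Finset.sum_apply]
      simp only [Pi.smul_apply, smul_eq_mul, hM, Matrix.of_apply]
      conv_lhs => rw [g.as_sum_range_C_mul_X_pow, hdeg, map_sum]
      rw [Finset.sum_range]
      refine Finset.sum_congr rfl fun i _ => ?_
      rw [← Polynomial.smul_eq_C_mul, map_smul, smul_eq_mul]
    rw [h2, Matrix.det_updateRow_sum, Fin.val_last]
    have : g.coeff p = 1 := by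
      rw [← hdeg]; exact hg
    rw [this, one_smul]
  rw [← h1, Matrix.det_succ_row _ (Fin.last p)]
  refine Finset.sum_congr rfl fun j _ => ?_
  rw [Matrix.updateRow_self, Fin.val_last]
  congr 2
  ext i l
  rw [Matrix.submatrix_apply, Matrix.of_apply, Matrix.updateRow_ne]
  · simp [hM, Fin.succAbove_last]
  · rw [Fin.succAbove_last]; exact (Fin.castSucc_lt_last i).ne

lemma exists_perm_of_range {A : Type*} {p : ℕ} (f g : Fin p → A) (hf : Function.Injective f)
    (hg : Function.Injective g) (h : Set.range f = Set.range g) :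
    ∃ e : Equiv.Perm (Fin p), f ∘ e = g := by
  refine ⟨(Equiv.ofInjective g hg).trans ((Equiv.setCongr h.symm).trans
    (Equiv.ofInjective f hf).symm), ?_⟩
  funext i
  simp only [Function.comp_apply, Equiv.trans_apply]
  have := Equiv.apply_ofInjective_symm hf
    ((Equiv.setCongr h.symm) ((Equiv.ofInjective g hg) i))
  rw [this]
  rfl

lemma exists_perm_succAbove {p : ℕ} (i : Fin p) :
    ∃ e : Equiv.Perm (Fin p), (Function.update Fin.succ i 0 : Fin p → Fin (p + 1)) ∘ e =
      i.succ.succAbove := by
  refine exists_perm_of_range _ _ ?_ Fin.succAbove_right_injective ?_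
  · intro a b hab
    by_cases ha : a = i <;> by_cases hb : b = i
    · rw [ha, hb]
    · subst ha
      rw [Function.update_self, Function.update_of_ne hb] at hab
      exact absurd hab.symm (Fin.succ_ne_zero _)
    · subst hb
      rw [Function.update_self, Function.update_of_ne ha] at hab
      exact absurd hab (Fin.succ_ne_zero _)
    · rw [Function.update_of_ne ha, Function.update_of_ne hb] at hab
      exact Fin.succ_injective _ hab
  · rw [Fin.range_succAbove]
    ext x
    simp only [Set.mem_range, Set.mem_compl_iff, Set.mem_singleton_iff]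
    constructor
    · rintro ⟨a, rfl⟩
      by_cases ha : a = i
      · rw [ha, Function.update_self]
        exact (Fin.succ_ne_zero _).symm
      · rw [Function.update_of_ne ha]
        exact fun h => ha (Fin.succ_injective _ h)
    · intro hx
      rcases Fin.eq_zero_or_eq_succ x with rfl | ⟨a, rfl⟩
      · exact ⟨i, Function.update_self _ _ _⟩
      · refine ⟨a, Function.update_of_ne (fun h => hx (by rw [h])) _ _⟩

end General

section Field

variable {r : ℕ} {K : Type*} [Field K]

/-- the Vandermonde determinant -/
noncomputable def Vd {p : ℕ} (u : Fin p → K) : K :=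
  (Matrix.of fun i j : Fin p => u j ^ (i : ℕ)).det

lemma Vd_succ {p : ℕ} (u : Fin (p + 1) → K) (j : Fin (p + 1)) :
    Vd u = (-1) ^ (p + (j : ℕ)) * (∏ l, (u j - u (j.succAbove l))) * Vd (u ∘ j.succAbove) := by
  set g : K[X] := ∏ l : Fin p, (Polynomial.X - Polynomial.C (u (j.succAbove l))) with hg
  have hmonic : g.Monic := Polynomial.monic_prod_X_sub_C _ _
  have hdeg : g.natDegree = p := by
    rw [hg, Polynomial.natDegree_prod_of_monic _ _ (fun l _ => Polynomial.monic_X_sub_C _)]
    simp
  have h := det_lin_succ (fun j => Polynomial.leval (u j)) g hmonic hdeg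
  simp only [Polynomial.leval_apply, Polynomial.eval_pow, Polynomial.eval_X] at h
  unfold Vd
  rw [h, Finset.sum_eq_single j]
  · rw [hg, Polynomial.eval_prod]
    simp only [Polynomial.eval_sub, Polynomial.eval_X, Polynomial.eval_C]
    rfl
  · intro j' _ hj'
    obtain ⟨l, hl⟩ := Fin.exists_succAbove_eq hj'
    have : Polynomial.eval (u j') g = 0 := by
      rw [hg, Polynomial.eval_prod]
      refine Finset.prod_eq_zero (mem_univ l) ?_
      rw [hl]
      simp
    rw [this, mul_zero, zero_mul]
  · intro h; exact absurd (mem_univ _) h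

/-- the determinant of the derivatives -/
noncomputable def Dd (E : K[X]) {p : ℕ} (u : Fin p → K) : K :=
  (Matrix.of fun i j : Fin p => (derivative (Polynomial.X ^ (i : ℕ) * E)).eval (u j)).det

lemma eval_derivative_prod {p : ℕ} (v : Fin p → K) (x : K) :
    (derivative (∏ l : Fin p, (Polynomial.X - Polynomial.C (v l)))).eval x =
      ∑ a, ∏ b ∈ univ.erase a, (x - v b) := by
  rw [derivative_prod_finset, Polynomial.eval_finsetSum]
  refine Finset.sum_congr rfl fun a _ => ?_
  rw [derivative_sub, derivative_X, derivative_C, sub_zero, mul_one, Polynomial.eval_prod]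
  simp

theorem PP_mul_Vd (X : Matrix (Fin r) (Fin r) K) {p : ℕ} (u : Fin p → K)
    (hu : Function.Injective u) :
    PP (fun i => Ku X (u i)) * Vd u = Dd (EE X) u := by
  induction p with
  | zero =>
    rw [PP_zero]
    unfold Vd Dd
    simp
  | succ p ih =>
    set E := EE X with hE
    set v : Fin p → K := u ∘ Fin.succ with hv
    set g : K[X] := ∏ l : Fin p, (Polynomial.X - Polynomial.C (v l)) with hg
    have hvinj : Function.Injective v := hu.comp (Fin.succ_injective _)
    have hmonic : g.Monic := Polynomial.monic_prod_X_sub_C _ _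
    have hdeg : g.natDegree = p := by
      rw [hg, Polynomial.natDegree_prod_of_monic _ _ (fun l _ => Polynomial.monic_X_sub_C _)]
      simp
    have hne : ∀ i, u 0 - v i ≠ 0 := fun i h =>
      Fin.succ_ne_zero i (hu (sub_eq_zero.1 h)).symm
    have hne' : ∀ i j, i ≠ j → v i - v j ≠ 0 := fun i j hij h => hij (hvinj (sub_eq_zero.1 h))
    -- the left-hand side
    have hL : PP (fun i => Ku X (u i)) = (derivative E).eval (u 0) * PP (fun i => Ku X (v i)) +
        ∑ i, (E.eval (u 0) * PP (fun i => Ku X (v i)) -
          E.eval (v i) * PP (Function.update (fun i => Ku X (v i)) i (Ku X (u 0)))) /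
            (u 0 - v i) := by
      have h1 : (fun i => Ku X (u i)) =
          (Fin.cons (Ku X (u 0)) (fun i => Ku X (v i)) : Fin (p + 1) → _) := by
        funext i
        refine Fin.cases ?_ (fun i => ?_) i
        · rw [Fin.cons_zero]
        · rw [Fin.cons_succ]; rfl
      rw [h1, PP_succ, trace_Ku]
      congr 1
      refine Finset.sum_congr rfl fun i _ => ?_
      rw [eq_div_iff (hne i), mul_comm]
      rw [← PP_update_smul, Ku_mul, PP_update_sub, PP_update_smul, PP_update_smul]
      congr 2
      congr 1
      exact Function.update_eq_self i _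
    -- the right-hand side
    have hR := det_lin_succ (fun j => (Polynomial.leval (u j)).comp
      ((derivative : K[X] →ₗ[K] K[X]).comp (LinearMap.mulRight K E))) g hmonic hdeg
    simp only [LinearMap.comp_apply, LinearMap.mulRight_apply, Polynomial.leval_apply] at hR
    have hR' : Dd E u = ∑ j : Fin (p + 1), (-1) ^ (p + (j : ℕ)) *
        (derivative (g * E)).eval (u j) * (PP (fun i => Ku X (u (j.succAbove i))) *
          Vd (u ∘ j.succAbove)) := by
      unfold Dd
      rw [hR]
      refine Finset.sum_congr rfl fun j _ => ?_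
      congr 1
      have := ih (u ∘ j.succAbove) (hu.comp Fin.succAbove_right_injective)
      exact this.symm
    rw [hR', Fin.sum_univ_succ, hL, add_mul, Finset.sum_mul]
    have hV0 := Vd_succ u 0
    have hg0 : g.eval (u 0) = ∏ l, (u 0 - v l) := by
      rw [hg, Polynomial.eval_prod]; simp
    have hsucc : (0 : Fin (p + 1)).succAbove = Fin.succ := Fin.succAbove_zero
    rw [hsucc] at hV0 ⊢
    have hprod : ∏ l, (u 0 - u (Fin.succ l)) = g.eval (u 0) := hg0.symm
    rw [hprod] at hV0
    have hgne : g.eval (u 0) ≠ 0 := by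
      rw [hg0]; exact Finset.prod_ne_zero_iff.2 fun l _ => hne l
    have hder : ∀ x, (derivative (g * E)).eval x =
        (derivative g).eval x * E.eval x + g.eval x * (derivative E).eval x := by
      intro x
      rw [derivative_mul, Polynomial.eval_add, Polynomial.eval_mul, Polynomial.eval_mul]
    have hg'0 : (derivative g).eval (u 0) = g.eval (u 0) * ∑ i, (u 0 - v i)⁻¹ := by
      rw [hg, eval_derivative_prod, ← hg, hg0, Finset.mul_sum]
      refine Finset.sum_congr rfl fun a _ => ?_
      rw [← Finset.mul_prod_erase univ _ (mem_univ a), mul_comm, ← mul_assoc,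
        inv_mul_cancel₀ (hne a), one_mul]
    have hg'i : ∀ i, (derivative g).eval (v i) = ∏ b ∈ univ.erase i, (v i - v b) := by
      intro i
      rw [hg, eval_derivative_prod, Finset.sum_eq_single i]
      · intro a _ ha
        refine Finset.prod_eq_zero (i := i) (Finset.mem_erase.2 ⟨ha.symm, mem_univ _⟩) (sub_self _)
      · intro h; exact absurd (mem_univ _) h
    have hgi : ∀ i, g.eval (v i) = 0 := by
      intro i
      rw [hg, Polynomial.eval_prod]
      exact Finset.prod_eq_zero (mem_univ i) (by simp)
    have hVi : ∀ i : Fin p, Vd u = (-1) ^ (p + ((i.succ : Fin (p + 1)) : ℕ)) *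
        ((v i - u 0) * ∏ b ∈ univ.erase i, (v i - v b)) * Vd (u ∘ i.succ.succAbove) := by
      intro i
      rw [Vd_succ u i.succ]
      congr 2
      obtain ⟨e, he⟩ := exists_perm_succAbove i
      rw [← he]
      have h1 : ∏ l, (u i.succ - u (((Function.update Fin.succ i 0 : Fin p → Fin (p + 1)) ∘ e) l)) =
          ∏ l, (u i.succ - u ((Function.update Fin.succ i 0 : Fin p → Fin (p + 1)) l)) :=
        Equiv.prod_comp e fun l =>
          (u i.succ - u ((Function.update Fin.succ i 0 : Fin p → Fin (p + 1)) l))
      rw [h1, ← Finset.mul_prod_erase univ _ (mem_univ i), Function.update_self]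
      congr 1
      refine Finset.prod_congr rfl fun j hj => ?_
      rw [Function.update_of_ne (Finset.ne_of_mem_erase hj)]
      rfl
    have hPi : ∀ i : Fin p, PP (fun l => Ku X (u (i.succ.succAbove l))) =
        PP (Function.update (fun i => Ku X (v i)) i (Ku X (u 0))) := by
      intro i
      obtain ⟨e, he⟩ := exists_perm_succAbove i
      rw [← he, ← PP_perm (Function.update (fun i => Ku X (v i)) i (Ku X (u 0))) e]
      congr 1
      funext l
      simp only [Function.comp_apply]
      by_cases h : e l = i
      · rw [h, Function.update_self, Function.update_self]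
      · rw [Function.update_of_ne h, Function.update_of_ne h]
        rfl
    have hvu : (fun i => Ku X (u (Fin.succ i))) = fun i => Ku X (v i) := rfl
    -- term `0`
    have ht0 : (-1) ^ (p + ((0 : Fin (p + 1)) : ℕ)) * (derivative (g * E)).eval (u 0) *
        (PP (fun i => Ku X (u (Fin.succ i))) * Vd (u ∘ Fin.succ)) =
        (derivative E).eval (u 0) * PP (fun i => Ku X (v i)) * Vd u +
          ∑ i, E.eval (u 0) * PP (fun i => Ku X (v i)) / (u 0 - v i) * Vd u := by
      rw [hder, hg'0, hvu]
      have e1 : ∑ i, E.eval (u 0) * PP (fun i => Ku X (v i)) / (u 0 - v i) * Vd u =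
          E.eval (u 0) * PP (fun i => Ku X (v i)) * Vd u * ∑ i, (u 0 - v i)⁻¹ := by
        rw [Finset.mul_sum]
        refine Finset.sum_congr rfl fun i _ => ?_
        rw [div_eq_mul_inv]; ring
      rw [e1, hV0]
      ring
    have hti : ∀ i : Fin p, (-1) ^ (p + ((i.succ : Fin (p + 1)) : ℕ)) *
        (derivative (g * E)).eval (u i.succ) *
        (PP (fun l => Ku X (u (i.succ.succAbove l))) * Vd (u ∘ i.succ.succAbove)) =
        - (E.eval (v i) * PP (Function.update (fun i => Ku X (v i)) i (Ku X (u 0))) /
          (u 0 - v i) * Vd u) := by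
      intro i
      have e0 : u i.succ = v i := rfl
      rw [hPi i, e0, hder, hgi, zero_mul, add_zero, hg'i, hVi i]
      have h1 := hne i
      field_simp
      ring
    rw [ht0, Finset.sum_congr rfl fun i _ => hti i, Finset.sum_neg_distrib]
    rw [add_assoc, ← sub_eq_add_neg, ← Finset.sum_sub_distrib]
    congr 1
    refine Finset.sum_congr rfl fun i _ => ?_
    rw [sub_div, sub_mul]

end Field

end Pool.Agent.Helper94.Griff.Dec
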