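import Mathlib

/-!
Hoeffding's extremal argument: for a sum `S` of independent Bernoulli variables whose mean is
the integer `a` one has `P(S = a) > P(S = a + 1)`.
-/

open Polynomial Finset

namespace Pool.Agent.Helper94.Griff

variable {ι : Type*} [Fintype ι] [DecidableEq ι]

/-- generating polynomial -/
noncomputable def genPoly (p : ι → ℝ) : ℝ[X] := ∏ i, (1 + C (p i) * (X - 1))

/-- difference of two consecutive coefficients -/
noncomputable def cdiff (a : ℕ) (P : ℝ[X]) : ℝ := P.coeff a - P.coeff (a + 1)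

lemma cdiff_add (a : ℕ) (P Q : ℝ[X]) : cdiff a (P + Q) = cdiff a P + cdiff a Q := by
  simp only [cdiff, coeff_add]; ring

lemma cdiff_C_mul (a : ℕ) (c : ℝ) (P : ℝ[X]) : cdiff a (C c * P) = c * cdiff a P := by
  simp only [cdiff, coeff_C_mul]; ring

lemma continuous_coeff_genPoly (s : Finset ι) (n : ℕ) :
    Continuous fun p : ι → ℝ => (∏ i ∈ s, (1 + C (p i) * (X - 1)) : ℝ[X]).coeff n := by
  induction s using Finset.induction_on generalizing n with
  | empty => simp only [Finset.prod_empty]; exact continuous_const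
  | insert i s hi ih =>
    have h : ∀ p : ι → ℝ, (∏ j ∈ insert i s, (1 + C (p j) * (X - 1)) : ℝ[X]).coeff n =
        ∑ x ∈ antidiagonal n, ((1 + C (p i) * (X - 1) : ℝ[X]).coeff x.1) *
          (∏ j ∈ s, (1 + C (p j) * (X - 1)) : ℝ[X]).coeff x.2 := by
      intro p
      rw [Finset.prod_insert hi, coeff_mul]
    simp only [h]
    refine continuous_finset_sum _ fun x _ => Continuous.mul ?_ (ih x.2)
    simp only [coeff_add, coeff_C_mul]
    exact continuous_const.add ((continuous_apply i).mul continuous_const)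

lemma continuous_cdiff (a : ℕ) : Continuous fun p : ι → ℝ => cdiff a (genPoly p) := by
  unfold cdiff genPoly
  exact (continuous_coeff_genPoly _ _).sub (continuous_coeff_genPoly _ _)

/-- the transfer of mass `t` from `j` to `i` -/
def shift (p : ι → ℝ) (i j : ι) (t : ℝ) : ι → ℝ :=
  Function.update (Function.update p i (p i + t)) j (p j - t)

lemma shift_i (p : ι → ℝ) {i j : ι} (h : i ≠ j) (t : ℝ) : shift p i j t i = p i + t := by
  simp [shift, Function.update_of_ne h]

lemma shift_j (p : ι → ℝ) {i j : ι} (t : ℝ) : shift p i j t j = p j - t := by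
  simp [shift]

lemma shift_other (p : ι → ℝ) {i j l : ι} (hi : l ≠ i) (hj : l ≠ j) (t : ℝ) :
    shift p i j t l = p l := by
  simp [shift, Function.update_of_ne hi, Function.update_of_ne hj]

lemma sum_shift (p : ι → ℝ) {i j : ι} (h : i ≠ j) (t : ℝ) : ∑ l, shift p i j t l = ∑ l, p l := by
  have h1 : ∀ q : ι → ℝ, ∑ l, q l = q i + (q j + ∑ l ∈ (univ.erase i).erase j, q l) := by
    intro q
    rw [Finset.add_sum_erase _ _ (Finset.mem_erase.2 ⟨h.symm, mem_univ j⟩),
      Finset.add_sum_erase _ _ (mem_univ i)]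
  rw [h1, h1 p, shift_i p h, shift_j]
  have : ∑ l ∈ (univ.erase i).erase j, shift p i j t l = ∑ l ∈ (univ.erase i).erase j, p l := by
    refine Finset.sum_congr rfl fun l hl => ?_
    simp only [Finset.mem_erase, mem_univ, and_true] at hl
    exact shift_other p hl.2 hl.1 t
  rw [this]; ring

lemma cdiff_shift (a : ℕ) (p : ι → ℝ) {i j : ι} (h : i ≠ j) : ∃ c : ℝ, ∀ t : ℝ,
    cdiff a (genPoly (shift p i j t)) = cdiff a (genPoly p) + c * (t * (p j - p i - t)) := by
  set R : ℝ[X] := ∏ l ∈ (univ.erase i).erase j, (1 + C (p l) * (X - 1)) with hR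
  have h1 : ∀ q : ι → ℝ, (∀ l, l ≠ i → l ≠ j → q l = p l) → genPoly q =
      (1 + C (q i) * (X - 1)) * ((1 + C (q j) * (X - 1)) * R) := by
    intro q hq
    unfold genPoly
    rw [← Finset.mul_prod_erase univ _ (mem_univ i),
      ← Finset.mul_prod_erase (univ.erase i) _ (Finset.mem_erase.2 ⟨h.symm, mem_univ j⟩), hR]
    congr 2
    refine Finset.prod_congr rfl fun l hl => ?_
    simp only [Finset.mem_erase, mem_univ, and_true] at hl
    rw [hq l hl.2 hl.1]
  have h2 : ∀ q : ι → ℝ, (∀ l, l ≠ i → l ≠ j → q l = p l) → cdiff a (genPoly q) =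
      cdiff a R + (q i + q j) * cdiff a ((X - 1) * R) + (q i * q j) * cdiff a ((X - 1) ^ 2 * R) := by
    intro q hq
    rw [h1 q hq]
    have : (1 + C (q i) * (X - 1)) * ((1 + C (q j) * (X - 1)) * R) =
        R + C (q i + q j) * ((X - 1) * R) + C (q i * q j) * ((X - 1) ^ 2 * R) := by
      rw [C_add, C_mul]; ring
    rw [this, cdiff_add, cdiff_add, cdiff_C_mul, cdiff_C_mul]
  refine ⟨cdiff a ((X - 1) ^ 2 * R), fun t => ?_⟩
  rw [h2 (shift p i j t) (fun l hi hj => shift_other p hi hj t), h2 p (fun _ _ _ => rfl),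
    shift_i p h, shift_j]
  ring

/-- the polytope -/
def poly (ι : Type*) [Fintype ι] (a : ℕ) : Set (ι → ℝ) :=
  {p | (∀ i, 0 ≤ p i) ∧ (∀ i, p i ≤ 1) ∧ ∑ i, p i = a}

lemma isCompact_poly (a : ℕ) : IsCompact (poly ι a) := by
  have h1 : IsCompact (Set.pi Set.univ fun _ : ι => Set.Icc (0 : ℝ) 1) :=
    isCompact_univ_pi fun _ => isCompact_Icc
  refine h1.of_isClosed_subset ?_ ?_
  · have e : poly ι a = (⋂ i, {p : ι → ℝ | 0 ≤ p i}) ∩ (⋂ i, {p : ι → ℝ | p i ≤ 1}) ∩
        {p | ∑ i, p i = a} := by
      ext p; simp [poly, and_assoc]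
    rw [e]
    refine IsClosed.inter (IsClosed.inter ?_ ?_) ?_
    · exact isClosed_iInter fun i => isClosed_le continuous_const (continuous_apply i)
    · exact isClosed_iInter fun i => isClosed_le (continuous_apply i) continuous_const
    · exact isClosed_eq (continuous_finset_sum _ fun i _ => continuous_apply i) continuous_const
  · intro p hp i _
    exact ⟨hp.1 i, hp.2.1 i⟩

/-- interior coordinates -/
noncomputable def inter (p : ι → ℝ) : Finset ι := univ.filter fun i => 0 < p i ∧ p i < 1

lemma shift_mem_poly {a : ℕ} {p : ι → ℝ} (hp : p ∈ poly ι a) {i j : ι} (h : i ≠ j) {t : ℝ}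
    (h1 : 0 ≤ p i + t) (h2 : p i + t ≤ 1) (h3 : 0 ≤ p j - t) (h4 : p j - t ≤ 1) :
    shift p i j t ∈ poly ι a := by
  refine ⟨fun l => ?_, fun l => ?_, by rw [sum_shift p h]; exact hp.2.2⟩
  · by_cases hi : l = i
    · subst hi; rw [shift_i p h]; exact h1
    · by_cases hj : l = j
      · subst hj; rw [shift_j]; exact h3
      · rw [shift_other p hi hj]; exact hp.1 l
  · by_cases hi : l = i
    · subst hi; rw [shift_i p h]; exact h2
    · by_cases hj : l = j
      · subst hj; rw [shift_j]; exact h4
      · rw [shift_other p hi hj]; exact hp.2.1 l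

lemma exists_extremal (a : ℕ) (hne : (poly ι a).Nonempty) : ∃ p ∈ poly ι a,
    (∀ q ∈ poly ι a, cdiff a (genPoly p) ≤ cdiff a (genPoly q)) ∧
    ∀ i ∈ inter p, ∀ j ∈ inter p, p i = p j := by
  obtain ⟨p0, hp0, hmin0⟩ := (isCompact_poly (ι := ι) a).exists_isMinOn hne
    (continuous_cdiff (ι := ι) a).continuousOn
  have hex : ∃ n : ℕ, ∃ p ∈ poly ι a,
      (∀ q ∈ poly ι a, cdiff a (genPoly p) ≤ cdiff a (genPoly q)) ∧ (inter p).card = n :=
    ⟨_, p0, hp0, fun q hq => hmin0 hq, rfl⟩
  classical
  obtain ⟨p, hp, hmin, hcard⟩ := Nat.find_spec hex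
  refine ⟨p, hp, hmin, ?_⟩
  by_contra hcon
  push Not at hcon
  obtain ⟨i, hi, j, hj, hij⟩ := hcon
  -- wlog p i < p j
  have key : ∀ i ∈ inter p, ∀ j ∈ inter p, ¬ p i < p j := by
    intro i hi j hj hlt
    have hne' : i ≠ j := by rintro rfl; exact lt_irrefl _ hlt
    simp only [inter, mem_filter, mem_univ, true_and] at hi hj
    obtain ⟨c, hc⟩ := cdiff_shift a p hne'
    -- c = 0
    have hc0 : c = 0 := by
      apply le_antisymm
      · -- use a small negative t
        set t : ℝ := - (min (p i) (1 - p j) / 2) with ht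
        have hpos : 0 < min (p i) (1 - p j) := lt_min hi.1 (by linarith [hj.2])
        have hle1 : min (p i) (1 - p j) ≤ p i := min_le_left _ _
        have hle2 : min (p i) (1 - p j) ≤ 1 - p j := min_le_right _ _
        have hm : shift p i j t ∈ poly ι a := shift_mem_poly hp hne' (by rw [ht]; linarith)
          (by rw [ht]; linarith [hi.2]) (by rw [ht]; linarith [hj.1]) (by rw [ht]; linarith)
        have := hmin _ hm
        rw [hc t] at this
        have hneg : t * (p j - p i - t) < 0 := mul_neg_of_neg_of_pos (by rw [ht]; linarith)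
          (by rw [ht]; linarith)
        nlinarith
      · -- use a small positive t
        set t : ℝ := min (min (1 - p i) (p j)) ((p j - p i)) / 2 with ht
        have hpos : 0 < min (min (1 - p i) (p j)) (p j - p i) :=
          lt_min (lt_min (by linarith [hi.2]) hj.1) (by linarith)
        have hle1 : min (min (1 - p i) (p j)) (p j - p i) ≤ 1 - p i :=
          (min_le_left _ _).trans (min_le_left _ _)
        have hle2 : min (min (1 - p i) (p j)) (p j - p i) ≤ p j :=
          (min_le_left _ _).trans (min_le_right _ _)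
        have hle3 : min (min (1 - p i) (p j)) (p j - p i) ≤ p j - p i := min_le_right _ _
        have hm : shift p i j t ∈ poly ι a := shift_mem_poly hp hne' (by rw [ht]; linarith [hi.1])
          (by rw [ht]; linarith) (by rw [ht]; linarith) (by rw [ht]; linarith [hj.2])
        have := hmin _ hm
        rw [hc t] at this
        have hpos' : 0 < t * (p j - p i - t) := mul_pos (by rw [ht]; linarith)
          (by rw [ht]; linarith)
        nlinarith
    -- move to the boundary
    set t : ℝ := min (1 - p i) (p j) with ht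
    have hpos : 0 < t := lt_min (by linarith [hi.2]) hj.1
    have hle1 : t ≤ 1 - p i := min_le_left _ _
    have hle2 : t ≤ p j := min_le_right _ _
    have hm : shift p i j t ∈ poly ι a := shift_mem_poly hp hne' (by linarith [hi.1])
      (by linarith) (by linarith) (by linarith [hj.2])
    have hval : cdiff a (genPoly (shift p i j t)) = cdiff a (genPoly p) := by
      rw [hc t, hc0]; ring
    have hsub : inter (shift p i j t) ⊂ inter p := by
      rw [Finset.ssubset_iff_subset_ne]
      constructor
      · intro l hl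
        simp only [inter, mem_filter, mem_univ, true_and] at hl ⊢
        by_cases hli : l = i
        · subst hli; exact hi
        · by_cases hlj : l = j
          · subst hlj; exact hj
          · rwa [shift_other p hli hlj] at hl
      · intro heq
        have hi' : i ∈ inter (shift p i j t) := by
          rw [heq]; simp only [inter, mem_filter, mem_univ, true_and]; exact hi
        have hj' : j ∈ inter (shift p i j t) := by
          rw [heq]; simp only [inter, mem_filter, mem_univ, true_and]; exact hj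
        simp only [inter, mem_filter, mem_univ, true_and] at hi' hj'
        rw [shift_i p hne'] at hi'
        rw [shift_j] at hj'
        rcases min_choice (1 - p i) (p j) with h | h
        · rw [← ht] at h; linarith [hi'.2]
        · rw [← ht] at h; linarith [hj'.1]
    have hlt' : (inter (shift p i j t)).card < Nat.find hex := by
      rw [← hcard]; exact Finset.card_lt_card hsub
    exact Nat.find_min hex hlt' ⟨shift p i j t, hm, fun q hq => by rw [hval]; exact hmin q hq, rfl⟩
  rcases lt_trichotomy (p i) (p j) with h | h | h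
  · exact key i hi j hj h
  · exact hij h
  · exact key j hj i hi h

lemma coeff_bin (z : ℝ) (m j : ℕ) :
    ((1 + C z * (X - 1)) ^ m : ℝ[X]).coeff j = (m.choose j : ℝ) * z ^ j * (1 - z) ^ (m - j) := by
  have h : (1 + C z * (X - 1) : ℝ[X]) = C z * X + C (1 - z) := by
    rw [C_sub, C_1]; ring
  rw [h, add_pow]
  simp only [mul_pow, ← C_pow, finset_sum_coeff]
  have h2 : ∀ b, (C (z ^ b) * X ^ b * C ((1 - z) ^ (m - b)) * (m.choose b : ℝ[X])).coeff j =
      if j = b then (m.choose b : ℝ) * z ^ b * (1 - z) ^ (m - b) else 0 := by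
    intro b
    have : C (z ^ b) * X ^ b * C ((1 - z) ^ (m - b)) * (m.choose b : ℝ[X]) =
        C ((m.choose b : ℝ) * z ^ b * (1 - z) ^ (m - b)) * X ^ b := by
      rw [C_mul, C_mul, ← C_eq_natCast]; ring
    rw [this, coeff_C_mul, coeff_X_pow]
    split_ifs <;> simp
  simp only [h2]
  rw [Finset.sum_ite_eq (Finset.range (m + 1)) j]
  split_ifs with hj
  · rfl
  · simp only [Finset.mem_range, not_lt] at hj
    rw [Nat.choose_eq_zero_of_lt (by omega)]; simp

lemma extremal_value (a : ℕ) (p : ι → ℝ) (hp : p ∈ poly ι a)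
    (he : ∀ i ∈ inter p, ∀ j ∈ inter p, p i = p j) : 0 < cdiff a (genPoly p) := by
  classical
  set I := inter p with hI
  set O := univ.filter fun i => p i = 1 with hO
  set Ze := univ.filter fun i => p i = 0 with hZ
  set b := O.card with hb
  set m := I.card with hm
  -- common value
  obtain ⟨z, hz⟩ : ∃ z : ℝ, (∀ i ∈ I, p i = z) ∧ (I.Nonempty → 0 < z ∧ z < 1) := by
    by_cases hne : I.Nonempty
    · obtain ⟨i, hi⟩ := hne
      refine ⟨p i, fun j hj => he j hj i hi, fun _ => ?_⟩
      rw [hI] at hi
      simpa [inter] using hi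
    · exact ⟨0, fun i hi => absurd ⟨i, hi⟩ hne, fun h => absurd h hne⟩
  have hpart : ∀ f : ι → ℝ[X], ∏ i, f i = (∏ i ∈ I, f i) * ((∏ i ∈ O, f i) * ∏ i ∈ Ze, f i) := by
    intro f
    rw [← Finset.prod_union, ← Finset.prod_union]
    · congr 1
      ext i
      simp only [hI, hO, hZ, inter, mem_univ, mem_union, mem_filter, true_and, true_iff]
      rcases (hp.1 i).lt_or_eq with h | h
      · rcases (hp.2.1 i).lt_or_eq with h' | h'
        · exact Or.inl ⟨h, h'⟩
        · exact Or.inr (Or.inl h')
      · exact Or.inr (Or.inr h.symm)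
    · rw [Finset.disjoint_union_right]
      constructor
      · rw [Finset.disjoint_left]; intro i hi hi'
        simp only [hI, hO, inter, mem_filter, mem_univ, true_and] at hi hi'
        linarith [hi.2]
      · rw [Finset.disjoint_left]; intro i hi hi'
        simp only [hI, hZ, inter, mem_filter, mem_univ, true_and] at hi hi'
        linarith [hi.1]
    · rw [Finset.disjoint_left]; intro i hi hi'
      simp only [hO, hZ, mem_filter, mem_univ, true_and] at hi hi'
      linarith
  have hsum : (m : ℝ) * z + b = a := by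
    have hpartS : ∑ i, p i = (∑ i ∈ I, p i) + ((∑ i ∈ O, p i) + ∑ i ∈ Ze, p i) := by
      rw [← Finset.sum_union, ← Finset.sum_union]
      · congr 1
        ext i
        simp only [hI, hO, hZ, inter, mem_univ, mem_union, mem_filter, true_and, true_iff]
        rcases (hp.1 i).lt_or_eq with h | h
        · rcases (hp.2.1 i).lt_or_eq with h' | h'
          · exact Or.inl ⟨h, h'⟩
          · exact Or.inr (Or.inl h')
        · exact Or.inr (Or.inr h.symm)
      · rw [Finset.disjoint_union_right]
        constructor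
        · rw [Finset.disjoint_left]; intro i hi hi'
          simp only [hI, hO, inter, mem_filter, mem_univ, true_and] at hi hi'
          linarith [hi.2]
        · rw [Finset.disjoint_left]; intro i hi hi'
          simp only [hI, hZ, inter, mem_filter, mem_univ, true_and] at hi hi'
          linarith [hi.1]
      · rw [Finset.disjoint_left]; intro i hi hi'
        simp only [hO, hZ, mem_filter, mem_univ, true_and] at hi hi'
        linarith
    rw [hp.2.2] at hpartS
    have e1 : ∑ i ∈ I, p i = m * z := by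
      rw [Finset.sum_congr rfl hz.1, Finset.sum_const, nsmul_eq_mul]
    have e2 : ∑ i ∈ O, p i = b := by
      rw [Finset.sum_congr rfl (g := fun _ => (1 : ℝ)) (fun i hi => by
        simpa [hO] using hi), Finset.sum_const, nsmul_eq_mul, mul_one]
    have e3 : ∑ i ∈ Ze, p i = 0 := Finset.sum_eq_zero fun i hi => by simpa [hZ] using hi
    rw [e1, e2, e3] at hpartS
    linarith
  have hgen : genPoly p = (1 + C z * (X - 1)) ^ m * X ^ b := by
    unfold genPoly
    rw [hpart]
    have e1 : ∏ i ∈ I, (1 + C (p i) * (X - 1) : ℝ[X]) = (1 + C z * (X - 1)) ^ m := by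
      rw [Finset.prod_congr rfl (fun i hi => by rw [hz.1 i hi]), Finset.prod_const]
    have e2 : ∏ i ∈ O, (1 + C (p i) * (X - 1) : ℝ[X]) = X ^ b := by
      rw [Finset.prod_congr rfl (g := fun _ => (X : ℝ[X])) (fun i hi => by
        have : p i = 1 := by simpa [hO] using hi
        rw [this, C_1]; ring), Finset.prod_const]
    have e3 : ∏ i ∈ Ze, (1 + C (p i) * (X - 1) : ℝ[X]) = 1 := by
      refine Finset.prod_eq_one fun i hi => ?_
      have : p i = 0 := by simpa [hZ] using hi
      rw [this, C_0]; ring
    rw [e1, e2, e3]; ring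
  rw [hgen]
  rcases Nat.eq_zero_or_pos m with hm0 | hmpos
  · rw [hm0] at hsum ⊢
    have hab : b = a := by
      have : (b : ℝ) = a := by simpa using hsum
      exact_mod_cast this
    rw [hab]
    simp [cdiff, coeff_X_pow]
  · have hne : I.Nonempty := Finset.card_pos.1 hmpos
    obtain ⟨hz0, hz1⟩ := hz.2 hne
    have hmR : (0 : ℝ) < m := by exact_mod_cast hmpos
    have hba : b ≤ a := by
      have : (b : ℝ) ≤ a := by nlinarith
      exact_mod_cast this
    obtain ⟨j0, rfl⟩ := Nat.exists_eq_add_of_le hba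
    have hj0 : (m : ℝ) * z = j0 := by push_cast at hsum; linarith
    have hj0lt : j0 < m := by
      have : (j0 : ℝ) < m := by nlinarith
      exact_mod_cast this
    have c1 : ((1 + C z * (X - 1)) ^ m * X ^ b : ℝ[X]).coeff (b + j0) =
        (m.choose j0 : ℝ) * z ^ j0 * (1 - z) ^ (m - j0) := by
      rw [add_comm b j0, coeff_mul_X_pow, coeff_bin]
    have c2 : ((1 + C z * (X - 1)) ^ m * X ^ b : ℝ[X]).coeff (b + j0 + 1) =
        (m.choose (j0 + 1) : ℝ) * z ^ (j0 + 1) * (1 - z) ^ (m - (j0 + 1)) := by
      rw [show b + j0 + 1 = (j0 + 1) + b by ring, coeff_mul_X_pow, coeff_bin]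
    unfold cdiff
    rw [c1, c2]
    have hch : (m.choose (j0 + 1) : ℝ) * (j0 + 1) = m.choose j0 * (m - j0) := by
      have := Nat.choose_succ_right_eq m j0
      have h2 : ((m.choose (j0 + 1) * (j0 + 1) : ℕ) : ℝ) = ((m.choose j0 * (m - j0) : ℕ) : ℝ) := by
        rw [this]
      rw [Nat.cast_mul, Nat.cast_mul, Nat.cast_sub hj0lt.le] at h2
      push_cast at h2
      exact h2
    have hexp : m - j0 = (m - (j0 + 1)) + 1 := by omega
    rw [hexp, pow_succ, pow_succ]
    have hj1 : (0 : ℝ) < (j0 : ℝ) + 1 := by positivity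
    have hchpos : (0 : ℝ) < m.choose j0 := by exact_mod_cast Nat.choose_pos hj0lt.le
    have hw : (0 : ℝ) < z ^ j0 * (1 - z) ^ (m - (j0 + 1)) :=
      mul_pos (pow_pos hz0 _) (pow_pos (by linarith) _)
    have hkey : (0 : ℝ) < (m.choose j0 : ℝ) * (1 - z) - (m.choose (j0 + 1) : ℝ) * z := by
      have h3 : ((m.choose j0 : ℝ) * (1 - z) - (m.choose (j0 + 1) : ℝ) * z) * (j0 + 1) =
          (m.choose j0 : ℝ) * (1 - z) := by
        have : (m.choose (j0 + 1) : ℝ) * z * (j0 + 1) = m.choose j0 * (m - j0) * z := by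
          rw [← hch]; ring
        have h4 : ((m : ℝ) - j0) * z = j0 * (1 - z) := by rw [← hj0]; ring
        calc ((m.choose j0 : ℝ) * (1 - z) - (m.choose (j0 + 1) : ℝ) * z) * (j0 + 1)
            = (m.choose j0 : ℝ) * (1 - z) * (j0 + 1) -
              (m.choose (j0 + 1) : ℝ) * z * (j0 + 1) := by ring
          _ = (m.choose j0 : ℝ) * (1 - z) * (j0 + 1) - m.choose j0 * (((m : ℝ) - j0) * z) := by
              rw [this]; ring
          _ = _ := by rw [h4]; ring
      have h5 : 0 < (m.choose j0 : ℝ) * (1 - z) := mul_pos hchpos (by linarith)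
      rw [← h3] at h5
      exact (pos_iff_pos_of_mul_pos h5).2 hj1
    nlinarith [mul_pos hkey hw]

/-- **Hoeffding / Darroch.** -/
theorem cdiff_pos (a : ℕ) (p : ι → ℝ) (hp : p ∈ poly ι a) : 0 < cdiff a (genPoly p) := by
  obtain ⟨q, hq, hmin, he⟩ := exists_extremal (ι := ι) a ⟨p, hp⟩
  exact (extremal_value a q hq he).trans_le (hmin p hp)

end Pool.Agent.Helper94.Griff
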