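import Pool.Agent.Helper94.Griff.TwoH

/-!
The Schur polynomials in two Chern classes.
-/

open Finset Matrix

namespace Pool.Agent.Helper94.Griff

/-- the Jacobi–Trudi determinant of a sequence -/
noncomputable def JT (n : ℕ) (lam : ℕ → ℕ) : MvPolynomial (Fin 2) ℚ :=
  Matrix.det (Matrix.of fun j l : Fin n => cvar 2 ((lam j : ℤ) - (j : ℤ) + (l : ℤ)))

/-- the sequence `2^a 1^b 0^∞` -/
def lab (a b : ℕ) (j : ℕ) : ℕ := if j < a then 2 else if j < a + b then 1 else 0

lemma cvar_zero : cvar 2 0 = 1 := by simp [cvar]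

lemma cvar_one : cvar 2 1 = MvPolynomial.X 0 := by
  unfold cvar
  rw [if_neg one_ne_zero, dif_pos (by norm_num)]
  rfl

lemma cvar_two : cvar 2 2 = MvPolynomial.X 1 := by
  unfold cvar
  rw [if_neg two_ne_zero, dif_pos (by norm_num)]
  rfl

lemma cvar_neg {m : ℤ} (h : m < 0) : cvar 2 m = 0 := by
  unfold cvar
  rw [if_neg h.ne, dif_neg (by omega)]

lemma cvar_big {m : ℤ} (h : 2 < m) : cvar 2 m = 0 := by
  unfold cvar
  rw [if_neg (by omega), dif_neg]
  push_cast
  omega

lemma JT_zero_seq (n : ℕ) (lam : ℕ → ℕ) (h : ∀ j, lam j = 0) : JT n lam = 1 := by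
  unfold JT
  rw [Matrix.det_of_isUpperTriangular]
  · refine Finset.prod_eq_one fun i _ => ?_
    simp [h, cvar_zero]
  · intro i j hij
    have hij' : (j : ℕ) < (i : ℕ) := hij
    simp only [Matrix.of_apply, h]
    apply cvar_neg
    push_cast
    omega

lemma JT_two (n : ℕ) (lam : ℕ → ℕ) (h : lam 0 = 2) :
    JT (n + 1) lam = MvPolynomial.X 1 * JT n (fun j => lam (j + 1)) := by
  unfold JT
  rw [Matrix.det_succ_row_zero, Finset.sum_eq_single 0]
  · simp only [Matrix.of_apply, Fin.val_zero, h]
    rw [show ((2 : ℕ) : ℤ) - ((0 : ℕ) : ℤ) + ((0 : ℕ) : ℤ) = 2 by norm_num, cvar_two]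
    simp only [pow_zero, one_mul]
    congr 2
    ext i j
    simp only [Matrix.submatrix_apply, Matrix.of_apply, Fin.succAbove_zero, Fin.val_succ]
    congr 2
    push_cast
    ring
  · intro l _ hl
    have hl' : 0 < (l : ℕ) := Nat.pos_of_ne_zero fun h0 => hl (Fin.ext h0)
    simp only [Matrix.of_apply, Fin.val_zero, h]
    rw [cvar_big, mul_zero, zero_mul]
    push_cast
    omega
  · intro h0
    exact absurd (mem_univ _) h0

lemma JT_one_last (lam : ℕ → ℕ) (h : lam 0 = 1) : JT 1 lam = MvPolynomial.X 0 := by
  unfold JT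
  rw [Matrix.det_unique]
  simp only [Matrix.of_apply, Fin.default_eq_zero, Fin.val_zero, h]
  rw [show ((1 : ℕ) : ℤ) - ((0 : ℕ) : ℤ) + ((0 : ℕ) : ℤ) = 1 by norm_num, cvar_one]

lemma JT_one (n : ℕ) (lam : ℕ → ℕ) (h : lam 0 = 1) (h1 : ∀ j, lam (j + 1) ≤ 1) :
    JT (n + 2) lam = MvPolynomial.X 0 * JT (n + 1) (fun j => lam (j + 1)) -
      MvPolynomial.X 1 * (if lam 1 = 1 then JT n (fun j => lam (j + 2)) else 0) := by
  unfold JT
  rw [Matrix.det_succ_row_zero, Fin.sum_univ_succ, Fin.sum_univ_succ, Finset.sum_eq_zero, add_zero]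
  · rw [sub_eq_add_neg]
    congr 1
    · simp only [Matrix.of_apply, Fin.val_zero, h]
      rw [show ((1 : ℕ) : ℤ) - ((0 : ℕ) : ℤ) + ((0 : ℕ) : ℤ) = 1 by norm_num, cvar_one]
      simp only [pow_zero, one_mul]
      congr 2
      ext i j
      simp only [Matrix.submatrix_apply, Matrix.of_apply, Fin.succAbove_zero, Fin.val_succ]
      congr 2
      push_cast
      ring
    · simp only [Matrix.of_apply, Fin.val_zero, h, Fin.val_succ]
      rw [show ((1 : ℕ) : ℤ) - ((0 : ℕ) : ℤ) + ((0 + 1 : ℕ) : ℤ) = 2 by norm_num, cvar_two]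
      have key : (((Matrix.of fun j l : Fin (n + 2) =>
          cvar 2 ((lam j : ℤ) - (j : ℤ) + (l : ℤ))).submatrix Fin.succ
            (Fin.succ (0 : Fin (n + 1))).succAbove).det) =
          if lam 1 = 1 then (Matrix.of fun j l : Fin n =>
            cvar 2 ((lam (j + 2) : ℤ) - (j : ℤ) + (l : ℤ))).det else 0 := by
        rw [Matrix.det_succ_column_zero, Finset.sum_eq_single 0]
        · simp only [Matrix.submatrix_apply, Matrix.of_apply, Fin.val_zero, pow_zero, one_mul,
            Fin.val_succ, zero_add, Fin.succ_succAbove_zero]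
          split_ifs with hl
          · rw [hl, show ((1 : ℕ) : ℤ) - ((1 : ℕ) : ℤ) + ((0 : ℕ) : ℤ) = 0 by norm_num, cvar_zero,
              one_mul]
            congr 1
            ext i j
            simp only [Matrix.submatrix_apply, Matrix.of_apply, Fin.succAbove_zero, Fin.val_succ,
              Fin.succ_succAbove_succ]
            congr 2
            push_cast
            ring
          · have h3 : lam 1 ≤ 1 := h1 0
            have h2 : lam 1 = 0 := by omega
            rw [h2, cvar_neg, zero_mul]
            norm_num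
        · intro j _ hj
          have hj' : 0 < (j : ℕ) := Nat.pos_of_ne_zero fun h0 => hj (Fin.ext h0)
          simp only [Matrix.submatrix_apply, Matrix.of_apply, Fin.val_succ,
            Fin.succ_succAbove_zero, Fin.val_zero]
          rw [cvar_neg, mul_zero, zero_mul]
          have := h1 j
          push_cast
          omega
        · intro h0
          exact absurd (mem_univ _) h0
      rw [key]
      simp only [zero_add, pow_one]
      ring
  · intro l _
    simp only [Matrix.of_apply, Fin.val_zero, h, Fin.val_succ]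
    rw [cvar_big, mul_zero, zero_mul]
    push_cast
    omega

lemma JT_lab_zero (n : ℕ) : ∀ b, b ≤ n →
    JT n (lab 0 b) = hh (MvPolynomial.X 0) (MvPolynomial.X 1) b := by
  induction n using Nat.strong_induction_on with
  | _ n ih =>
    intro b hb
    match b with
    | 0 =>
      rw [hh]
      exact JT_zero_seq n _ fun j => by simp [lab]
    | (b + 1) =>
      have h0 : lab 0 (b + 1) 0 = 1 := by simp [lab]
      have hs : ∀ b', (fun j => lab 0 (b' + 1) (j + 1)) = lab 0 b' := by
        intro b'
        funext j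
        unfold lab
        simp
      match n, hb with
      | 1, hb =>
        obtain rfl : b = 0 := by omega
        rw [JT_one_last _ h0]
        simp [hh]
      | (n + 2), hb =>
        rw [JT_one n _ h0 (fun j => by unfold lab; split_ifs <;> omega), hs b,
          ih (n + 1) (by omega) b (by omega)]
        match b with
        | 0 =>
          rw [if_neg (by simp [lab])]
          simp [hh]
        | (b + 1) =>
          rw [if_pos (by simp [lab])]
          have : (fun j => lab 0 (b + 1 + 1) (j + 2)) = lab 0 b := by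
            rw [← hs b, ← hs (b + 1)]
          rw [this, ih n (by omega) b (by omega)]
          conv_rhs => rw [hh]

lemma JT_lab (a : ℕ) : ∀ n b, a + b ≤ n →
    JT n (lab a b) = MvPolynomial.X 1 ^ a * hh (MvPolynomial.X 0) (MvPolynomial.X 1) b := by
  induction a with
  | zero =>
    intro n b hn
    rw [JT_lab_zero n b (by omega), pow_zero, one_mul]
  | succ a ih =>
    intro n b hn
    obtain ⟨m, rfl⟩ : ∃ m, n = m + 1 := ⟨n - 1, by omega⟩
    have h0 : lab (a + 1) b 0 = 2 := by simp [lab]
    have hs : (fun j => lab (a + 1) b (j + 1)) = lab a b := by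
      funext j
      unfold lab
      simp only [add_lt_add_iff_right]
      congr 2
      simp only [eq_iff_iff]
      omega
    rw [JT_two m _ h0, hs, ih m b (by omega), pow_succ]
    ring

lemma sum_lab (a b n : ℕ) (h : a + b ≤ n) : ∑ j ∈ range n, lab a b j = 2 * a + b := by
  have h1 : ∀ j ∈ range n, lab a b j = (if j < a then 1 else 0) + (if j < a + b then 1 else 0) := by
    intro j _
    unfold lab
    split_ifs <;> omega
  rw [Finset.sum_congr rfl h1, Finset.sum_add_distrib]
  have h2 : ∀ m, m ≤ n → ∑ j ∈ range n, (if j < m then 1 else 0) = m := by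
    intro m hm
    rw [Finset.sum_boole]
    have : filter (fun j => j < m) (range n) = range m := by
      ext j
      simp only [mem_filter, mem_range]
      omega
    rw [this, card_range]
    simp
  rw [h2 a (by omega), h2 (a + b) h]
  ring

lemma schur_two {k : ℕ} {lam : Fin k → Fin 3} (h : lam ∈ partitions k 2) :
    ∃ a b : ℕ, 2 * a + b = k ∧
      schur 2 lam = MvPolynomial.X 1 ^ a * hh (MvPolynomial.X 0) (MvPolynomial.X 1) b := by
  unfold partitions at h
  rw [Finset.mem_filter] at h
  obtain ⟨-, hanti, hsum⟩ := h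
  set L : ℕ → ℕ := fun j => if hj : j < k then (lam ⟨j, hj⟩ : ℕ) else 0 with hL
  have hLanti : Antitone L := by
    intro i j hij
    rw [hL]
    simp only
    split_ifs with h1 h2 h2
    · exact hanti (show (⟨i, h2⟩ : Fin k) ≤ ⟨j, h1⟩ from hij)
    · omega
    · exact Nat.zero_le _
    · exact le_rfl
  have hL2 : ∀ j, L j ≤ 2 := by
    intro j
    rw [hL]
    simp only
    split_ifs with h1
    · have := (lam ⟨j, h1⟩).isLt
      omega
    · omega
  have hLk : L k = 0 := by rw [hL]; simp
  have ex1 : ∃ m, L m < 2 := ⟨k, by omega⟩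
  have ex2 : ∃ m, L m < 1 := ⟨k, by omega⟩
  classical
  set a := Nat.find ex1 with ha
  set c := Nat.find ex2 with hc
  have hLa : L a < 2 := Nat.find_spec ex1
  have hLc : L c < 1 := Nat.find_spec ex2
  have hac : a ≤ c := Nat.find_min' ex1 (lt_trans (Nat.find_spec ex2) one_lt_two)
  have hck : c ≤ k := Nat.find_min' ex2 (by omega)
  have hLlab : L = lab a (c - a) := by
    funext j
    unfold lab
    split_ifs with h1 h2
    · have := Nat.find_min ex1 h1
      have := hL2 j
      omega
    · have h3 : j < c := by omega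
      have := Nat.find_min ex2 h3
      have h4 : L j ≤ L a := hLanti (by omega)
      omega
    · have h4 : L j ≤ L c := hLanti (by omega)
      omega
  refine ⟨a, c - a, ?_, ?_⟩
  · have h5 := sum_lab a (c - a) k (by omega)
    rw [← hLlab, ← Fin.sum_univ_eq_sum_range] at h5
    rw [← h5]
    refine (Finset.sum_congr rfl fun j _ => ?_).trans hsum
    rw [hL]
    simp
  · rw [← JT_lab a k (c - a) (by omega), ← hLlab]
    unfold schur JT
    congr 1
    ext i j : 2
    simp only [Matrix.of_apply]
    rw [hL]
    simp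

end Pool.Agent.Helper94.Griff
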