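import Pool.Agent.Helper94.Griff.Vol

/-!
Operator scaling of a positive family to a doubly stochastic one.
-/

open Finset Matrix
open scoped ComplexOrder

namespace Pool.Agent.Helper94.Griff

set_option linter.unusedSectionVars false

variable {κ : Type*} [Fintype κ] [DecidableEq κ] {r : ℕ}

/-- The matrix `∑ conj(v_a) v_b B_{ab}`. -/
noncomputable def AV (B : Fin r → Fin r → Matrix κ κ ℂ) (v : Fin r → ℂ) : Matrix κ κ ℂ :=
  ∑ a, ∑ b, (star (v a) * v b) • B a b

/-- positivity -/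
def GP (B : Fin r → Fin r → Matrix κ κ ℂ) : Prop := ∀ v : Fin r → ℂ, v ≠ 0 → (AV B v).PosDef

/-- change of frame -/
noncomputable def conjg (B : Fin r → Fin r → Matrix κ κ ℂ) (g : Matrix (Fin r) (Fin r) ℂ) :
    Fin r → Fin r → Matrix κ κ ℂ :=
  fun a b => ∑ c, ∑ d, (star (g c a) * g d b) • B c d

lemma AV_conjg (B : Fin r → Fin r → Matrix κ κ ℂ) (g : Matrix (Fin r) (Fin r) ℂ)
    (v : Fin r → ℂ) : AV (conjg B g) v = AV B (g.mulVec v) := by
  unfold AV conjg
  have h1 : ∀ c d, (star (g.mulVec v c) * g.mulVec v d) • B c d =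
      ∑ a, ∑ b, (star (v a) * v b) • ((star (g c a) * g d b) • B c d) := by
    intro c d
    simp only [Matrix.mulVec, dotProduct, star_sum, Finset.sum_mul_sum, Finset.sum_smul, star_mul',
      smul_smul]
    refine Finset.sum_congr rfl fun a _ => Finset.sum_congr rfl fun b _ => ?_
    congr 1
    ring
  simp only [h1, Finset.smul_sum]
  -- interchange sums
  calc ∑ a, ∑ b, ∑ c, ∑ d, (star (v a) * v b) • (star (g c a) * g d b) • B c d
      = ∑ a, ∑ c, ∑ b, ∑ d, (star (v a) * v b) • (star (g c a) * g d b) • B c d := by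
        refine Finset.sum_congr rfl fun a _ => Finset.sum_comm
    _ = ∑ c, ∑ a, ∑ b, ∑ d, (star (v a) * v b) • (star (g c a) * g d b) • B c d := Finset.sum_comm
    _ = ∑ c, ∑ a, ∑ d, ∑ b, (star (v a) * v b) • (star (g c a) * g d b) • B c d := by
        refine Finset.sum_congr rfl fun c _ => Finset.sum_congr rfl fun a _ => Finset.sum_comm
    _ = ∑ c, ∑ d, ∑ a, ∑ b, (star (v a) * v b) • (star (g c a) * g d b) • B c d := by
        refine Finset.sum_congr rfl fun c _ => Finset.sum_comm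

/-- `∑_a B_{aa}` -/
noncomputable def NB (B : Fin r → Fin r → Matrix κ κ ℂ) : Matrix κ κ ℂ := ∑ a, B a a

lemma NB_conjg (B : Fin r → Fin r → Matrix κ κ ℂ) (g : Matrix (Fin r) (Fin r) ℂ) :
    NB (conjg B g) = ∑ c, ∑ d, (g * g.conjTranspose) d c • B c d := by
  unfold NB conjg
  rw [Finset.sum_comm]
  refine Finset.sum_congr rfl fun c _ => ?_
  rw [Finset.sum_comm]
  refine Finset.sum_congr rfl fun d _ => ?_
  rw [← Finset.sum_smul, Matrix.mul_apply]
  congr 1
  refine Finset.sum_congr rfl fun a _ => ?_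
  rw [Matrix.conjTranspose_apply]; ring

lemma NB_conjg' (B : Fin r → Fin r → Matrix κ κ ℂ) (g : Matrix (Fin r) (Fin r) ℂ) :
    NB (conjg B g) = ∑ a, AV B (fun c => g c a) := rfl

lemma conjg_conjg (B : Fin r → Fin r → Matrix κ κ ℂ) (g g' : Matrix (Fin r) (Fin r) ℂ) :
    conjg (conjg B g) g' = conjg B (g * g') := by
  funext a b
  unfold conjg
  have h1 : ∀ c d, (star ((g * g') c a) * (g * g') d b) • B c d =
      ∑ e, ∑ f, (star (g' e a) * g' f b) • ((star (g c e) * g d f) • B c d) := by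
    intro c d
    simp only [Matrix.mul_apply, star_sum, Finset.sum_mul_sum, Finset.sum_smul, star_mul',
      smul_smul]
    refine Finset.sum_congr rfl fun e _ => Finset.sum_congr rfl fun f _ => ?_
    congr 1
    ring
  simp only [h1, Finset.smul_sum]
  calc ∑ e, ∑ f, ∑ c, ∑ d, (star (g' e a) * g' f b) • (star (g c e) * g d f) • B c d
      = ∑ e, ∑ c, ∑ f, ∑ d, (star (g' e a) * g' f b) • (star (g c e) * g d f) • B c d := by
        refine Finset.sum_congr rfl fun a _ => Finset.sum_comm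
    _ = ∑ c, ∑ e, ∑ f, ∑ d, (star (g' e a) * g' f b) • (star (g c e) * g d f) • B c d :=
        Finset.sum_comm
    _ = ∑ c, ∑ e, ∑ d, ∑ f, (star (g' e a) * g' f b) • (star (g c e) * g d f) • B c d := by
        refine Finset.sum_congr rfl fun c _ => Finset.sum_congr rfl fun a _ => Finset.sum_comm
    _ = ∑ c, ∑ d, ∑ e, ∑ f, (star (g' e a) * g' f b) • (star (g c e) * g d f) • B c d := by
        refine Finset.sum_congr rfl fun c _ => Finset.sum_comm

lemma AV_zero (B : Fin r → Fin r → Matrix κ κ ℂ) : AV B 0 = 0 := by simp [AV]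

lemma NB_posDef {B : Fin r → Fin r → Matrix κ κ ℂ} (hB : GP B) {g : Matrix (Fin r) (Fin r) ℂ}
    (hg : g ≠ 0) : (NB (conjg B g)).PosDef := by
  rw [NB_conjg']
  obtain ⟨a, ha⟩ : ∃ a, (fun c => g c a) ≠ 0 := by
    by_contra hcon
    push Not at hcon
    apply hg
    ext c a
    exact congrFun (hcon a) c
  rw [← Finset.add_sum_erase univ _ (mem_univ a)]
  refine (hB _ ha).add_posSemidef (Matrix.posSemidef_sum _ fun b _ => ?_)
  by_cases hb : (fun c => g c b) = 0
  · rw [hb, AV_zero]; exact Matrix.PosSemidef.zero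
  · exact (hB _ hb).posSemidef

/-- A positive definite matrix is congruent to the identity. -/
lemma exists_congr_one {S : Matrix κ κ ℂ} (hS : S.PosDef) :
    ∃ h : Matrix κ κ ℂ, h.det ≠ 0 ∧ h * S * h.conjTranspose = 1 := by
  classical
  have hU := hS.isHermitian
  set U : Matrix κ κ ℂ := (hU.eigenvectorUnitary : Matrix κ κ ℂ) with hUdef
  have hsp := hU.spectral_theorem
  rw [Unitary.conjStarAlgAut_apply] at hsp
  have hUU : star U * U = 1 := Unitary.coe_star_mul_self _
  set D : Matrix κ κ ℂ := Matrix.diagonal (fun i => ((Real.sqrt (hU.eigenvalues i))⁻¹ : ℂ))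
    with hD
  have hpos : ∀ i, 0 < hU.eigenvalues i := hS.eigenvalues_pos
  refine ⟨D * star U, ?_, ?_⟩
  · rw [Matrix.det_mul, hD, Matrix.det_diagonal]
    refine mul_ne_zero (Finset.prod_ne_zero_iff.2 fun i _ => ?_) ?_
    · apply inv_ne_zero
      exact_mod_cast (Real.sqrt_pos.2 (hpos i)).ne'
    · intro h0
      have := congrArg Matrix.det hUU
      rw [Matrix.det_mul, h0, zero_mul, Matrix.det_one] at this
      exact zero_ne_one this
  · have e1 : (D * star U).conjTranspose = U * D := by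
      rw [Matrix.conjTranspose_mul, ← Matrix.star_eq_conjTranspose, star_star]
      congr 1
      rw [hD, Matrix.diagonal_conjTranspose]
      congr 1
      funext i
      simp
    rw [e1, hsp]
    have e2 : D * star U * (U * Matrix.diagonal (RCLike.ofReal ∘ hU.eigenvalues) * star U) *
        (U * D) = D * ((star U * U) * Matrix.diagonal (RCLike.ofReal ∘ hU.eigenvalues) *
        (star U * U)) * D := by
      simp only [Matrix.mul_assoc]
    have e3 : D * star U * ((hU.eigenvectorUnitary : Matrix κ κ ℂ) *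
        Matrix.diagonal (RCLike.ofReal ∘ hU.eigenvalues) *
        star (hU.eigenvectorUnitary : Matrix κ κ ℂ)) * (U * D) = 1 := by
      rw [← hUdef, e2, hUU, one_mul, mul_one, hD, Matrix.diagonal_mul_diagonal,
        Matrix.diagonal_mul_diagonal, ← Matrix.diagonal_one]
      congr 1
      funext i
      have h2 : (Real.sqrt (hU.eigenvalues i) : ℂ) ≠ 0 := by
        exact_mod_cast (Real.sqrt_pos.2 (hpos i)).ne'
      have h3 : (Real.sqrt (hU.eigenvalues i) : ℂ) * Real.sqrt (hU.eigenvalues i) =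
          hU.eigenvalues i := by
        exact_mod_cast Real.mul_self_sqrt (hpos i).le
      simp only [Function.comp_apply]
      change (Real.sqrt (hU.eigenvalues i) : ℂ)⁻¹ * (hU.eigenvalues i : ℂ) *
        (Real.sqrt (hU.eigenvalues i) : ℂ)⁻¹ = 1
      rw [← h3]
      field_simp
    exact e3

/-- objective function -/
noncomputable def obj (B : Fin r → Fin r → Matrix κ κ ℂ) (a : ℕ) (g : Matrix (Fin r) (Fin r) ℂ) :
    ℝ := ‖g.det‖ ^ (2 * a) / (NB (conjg B g)).det.re

lemma conjg_smul (B : Fin r → Fin r → Matrix κ κ ℂ) (c : ℂ) (g : Matrix (Fin r) (Fin r) ℂ) :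
    NB (conjg B (c • g)) = (star c * c) • NB (conjg B g) := by
  rw [NB_conjg, NB_conjg, Finset.smul_sum]
  refine Finset.sum_congr rfl fun x _ => ?_
  rw [Finset.smul_sum]
  refine Finset.sum_congr rfl fun y _ => ?_
  rw [smul_smul, Matrix.conjTranspose_smul, Matrix.smul_mul, Matrix.mul_smul, Matrix.smul_apply,
    Matrix.smul_apply, smul_eq_mul, smul_eq_mul]
  congr 1
  ring

lemma obj_smul (B : Fin r → Fin r → Matrix κ κ ℂ) {a : ℕ} (hcard : Fintype.card κ = r * a)
    {c : ℝ} (hc : c ≠ 0) (g : Matrix (Fin r) (Fin r) ℂ) : obj B a ((c : ℂ) • g) = obj B a g := by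
  unfold obj
  rw [conjg_smul, Matrix.det_smul, Matrix.det_smul, hcard, Fintype.card_fin]
  have e1 : (star (c : ℂ) * (c : ℂ)) ^ (r * a) = ((c ^ (2 * (r * a)) : ℝ) : ℂ) := by
    simp only [RCLike.star_def, Complex.conj_ofReal]
    push_cast
    rw [← pow_two, ← pow_mul]
  rw [e1, Complex.re_ofReal_mul, norm_mul, norm_pow, mul_pow, Complex.norm_real]
  have e2 : (‖c‖ ^ r) ^ (2 * a) = c ^ (2 * (r * a)) := by
    rw [← pow_mul, show r * (2 * a) = 2 * (r * a) by ring, pow_mul, Real.norm_eq_abs, sq_abs,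
      ← pow_mul]
  rw [e2]
  have hne : c ^ (2 * (r * a)) ≠ 0 := pow_ne_zero _ hc
  rw [mul_div_mul_left _ _ hne]

lemma continuous_NB (B : Fin r → Fin r → Matrix κ κ ℂ) :
    Continuous fun g : Fin r → Fin r → ℂ => (NB (conjg B (Matrix.of g))).det := by
  refine Continuous.matrix_det ?_
  have h0 : (fun g : Fin r → Fin r → ℂ => NB (conjg B (Matrix.of g))) =
      fun g => ∑ a, ∑ c, ∑ d, (star (g c a) * g d a) • B c d := rfl
  rw [h0]
  refine continuous_finsetSum _ fun a _ => ?_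
  refine continuous_finsetSum _ fun c _ => ?_
  refine continuous_finsetSum _ fun d _ => ?_
  have h1 : Continuous fun g : Fin r → Fin r → ℂ => g c a := by fun_prop
  have h2 : Continuous fun g : Fin r → Fin r → ℂ => g d a := by fun_prop
  have h3 : Continuous fun g : Fin r → Fin r → ℂ => star (g c a) * g d a := h1.star.mul h2
  exact h3.smul continuous_const

/-- existence of a maximiser -/
lemma exists_max (hr : 0 < r) {B : Fin r → Fin r → Matrix κ κ ℂ} (hB : GP B) {a : ℕ} (ha : 0 < a)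
    (hcard : Fintype.card κ = r * a) : ∃ g0 : Matrix (Fin r) (Fin r) ℂ, g0.det ≠ 0 ∧
      ∀ g : Matrix (Fin r) (Fin r) ℂ, g ≠ 0 → obj B a g ≤ obj B a g0 := by
  have : Nonempty (Fin r) := ⟨⟨0, hr⟩⟩
  have hcomp : IsCompact (Metric.sphere (0 : Fin r → Fin r → ℂ) 1) := isCompact_sphere _ _
  have hone : (fun _ _ => 1 : Fin r → Fin r → ℂ) ≠ 0 := by
    intro h
    have := congrFun (congrFun h ⟨0, hr⟩) ⟨0, hr⟩
    simp at this
  have hne : (Metric.sphere (0 : Fin r → Fin r → ℂ) 1).Nonempty := by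
    refine ⟨((‖(fun _ _ => 1 : Fin r → Fin r → ℂ)‖⁻¹ : ℝ) : ℂ) • (fun _ _ => 1), ?_⟩
    rw [mem_sphere_zero_iff_norm, norm_smul, Complex.norm_real, norm_inv, norm_norm]
    exact inv_mul_cancel₀ (norm_ne_zero_iff.2 hone)
  have hsn : ∀ g ∈ Metric.sphere (0 : Fin r → Fin r → ℂ) 1, g ≠ 0 := by
    intro g hg h0
    rw [mem_sphere_zero_iff_norm, h0, norm_zero] at hg
    exact zero_ne_one hg
  have hpos : ∀ g : Fin r → Fin r → ℂ, g ≠ 0 → 0 < (NB (conjg B (Matrix.of g))).det.re := by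
    intro g hg
    have := (NB_posDef hB (g := Matrix.of g) hg).det_pos
    exact (Complex.pos_iff.1 this).1
  have hcont : ContinuousOn (fun g : Fin r → Fin r → ℂ => obj B a (Matrix.of g))
      (Metric.sphere 0 1) := by
    unfold obj
    refine ContinuousOn.div ?_ ?_ fun g hg => (hpos g (hsn g hg)).ne'
    · exact (((Continuous.matrix_det continuous_id).norm.pow _)).continuousOn
    · exact (Complex.continuous_re.comp (continuous_NB B)).continuousOn
  obtain ⟨g0, hg0, hmax⟩ := hcomp.exists_isMaxOn hne hcont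
  have hall0 : ∀ g : Fin r → Fin r → ℂ, g ≠ 0 →
      obj B a (Matrix.of g) ≤ obj B a (Matrix.of g0) := by
    intro g hg1
    have hn : ‖g‖ ≠ 0 := norm_ne_zero_iff.2 hg1
    have hm : (((‖g‖⁻¹ : ℝ) : ℂ) • g) ∈
        Metric.sphere (0 : Fin r → Fin r → ℂ) 1 := by
      rw [mem_sphere_zero_iff_norm, norm_smul, Complex.norm_real, norm_inv, norm_norm]
      exact inv_mul_cancel₀ hn
    have h1 := hmax hm
    have h2 : obj B a (((‖g‖⁻¹ : ℝ) : ℂ) • Matrix.of g) = obj B a (Matrix.of g) :=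
      obj_smul B hcard (inv_ne_zero hn) (Matrix.of g)
    rw [← h2]
    exact h1
  have hall : ∀ g : Matrix (Fin r) (Fin r) ℂ, g ≠ 0 → obj B a g ≤ obj B a (Matrix.of g0) :=
    fun g hg => hall0 g hg
  refine ⟨Matrix.of g0, ?_, hall⟩
  intro h0
  have h1 := hall 1 one_ne_zero
  have h2 : obj B a (Matrix.of g0) = 0 := by
    unfold obj
    rw [h0, norm_zero, zero_pow (by omega), zero_div]
  have h3 : 0 < obj B a 1 := by
    unfold obj
    rw [Matrix.det_one, norm_one, one_pow]
    have h4 := (NB_posDef hB (g := (1 : Matrix (Fin r) (Fin r) ℂ)) one_ne_zero).det_pos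
    exact div_pos one_pos (Complex.pos_iff.1 h4).1
  linarith

lemma rank_one_mul (v : Fin r → ℂ) (hv : ∑ i, star (v i) * v i = 1) (t : ℂ) (ht : star t = t) :
    (1 + t • Matrix.vecMulVec v (star v)) * (1 + t • Matrix.vecMulVec v (star v)).conjTranspose =
      1 + (2 * t + t ^ 2) • Matrix.vecMulVec v (star v) := by
  have h1 : (1 + t • Matrix.vecMulVec v (star v)).conjTranspose =
      1 + t • Matrix.vecMulVec v (star v) := by
    rw [Matrix.conjTranspose_add, Matrix.conjTranspose_one, Matrix.conjTranspose_smul, ht]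
    congr 2
    ext i j
    simp [Matrix.vecMulVec_apply, mul_comm]
  have h2 : Matrix.vecMulVec v (star v) * Matrix.vecMulVec v (star v) =
      Matrix.vecMulVec v (star v) := by
    rw [Matrix.vecMulVec_mul_vecMulVec]
    have : star v ⬝ᵥ v = 1 := hv
    rw [this]
    simp
  rw [h1, add_mul, mul_add, mul_add, one_mul, one_mul, mul_one, Matrix.smul_mul, Matrix.mul_smul,
    h2, smul_smul, add_smul, two_mul, add_smul, pow_two]
  abel

/-- change of both frames -/
noncomputable def tra (B : Fin r → Fin r → Matrix κ κ ℂ) (g : Matrix (Fin r) (Fin r) ℂ)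
    (h : Matrix κ κ ℂ) : Fin r → Fin r → Matrix κ κ ℂ :=
  fun c d => h * conjg B g c d * h.conjTranspose

lemma AV_sandwich (B : Fin r → Fin r → Matrix κ κ ℂ) (h : Matrix κ κ ℂ) (v : Fin r → ℂ) :
    AV (fun c d => h * B c d * h.conjTranspose) v = h * AV B v * h.conjTranspose := by
  unfold AV
  simp only [Matrix.mul_sum, Matrix.sum_mul, Matrix.mul_smul, Matrix.smul_mul]

lemma AV_tra (B : Fin r → Fin r → Matrix κ κ ℂ) (g : Matrix (Fin r) (Fin r) ℂ)
    (h : Matrix κ κ ℂ) (v : Fin r → ℂ) :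
    AV (tra B g h) v = h * AV B (g.mulVec v) * h.conjTranspose := by
  unfold tra
  rw [AV_sandwich, AV_conjg]

lemma NB_tra (B : Fin r → Fin r → Matrix κ κ ℂ) (g : Matrix (Fin r) (Fin r) ℂ)
    (h : Matrix κ κ ℂ) : NB (tra B g h) = h * NB (conjg B g) * h.conjTranspose := by
  unfold NB tra
  simp only [Matrix.mul_sum, Matrix.sum_mul]

lemma conjg_sandwich (B : Fin r → Fin r → Matrix κ κ ℂ) (h : Matrix κ κ ℂ)
    (g : Matrix (Fin r) (Fin r) ℂ) :
    conjg (fun c d => h * B c d * h.conjTranspose) g = tra B g h := by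
  funext a b
  unfold tra conjg
  simp only [Matrix.mul_sum, Matrix.sum_mul, Matrix.mul_smul, Matrix.smul_mul]

lemma GP_tra {B : Fin r → Fin r → Matrix κ κ ℂ} (hB : GP B) {g : Matrix (Fin r) (Fin r) ℂ}
    {h : Matrix κ κ ℂ} (hg : g.det ≠ 0) (hh : h.det ≠ 0) : GP (tra B g h) := by
  intro v hv
  rw [AV_tra]
  have h1 : g.mulVec v ≠ 0 := by
    intro h0
    exact hv (Matrix.eq_zero_of_mulVec_eq_zero hg h0)
  have h2 : IsUnit h := (Matrix.isUnit_iff_isUnit_det h).2 (isUnit_iff_ne_zero.2 hh)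
  exact (hB _ h1).mul_mul_conjTranspose_same (Matrix.vecMul_injective_iff_isUnit.2 h2)

lemma trace_re_eq {A : Matrix κ κ ℂ} {a : ℕ}
    (h : ∀ t : ℝ, -1 < t → (1 + t) ^ (2 * a) ≤ (1 + ((2 * t + t ^ 2 : ℝ) : ℂ) • A).det.re) :
    A.trace.re = a := by
  set P : Polynomial ℂ := Matrix.det (1 + (Polynomial.X : Polynomial ℂ) • A.map Polynomial.C)
    with hP
  have hPd : HasDerivAt (fun z : ℂ => P.eval z) (A.trace) ((0 : ℝ) : ℂ) := by
    have := P.hasDerivAt (((0 : ℝ) : ℂ))
    rw [Complex.ofReal_zero, hP, Matrix.derivative_det_one_add_X_smul] at this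
    rw [Complex.ofReal_zero]
    exact this
  have h1 : HasDerivAt (fun x : ℝ => (P.eval (x : ℂ)).re) A.trace.re 0 := hPd.real_of_complex
  -- φ(t) = Re P(2t+t²) - (1+t)^(2a)
  have h2 : HasDerivAt (fun t : ℝ => 2 * t + t ^ 2) 2 0 := by
    have h3 : HasDerivAt (fun t : ℝ => 2 * t + t ^ 2) (2 * 1 + (2 : ℕ) * (0 : ℝ) ^ (2 - 1) * 1) 0 :=
      ((hasDerivAt_id (0 : ℝ)).const_mul 2).add ((hasDerivAt_id (0 : ℝ)).pow 2)
    convert h3 using 1
    norm_num
  have h1' : HasDerivAt (fun x : ℝ => (P.eval (x : ℂ)).re) A.trace.re (2 * (0 : ℝ) + 0 ^ 2) := by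
    convert h1 using 1
    norm_num
  have h4 : HasDerivAt (fun t : ℝ => (P.eval ((2 * t + t ^ 2 : ℝ) : ℂ)).re)
      (A.trace.re * 2) 0 :=
    HasDerivAt.comp (h := fun t : ℝ => 2 * t + t ^ 2)
      (h₂ := fun x : ℝ => (P.eval (x : ℂ)).re) (0 : ℝ) h1' h2
  have h5 : HasDerivAt (fun t : ℝ => (1 + t) ^ (2 * a)) ((2 * a : ℕ) : ℝ) 0 := by
    have h6 : HasDerivAt (fun t : ℝ => (1 + t) ^ (2 * a))
        ((2 * a : ℕ) * (1 + (0 : ℝ)) ^ (2 * a - 1) * (0 + 1)) 0 :=
      ((hasDerivAt_const (0 : ℝ) (1 : ℝ)).add (hasDerivAt_id (0 : ℝ))).pow (2 * a)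
    convert h6 using 1
    norm_num
  have h7 := h4.sub h5
  have hmin : IsLocalMin (fun t : ℝ => (P.eval ((2 * t + t ^ 2 : ℝ) : ℂ)).re - (1 + t) ^ (2 * a))
      0 := by
    have hev : ∀ᶠ t : ℝ in nhds 0, -1 < t := lt_mem_nhds (by norm_num)
    filter_upwards [hev] with t ht
    have := h t ht
    rw [← det_one_add_eval, ← hP] at this
    have h8 : (P.eval ((2 * (0 : ℝ) + 0 ^ 2 : ℝ) : ℂ)).re - (1 + (0 : ℝ)) ^ (2 * a) = 0 := by
      rw [hP, det_one_add_eval]
      simp
    rw [h8]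
    linarith
  have h9 := hmin.hasDerivAt_eq_zero h7
  push_cast at h9
  linarith

theorem exists_scaling (hr : 0 < r) {B : Fin r → Fin r → Matrix κ κ ℂ} (hB : GP B) {a : ℕ}
    (ha : 0 < a) (hcard : Fintype.card κ = r * a) :
    ∃ (g : Matrix (Fin r) (Fin r) ℂ) (h : Matrix κ κ ℂ), g.det ≠ 0 ∧ h.det ≠ 0 ∧
      NB (tra B g h) = 1 ∧ ∀ v : Fin r → ℂ, ∑ i, star (v i) * v i = 1 →
        (AV (tra B g h) v).trace = a := by
  have : Nonempty (Fin r) := ⟨⟨0, hr⟩⟩
  obtain ⟨g0, hg0, hmax⟩ := exists_max hr hB ha hcard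
  have hg0ne : g0 ≠ 0 := by
    intro h0
    rw [h0, Matrix.det_zero] at hg0
    exact hg0 rfl
  obtain ⟨h, hh, hN⟩ := exists_congr_one (NB_posDef hB hg0ne)
  refine ⟨g0, h, hg0, hh, ?_, ?_⟩
  · rw [NB_tra, hN]
  intro v hv
  have hv0 : v ≠ 0 := by
    intro h0
    rw [h0] at hv
    simp at hv
  set B' := tra B g0 h with hB'
  have hGP : GP B' := GP_tra hB hg0 hh
  have hN' : NB B' = 1 := by rw [hB', NB_tra, hN]
  -- the inequality
  have hineq : ∀ g : Matrix (Fin r) (Fin r) ℂ, g.det ≠ 0 →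
      ‖g.det‖ ^ (2 * a) ≤ (NB (conjg B' g)).det.re := by
    intro g hg
    have hgg : g0 * g ≠ 0 := by
      intro h0
      have := congrArg Matrix.det h0
      rw [Matrix.det_mul, Matrix.det_zero] at this
      exact (mul_ne_zero hg0 hg) this
    have h1 := hmax (g0 * g) hgg
    unfold obj at h1
    have hp1 := (Complex.pos_iff.1 (NB_posDef hB hgg).det_pos).1
    have hp0 := (Complex.pos_iff.1 (NB_posDef hB hg0ne).det_pos).1
    rw [div_le_div_iff₀ hp1 hp0, Matrix.det_mul, norm_mul, mul_pow, mul_assoc] at h1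
    have hpp : 0 < ‖g0.det‖ ^ (2 * a) := pow_pos (norm_pos_iff.2 hg0) _
    have h2 : ‖g.det‖ ^ (2 * a) * (NB (conjg B g0)).det.re ≤ (NB (conjg B (g0 * g))).det.re :=
      le_of_mul_le_mul_left h1 hpp
    -- dets
    have e1 : (NB (conjg B' g)).det = ((‖h.det‖ ^ 2 : ℝ) : ℂ) * (NB (conjg B (g0 * g))).det := by
      have : conjg B' g = tra B (g0 * g) h := by
        rw [hB']
        unfold tra
        rw [conjg_sandwich]
        unfold tra
        rw [conjg_conjg]
      rw [this, NB_tra, Matrix.det_mul, Matrix.det_mul, Matrix.det_conjTranspose]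
      have : ((‖h.det‖ ^ 2 : ℝ) : ℂ) = h.det * star h.det := by
        rw [RCLike.star_def, Complex.mul_conj, Complex.normSq_eq_norm_sq]
      rw [this]
      ring
    have e2 : ‖h.det‖ ^ 2 * (NB (conjg B g0)).det.re = 1 := by
      have h3 := congrArg Matrix.det hN
      rw [Matrix.det_mul, Matrix.det_mul, Matrix.det_conjTranspose, Matrix.det_one] at h3
      have : ((‖h.det‖ ^ 2 : ℝ) : ℂ) = h.det * star h.det := by
        rw [RCLike.star_def, Complex.mul_conj, Complex.normSq_eq_norm_sq]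
      have h4 : ((‖h.det‖ ^ 2 : ℝ) : ℂ) * (NB (conjg B g0)).det = 1 := by
        rw [this, ← h3]
        ring
      have h5 := congrArg Complex.re h4
      rwa [Complex.re_ofReal_mul, Complex.one_re] at h5
    rw [e1, Complex.re_ofReal_mul]
    have hhp : 0 < ‖h.det‖ ^ 2 := pow_pos (norm_pos_iff.2 hh) _
    calc ‖g.det‖ ^ (2 * a) = ‖h.det‖ ^ 2 * (‖g.det‖ ^ (2 * a) * (NB (conjg B g0)).det.re) := by
          rw [mul_left_comm, e2, mul_one]
      _ ≤ _ := mul_le_mul_of_nonneg_left h2 hhp.le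
  have htr : (AV B' v).trace.re = a := by
    apply trace_re_eq
    intro t ht
    set g : Matrix (Fin r) (Fin r) ℂ := 1 + (t : ℂ) • Matrix.vecMulVec v (star v) with hg
    have hdet : g.det = ((1 + t : ℝ) : ℂ) := by
      have e : (t : ℂ) • Matrix.vecMulVec v (star v) =
          Matrix.replicateCol Unit ((t : ℂ) • v) * Matrix.replicateRow Unit (star v) := by
        ext i j
        simp [Matrix.vecMulVec_apply, Matrix.mul_apply, mul_assoc]
      rw [hg, e, Matrix.det_one_add_replicateCol_mul_replicateRow]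
      have : star v ⬝ᵥ ((t : ℂ) • v) = t := by
        rw [dotProduct_smul]
        have : star v ⬝ᵥ v = 1 := hv
        rw [this]
        simp
      rw [this]
      push_cast
      ring
    have hdne : g.det ≠ 0 := by
      rw [hdet]
      exact_mod_cast (by linarith : (0 : ℝ) < 1 + t).ne'
    have h1 := hineq g hdne
    rw [hdet, Complex.norm_real, Real.norm_eq_abs, abs_of_pos (by linarith)] at h1
    refine h1.trans (le_of_eq ?_)
    congr 2
    rw [NB_conjg, hg, rank_one_mul v hv (t : ℂ) (by simp)]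
    have h2 : ∀ c d, ((1 : Matrix (Fin r) (Fin r) ℂ) +
        (2 * (t : ℂ) + (t : ℂ) ^ 2) • Matrix.vecMulVec v (star v)) d c • B' c d = (1 : Matrix (Fin r) (Fin r) ℂ) d c • B' c d + ((2 * (t : ℂ) + (t : ℂ) ^ 2)) •
          ((star (v c) * v d) • B' c d) := by
      intro c d
      rw [Matrix.add_apply, Matrix.smul_apply, Matrix.vecMulVec_apply, add_smul, smul_smul,
        smul_eq_mul, Pi.star_apply, mul_comm (v d)]
    simp only [h2, Finset.sum_add_distrib, ← Finset.smul_sum]
    have h3 : ∑ c, ∑ d, (1 : Matrix (Fin r) (Fin r) ℂ) d c • B' c d = 1 := by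
      rw [← hN']
      unfold NB
      refine Finset.sum_congr rfl fun c _ => ?_
      rw [Finset.sum_eq_single c]
      · rw [Matrix.one_apply_eq, one_smul]
      · intro d _ hd
        rw [Matrix.one_apply_ne hd, zero_smul]
      · intro hc
        exact absurd (mem_univ _) hc
    rw [h3]
    congr 1
    push_cast
    rfl
  have hpd := hGP v hv0
  have htrp : 0 ≤ (AV B' v).trace := hpd.posSemidef.trace_nonneg
  have him : (AV B' v).trace.im = 0 := (Complex.nonneg_iff.1 htrp).2.symm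
  apply Complex.ext
  · rw [htr]; simp
  · rw [him]; simp

end Pool.Agent.Helper94.Griff
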