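import Pool.Agent.Helper94.Griff.Step

/-!
Integer-indexed coefficients, the Schur complement, naturality.
-/

open Finset Polynomial

namespace Pool.Agent.Helper94.Griff.Dec

set_option linter.unusedSectionVars false

variable {r : ℕ}

section Defs

variable {R : Type*} [CommRing R]

/-- `e_n`, with `e_n = 0` for `n < 0` -/
noncomputable def eZ (X : Matrix (Fin r) (Fin r) R) (n : ℤ) : R :=
  if 0 ≤ n then (EE X).coeff n.toNat else 0

/-- `K_n`, with `K_n = 0` for `n < 0` -/
noncomputable def KZ (X : Matrix (Fin r) (Fin r) R) (n : ℤ) : Matrix (Fin r) (Fin r) R :=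
  if 0 ≤ n then (Kp X).map (fun f => f.coeff n.toNat) else 0

/-- Jacobi–Trudi determinant -/
noncomputable def SS (p : ℕ) (μ : ℕ → ℕ) (X : Matrix (Fin r) (Fin r) R) : R :=
  (Matrix.of fun i j : Fin p => eZ X ((μ i : ℤ) - (i : ℤ) + (j : ℤ))).det

lemma KN_eq (X : Matrix (Fin r) (Fin r) R) (b a : ℕ) : KN X b a = KZ X ((a : ℤ) - b) := by
  unfold KN KZ
  by_cases h : b ≤ a
  · rw [if_pos (by omega)]
    ext i j
    rw [Matrix.map_apply, Matrix.map_apply, Polynomial.coeff_X_pow_mul', if_pos h]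
    congr 1
    omega
  · rw [if_neg (by omega)]
    ext i j
    rw [Matrix.map_apply, Polynomial.coeff_X_pow_mul', if_neg h, Matrix.zero_apply]

lemma coeff_eq_eZ (X : Matrix (Fin r) (Fin r) R) (b a : ℕ) :
    (Polynomial.X ^ b * EE X).coeff a = eZ X ((a : ℤ) - b) := by
  unfold eZ
  rw [Polynomial.coeff_X_pow_mul']
  by_cases h : b ≤ a
  · rw [if_pos h, if_pos (by omega)]
    congr 1
    omega
  · rw [if_neg h, if_neg (by omega)]

lemma EE_coeff_zero (X : Matrix (Fin r) (Fin r) R) : (EE X).coeff 0 = 1 := by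
  rw [Polynomial.coeff_zero_eq_eval_zero, EE_eval, zero_smul, add_zero, Matrix.det_one]

lemma eZ_zero (X : Matrix (Fin r) (Fin r) R) : eZ X 0 = 1 := by
  unfold eZ
  rw [if_pos le_rfl]
  exact EE_coeff_zero X

lemma eZ_neg (X : Matrix (Fin r) (Fin r) R) {n : ℤ} (hn : n < 0) : eZ X n = 0 := by
  unfold eZ
  rw [if_neg (by omega)]

lemma SS_zero (μ : ℕ → ℕ) (X : Matrix (Fin r) (Fin r) R) : SS 0 μ X = 1 := by
  unfold SS
  exact Matrix.det_isEmpty

lemma SS_succ (p : ℕ) (μ : ℕ → ℕ) (X : Matrix (Fin r) (Fin r) R) (h : μ p = 0) :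
    SS (p + 1) μ X = SS p μ X := by
  unfold SS
  rw [Matrix.det_succ_row _ (Fin.last p), Finset.sum_eq_single (Fin.last p)]
  · simp only [Matrix.of_apply, Fin.val_last, h]
    rw [show (((0 : ℕ) : ℤ) - (p : ℤ) + (p : ℤ)) = 0 by simp, eZ_zero, ← two_mul, pow_mul]
    simp only [even_two, Even.neg_pow, one_pow, one_mul]
    congr 1
    ext i j
    rw [Matrix.submatrix_apply, Fin.succAbove_last, Matrix.of_apply, Matrix.of_apply]
    rfl
  · intro j _ hj
    rw [Matrix.of_apply, Fin.val_last, h, eZ_neg, mul_zero, zero_mul]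
    have : (j : ℕ) < p := by
      have h1 := j.isLt
      have h2 : (j : ℕ) ≠ p := fun h3 => hj (Fin.ext h3)
      omega
    omega
  · intro hh
    exact absurd (mem_univ _) hh

end Defs

section StepZ

variable {K : Type*} [Field K] [CharZero K]

/-- the averaging formula in the form used in the induction -/
theorem stepZ (X : Matrix (Fin r) (Fin r) K) {p : ℕ} (μ : ℕ → ℕ) (hμ : ∀ j, j < p → 1 ≤ μ j) :
    ∑ σ : Equiv.Perm (Fin p), ((Equiv.Perm.sign σ : ℤ) : K) *
      PP (fun j => KZ X (((μ j - 1 : ℕ) : ℤ) - (j : ℤ) + ((σ j : Fin p) : ℤ))) =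
    ((∏ j : Fin p, (μ j + (p - 1 - j)) : ℕ) : K) * SS p μ X := by
  have h := step X (p := p) (fun j => μ j + (p - 1 - j) - 1)
  -- left-hand side
  have hL : ∑ σ : Equiv.Perm (Fin p), ((Equiv.Perm.sign σ : ℤ) : K) *
      PP (fun j => KN X (σ j) (μ j + (p - 1 - j) - 1)) =
      ((Equiv.Perm.sign (Fin.revPerm : Equiv.Perm (Fin p)) : ℤ) : K) *
      ∑ σ : Equiv.Perm (Fin p), ((Equiv.Perm.sign σ : ℤ) : K) *
      PP (fun j => KZ X (((μ j - 1 : ℕ) : ℤ) - (j : ℤ) + ((σ j : Fin p) : ℤ))) := by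
    rw [← Equiv.sum_comp (Equiv.mulLeft (Fin.revPerm : Equiv.Perm (Fin p))), Finset.mul_sum]
    refine Finset.sum_congr rfl fun σ _ => ?_
    rw [Equiv.coe_mulLeft, Equiv.Perm.sign_mul]
    push_cast
    rw [mul_assoc]
    congr 3
    funext j
    rw [KN_eq, Function.comp_apply, Fin.revPerm_apply, Fin.val_rev]
    congr 1
    have h1 := hμ j j.isLt
    have h2 := j.isLt
    have h3 := (σ j).isLt
    omega
  have hR : (Matrix.of fun i j : Fin p => (derivative (Polynomial.X ^ (i : ℕ) * EE X)).coeff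
      (μ j + (p - 1 - j) - 1)).det =
      ((Equiv.Perm.sign (Fin.revPerm : Equiv.Perm (Fin p)) : ℤ) : K) *
      (((∏ j : Fin p, (μ j + (p - 1 - j)) : ℕ) : K) * SS p μ X) := by
    have h1 : (Matrix.of fun i j : Fin p => (derivative (Polynomial.X ^ (i : ℕ) * EE X)).coeff
        (μ j + (p - 1 - j) - 1)) = (Matrix.of fun i j : Fin p =>
          ((μ j + (p - 1 - j) : ℕ) : K) * (Matrix.of fun i j : Fin p =>
            eZ X ((μ i : ℤ) - (i : ℤ) + (j : ℤ))).transpose i j).submatrix Fin.revPerm id := by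
      ext i j
      rw [Matrix.submatrix_apply, Matrix.of_apply, Matrix.of_apply, Matrix.transpose_apply,
        Matrix.of_apply, Polynomial.coeff_derivative, coeff_eq_eZ, id, Fin.revPerm_apply,
        Fin.val_rev]
      have h1 := hμ j j.isLt
      have h2 := j.isLt
      have h3 := i.isLt
      have h4 : μ j + (p - 1 - (j : ℕ)) - 1 + 1 = μ j + (p - 1 - (j : ℕ)) := by omega
      have h5 : (((μ j + (p - 1 - (j : ℕ)) - 1 : ℕ)) : K) + 1 =
          ((μ j + (p - 1 - (j : ℕ)) : ℕ) : K) := by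
        rw [← Nat.cast_one (R := K), ← Nat.cast_add, h4]
      rw [h5, mul_comm]
      congr 2
      omega
    rw [h1, Matrix.det_permute, Matrix.det_mul_row]
    unfold SS
    rw [Matrix.det_transpose]
    push_cast
    rfl
  rw [hL, hR] at h
  have hne : ((Equiv.Perm.sign (Fin.revPerm : Equiv.Perm (Fin p)) : ℤ) : K) ≠ 0 := by
    rcases Int.units_eq_one_or (Equiv.Perm.sign (Fin.revPerm : Equiv.Perm (Fin p))) with h | h <;>
      rw [h] <;> simp
  exact mul_left_cancel₀ hne h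

end StepZ

section Natural

variable {R S : Type*} [CommRing R] [CommRing S] [Algebra ℂ R] [Algebra ℂ S]

lemma bf_map (φ : R →ₐ[ℂ] S) (X : Matrix (Fin r) (Fin r) R) (x y : Fin r → ℂ) :
    φ (bf X x y) = bf (X.map φ) x y := by
  unfold bf
  rw [map_sum]
  refine Finset.sum_congr rfl fun a _ => ?_
  rw [map_sum]
  refine Finset.sum_congr rfl fun b _ => ?_
  rw [map_smul, Matrix.map_apply]

lemma EE_map (φ : R →+* S) (X : Matrix (Fin r) (Fin r) R) : EE (X.map φ) = (EE X).map φ := by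
  unfold EE
  have h := (Polynomial.mapRingHom φ).map_det (1 + (Polynomial.X : R[X]) • X.map Polynomial.C)
  rw [Polynomial.coe_mapRingHom] at h
  rw [h]
  congr 1
  ext i j
  by_cases hij : i = j
  · subst hij; simp
  · simp [Matrix.one_apply_ne hij]

lemma eZ_map (φ : R →ₐ[ℂ] S) (X : Matrix (Fin r) (Fin r) R) (n : ℤ) :
    φ (eZ X n) = eZ (X.map φ) n := by
  unfold eZ
  split_ifs with h
  · have : EE (X.map φ) = (EE X).map (φ : R →+* S) := EE_map (φ : R →+* S) X
    rw [this, Polynomial.coeff_map]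
    rfl
  · rw [map_zero]

lemma SS_map (φ : R →ₐ[ℂ] S) (p : ℕ) (μ : ℕ → ℕ) (X : Matrix (Fin r) (Fin r) R) :
    φ (SS p μ X) = SS p μ (X.map φ) := by
  unfold SS
  rw [AlgHom.map_det]
  congr 1
  ext i j
  rw [AlgHom.mapMatrix_apply, Matrix.map_apply, Matrix.of_apply, Matrix.of_apply, eZ_map]

/-- minors along a sequence of vectors -/
noncomputable def mn (X : Matrix (Fin r) (Fin r) R) (m : ℕ) (g : ℕ → Fin r → ℂ) : R :=
  (Matrix.of fun i j : Fin m => bf X (g i) (g j)).det

lemma mn_zero (X : Matrix (Fin r) (Fin r) R) (g : ℕ → Fin r → ℂ) : mn X 0 g = 1 := by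
  unfold mn
  exact Matrix.det_isEmpty

lemma mn_map (φ : R →ₐ[ℂ] S) (X : Matrix (Fin r) (Fin r) R) (m : ℕ) (g : ℕ → Fin r → ℂ) :
    φ (mn X m g) = mn (X.map φ) m g := by
  unfold mn
  rw [AlgHom.map_det]
  congr 1
  ext i j
  rw [AlgHom.mapMatrix_apply, Matrix.map_apply, Matrix.of_apply, Matrix.of_apply, bf_map]

/-- prepend a vector -/
def consN (x : Fin r → ℂ) (g : ℕ → Fin r → ℂ) : ℕ → Fin r → ℂ
  | 0 => x
  | n + 1 => g n

variable {ι : Type} [Fintype ι]

/-- iterated mean -/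
noncomputable def ExN (w : ι → ℝ) (z : ι → ℂ) {V : Type*} [AddCommMonoid V] [Module ℂ V] :
    ℕ → ((ℕ → Fin r → ℂ) → V) → V
  | 0, f => f 0
  | l + 1, f => Ex w z fun x => ExN w z l fun g => f (consN x g)

lemma ExN_map {V W : Type*} [AddCommMonoid V] [Module ℂ V] [AddCommMonoid W] [Module ℂ W]
    {w : ι → ℝ} {z : ι → ℂ} (L : V →ₗ[ℂ] W) (l : ℕ) (f : (ℕ → Fin r → ℂ) → V) :
    ExN w z l (fun g => L (f g)) = L (ExN w z l f) := by
  induction l generalizing f with
  | zero => rfl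
  | succ l ih =>
    have h1 : ∀ x : Fin r → ℂ, ExN w z l (fun g => L (f (consN x g))) =
        L (ExN w z l fun g => f (consN x g)) := fun x => ih fun g => f (consN x g)
    have h2 : ExN w z (l + 1) (fun g => L (f g)) =
        Ex w z fun x => ExN w z l fun g => L (f (consN x g)) := rfl
    rw [h2]
    simp only [h1]
    exact Ex_map L _

end Natural

end Pool.Agent.Helper94.Griff.Dec
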