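import Pool.Agent.Helper94.Griff.Gen2

/-!
Coefficient form of the determinantal identity for `PP (K(u_1), …, K(u_p))`.
-/

open Finset Polynomial

namespace Pool.Agent.Helper94.Griff.Dec

set_option linter.unusedSectionVars false

/-- coefficients of `u^b K(u)` -/
noncomputable def KN {r : ℕ} {R : Type*} [CommRing R] (X : Matrix (Fin r) (Fin r) R) (b a : ℕ) :
    Matrix (Fin r) (Fin r) R :=
  (Kp X).map fun f => (Polynomial.X ^ b * f).coeff a

section Field

variable {r : ℕ} {K : Type*} [Field K]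

lemma Vd_eq {p : ℕ} (u : Fin p → K) :
    Vd u = ∑ σ : Equiv.Perm (Fin p), ((Equiv.Perm.sign σ : ℤ) : K) * ∏ j, u j ^ (σ j : ℕ) := by
  unfold Vd
  rw [Matrix.det_apply']
  rfl

theorem PP_mul_Vd' (X : Matrix (Fin r) (Fin r) K) {p : ℕ} (u : Fin p → K) :
    PP (fun i => Ku X (u i)) * Vd u = Dd (EE X) u := by
  by_cases hu : Function.Injective u
  · exact PP_mul_Vd X u hu
  · unfold Function.Injective at hu
    push Not at hu
    obtain ⟨i, j, hij, hne⟩ := hu
    have h1 : Vd u = 0 := by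
      unfold Vd
      refine Matrix.det_zero_of_column_eq hne fun k => ?_
      simp only [Matrix.of_apply, hij]
    have h2 : Dd (EE X) u = 0 := by
      unfold Dd
      refine Matrix.det_zero_of_column_eq hne fun k => ?_
      simp only [Matrix.of_apply, hij]
    rw [h1, h2, mul_zero]

lemma exists_functional [CharZero K] (N : ℕ) : ∃ c : ℕ → Fin N → K, ∀ f : K[X],
    f.natDegree < N → ∀ m, f.coeff m = ∑ s, c m s * f.eval ((s : ℕ) : K) := by
  refine ⟨fun m s => (Lagrange.basis univ (fun s : Fin N => ((s : ℕ) : K)) s).coeff m, ?_⟩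
  intro f hf m
  have hinj : Set.InjOn (fun s : Fin N => ((s : ℕ) : K)) ((univ : Finset (Fin N)) : Set (Fin N)) := by
    intro a _ b _ hab
    exact Fin.ext (Nat.cast_injective hab)
  have hdeg : f.degree < #(univ : Finset (Fin N)) := by
    rw [Finset.card_univ, Fintype.card_fin]
    exact (Polynomial.degree_le_natDegree).trans_lt (by exact_mod_cast hf)
  have h := Lagrange.eq_interpolate hinj hdeg
  conv_lhs => rw [h]
  rw [Lagrange.interpolate_apply, Polynomial.finsetSum_coeff]
  refine Finset.sum_congr rfl fun s _ => ?_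
  rw [Polynomial.coeff_C_mul, mul_comm]

theorem step [CharZero K] (X : Matrix (Fin r) (Fin r) K) {p : ℕ} (m : Fin p → ℕ) :
    ∑ σ : Equiv.Perm (Fin p), ((Equiv.Perm.sign σ : ℤ) : K) *
      PP (fun j => KN X (σ j) (m j)) =
    (Matrix.of fun i j : Fin p => (derivative (Polynomial.X ^ (i : ℕ) * EE X)).coeff (m j)).det := by
  classical
  obtain ⟨N, hN1, hN2⟩ : ∃ N : ℕ, (∀ (b : Fin p) (i j : Fin r),
      (Polynomial.X ^ (b : ℕ) * Kp X i j).natDegree < N) ∧
      (∀ i : Fin p, (derivative (Polynomial.X ^ (i : ℕ) * EE X)).natDegree < N) := by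
    refine ⟨(∑ b : Fin p, ∑ i, ∑ j, (Polynomial.X ^ (b : ℕ) * Kp X i j).natDegree) +
      (∑ i : Fin p, (derivative (Polynomial.X ^ (i : ℕ) * EE X)).natDegree) + 1, ?_, ?_⟩
    · intro b i j
      have h1 := Finset.single_le_sum (f := fun j => (Polynomial.X ^ (b : ℕ) * Kp X i j).natDegree)
        (fun _ _ => Nat.zero_le _) (mem_univ j)
      have h2 := Finset.single_le_sum
        (f := fun i => ∑ j, (Polynomial.X ^ (b : ℕ) * Kp X i j).natDegree)
        (fun _ _ => Nat.zero_le _) (mem_univ i)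
      have h3 := Finset.single_le_sum
        (f := fun b : Fin p => ∑ i, ∑ j, (Polynomial.X ^ (b : ℕ) * Kp X i j).natDegree)
        (fun _ _ => Nat.zero_le _) (mem_univ b)
      exact Nat.lt_succ_of_le ((h1.trans (h2.trans h3)).trans (Nat.le_add_right _ _))
    · intro i
      have h1 := Finset.single_le_sum
        (f := fun i : Fin p => (derivative (Polynomial.X ^ (i : ℕ) * EE X)).natDegree)
        (fun _ _ => Nat.zero_le _) (mem_univ i)
      exact Nat.lt_succ_of_le (h1.trans (Nat.le_add_left _ _))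
  obtain ⟨c, hc⟩ := exists_functional (K := K) N
  have hK : ∀ (b : Fin p) (a : ℕ), KN X b a = ∑ s : Fin N,
      (c a s * ((s : ℕ) : K) ^ (b : ℕ)) • Ku X ((s : ℕ) : K) := by
    intro b a
    ext i j
    rw [Matrix.sum_apply]
    unfold KN Ku
    rw [Matrix.map_apply, hc _ (hN1 b i j)]
    refine Finset.sum_congr rfl fun s _ => ?_
    rw [Matrix.smul_apply, Matrix.map_apply, Polynomial.eval_mul, Polynomial.eval_pow,
      Polynomial.eval_X, smul_eq_mul, mul_assoc]
  have hL : ∑ σ : Equiv.Perm (Fin p), ((Equiv.Perm.sign σ : ℤ) : K) *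
      PP (fun j => KN X (σ j) (m j)) = ∑ f : Fin p → Fin N, (∏ j, c (m j) (f j)) *
        (PP (fun j => Ku X ((f j : ℕ) : K)) * Vd (fun j => ((f j : ℕ) : K))) := by
    simp only [hK, PP_sum, Vd_eq, Finset.mul_sum]
    rw [Finset.sum_comm]
    refine Finset.sum_congr rfl fun f _ => Finset.sum_congr rfl fun σ _ => ?_
    rw [Finset.prod_mul_distrib]
    ring
  rw [hL]
  simp only [PP_mul_Vd']
  rw [Matrix.det_apply']
  simp only [Matrix.of_apply]
  have hR : ∀ i j : Fin p, (derivative (Polynomial.X ^ (i : ℕ) * EE X)).coeff (m j) =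
      ∑ s : Fin N, c (m j) s * (derivative (Polynomial.X ^ (i : ℕ) * EE X)).eval ((s : ℕ) : K) :=
    fun i j => hc _ (hN2 i) _
  simp only [hR]
  have hR2 : ∀ σ : Equiv.Perm (Fin p), ∏ j, ∑ s : Fin N, c (m j) s *
      (derivative (Polynomial.X ^ ((σ j : Fin p) : ℕ) * EE X)).eval ((s : ℕ) : K) =
      ∑ f : Fin p → Fin N, ∏ j, (c (m j) (f j) *
        (derivative (Polynomial.X ^ ((σ j : Fin p) : ℕ) * EE X)).eval ((f j : ℕ) : K)) := by
    intro σ
    rw [Finset.prod_univ_sum, Fintype.piFinset_univ]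
  simp only [hR2, Finset.mul_sum]
  rw [Finset.sum_comm]
  refine Finset.sum_congr rfl fun f _ => ?_
  unfold Dd
  rw [Matrix.det_apply', Finset.mul_sum]
  refine Finset.sum_congr rfl fun σ _ => ?_
  rw [Finset.prod_mul_distrib]
  simp only [Matrix.of_apply]
  ring

end Field

end Pool.Agent.Helper94.Griff.Dec
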