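import Pool.Agent.Helper94.Griff.Scale
import Pool.Agent.Helper94.Griff.Avg
import Pool.Agent.Helper94.Griff.Hoeff

/-!
Positivity of `c_2^a h_b` for rank two.
-/

open Finset Matrix
open scoped Nat ComplexOrder

namespace Pool.Agent.Helper94.Griff

set_option linter.unusedSectionVars false

variable {κ : Type*} [Fintype κ] [DecidableEq κ]

lemma vol_pow_mul_sum (A B : Matrix κ κ ℂ) (u : ℂ) :
    ∑ c ∈ range (Fintype.card κ + 1), (((Fintype.card κ).choose c : ℂ) *
      vol (lin A ^ c * lin B ^ (Fintype.card κ - c))) * u ^ c =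
      (Fintype.card κ)! * (u • A + B).det := by
  rw [← vol_lin_pow, lin_add, lin_smul, add_pow, map_sum]
  refine Finset.sum_congr rfl fun c _ => ?_
  have e : ((MvPolynomial.C u * lin A) ^ c * lin B ^ (Fintype.card κ - c) *
      ((Fintype.card κ).choose c : Forms κ)) =
      (u ^ c * ((Fintype.card κ).choose c : ℂ)) • (lin A ^ c * lin B ^ (Fintype.card κ - c)) := by
    rw [MvPolynomial.smul_eq_C_mul, mul_pow, map_mul, map_pow, map_natCast]
    ring
  rw [e, map_smul, smul_eq_mul]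
  ring

/-- spectral data of `0 < A < 1` -/
lemma exists_eigen {A : Matrix κ κ ℂ} (hA : A.PosDef) (hA' : (1 - A).PosDef) :
    ∃ p : κ → ℝ, (∀ i, 0 < p i) ∧ (∀ i, p i < 1) ∧ A.trace = ((∑ i, p i : ℝ) : ℂ) ∧
      ∀ s t : ℂ, (s • A + t • (1 - A)).det = ∏ i, (s * (p i : ℂ) + t * (1 - p i)) := by
  classical
  have hH := hA.isHermitian
  have hsp := hH.spectral_theorem
  rw [Unitary.conjStarAlgAut_apply] at hsp
  set U : Matrix κ κ ℂ := (hH.eigenvectorUnitary : Matrix κ κ ℂ) with hU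
  have hUU : star U * U = 1 := Unitary.coe_star_mul_self _
  have hUU' : U * star U = 1 := Unitary.coe_mul_star_self _
  set D : Matrix κ κ ℂ := Matrix.diagonal (RCLike.ofReal ∘ hH.eigenvalues) with hD
  have hdet : ∀ s t : ℂ, (s • A + t • (1 : Matrix κ κ ℂ)).det =
      ∏ i, (s * (hH.eigenvalues i : ℂ) + t) := by
    intro s t
    have e1 : s • A + t • (1 : Matrix κ κ ℂ) = U * (s • D + t • 1) * star U := by
      conv_lhs => rw [hsp]
      rw [Matrix.mul_add, Matrix.add_mul, Matrix.mul_smul, Matrix.smul_mul, Matrix.mul_smul,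
        Matrix.smul_mul, Matrix.mul_one, hUU']
    have e2 : (U * (s • D + t • 1) * star U).det = (s • D + t • 1).det := by
      rw [Matrix.det_mul, Matrix.det_mul, mul_comm, ← mul_assoc, ← Matrix.det_mul, hUU,
        Matrix.det_one, one_mul]
    have e3 : s • D + t • (1 : Matrix κ κ ℂ) =
        Matrix.diagonal fun i => (s * (hH.eigenvalues i : ℂ) + t) := by
      rw [hD]
      ext i j
      by_cases h : i = j
      · subst h
        simp
      · simp [h]
    rw [e1, e2, e3, Matrix.det_diagonal]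
  refine ⟨hH.eigenvalues, hA.eigenvalues_pos, ?_, ?_, ?_⟩
  · intro i
    -- the eigenvector
    by_contra hcon
    push Not at hcon
    set w : κ → ℂ := U.col i with hw
    have hmv : A.mulVec w = (hH.eigenvalues i : ℂ) • w := by
      have := hH.mulVec_eigenvectorBasis i
      have hcol : w = (hH.eigenvectorBasis i).ofLp := by
        rw [hw, hU]
        funext j
        simp [Matrix.col_apply]
      rw [hcol, this]
      funext j
      simp
    have hw0 : w ≠ 0 := by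
      intro h0
      have h1 : (star U * U) i i = 0 := by
        rw [Matrix.mul_apply]
        refine Finset.sum_eq_zero fun j _ => ?_
        have : U j i = 0 := congrFun h0 j
        rw [this, mul_zero]
      rw [hUU] at h1
      simp at h1
    have h1 := hA'.dotProduct_mulVec_pos hw0
    have h2 : (1 - A).mulVec w = ((1 - hH.eigenvalues i : ℝ) : ℂ) • w := by
      rw [Matrix.sub_mulVec, Matrix.one_mulVec, hmv]
      push_cast
      rw [sub_smul, one_smul]
    rw [h2, dotProduct_smul, smul_eq_mul] at h1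
    have h3 : 0 ≤ star w ⬝ᵥ w := dotProduct_star_self_nonneg w
    have h4 : ((1 - hH.eigenvalues i : ℝ) : ℂ) ≤ 0 := by
      exact_mod_cast (by linarith : 1 - hH.eigenvalues i ≤ 0)
    exact absurd h1 (mul_nonpos_of_nonpos_of_nonneg h4 h3).not_gt
  · rw [hH.trace_eq_sum_eigenvalues]
    push_cast
    rfl
  · intro s t
    have : s • A + t • (1 - A) = (s - t) • A + t • (1 : Matrix κ κ ℂ) := by
      rw [sub_smul, smul_sub]; abel
    rw [this, hdet]
    refine Finset.prod_congr rfl fun i _ => ?_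
    ring

lemma vol_pow_mul_pow {A A' : Matrix κ κ ℂ} {p : κ → ℝ}
    (hp : ∀ u : ℂ, (u • A + A').det = ∏ i, (1 + (p i : ℂ) * (u - 1))) (c d : ℕ)
    (hcd : c + d = Fintype.card κ) :
    vol (lin A ^ c * lin A' ^ d) = ((c ! * d ! * (genPoly p).coeff c : ℝ) : ℂ) := by
  have hP : (∑ j ∈ range (Fintype.card κ + 1), Polynomial.C (((Fintype.card κ).choose j : ℂ) *
      vol (lin A ^ j * lin A' ^ (Fintype.card κ - j))) * Polynomial.X ^ j) =
      Polynomial.C ((Fintype.card κ)! : ℂ) * (genPoly p).map Complex.ofRealHom := by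
    apply Polynomial.funext
    intro u
    rw [Polynomial.eval_finsetSum]
    simp only [Polynomial.eval_mul, Polynomial.eval_C, Polynomial.eval_pow, Polynomial.eval_X]
    rw [vol_pow_mul_sum, hp]
    congr 1
    unfold genPoly
    rw [Polynomial.map_prod, Polynomial.eval_prod]
    refine Finset.prod_congr rfl fun i _ => ?_
    simp
  have hc := congrArg (fun P => Polynomial.coeff P c) hP
  simp only [Polynomial.finsetSum_coeff, Polynomial.coeff_C_mul, Polynomial.coeff_X_pow,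
    mul_ite, mul_one, mul_zero, Polynomial.coeff_map] at hc
  rw [Finset.sum_ite_eq, if_pos (Finset.mem_range.2 (by omega))] at hc
  have hd : Fintype.card κ - c = d := by omega
  rw [hd] at hc
  have hf : ((c ! * d ! : ℕ) : ℂ) * ((Fintype.card κ).choose c : ℂ) = ((Fintype.card κ)! : ℂ) := by
    rw [← hd]
    have := Nat.choose_mul_factorial_mul_factorial (show c ≤ Fintype.card κ by omega)
    rw [← this]
    push_cast
    ring
  have hne : ((Fintype.card κ).choose c : ℂ) ≠ 0 := by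
    exact_mod_cast (Nat.choose_pos (show c ≤ Fintype.card κ by omega)).ne'
  apply mul_left_cancel₀ hne
  rw [hc, ← hf]
  simp only [Complex.ofRealHom_eq_coe]
  push_cast
  ring

/-- the key positivity -/
lemma key_pos {A A' : Matrix κ κ ℂ} (hA : A.PosDef) (hA' : A'.PosDef) (h1 : A + A' = 1) {a : ℕ}
    (hcard : Fintype.card κ = 2 * (a + 1)) (htr : A.trace = ((a + 1 : ℕ) : ℂ)) :
    ∃ x : ℝ, 0 < x ∧ 2 * (((a + 2 : ℕ) : ℂ) * vol (lin A ^ (a + 1) * lin A' ^ (a + 1))) -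
      ((a + 1 : ℕ) : ℂ) * (vol (lin A ^ (a + 2) * lin A' ^ a) +
        vol (lin A ^ a * lin A' ^ (a + 2))) = x := by
  obtain rfl : A' = 1 - A := by rw [← h1]; abel
  obtain ⟨p, hp0, hp1, htr', hdet⟩ := exists_eigen hA hA'
  have hdA : ∀ u : ℂ, (u • A + (1 - A)).det = ∏ i, (1 + (p i : ℂ) * (u - 1)) := by
    intro u
    have := hdet u 1
    rw [one_smul] at this
    rw [this]
    refine Finset.prod_congr rfl fun i _ => ?_
    ring
  have hdA' : ∀ u : ℂ, (u • (1 - A) + A).det = ∏ i, (1 + ((1 - p i : ℝ) : ℂ) * (u - 1)) := by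
    intro u
    have := hdet 1 u
    rw [one_smul, add_comm] at this
    rw [this]
    refine Finset.prod_congr rfl fun i _ => ?_
    push_cast
    ring
  have hsum : ∑ i, p i = ((a + 1 : ℕ) : ℝ) := by
    rw [htr'] at htr
    exact_mod_cast htr
  have hmem : p ∈ poly κ (a + 1) := ⟨fun i => (hp0 i).le, fun i => (hp1 i).le, hsum⟩
  have hmem' : (fun i => 1 - p i) ∈ poly κ (a + 1) := by
    refine ⟨fun i => by linarith [hp1 i], fun i => by linarith [hp0 i], ?_⟩
    rw [Finset.sum_sub_distrib, hsum]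
    simp only [Finset.sum_const, Finset.card_univ, nsmul_eq_mul, mul_one]
    rw [hcard]
    push_cast
    ring
  have hc := cdiff_pos (a + 1) p hmem
  have hc' := cdiff_pos (a + 1) _ hmem'
  unfold cdiff at hc hc'
  have v1 := vol_pow_mul_pow hdA (a + 1) (a + 1) (by omega)
  have v2 := vol_pow_mul_pow hdA (a + 2) a (by omega)
  have v1' := vol_pow_mul_pow hdA' (a + 1) (a + 1) (by omega)
  have v2' := vol_pow_mul_pow hdA' (a + 2) a (by omega)
  rw [mul_comm] at v1' v2'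
  refine ⟨((a + 2)! : ℝ) * (a + 1)! * (((genPoly p).coeff (a + 1) - (genPoly p).coeff (a + 1 + 1)) +
    ((genPoly fun i => 1 - p i).coeff (a + 1) - (genPoly fun i => 1 - p i).coeff (a + 1 + 1))),
    by positivity, ?_⟩
  rw [two_mul]
  nth_rewrite 2 [v1']
  rw [v1, v2, v2', Nat.factorial_succ (a + 1), Nat.factorial_succ a]
  push_cast
  ring

/-- The determinant form. -/
noncomputable def twoDet (B : Fin 2 → Fin 2 → Matrix κ κ ℂ) : Forms κ :=
  lin (B 0 0) * lin (B 1 1) - lin (B 0 1) * lin (B 1 0)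

lemma AV_two (B : Fin 2 → Fin 2 → Matrix κ κ ℂ) (v : Fin 2 → ℂ) : AV B v =
    (star (v 0) * v 0) • B 0 0 + (star (v 0) * v 1) • B 0 1 + (star (v 1) * v 0) • B 1 0 +
      (star (v 1) * v 1) • B 1 1 := by
  unfold AV
  rw [Fin.sum_univ_two, Fin.sum_univ_two, Fin.sum_univ_two]
  abel

lemma NB_two (B : Fin 2 → Fin 2 → Matrix κ κ ℂ) : NB B = B 0 0 + B 1 1 := by
  unfold NB
  rw [Fin.sum_univ_two]

lemma AV_perp (B : Fin 2 → Fin 2 → Matrix κ κ ℂ) (v : Fin 2 → ℂ)
    (hv : ∑ i, star (v i) * v i = 1) :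
    AV B v + AV B ![-star (v 1), star (v 0)] = NB B := by
  rw [Fin.sum_univ_two] at hv
  rw [AV_two, AV_two, NB_two]
  simp only [Matrix.cons_val_zero, Matrix.cons_val_one, star_neg, star_star]
  have h1 : B 0 0 = (star (v 0) * v 0 + star (v 1) * v 1) • B 0 0 := by rw [hv, one_smul]
  have h2 : B 1 1 = (star (v 0) * v 0 + star (v 1) * v 1) • B 1 1 := by rw [hv, one_smul]
  conv_rhs => rw [h1, h2]
  module

/-- the unit vector with coordinates `√(1/2+τ)`, `ω √(1/2-τ)` -/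
noncomputable def uvec (τ : ℝ) (ω : ℂ) : Fin 2 → ℂ :=
  ![((Real.sqrt (1 / 2 + τ) : ℝ) : ℂ), ω * ((Real.sqrt (1 / 2 - τ) : ℝ) : ℂ)]

lemma uvec_norm {τ : ℝ} {ω : ℂ} (h1 : -(1 / 2) ≤ τ) (h2 : τ ≤ 1 / 2) (hω : ‖ω‖ = 1) :
    ∑ i, star (uvec τ ω i) * uvec τ ω i = 1 := by
  rw [Fin.sum_univ_two]
  simp only [uvec, Matrix.cons_val_zero, Matrix.cons_val_one, star_mul', RCLike.star_def,
    Complex.conj_ofReal]
  have e1 : ((Real.sqrt (1 / 2 + τ) : ℝ) : ℂ) * ((Real.sqrt (1 / 2 + τ) : ℝ) : ℂ) =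
      ((1 / 2 + τ : ℝ) : ℂ) := by
    rw [← Complex.ofReal_mul, Real.mul_self_sqrt (by linarith)]
  have e2 : ((Real.sqrt (1 / 2 - τ) : ℝ) : ℂ) * ((Real.sqrt (1 / 2 - τ) : ℝ) : ℂ) =
      ((1 / 2 - τ : ℝ) : ℂ) := by
    rw [← Complex.ofReal_mul, Real.mul_self_sqrt (by linarith)]
  have e3 : (starRingEnd ℂ) ω * ω = 1 := by
    rw [mul_comm, Complex.mul_conj, Complex.normSq_eq_norm_sq, hω]
    simp
  rw [e1, mul_mul_mul_comm, e3, e2, one_mul]
  push_cast
  ring

lemma alpha_eq (B : Fin 2 → Fin 2 → Matrix κ κ ℂ) {τ : ℝ} {ω : ℂ} (h1 : -(1 / 2) ≤ τ)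
    (h2 : τ ≤ 1 / 2) (hω : ‖ω‖ = 1) :
    lin (AV B (uvec τ ω)) = (1 / 2 : ℂ) • lin (NB B) +
      Zt (lin (B 0 0) - lin (B 1 1)) (lin (B 0 1)) (lin (B 1 0)) ω τ := by
  rw [AV_two, NB_two]
  simp only [uvec, Matrix.cons_val_zero, Matrix.cons_val_one, star_mul', RCLike.star_def,
    Complex.conj_ofReal]
  have e1 : ((Real.sqrt (1 / 2 + τ) : ℝ) : ℂ) * ((Real.sqrt (1 / 2 + τ) : ℝ) : ℂ) =
      1 / 2 + (τ : ℂ) := by
    rw [← Complex.ofReal_mul, Real.mul_self_sqrt (by linarith)]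
    push_cast
    ring
  have e2 : ((Real.sqrt (1 / 2 - τ) : ℝ) : ℂ) * ((Real.sqrt (1 / 2 - τ) : ℝ) : ℂ) =
      1 / 2 - (τ : ℂ) := by
    rw [← Complex.ofReal_mul, Real.mul_self_sqrt (by linarith)]
    push_cast
    ring
  have e3 : (starRingEnd ℂ) ω * ω = 1 := by
    rw [mul_comm, Complex.mul_conj, Complex.normSq_eq_norm_sq, hω]
    simp
  have e3' : (starRingEnd ℂ) ω = ω⁻¹ := eq_inv_of_mul_eq_one_left e3
  have e4 : ((Real.sqrt (1 / 2 + τ) : ℝ) : ℂ) * ((Real.sqrt (1 / 2 - τ) : ℝ) : ℂ) =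
      ((Real.sqrt (1 / 4 - τ ^ 2) : ℝ) : ℂ) := by
    rw [← Complex.ofReal_mul, ← Real.sqrt_mul (by linarith)]
    congr 2
    ring
  have f1 : ((Real.sqrt (1 / 2 + τ) : ℝ) : ℂ) * (ω * ((Real.sqrt (1 / 2 - τ) : ℝ) : ℂ)) =
      ((Real.sqrt (1 / 4 - τ ^ 2) : ℝ) : ℂ) * ω := by
    rw [← e4]; ring
  have f2 : (starRingEnd ℂ) ω * ((Real.sqrt (1 / 2 - τ) : ℝ) : ℂ) *
      ((Real.sqrt (1 / 2 + τ) : ℝ) : ℂ) = ((Real.sqrt (1 / 4 - τ ^ 2) : ℝ) : ℂ) * ω⁻¹ := by
    rw [← e4, e3']; ring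
  rw [e1, mul_mul_mul_comm, e3, e2, f1, f2, one_mul]
  unfold Zt wk
  simp only [lin_add, lin_smul, MvPolynomial.smul_eq_C_mul, map_add, map_sub, map_mul]
  ring

lemma beta_eq (B : Fin 2 → Fin 2 → Matrix κ κ ℂ) {τ : ℝ} {ω : ℂ} (h1 : -(1 / 2) ≤ τ)
    (h2 : τ ≤ 1 / 2) (hω : ‖ω‖ = 1) :
    lin (AV B ![-star (uvec τ ω 1), star (uvec τ ω 0)]) = (1 / 2 : ℂ) • lin (NB B) -
      Zt (lin (B 0 0) - lin (B 1 1)) (lin (B 0 1)) (lin (B 1 0)) ω τ := by
  have h3 := congrArg lin (AV_perp B (uvec τ ω) (uvec_norm h1 h2 hω))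
  rw [lin_add, alpha_eq B h1 h2 hω] at h3
  rw [← eq_sub_iff_add_eq'] at h3
  rw [h3]
  module

lemma perp_ne {v : Fin 2 → ℂ} (hv : v ≠ 0) : ![-star (v 1), star (v 0)] ≠ 0 := by
  intro h0
  apply hv
  have a0 := congrFun h0 0
  have a1 := congrFun h0 1
  simp only [Matrix.cons_val_zero, Matrix.cons_val_one, Pi.zero_apply, neg_eq_zero,
    star_eq_zero] at a0 a1
  funext i
  fin_cases i
  · exact a1
  · exact a0

lemma perp_norm {v : Fin 2 → ℂ} (hv : ∑ i, star (v i) * v i = 1) :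
    ∑ i, star ((![-star (v 1), star (v 0)] : Fin 2 → ℂ) i) *
      (![-star (v 1), star (v 0)] : Fin 2 → ℂ) i = 1 := by
  rw [Fin.sum_univ_two] at hv ⊢
  simp only [Matrix.cons_val_zero, Matrix.cons_val_one, star_neg, star_star]
  rw [← hv]
  ring

lemma unit_ne {v : Fin 2 → ℂ} (hv : ∑ i, star (v i) * v i = 1) : v ≠ 0 := by
  intro h0
  rw [h0] at hv
  simp at hv

lemma disc_eq (B : Fin 2 → Fin 2 → Matrix κ κ ℂ) :
    (1 / 4 : ℂ) • (lin (B 0 0) - lin (B 1 1)) ^ 2 + lin (B 0 1) * lin (B 1 0) =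
      (1 / 4 : ℂ) • lin (NB B) ^ 2 - twoDet B := by
  have h4 : (MvPolynomial.C (1 / 4 : ℂ) : Forms κ) * 4 = 1 := by
    rw [show (4 : Forms κ) = MvPolynomial.C (4 : ℂ) from (map_ofNat MvPolynomial.C 4).symm, ← MvPolynomial.C_mul]
    norm_num
  rw [NB_two, lin_add, twoDet, MvPolynomial.smul_eq_C_mul, MvPolynomial.smul_eq_C_mul]
  linear_combination (-lin (B 0 0) * lin (B 1 1)) * h4

/-- `c_2^a > 0` for scaled families -/
theorem twoDet_pow_pos_scaled {B : Fin 2 → Fin 2 → Matrix κ κ ℂ} (hB : GP B) {a : ℕ}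
    (hcard : Fintype.card κ = 2 * (a + 1)) (hN : NB B = 1)
    (htr : ∀ v : Fin 2 → ℂ, ∑ i, star (v i) * v i = 1 → (AV B v).trace = ((a + 1 : ℕ) : ℂ)) :
    ∃ x : ℝ, 0 < x ∧ vol (twoDet B ^ (a + 1)) = x := by
  set A : Forms κ := (1 / 4 : ℂ) • lin (NB B) ^ 2 with hA
  have h := moment_pos (vol (κ := κ)) (lin (B 0 0) - lin (B 1 1)) (lin (B 0 1)) (lin (B 1 0))
    ((Polynomial.C A - Polynomial.X) ^ (a + 1)) ?_
  · obtain ⟨x, hx, hx'⟩ := h
    refine ⟨x, hx, ?_⟩
    rw [← hx', disc_eq]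
    simp only [Polynomial.eval_pow, Polynomial.eval_sub, Polynomial.eval_C, Polynomial.eval_X]
    rw [← hA, sub_sub_cancel]
  · intro τ ω h1 h2 hω
    set v := uvec τ ω with hv
    have hvn := uvec_norm h1 h2 hω
    rw [← hv] at hvn
    have hα := alpha_eq B h1 h2 hω
    have hβ := beta_eq B h1 h2 hω
    rw [← hv] at hα hβ
    set v' : Fin 2 → ℂ := ![-star (v 1), star (v 0)] with hv'
    set Z := Zt (lin (B 0 0) - lin (B 1 1)) (lin (B 0 1)) (lin (B 1 0)) ω τ with hZ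
    have hpos := key_pos (hB v (unit_ne hvn)) (hB v' (perp_ne (unit_ne hvn)))
      (by rw [hv', AV_perp B v hvn, hN]) hcard (htr v hvn)
    obtain ⟨x, hx, hx'⟩ := hpos
    refine ⟨x / 2, by positivity, ?_⟩
    -- the identity
    have h4 : (MvPolynomial.C (1 / 4 : ℂ) : Forms κ) * 4 = 1 := by
      rw [show (4 : Forms κ) = MvPolynomial.C (4 : ℂ) from (map_ofNat MvPolynomial.C 4).symm, ← MvPolynomial.C_mul]
      norm_num
    have hA1 : 4 * A = (lin (AV B v) + lin (AV B v')) ^ 2 := by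
      rw [hα, hβ, hA, MvPolynomial.smul_eq_C_mul, MvPolynomial.smul_eq_C_mul]
      have h2 : (MvPolynomial.C (1 / 2 : ℂ) : Forms κ) * 2 = 1 := by
        rw [show (2 : Forms κ) = MvPolynomial.C (2 : ℂ) from (map_ofNat MvPolynomial.C 2).symm, ← MvPolynomial.C_mul]
        norm_num
      linear_combination (lin (NB B)) ^ 2 * h4 -
        (lin (NB B)) ^ 2 * (MvPolynomial.C (1 / 2 : ℂ) * 2 + 1) * h2
    have hP : A - Z ^ 2 = lin (AV B v) * lin (AV B v') := by
      have h2 : (MvPolynomial.C (1 / 2 : ℂ) : Forms κ) ^ 2 = MvPolynomial.C (1 / 4 : ℂ) := by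
        rw [← MvPolynomial.C_pow]
        norm_num
      rw [hα, hβ, hA, MvPolynomial.smul_eq_C_mul, MvPolynomial.smul_eq_C_mul]
      linear_combination (-(lin (NB B)) ^ 2) * h2
    have hth : 2 * (theta ((Polynomial.C A - Polynomial.X) ^ (a + 1))).eval (Z ^ 2) =
        2 * (((a + 2 : ℕ) : Forms κ) * (lin (AV B v) ^ (a + 1) * lin (AV B v') ^ (a + 1))) -
        ((a + 1 : ℕ) : Forms κ) * (lin (AV B v) ^ (a + 2) * lin (AV B v') ^ a +
        lin (AV B v) ^ a * lin (AV B v') ^ (a + 2)) := by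
      unfold theta
      rw [Polynomial.derivative_pow_succ]
      simp only [Polynomial.eval_add, Polynomial.eval_mul, Polynomial.eval_pow,
        Polynomial.eval_sub, Polynomial.eval_C, Polynomial.eval_X, Polynomial.derivative_sub,
        Polynomial.derivative_C, Polynomial.derivative_X, Polynomial.eval_zero,
        Polynomial.eval_one, Polynomial.eval_ofNat]
      rw [hP]
      have hZ2 : Z ^ 2 = A - lin (AV B v) * lin (AV B v') := by rw [← hP]; ring
      rw [hZ2]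
      push_cast
      linear_combination (-((a : Forms κ) + 1) * (lin (AV B v) * lin (AV B v')) ^ a) * hA1
    have hvol := congrArg vol hth
    rw [two_mul, two_mul, map_add, map_sub, map_add, ← nsmul_eq_mul, ← nsmul_eq_mul, map_nsmul,
      map_nsmul, map_add, nsmul_eq_mul, nsmul_eq_mul] at hvol
    push_cast at hvol hx' ⊢
    linear_combination (1 / 2 : ℂ) * hvol + (1 / 2 : ℂ) * hx'

/-- frame change for the determinant form -/
lemma twoDet_tra (B : Fin 2 → Fin 2 → Matrix κ κ ℂ) (g : Matrix (Fin 2) (Fin 2) ℂ)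
    (h : Matrix κ κ ℂ) :
    twoDet (tra B g h) = (g.det * star g.det) • chg h (twoDet B) := by
  unfold twoDet tra
  rw [← chg_lin, ← chg_lin, ← chg_lin, ← chg_lin, ← map_mul, ← map_mul, ← map_sub, ← map_smul]
  congr 1
  unfold conjg
  simp only [Fin.sum_univ_two, lin_add, lin_smul, MvPolynomial.smul_eq_C_mul, map_mul,
    Matrix.det_fin_two, star_sub, star_mul', map_sub]
  ring

lemma lin_mul_isHomogeneous (M N : Matrix κ κ ℂ) : (lin M * lin N).IsHomogeneous 2 :=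
  (lin_isHomogeneous M).mul (lin_isHomogeneous N)

lemma twoDet_isHomogeneous (B : Fin 2 → Fin 2 → Matrix κ κ ℂ) : (twoDet B).IsHomogeneous 2 :=
  (lin_mul_isHomogeneous _ _).sub (lin_mul_isHomogeneous _ _)

lemma twoDet_pow_isHomogeneous (B : Fin 2 → Fin 2 → Matrix κ κ ℂ) (a : ℕ) :
    (twoDet B ^ a).IsHomogeneous (2 * a) := (twoDet_isHomogeneous B).pow a

lemma vol_one_of_card_zero (h : Fintype.card κ = 0) : vol (1 : Forms κ) = 1 := by
  have := vol_lin_pow (1 : Matrix κ κ ℂ)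
  rw [h, pow_zero, Matrix.det_one, Nat.factorial_zero] at this
  simpa using this

lemma mul_star_pos {z : ℂ} (hz : z ≠ 0) : 0 < ‖z‖ ^ 2 ∧ z * star z = ((‖z‖ ^ 2 : ℝ) : ℂ) := by
  refine ⟨pow_pos (norm_pos_iff.2 hz) _, ?_⟩
  rw [RCLike.star_def, Complex.mul_conj, Complex.normSq_eq_norm_sq]

/-- `c_2^a > 0` in degree `2a` -/
theorem twoDet_pow_pos {B : Fin 2 → Fin 2 → Matrix κ κ ℂ} (hB : GP B) {a : ℕ}
    (hcard : Fintype.card κ = 2 * a) :
    ∃ x : ℝ, 0 < x ∧ vol (twoDet B ^ a) = x := by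
  cases a with
  | zero =>
    refine ⟨1, one_pos, ?_⟩
    rw [pow_zero, vol_one_of_card_zero (by simpa using hcard)]
    simp
  | succ a =>
    obtain ⟨g, h, hg, hh, hN, htr⟩ := exists_scaling (by norm_num) hB (Nat.succ_pos a) hcard
    obtain ⟨x, hx, hx'⟩ := twoDet_pow_pos_scaled (GP_tra hB hg hh) hcard hN htr
    have hhom : (twoDet B ^ (a + 1)).IsHomogeneous (Fintype.card κ) := by
      rw [hcard]; exact twoDet_pow_isHomogeneous B _
    rw [twoDet_tra, _root_.smul_pow, map_smul, ← map_pow, vol_chg h hhom, smul_eq_mul] at hx'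
    obtain ⟨p1, e1⟩ := mul_star_pos hg
    obtain ⟨p2, e2⟩ := mul_star_pos hh
    rw [e1, e2] at hx'
    refine ⟨x / ((‖g.det‖ ^ 2) ^ (a + 1) * ‖h.det‖ ^ 2), by positivity, ?_⟩
    have hne : (((‖g.det‖ ^ 2) ^ (a + 1) * ‖h.det‖ ^ 2 : ℝ) : ℂ) ≠ 0 := by
      have : (‖g.det‖ ^ 2) ^ (a + 1) * ‖h.det‖ ^ 2 ≠ 0 := by positivity
      exact_mod_cast this
    rw [Complex.ofReal_div, eq_div_iff hne, ← hx']
    push_cast
    ring

lemma GP_sub {r : ℕ} {B : Fin r → Fin r → Matrix κ κ ℂ} (hB : GP B) (J : Finset κ) :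
    GP (fun a b => (B a b).submatrix (Subtype.val : J → κ) Subtype.val) := by
  intro v hv
  have : AV (fun a b => (B a b).submatrix (Subtype.val : J → κ) Subtype.val) v =
      (AV B v).submatrix Subtype.val Subtype.val := by
    unfold AV
    ext i j
    simp [Matrix.sum_apply]
  rw [this]
  exact (hB v hv).submatrix Subtype.val_injective

lemma GP_sandwich {r : ℕ} {B : Fin r → Fin r → Matrix κ κ ℂ} (hB : GP B) {h : Matrix κ κ ℂ}
    (hh : h.det ≠ 0) : GP (fun c d => h * B c d * h.conjTranspose) := by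
  intro v hv
  rw [AV_sandwich]
  have h2 : IsUnit h := (Matrix.isUnit_iff_isUnit_det h).2 (isUnit_iff_ne_zero.2 hh)
  exact (hB v hv).mul_mul_conjTranspose_same (Matrix.vecMul_injective_iff_isUnit.2 h2)

lemma restr_twoDet (B : Fin 2 → Fin 2 → Matrix κ κ ℂ) (J : Finset κ) :
    restr J (twoDet B) =
      twoDet (fun a b => (B a b).submatrix (Subtype.val : J → κ) Subtype.val) := by
  unfold twoDet
  rw [map_sub, map_mul, map_mul, restr_lin, restr_lin, restr_lin, restr_lin]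

lemma chg_twoDet (B : Fin 2 → Fin 2 → Matrix κ κ ℂ) (h : Matrix κ κ ℂ) :
    chg h (twoDet B) = twoDet (fun a b => h * B a b * h.conjTranspose) := by
  unfold twoDet
  rw [map_sub, map_mul, map_mul, chg_lin, chg_lin, chg_lin, chg_lin]

/-- `c_2^a ∧ α^b > 0` -/
theorem twoDet_pow_mul_pos {B : Fin 2 → Fin 2 → Matrix κ κ ℂ} (hB : GP B) {A : Matrix κ κ ℂ}
    (hA : A.PosDef) {a b : ℕ} (hcard : Fintype.card κ = 2 * a + b) :
    ∃ x : ℝ, 0 < x ∧ vol (twoDet B ^ a * lin A ^ b) = x := by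
  obtain ⟨h, hh, hN⟩ := exists_congr_one hA
  set B' : Fin 2 → Fin 2 → Matrix κ κ ℂ := fun a b => h * B a b * h.conjTranspose with hB'
  have hGP : GP B' := GP_sandwich hB hh
  have hhom : (twoDet B ^ a * lin A ^ b).IsHomogeneous (Fintype.card κ) := by
    rw [hcard]
    have := (lin_isHomogeneous A).pow b
    rw [one_mul] at this
    exact (twoDet_pow_isHomogeneous B _).mul this
  have h1 := vol_chg h hhom
  rw [map_mul, map_pow, map_pow, chg_lin, hN, chg_twoDet,
    vol_mul_one_pow (twoDet_pow_isHomogeneous _ a) hcard.symm] at h1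
  have h2 : ∀ J ∈ (univ : Finset κ).powersetCard (2 * a), ∃ x : ℝ, 0 < x ∧
      vol (restr J (twoDet (fun a b => h * B a b * h.conjTranspose) ^ a)) = x := by
    intro J hJ
    rw [map_pow, restr_twoDet]
    apply twoDet_pow_pos (GP_sub hGP J)
    rw [Fintype.card_coe]
    exact (Finset.mem_powersetCard.1 hJ).2
  choose! x hx hx' using h2
  rw [Finset.sum_congr rfl hx'] at h1
  have hne : ((univ : Finset κ).powersetCard (2 * a)).Nonempty := by
    apply Finset.powersetCard_nonempty.2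
    rw [Finset.card_univ]
    omega
  have hs : 0 < ∑ J ∈ (univ : Finset κ).powersetCard (2 * a), x J := Finset.sum_pos hx hne
  obtain ⟨p2, e2⟩ := mul_star_pos hh
  rw [e2] at h1
  refine ⟨((b ! : ℝ) * ∑ J ∈ (univ : Finset κ).powersetCard (2 * a), x J) / ‖h.det‖ ^ 2,
    by positivity, ?_⟩
  have hne' : ((‖h.det‖ ^ 2 : ℝ) : ℂ) ≠ 0 := by exact_mod_cast p2.ne'
  rw [Complex.ofReal_div, eq_div_iff hne']
  push_cast at h1 ⊢
  rw [h1]
  ring

end Pool.Agent.Helper94.Griff
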