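import Pool.Agent.Helper94.Griff.Two

/-!
Positivity of `c_2^a h_b` for rank two, second part.
-/

open Finset Matrix
open scoped Nat ComplexOrder

namespace Pool.Agent.Helper94.Griff

section hh

variable {R : Type*} [CommRing R]

/-- The complete homogeneous polynomial `h_n` of the two roots, in terms of `c_1, c_2`. -/
def hh (c1 c2 : R) : ℕ → R
  | 0 => 1
  | 1 => c1
  | (n + 2) => c1 * hh c1 c2 (n + 1) - c2 * hh c1 c2 n

lemma map_hh {S : Type*} [CommRing S] (f : R →+* S) (c1 c2 : R) (n : ℕ) :
    f (hh c1 c2 n) = hh (f c1) (f c2) n := by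
  induction n using Nat.strong_induction_on with
  | _ n ih =>
    match n with
    | 0 => simp [hh]
    | 1 => simp [hh]
    | (n + 2) =>
      rw [hh, hh, map_sub, map_mul, map_mul, ih (n + 1) (by omega), ih n (by omega)]

lemma hh_roots (u w : R) (n : ℕ) : hh (u + w) (u * w) n * (u - w) = u ^ (n + 1) - w ^ (n + 1) := by
  induction n using Nat.strong_induction_on with
  | _ n ih =>
    match n with
    | 0 => simp [hh]
    | 1 => simp only [hh]; ring
    | (n + 2) =>
      have h1 := ih (n + 1) (by omega)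
      have h2 := ih n (by omega)
      rw [hh]
      linear_combination (u + w) * h1 - u * w * h2

lemma theta_hh (μ Z : R) (b : ℕ) :
    2 * (theta (hh (Polynomial.C (2 * μ)) (Polynomial.C (μ ^ 2) - Polynomial.X) b)).eval (Z ^ 2) =
      ((b + 1 : ℕ) : R) * ((μ + Z) ^ b + (μ - Z) ^ b) := by
  set G : Polynomial R := hh (Polynomial.C (2 * μ)) (Polynomial.C (μ ^ 2) - Polynomial.X) b with hG
  have h1 : G.comp (Polynomial.X ^ 2) * (2 * Polynomial.X) =
      (Polynomial.C μ + Polynomial.X) ^ (b + 1) - (Polynomial.C μ - Polynomial.X) ^ (b + 1) := by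
    have e1 : G.comp (Polynomial.X ^ 2) = hh ((Polynomial.C μ + Polynomial.X) +
        (Polynomial.C μ - Polynomial.X)) ((Polynomial.C μ + Polynomial.X) *
        (Polynomial.C μ - Polynomial.X)) b := by
      rw [← Polynomial.coe_compRingHom_apply, hG, map_hh]
      congr 1
      · rw [Polynomial.coe_compRingHom_apply, Polynomial.C_comp, Polynomial.C_mul,
          show (Polynomial.C (2 : R)) = 2 from map_ofNat Polynomial.C 2]
        ring
      · rw [Polynomial.coe_compRingHom_apply, Polynomial.sub_comp, Polynomial.C_comp,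
          Polynomial.X_comp, Polynomial.C_pow]
        ring
    rw [e1, ← hh_roots]
    ring
  have h2 := congrArg Polynomial.derivative h1
  have h3 := congrArg (Polynomial.eval Z) h2
  rw [Polynomial.derivative_mul, Polynomial.derivative_comp, Polynomial.derivative_sub] at h3
  simp only [Polynomial.derivative_pow_succ,
    Polynomial.eval_add, Polynomial.eval_mul, Polynomial.eval_comp, Polynomial.eval_pow,
    Polynomial.eval_sub, Polynomial.eval_C, Polynomial.eval_X, Polynomial.derivative_sub,
    Polynomial.derivative_add, Polynomial.derivative_mul, Polynomial.derivative_ofNat,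
    Polynomial.derivative_C, Polynomial.derivative_X, Polynomial.eval_zero,
    Polynomial.eval_one, Polynomial.eval_ofNat] at h3
  unfold theta
  simp only [Polynomial.eval_add, Polynomial.eval_mul, Polynomial.eval_X, Polynomial.eval_ofNat]
  push_cast at h3 ⊢
  linear_combination h3

end hh

variable {κ : Type*} [Fintype κ] [DecidableEq κ]

theorem schurTwo_pos {B : Fin 2 → Fin 2 → Matrix κ κ ℂ} (hB : GP B) {a b : ℕ}
    (hcard : Fintype.card κ = 2 * a + b) :
    ∃ x : ℝ, 0 < x ∧ vol (twoDet B ^ a * hh (lin (NB B)) (twoDet B) b) = x := by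
  set μ : Forms κ := (1 / 2 : ℂ) • lin (NB B) with hμ
  have h2' : (MvPolynomial.C (1 / 2 : ℂ) : Forms κ) * 2 = 1 := by
    rw [show (2 : Forms κ) = MvPolynomial.C (2 : ℂ) from (map_ofNat MvPolynomial.C 2).symm,
      ← MvPolynomial.C_mul]
    norm_num
  have h2μ : 2 * μ = lin (NB B) := by
    rw [hμ, MvPolynomial.smul_eq_C_mul]
    linear_combination lin (NB B) * h2'
  have hμ2 : μ ^ 2 = (1 / 4 : ℂ) • lin (NB B) ^ 2 := by
    rw [hμ, _root_.smul_pow]
    norm_num
  have h := moment_pos ((vol (κ := κ)).comp (LinearMap.mulLeft ℂ (twoDet B ^ a)))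
    (lin (B 0 0) - lin (B 1 1)) (lin (B 0 1)) (lin (B 1 0))
    (hh (Polynomial.C (2 * μ)) (Polynomial.C (μ ^ 2) - Polynomial.X) b) ?_
  · obtain ⟨x, hx, hx'⟩ := h
    refine ⟨x, hx, ?_⟩
    rw [← hx', disc_eq, ← Polynomial.coe_evalRingHom, map_hh, LinearMap.comp_apply,
      LinearMap.mulLeft_apply]
    congr 3
    · simp only [Polynomial.coe_evalRingHom, Polynomial.eval_C]
      exact h2μ.symm
    · simp only [Polynomial.coe_evalRingHom, Polynomial.eval_sub, Polynomial.eval_C,
        Polynomial.eval_X]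
      rw [hμ2, sub_sub_cancel]
  · intro τ ω h1 h2 hω
    set v := uvec τ ω with hv
    have hvn := uvec_norm h1 h2 hω
    rw [← hv] at hvn
    have hα := alpha_eq B h1 h2 hω
    have hβ := beta_eq B h1 h2 hω
    rw [← hv] at hα hβ
    set v' : Fin 2 → ℂ := ![-star (v 1), star (v 0)] with hv'
    set Z := Zt (lin (B 0 0) - lin (B 1 1)) (lin (B 0 1)) (lin (B 1 0)) ω τ with hZ
    obtain ⟨x, hx, hx'⟩ := twoDet_pow_mul_pos hB (hB v (unit_ne hvn)) hcard
    obtain ⟨y, hy, hy'⟩ := twoDet_pow_mul_pos hB (hB v' (perp_ne (unit_ne hvn))) hcard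
    refine ⟨((b + 1 : ℕ) : ℝ) * (x + y) / 2, by positivity, ?_⟩
    have ht := theta_hh μ Z b
    rw [LinearMap.comp_apply, LinearMap.mulLeft_apply]
    rw [← hμ] at hα hβ
    set E : Forms κ := (theta (hh (Polynomial.C (2 * μ))
        (Polynomial.C (μ ^ 2) - Polynomial.X) b)).eval (Z ^ 2) with hE
    have e1 : twoDet B ^ a * E + twoDet B ^ a * E = (b + 1) • (twoDet B ^ a * lin (AV B v) ^ b +
        twoDet B ^ a * lin (AV B v') ^ b) := by
      rw [nsmul_eq_mul, hα, hβ]
      linear_combination twoDet B ^ a * ht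
    have h5 := congrArg vol e1
    rw [map_add, map_nsmul, map_add, hx', hy', nsmul_eq_mul] at h5
    push_cast at h5 ⊢
    linear_combination (1 / 2 : ℂ) * h5

end Pool.Agent.Helper94.Griff
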