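import Pool.Agent.Helper94.Griff.Count

/-!
Wick's formula for Gaussian nodes, and the resulting symmetric functional on tuples of matrices.
-/

open Finset
open scoped Nat

namespace Pool.Agent.Helper94.Griff.Dec

set_option linter.unusedSectionVars false

variable {r : ℕ}

/-- mean value over the nodes -/
noncomputable def Ex {ι : Type} [Fintype ι] (w : ι → ℝ) (z : ι → ℂ) {V : Type*} [AddCommMonoid V]
    [Module ℂ V] (f : (Fin r → ℂ) → V) : V :=
  ∑ ω : Fin r → ι, ((∏ c, w (ω c) : ℝ) : ℂ) • f (fun c => z (ω c))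

/-- the moments of the nodes agree with the standard complex Gaussian up to order `N` -/
def Mom {ι : Type} [Fintype ι] (w : ι → ℝ) (z : ι → ℂ) (N : ℕ) : Prop :=
  ∀ i j : ℕ, i ≤ N → j ≤ N →
    ∑ s, (w s : ℂ) * (star (z s) ^ i * z s ^ j) = if i = j then (i ! : ℂ) else 0

section Ex

variable {ι : Type} [Fintype ι] {w : ι → ℝ} {z : ι → ℂ} {N : ℕ}

lemma Ex_monomial (hN : Mom w z N) {n : ℕ} (hn : n ≤ N) (a b : Fin n → Fin r) :
    Ex w z (fun v : Fin r → ℂ => ∏ i, (star (v (a i)) * v (b i))) =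
      ∑ σ : Equiv.Perm (Fin n), if a = b ∘ σ then 1 else 0 := by
  unfold Ex
  have h1 : ∀ ω : Fin r → ι, ((∏ c, w (ω c) : ℝ) : ℂ) •
      ∏ i, (star (z (ω (a i))) * z (ω (b i))) =
      ∏ c, ((w (ω c) : ℂ) * (star (z (ω c)) ^ cnt a c * z (ω c) ^ cnt b c)) := by
    intro ω
    rw [Finset.prod_mul_distrib, Finset.prod_mul_distrib, Finset.prod_mul_distrib,
      prod_eq_cnt a (fun c => star (z (ω c))), prod_eq_cnt b (fun c => z (ω c)), smul_eq_mul]
    push_cast
    rfl
  simp only [h1]
  have h2 := Finset.prod_univ_sum (fun _ : Fin r => (univ : Finset ι))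
    (fun c s => ((w s : ℂ) * (star (z s) ^ cnt a c * z s ^ cnt b c)))
  rw [Fintype.piFinset_univ] at h2
  rw [← h2, ← prod_cnt]
  refine Finset.prod_congr rfl fun c _ => ?_
  exact hN _ _ ((cnt_le a c).trans hn) ((cnt_le b c).trans hn)

lemma Ex_sum {V : Type*} [AddCommMonoid V] [Module ℂ V] {κ : Type*} (s : Finset κ)
    (f : κ → (Fin r → ℂ) → V) :
    Ex w z (fun v => ∑ i ∈ s, f i v) = ∑ i ∈ s, Ex w z (f i) := by
  unfold Ex
  simp only [Finset.smul_sum]
  exact Finset.sum_comm

lemma Ex_smul_const {V : Type*} [AddCommMonoid V] [Module ℂ V] (f : (Fin r → ℂ) → ℂ) (x : V) :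
    Ex w z (fun v => f v • x) = Ex w z f • x := by
  unfold Ex
  rw [Finset.sum_smul]
  refine Finset.sum_congr rfl fun ω _ => ?_
  rw [smul_smul, smul_eq_mul]

lemma Ex_smul {V : Type*} [AddCommMonoid V] [Module ℂ V] (c : ℂ) (f : (Fin r → ℂ) → V) :
    Ex w z (fun v => c • f v) = c • Ex w z f := by
  unfold Ex
  rw [Finset.smul_sum]
  refine Finset.sum_congr rfl fun ω _ => ?_
  rw [smul_smul, smul_smul, mul_comm]

lemma Ex_map {V W : Type*} [AddCommMonoid V] [Module ℂ V] [AddCommMonoid W] [Module ℂ W]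
    (L : V →ₗ[ℂ] W) (f : (Fin r → ℂ) → V) :
    Ex w z (fun v => L (f v)) = L (Ex w z f) := by
  unfold Ex
  rw [map_sum]
  refine Finset.sum_congr rfl fun ω _ => ?_
  rw [map_smul]

end Ex

section Forms

variable {R : Type*} [CommRing R] [Algebra ℂ R]

/-- the sesquilinear form `x* X y` -/
noncomputable def bf (X : Matrix (Fin r) (Fin r) R) (x y : Fin r → ℂ) : R :=
  ∑ a, ∑ b, (star (x a) * y b) • X a b

/-- the functional `E ∏ v* X_i v` -/
noncomputable def PP {n : ℕ} (X : Fin n → Matrix (Fin r) (Fin r) R) : R :=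
  ∑ σ : Equiv.Perm (Fin n), ∑ b : Fin n → Fin r, ∏ i, X i (b (σ i)) (b i)

lemma prod_bf {n : ℕ} (X : Fin n → Matrix (Fin r) (Fin r) R) (v : Fin r → ℂ) :
    ∏ i, bf (X i) v v = ∑ a : Fin n → Fin r, ∑ b : Fin n → Fin r,
      (∏ i, (star (v (a i)) * v (b i))) • ∏ i, X i (a i) (b i) := by
  unfold bf
  rw [Finset.prod_univ_sum, Fintype.piFinset_univ]
  refine Finset.sum_congr rfl fun a _ => ?_
  rw [Finset.prod_univ_sum, Fintype.piFinset_univ]
  refine Finset.sum_congr rfl fun b _ => ?_
  rw [Finset.prod_smul]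

variable {ι : Type} [Fintype ι] {w : ι → ℝ} {z : ι → ℂ} {N : ℕ}

theorem wick (hN : Mom w z N) {n : ℕ} (hn : n ≤ N) (X : Fin n → Matrix (Fin r) (Fin r) R) :
    Ex w z (fun v => ∏ i, bf (X i) v v) = PP X := by
  unfold PP
  simp only [prod_bf]
  rw [Ex_sum]
  simp only [Ex_sum, Ex_smul_const, Ex_monomial hN hn]
  rw [Finset.sum_comm]
  calc ∑ b : Fin n → Fin r, ∑ a : Fin n → Fin r,
        (∑ σ : Equiv.Perm (Fin n), if a = b ∘ σ then (1 : ℂ) else 0) • ∏ i, X i (a i) (b i)
      = ∑ b : Fin n → Fin r, ∑ σ : Equiv.Perm (Fin n), ∏ i, X i (b (σ i)) (b i) := by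
        refine Finset.sum_congr rfl fun b _ => ?_
        simp only [Finset.sum_smul]
        rw [Finset.sum_comm]
        refine Finset.sum_congr rfl fun σ _ => ?_
        rw [Finset.sum_eq_single (b ∘ σ)]
        · rw [if_pos rfl, one_smul]
          rfl
        · intro a _ ha
          rw [if_neg ha, zero_smul]
        · intro h
          exact absurd (mem_univ _) h
    _ = _ := Finset.sum_comm

end Forms

section PPlemmas

variable {R : Type*} [CommRing R]

lemma PP_zero (X : Fin 0 → Matrix (Fin r) (Fin r) R) : PP X = 1 := by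
  unfold PP
  simp

/-- `PP` is symmetric -/
lemma PP_perm {n : ℕ} (X : Fin n → Matrix (Fin r) (Fin r) R) (e : Equiv.Perm (Fin n)) :
    PP (X ∘ e) = PP X := by
  unfold PP
  refine Fintype.sum_equiv (Equiv.permCongr e) _ _ fun σ => ?_
  refine Fintype.sum_equiv (Equiv.arrowCongr e (Equiv.refl _)) _ _ fun b => ?_
  refine Fintype.prod_equiv e _ _ fun i => ?_
  simp

/-- additivity in one slot over a finite sum with coefficients, all slots at once -/
lemma PP_sum {n : ℕ} {S : Type*} [Fintype S] (c : Fin n → S → R)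
    (X : Fin n → S → Matrix (Fin r) (Fin r) R) :
    PP (fun i => ∑ s, c i s • X i s) =
      ∑ f : Fin n → S, (∏ i, c i (f i)) * PP (fun i => X i (f i)) := by
  classical
  unfold PP
  have h : ∀ (σ : Equiv.Perm (Fin n)) (b : Fin n → Fin r),
      ∏ i, (∑ s, c i s • X i s) (b (σ i)) (b i) =
        ∑ f : Fin n → S, (∏ i, c i (f i)) * ∏ i, X i (f i) (b (σ i)) (b i) := by
    intro σ b
    simp only [Matrix.sum_apply, Matrix.smul_apply, smul_eq_mul]
    rw [Finset.prod_univ_sum, Fintype.piFinset_univ]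
    refine Finset.sum_congr rfl fun f _ => ?_
    rw [Finset.prod_mul_distrib]
  simp only [h, Finset.mul_sum]
  calc _ = ∑ σ : Equiv.Perm (Fin n), ∑ f : Fin n → S, ∑ b : Fin n → Fin r,
        (∏ i, c i (f i)) * ∏ i, X i (f i) (b (σ i)) (b i) :=
      Finset.sum_congr rfl fun σ _ => Finset.sum_comm
    _ = _ := Finset.sum_comm

/-- recursion -/
theorem PP_succ {n : ℕ} (M : Matrix (Fin r) (Fin r) R) (X : Fin n → Matrix (Fin r) (Fin r) R) :
    PP (Fin.cons M X : Fin (n + 1) → Matrix (Fin r) (Fin r) R) =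
      M.trace * PP X + ∑ i, PP (Function.update X i (M * X i)) := by
  classical
  unfold PP
  rw [← Equiv.sum_comp Equiv.Perm.decomposeFin.symm, Fintype.sum_prod_type, Fin.sum_univ_succ]
  congr 1
  · rw [Finset.mul_sum]
    refine Finset.sum_congr rfl fun e _ => ?_
    rw [← (Fin.consEquiv fun _ => Fin r).sum_comp, Fintype.sum_prod_type]
    simp only [Matrix.trace, Matrix.diag_apply]
    rw [Finset.sum_mul_sum]
    refine Finset.sum_congr rfl fun b0 _ => Finset.sum_congr rfl fun b _ => ?_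
    rw [Fin.prod_univ_succ]
    simp only [Fin.consEquiv_apply, Equiv.Perm.decomposeFin_symm_apply_zero, Fin.cons_zero,
      Fin.cons_succ, Equiv.Perm.decomposeFin_symm_apply_succ, Equiv.swap_self, Equiv.refl_apply]
  · -- the slot containing `M`
    have key : ∀ (j : Fin n) (e : Equiv.Perm (Fin n)),
        ∑ b : Fin (n + 1) → Fin r, ∏ i, (Fin.cons M X : Fin (n + 1) → Matrix (Fin r) (Fin r) R) i
          (b (Equiv.Perm.decomposeFin.symm (j.succ, e) i)) (b i) =
        ∑ b : Fin n → Fin r, ∏ i, Function.update X (e.symm j) (M * X (e.symm j)) i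
          (b (e i)) (b i) := by
      intro j e
      rw [← (Fin.consEquiv fun _ => Fin r).sum_comp, Fintype.sum_prod_type, Finset.sum_comm]
      refine Finset.sum_congr rfl fun b _ => ?_
      have h1 : ∀ b0 : Fin r, ∏ i, (Fin.cons M X : Fin (n + 1) → Matrix (Fin r) (Fin r) R) i
          ((Fin.consEquiv fun _ => Fin r) (b0, b) (Equiv.Perm.decomposeFin.symm (j.succ, e) i))
          ((Fin.consEquiv fun _ => Fin r) (b0, b) i) =
          (M (b j) b0 * X (e.symm j) b0 (b (e.symm j))) *
            ∏ i ∈ univ.erase (e.symm j), X i (b (e i)) (b i) := by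
        intro b0
        rw [Fin.prod_univ_succ]
        simp only [Fin.consEquiv_apply, Equiv.Perm.decomposeFin_symm_apply_zero, Fin.cons_zero,
          Fin.cons_succ, Equiv.Perm.decomposeFin_symm_apply_succ]
        rw [← Finset.mul_prod_erase univ _ (mem_univ (e.symm j)), mul_assoc]
        rw [Equiv.apply_symm_apply, Equiv.swap_apply_right, Fin.cons_zero]
        congr 2
        refine Finset.prod_congr rfl fun i hi => ?_
        have hne : e i ≠ j := by
          intro h
          rw [Finset.mem_erase] at hi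
          exact hi.1 (by rw [← h, Equiv.symm_apply_apply])
        rw [Equiv.swap_apply_of_ne_of_ne (Fin.succ_ne_zero _)
          (fun h => hne (Fin.succ_injective _ h)), Fin.cons_succ]
      simp only [h1]
      rw [← Finset.sum_mul, ← Finset.mul_prod_erase univ _ (mem_univ (e.symm j))]
      rw [Function.update_self, Matrix.mul_apply, Equiv.apply_symm_apply]
      congr 1
      refine Finset.prod_congr rfl fun i hi => ?_
      rw [Function.update_of_ne (Finset.ne_of_mem_erase hi)]
    simp only [key]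
    rw [Finset.sum_comm]
    rw [Finset.sum_comm (s := (univ : Finset (Fin n)))]
    refine Finset.sum_congr rfl fun e _ => ?_
    exact Fintype.sum_equiv e.symm _ _ fun j => rfl

end PPlemmas

end Pool.Agent.Helper94.Griff.Dec
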